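import Mathlib
import Pool.Agent.Work.MP_787500_nt.H10_LocSq
import Pool.Agent.Work.MP_787500_nt.H10_Val
import Pool.Agent.Work.MP_787500_nt.H10_Tower
import Pool.Agent.Work.MP_787500_nt.GP.N2_Rank

/-!
# The Hasse norm theorem for quadratic extensions: definitions (fixed, do not change)

`F` is a number field, `w` a finite place. Everything is expressed by subgroups of `Fˣ`:
`LS w` local squares, `Nm a` norms from `F (√a)`, `LN w a` local norms, `sq F` squares,
`sUnit A` (`GP/N2_Rank.lean`) the units outside the finite set `A` of places.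
-/

set_option autoImplicit false
set_option linter.unusedSectionVars false

namespace Pool.Agent.Work.MP_787500_nt.HN

open IsDedekindDomain NumberField WithZero
open Pool.Agent.Work.MP_787500_nt.GP (sUnit mem_sUnit)

section field

variable {F : Type*} [Field F]

/-- the squares -/
def sq (F : Type*) [Field F] : Subgroup Fˣ := (powMonoidHom 2 : Fˣ →* Fˣ).range

theorem mem_sq {x : Fˣ} : x ∈ sq F ↔ ∃ y : Fˣ, y ^ 2 = x := Iff.rfl

/-- the nonzero elements of the form `b ^ 2 - a c ^ 2` -/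
def Nm (a : Fˣ) : Subgroup Fˣ where
  carrier := {x | ∃ b c : F, (x : F) = b ^ 2 - a * c ^ 2}
  mul_mem' := by
    rintro x y ⟨b, c, h⟩ ⟨b', c', h'⟩
    refine ⟨b * b' + a * c * c', b * c' + c * b', ?_⟩
    rw [Units.val_mul, h, h']
    ring
  one_mem' := ⟨1, 0, by simp⟩
  inv_mem' := by
    rintro x ⟨b, c, h⟩
    refine ⟨b * (x : F)⁻¹, c * (x : F)⁻¹, ?_⟩
    have hx : (x : F) ≠ 0 := x.ne_zero
    rw [Units.val_inv_eq_inv_val]
    field_simp
    exact h

theorem mem_Nm {a x : Fˣ} : x ∈ Nm a ↔ ∃ b c : F, (x : F) = b ^ 2 - a * c ^ 2 := Iff.rfl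

theorem sq_le_Nm (a : Fˣ) : sq F ≤ Nm a := by
  rintro x ⟨y, rfl⟩
  exact ⟨y, 0, by simp⟩

/-- A quadratic extension `E = F (t)`, `t ^ 2 = a`, with its nontrivial automorphism. -/
structure QExt (F E : Type*) [Field F] [Field E] [Algebra F E] (a : Fˣ) where
  t : E
  ht : t ^ 2 = algebraMap F E a
  hE : ∀ x : E, ∃ b c : F, x = algebraMap F E b + algebraMap F E c * t
  σ : E ≃ₐ[F] E
  hσ : σ t = -t
  nsq : a ∉ sq F

end field

section numberfield

variable {F : Type*} [Field F] [NumberField F]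

/-- the elements that are approximated by squares at `w` -/
def LS (w : HeightOneSpectrum (𝓞 F)) : Subgroup Fˣ where
  carrier := {x | LocSq (w.valuation F) (x : F)}
  mul_mem' := fun {x y} hx hy => by
    show LocSq (w.valuation F) ((x * y : Fˣ) : F)
    rw [Units.val_mul]
    exact LocSq.mul hx hy
  one_mem' := LocSq.of_isSquare ⟨1, by simp⟩
  inv_mem' := fun {x} hx => by
    show LocSq (w.valuation F) ((x⁻¹ : Fˣ) : F)
    rw [Units.val_inv_eq_inv_val]
    exact LocSq.inv x.ne_zero hx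

theorem mem_LS {w : HeightOneSpectrum (𝓞 F)} {x : Fˣ} :
    x ∈ LS w ↔ LocSq (w.valuation F) (x : F) := Iff.rfl

theorem sq_le_LS (w : HeightOneSpectrum (𝓞 F)) : sq F ≤ LS w := by
  rintro x ⟨y, rfl⟩
  exact LocSq.of_isSquare ⟨y, by simp [pow_two]⟩

/-- the local norms at `w` from `F (√a)` -/
def LN (w : HeightOneSpectrum (𝓞 F)) (a : Fˣ) : Subgroup Fˣ := Nm a ⊔ LS w

theorem Nm_le_LN (w : HeightOneSpectrum (𝓞 F)) (a : Fˣ) : Nm a ≤ LN w a := le_sup_left

theorem LS_le_LN (w : HeightOneSpectrum (𝓞 F)) (a : Fˣ) : LS w ≤ LN w a := le_sup_right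

/-- the exponent of `2` at `w` -/
noncomputable def ee (w : HeightOneSpectrum (𝓞 F)) : ℕ := (-(log (w.valuation F (2 : F)))).toNat

theorem val_two (w : HeightOneSpectrum (𝓞 F)) : w.valuation F (2 : F) = exp (-(ee w : ℤ)) := by
  have h1 : w.valuation F (2 : F) ≠ 0 := by
    rw [Ne, map_eq_zero]
    exact two_ne_zero
  have h2 : w.valuation F (2 : F) ≤ 1 := by
    have : w.valuation F (algebraMap (𝓞 F) F 2) ≤ 1 := w.valuation_le_one 2
    rwa [map_ofNat] at this
  rw [← exp_log h1, ← exp_zero, exp_le_exp] at h2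
  unfold ee
  rw [Int.toNat_of_nonneg (by omega), neg_neg, exp_log h1]

/-- `A` contains the places above 2 -/
def Dy (A : Finset (HeightOneSpectrum (𝓞 F))) : Prop :=
  ∀ w : HeightOneSpectrum (𝓞 F), (2 : 𝓞 F) ∈ w.asIdeal → w ∈ A

/-- the `A`-class group is trivial -/
def CL (A : Finset (HeightOneSpectrum (𝓞 F))) : Prop :=
  ∀ v ∉ A, ∃ y : Fˣ, v.valuation F (y : F) = exp (-1 : ℤ) ∧
    ∀ w ∉ A, w ≠ v → w.valuation F (y : F) = 1

open scoped Classical in
/-- the places of `A` that do not split in `F (√a)` -/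
noncomputable def NS (A : Finset (HeightOneSpectrum (𝓞 F))) (a : Fˣ) :
    Finset (HeightOneSpectrum (𝓞 F)) := A.filter fun w => a ∉ LS w

theorem mem_NS {A : Finset (HeightOneSpectrum (𝓞 F))} {a : Fˣ} {w : HeightOneSpectrum (𝓞 F)} :
    w ∈ NS A a ↔ w ∈ A ∧ a ∉ LS w := by
  classical
  unfold NS
  rw [Finset.mem_filter]

theorem sUnit_mono {A B : Finset (HeightOneSpectrum (𝓞 F))} (h : A ⊆ B) : sUnit A ≤ sUnit B :=
  fun _ hx v hv => hx v fun h' => hv (h h')

theorem Dy.mono {A B : Finset (HeightOneSpectrum (𝓞 F))} (hA : Dy A) (h : A ⊆ B) : Dy B :=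
  fun w hw => h (hA w hw)

theorem CL.mono {A B : Finset (HeightOneSpectrum (𝓞 F))} (hA : CL A) (h : A ⊆ B) : CL B := by
  intro v hv
  obtain ⟨y, h1, h2⟩ := hA v fun h' => hv (h h')
  exact ⟨y, h1, fun w hw hne => h2 w (fun h' => hw (h h')) hne⟩

variable (E : Type*) [Field E] [NumberField E] [Algebra F E]

/-- the places of `E` above the places in `A` (a finite set, see `abv_finite`) -/
def Abv (A : Finset (HeightOneSpectrum (𝓞 F))) : Set (HeightOneSpectrum (𝓞 E)) :=
  {Q | below F Q ∈ A}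

end numberfield

end Pool.Agent.Work.MP_787500_nt.HN
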