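import Mathlib
import Pool.Agent.Work.MP_787500_nt.GP.ADefs
import Pool.Agent.Work.MP_787500_nt.HN.Defs

/-!
# Cohomology over an arbitrary number field: definitions (fixed, do not change)
-/

set_option autoImplicit false
set_option linter.unusedSectionVars false

namespace Pool.Agent.Work.MP_787500_nt.HN

open IsDedekindDomain NumberField
open Pool.Agent.Work.MP_787500_nt.PA (TwoSys Sm1 Sm2 homs Coc Cob Opn)
open Pool.Agent.Work.MP_787500_nt.GP (sysT stabD Fx GoodT inT)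

universe u

section group

variable {G : Type*} [Group G] [TopologicalSpace G]

/-- `f` restricted to `C` is the coboundary of a locally constant function on `C` -/
def LCob (C : Subgroup G) (f : G → G → ZMod 2) : Prop :=
  ∃ z : G → ZMod 2, (∃ U' : Subgroup G, IsOpen (U' : Set G) ∧ ∀ g ∈ C, ∀ w ∈ C ⊓ U', z (g * w) = z g) ∧
    ∀ g ∈ C, ∀ h ∈ C, f g h = z g + z h + z (g * h)

theorem LCob.mono {C C' : Subgroup G} (h : C' ≤ C) {f : G → G → ZMod 2} (hf : LCob C f) :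
    LCob C' f := by
  obtain ⟨z, ⟨U', hU', h1⟩, h2⟩ := hf
  exact ⟨z, ⟨U', hU', fun g hg w hw => h1 g (h hg) w ⟨h hw.1, hw.2⟩⟩,
    fun g hg k hk => h2 g (h hg) k (h hk)⟩

theorem LCob.add {C : Subgroup G} {f f' : G → G → ZMod 2} (hf : LCob C f) (hf' : LCob C f') :
    LCob C (fun g h => f g h + f' g h) := by
  obtain ⟨z, ⟨U, hU, h1⟩, h2⟩ := hf
  obtain ⟨z', ⟨U', hU', h1'⟩, h2'⟩ := hf'
  refine ⟨fun g => z g + z' g, ⟨U ⊓ U', hU.inter hU', fun g hg w hw => ?_⟩, fun g hg k hk => ?_⟩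
  · simp only
    rw [h1 g hg w ⟨hw.1, hw.2.1⟩, h1' g hg w ⟨hw.1, hw.2.2⟩]
  · simp only
    rw [h2 g hg k hk, h2' g hg k hk]
    ring

theorem LCob.congr {C : Subgroup G} {f f' : G → G → ZMod 2}
    (h : ∀ g ∈ C, ∀ k ∈ C, f' g k = f g k) (hf : LCob C f) : LCob C f' := by
  obtain ⟨z, hz, h2⟩ := hf
  exact ⟨z, hz, fun g hg k hk => by rw [h g hg k hk, h2 g hg k hk]⟩

theorem Cob.lCob {S : TwoSys G} (hS : ∀ W, S.mem W → IsOpen (W : Set G)) {C : Subgroup G}
    {f : G → G → ZMod 2} (h : Cob S C f) : LCob C f := by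
  obtain ⟨z, ⟨W, hW, h1⟩, h2⟩ := h
  exact ⟨z, ⟨W, hS W hW, fun g _ w hw => h1 g w hw.2⟩, h2⟩

end group

section arith

variable (K : Type u) [Field K]

/-- open normal subgroups of 2-power index -/
abbrev Full (W : Subgroup (AbsGal K)) : Prop := Gn.GoodG 2 ⊤ (∅ : Set (AbsGal K)) W

theorem baseF : Gn.Base (⊤ : Subgroup (AbsGal K)) (∅ : Set (AbsGal K)) :=
  ⟨inferInstance, isOpen_univ, fun _ h => h.elim, fun _ _ h => h.elim⟩

/-- the system of all open normal subgroups of 2-power index -/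
noncomputable def fullSys [NumberField K] : TwoSys (AbsGal K) where
  mem := Full K
  ex := ⟨⊤, Gn.GoodG.top (baseF K)⟩
  inf := fun h h' => h.inf h'
  normal := fun h => h.normal
  index := fun h => GP.goodG_index h

/-- every place `v` outside 2 and `T` is, up to squares, principal away from 2 and `T` -/
def OddT [NumberField K] (T : Finset ℕ) : Prop :=
  ∀ v : HeightOneSpectrum (𝓞 K), (2 : 𝓞 K) ∉ v.asIdeal → (∀ l ∈ T, (l : 𝓞 K) ∉ v.asIdeal) →
    ∃ y : K, y ≠ 0 ∧ ¬ IsSquare (v.valuation K y) ∧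
      ∀ w : HeightOneSpectrum (𝓞 K), w ≠ v → (2 : 𝓞 K) ∉ w.asIdeal →
        (∀ l ∈ T, (l : 𝓞 K) ∉ w.asIdeal) → IsSquare (w.valuation K y)

/-- a homomorphism of the T-system that is trivial on the decomposition groups at 2 and at `T` is
zero -/
def InjT [NumberField K] (T : Finset ℕ) : Prop :=
  ∀ ω ∈ homs (sysT K T) ⊤, (∀ Q : Ideal (𝓞 (AlgebraicClosure K)), Q.IsPrime →
    ((2 : 𝓞 (AlgebraicClosure K)) ∈ Q ∨ ∃ l ∈ T, (l : 𝓞 (AlgebraicClosure K)) ∈ Q) →
    ∀ g ∈ stabD Q, ω g = 0) → ω = 0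

/-- `l` is an odd prime number that does not divide `D` and splits in the quadratic field of
discriminant `-D` or `-4 D` -/
def SplitD (D l : ℕ) : Prop := l.Prime ∧ l ≠ 2 ∧ ¬ l ∣ D ∧ ∃ A : ℤ, (l : ℤ) ∣ A ^ 2 + D

variable {K}

theorem full_of_goodT {T : Finset ℕ} {W : Subgroup (AbsGal K)} (h : GoodT K T W) : Full K W :=
  ⟨h.normal, h.isOpen, h.le, h.pow, fun _ hσ => hσ.elim⟩

theorem opn_full [NumberField K] {T : Finset ℕ} {U : Subgroup (AbsGal K)}
    (h : Opn (sysT K T) U) : Opn (fullSys K) U := by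
  obtain ⟨W, hW, hWU⟩ := h
  exact ⟨W, full_of_goodT hW, hWU⟩

theorem opn_isOpen [NumberField K] {U : Subgroup (AbsGal K)} (h : Opn (fullSys K) U) :
    IsOpen (U : Set (AbsGal K)) := by
  obtain ⟨W, hW, hWU⟩ := h
  exact Subgroup.isOpen_mono hWU (Gn.GoodG.isOpen hW)

theorem coc_full [NumberField K] {T : Finset ℕ} {U : Subgroup (AbsGal K)}
    {f : AbsGal K → AbsGal K → ZMod 2} (h : Coc (sysT K T) U f) : Coc (fullSys K) U f := by
  obtain ⟨⟨W, hW, h1⟩, h2⟩ := h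
  exact ⟨⟨W, full_of_goodT hW, h1⟩, h2⟩

theorem cob_full [NumberField K] {T : Finset ℕ} {U : Subgroup (AbsGal K)}
    {f : AbsGal K → AbsGal K → ZMod 2} (h : Cob (sysT K T) U f) : Cob (fullSys K) U f := by
  obtain ⟨z, ⟨W, hW, h1⟩, h2⟩ := h
  exact ⟨z, ⟨W, full_of_goodT hW, h1⟩, h2⟩

theorem homs_full [NumberField K] {T : Finset ℕ} {U : Subgroup (AbsGal K)}
    {ψ : AbsGal K → ZMod 2} (h : ψ ∈ homs (sysT K T) U) : ψ ∈ homs (fullSys K) U := by
  obtain ⟨⟨W, hW, h1⟩, h2, h3⟩ := h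
  exact ⟨⟨W, full_of_goodT hW, h1⟩, h2, h3⟩

theorem cobT_lCob [NumberField K] {T : Finset ℕ} {C : Subgroup (AbsGal K)}
    {f : AbsGal K → AbsGal K → ZMod 2} (h : Cob (sysT K T) C f) : LCob C f :=
  Cob.lCob (fun _ hW => Gn.GoodG.isOpen hW) h

theorem cobF_lCob [NumberField K] {C : Subgroup (AbsGal K)}
    {f : AbsGal K → AbsGal K → ZMod 2} (h : Cob (fullSys K) C f) : LCob C f :=
  Cob.lCob (fun _ hW => Gn.GoodG.isOpen hW) h

theorem fx_fixing [NumberField K] {U : Subgroup (AbsGal K)} (hU : IsOpen (U : Set (AbsGal K))) :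
    (Fx U).fixingSubgroup = U :=
  InfiniteGalois.fixingSubgroup_fixedField (k := K) (K := AlgebraicClosure K)
    ⟨U, Subgroup.isClosed_of_isOpen U hU⟩

theorem fx_numberField [NumberField K] {U : Subgroup (AbsGal K)}
    (hU : IsOpen (U : Set (AbsGal K))) : NumberField (Fx U) := by
  have hfin : FiniteDimensional K (Fx U) := by
    rw [← InfiniteGalois.isOpen_iff_finite, fx_fixing hU]
    exact hU
  exact NumberField.of_module_finite K _

end arith

end Pool.Agent.Work.MP_787500_nt.HN
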