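import Mathlib
import Pool.Agent.Work.MP_787500_nt.HN.Defs

/-!
# Module CLA (size S-M): large finite sets of places

* `exists_support`: an element `x ≠ 0` of `F` has valuation 1 at almost all places (`x = n / d`, finitely many primes divide `(n d)`; for
  example `HeightOneSpectrum.Support.finite` or `Ideal.finite_factors`).
* `exists_CL`: the class group is finite; for every class choose an integral ideal; let `A` contain `A₀`, the places above 2 and
  all places dividing these ideals. For `v ∉ A`: `v.asIdeal * I` is principal for one of the chosen ideals `I` (the one in the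
  inverse class of `v`), `v.asIdeal * I = (y)`, and `y` has valuation `exp (-1)` at `v` and 1 at all `w ∉ A`, `w ≠ v`.
-/

set_option autoImplicit false
set_option linter.unusedSectionVars false

namespace Pool.Agent.Work.MP_787500_nt.HN

open IsDedekindDomain NumberField WithZero
open Pool.Agent.Work.MP_787500_nt.GP (sUnit mem_sUnit)

variable {F : Type*} [Field F] [NumberField F]

theorem exists_support (x : Fˣ) : ∃ A : Finset (HeightOneSpectrum (𝓞 F)), x ∈ sUnit A := by
  classical
  have h1 := HeightOneSpectrum.Support.finite (𝓞 F) (x : F)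
  have h2 := HeightOneSpectrum.Support.finite (𝓞 F) ((x⁻¹ : Fˣ) : F)
  refine ⟨h1.toFinset ∪ h2.toFinset, fun v hv => ?_⟩
  rw [Finset.mem_union, Set.Finite.mem_toFinset, Set.Finite.mem_toFinset, not_or] at hv
  have h3 : ¬ 1 < v.valuation F (x : F) := hv.1
  have h4 : ¬ 1 < v.valuation F ((x⁻¹ : Fˣ) : F) := hv.2
  have hx : 0 < v.valuation F (x : F) := zero_lt_iff.2 ((Valuation.ne_zero_iff _).2 x.ne_zero)
  rw [Units.val_inv_eq_inv_val, map_inv₀, one_lt_inv₀ hx] at h4
  exact le_antisymm (not_lt.1 h3) (not_lt.1 h4)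

private theorem val_eq_one_of_notMem {w : HeightOneSpectrum (𝓞 F)} {y : 𝓞 F}
    (h : y ∉ w.asIdeal) : w.valuation F (algebraMap (𝓞 F) F y) = 1 :=
  le_antisymm (w.valuation_le_one y)
    (not_lt.1 fun hlt => h ((w.valuation_lt_one_iff_mem (K := F) y).1 hlt))

private theorem val_eq_exp {v : HeightOneSpectrum (𝓞 F)} {y : 𝓞 F} (hy : y ≠ 0)
    (h1 : y ∈ v.asIdeal) (h2 : y ∉ v.asIdeal ^ 2) :
    v.valuation F (algebraMap (𝓞 F) F y) = exp (-1 : ℤ) := by
  rw [HeightOneSpectrum.valuation_of_algebraMap]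
  have h3 := (v.intValuation_le_pow_iff_mem y 1).2 (by rwa [pow_one])
  have h4 := (v.intValuation_le_pow_iff_mem y 2).not.2 h2
  have h0 : v.intValuation y ≠ 0 := v.intValuation_ne_zero y hy
  obtain ⟨n, hn⟩ : ∃ n : ℤ, v.intValuation y = exp n := ⟨_, (exp_log h0).symm⟩
  rw [hn] at h3 h4 ⊢
  rw [exp_le_exp] at h3 h4
  rw [exp_inj]
  push_cast at h3 h4
  omega

theorem exists_CL (A₀ : Finset (HeightOneSpectrum (𝓞 F))) :
    ∃ A : Finset (HeightOneSpectrum (𝓞 F)), A₀ ⊆ A ∧ Dy A ∧ CL A := by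
  classical
  choose I hI using fun c : ClassGroup (𝓞 F) => ClassGroup.mk0_surjective c
  have hfin2 : {v : HeightOneSpectrum (𝓞 F) | v.asIdeal ∣ Ideal.span {(2 : 𝓞 F)}}.Finite :=
    Ideal.finite_factors (by
      intro h
      have h' : (2 : 𝓞 F) = 0 := Ideal.span_singleton_eq_bot.1 h
      exact two_ne_zero h')
  have hfin : ∀ c : ClassGroup (𝓞 F),
      {v : HeightOneSpectrum (𝓞 F) | v.asIdeal ∣ (I c : Ideal (𝓞 F))}.Finite := fun c =>
    Ideal.finite_factors (nonZeroDivisors.ne_zero (I c).2)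
  have := Fintype.ofFinite (ClassGroup (𝓞 F))
  refine ⟨A₀ ∪ hfin2.toFinset ∪ Finset.univ.biUnion fun c => (hfin c).toFinset, ?_, ?_, ?_⟩
  · intro v hv
    exact Finset.mem_union_left _ (Finset.mem_union_left _ hv)
  · intro v hv
    refine Finset.mem_union_left _ (Finset.mem_union_right _ ?_)
    rw [Set.Finite.mem_toFinset]
    exact Ideal.dvd_span_singleton.2 hv
  · intro v hv
    let J : nonZeroDivisors (Ideal (𝓞 F)) := ⟨v.asIdeal, mem_nonZeroDivisors_of_ne_zero v.ne_bot⟩
    set c : ClassGroup (𝓞 F) := (ClassGroup.mk0 J)⁻¹ with hc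
    have h1 : ClassGroup.mk0 (J * I c) = 1 := by
      rw [map_mul, hI c, hc, mul_inv_cancel]
    have h2 : (v.asIdeal * (I c : Ideal (𝓞 F))).IsPrincipal :=
      (ClassGroup.mk0_eq_one_iff (J * I c).2).1 h1
    obtain ⟨y, hy⟩ := h2.principal
    have hy' : v.asIdeal * (I c : Ideal (𝓞 F)) = Ideal.span {y} := hy
    have hIc : (I c : Ideal (𝓞 F)) ≠ 0 := nonZeroDivisors.ne_zero (I c).2
    have hy0 : y ≠ 0 := by
      rintro rfl
      rw [Ideal.span_singleton_zero] at hy'
      exact (mul_ne_zero v.ne_bot hIc) hy'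
    have hyF : algebraMap (𝓞 F) F y ≠ 0 := by
      intro h0
      exact hy0 ((FaithfulSMul.algebraMap_injective (𝓞 F) F) (by rw [h0, map_zero]))
    have hnot : ∀ w : HeightOneSpectrum (𝓞 F), w ∉ A₀ ∪ hfin2.toFinset ∪
        Finset.univ.biUnion (fun c => (hfin c).toFinset) → ¬ w.asIdeal ∣ (I c : Ideal (𝓞 F)) := by
      intro w hw hdvd
      apply hw
      refine Finset.mem_union_right _ (Finset.mem_biUnion.2 ⟨c, Finset.mem_univ _, ?_⟩)
      rw [Set.Finite.mem_toFinset]
      exact hdvd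
    refine ⟨Units.mk0 _ hyF, ?_, ?_⟩
    · rw [Units.val_mk0]
      apply val_eq_exp hy0
      · rw [← Ideal.dvd_span_singleton, ← hy']
        exact dvd_mul_right _ _
      · intro hmem
        rw [← Ideal.dvd_span_singleton, ← hy', pow_two] at hmem
        exact hnot v hv ((mul_dvd_mul_iff_left v.ne_bot).1 hmem)
    · intro w hw hne
      rw [Units.val_mk0]
      apply val_eq_one_of_notMem
      intro hmem
      rw [← Ideal.dvd_span_singleton, ← hy'] at hmem
      rcases w.prime.dvd_or_dvd hmem with h3 | h3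
      · apply hne
        have h4 : v.asIdeal ≤ w.asIdeal := Ideal.le_of_dvd h3
        exact HeightOneSpectrum.ext (v.isMaximal.eq_of_le w.isPrime.ne_top h4).symm
      · exact hnot w hw h3

/-- the same, with finitely many given elements in `sUnit A` -/
theorem exists_CL' {ι : Type*} (s : Finset ι) (x : ι → Fˣ) (A₀ : Finset (HeightOneSpectrum (𝓞 F))) :
    ∃ A : Finset (HeightOneSpectrum (𝓞 F)), A₀ ⊆ A ∧ Dy A ∧ CL A ∧ ∀ i ∈ s, x i ∈ sUnit A := by
  classical
  choose B hB using fun i => exists_support (x i)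
  obtain ⟨A, h1, h2, h3⟩ := exists_CL (A₀ ∪ s.biUnion B)
  refine ⟨A, Finset.subset_union_left.trans h1, h2, h3, fun i hi => ?_⟩
  refine sUnit_mono ?_ (hB i)
  exact (Finset.subset_biUnion_of_mem B hi).trans (Finset.subset_union_right.trans h1)

end Pool.Agent.Work.MP_787500_nt.HN
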