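import Mathlib
import Pool.Agent.Work.MP_787500_nt.HN.CDefs

/-!
# Module SELUNIT (size M-L): elements with even valuations outside `A`

Let `C` be the quotient of the class group of `𝓞 K` by the subgroup `H` generated by the classes of the places in `A`; finite and commutative.
(1) Every element of `C` is a square: `C` is generated by the classes `[v]`, `v ∉ A`. For `v ∉ A` take `y` from `OddT`: `v y = exp (-n)`, `n` odd, `w y = exp (-2 n_w)` for `w ∉ A`, `w ≠ v`. So the
principal fractional ideal of `y` is `v ^ n * ∏ w ^ (2 n_w) *` (places in `A`), `1 = [v] ^ n c ^ 2` in `C`, and `[v] = [v] ^ (n + 1) ([v] ^ n)⁻¹ = ([v] ^ ((n + 1) / 2) c) ^ 2`. So squaring is surjective on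
the finite group `C`, hence injective.
(2) Let `y` be as in the statement: the principal fractional ideal of `y` is `J ^ 2 *` (places in `A`), so `[J] ^ 2 = 1` in `C`, `[J] = 1`: there is `z ∈ Kˣ` such that `(z) = J *` (places in `A`), that
is `v z ^ 2 = v y` for all `v ∉ A`. `x = y / z ^ 2 ∈ sUnit A`.
(Instead of fractional ideals one can work with the group of the families of integers with finite support: `v ↦ n_v`, and the classes by `ClassGroup.mk0` of products; after multiplication by a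
power of the class number all exponents can be made nonnegative, and an element is determined up to units by its valuations.)
-/

set_option autoImplicit false
set_option linter.unusedSectionVars false

namespace Pool.Agent.Work.MP_787500_nt.HN

open IsDedekindDomain NumberField WithZero
open Pool.Agent.Work.MP_787500_nt.GP (sUnit mem_sUnit)

universe u

variable {K : Type u} [Field K] [NumberField K]

open Pool.Agent.Work.MP_787500_nt.PA.SunitRank (o o_mul o_one o_pow o_prod o_eq_zero)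

private theorem SelUnit_val (w : HeightOneSpectrum (𝓞 K)) (x : Kˣ) :
    w.valuation K (x : K) = exp (o w x) := by
  rw [← HeightOneSpectrum.valuationOfNeZero_eq]
  rfl

private theorem SelUnit_inv (w : HeightOneSpectrum (𝓞 K)) (x : Kˣ) : o w x⁻¹ = -o w x := by
  have h := o_pow w x (-1)
  rw [zpow_neg_one] at h
  rw [h]
  ring

private theorem SelUnit_sq (w : HeightOneSpectrum (𝓞 K)) (x : Kˣ) :
    IsSquare (w.valuation K (x : K)) ↔ Even (o w x) := by
  rw [SelUnit_val]
  constructor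
  · rintro ⟨r, hr⟩
    have hr0 : r ≠ 0 := by
      rintro rfl
      rw [mul_zero] at hr
      exact exp_ne_zero hr
    obtain ⟨m, rfl⟩ : ∃ m : ℤ, r = exp m := ⟨_, (exp_log hr0).symm⟩
    rw [← exp_add, exp_inj] at hr
    exact ⟨m, hr⟩
  · rintro ⟨m, hm⟩
    exact ⟨exp m, by rw [← exp_add, hm]⟩

private theorem SelUnit_gen (w : HeightOneSpectrum (𝓞 K)) :
    ∃ x : Kˣ, o w x = -(Nat.card (ClassGroup (𝓞 K)) : ℤ) ∧
      ∀ w' : HeightOneSpectrum (𝓞 K), w' ≠ w → o w' x = 0 := by
  classical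
  let I : nonZeroDivisors (Ideal (𝓞 K)) := ⟨w.asIdeal, mem_nonZeroDivisors_of_ne_zero w.ne_bot⟩
  set h := Nat.card (ClassGroup (𝓞 K)) with hh
  have hpos : 0 < h := Nat.card_pos
  have h1 : ClassGroup.mk0 (I ^ h) = 1 := by
    rw [map_pow]; exact pow_card_eq_one'
  have h2 : (w.asIdeal ^ h).IsPrincipal := by
    have := (ClassGroup.mk0_eq_one_iff (I ^ h).2).1 h1
    simpa [I] using this
  obtain ⟨g, hg⟩ := h2.principal
  have hg' : w.asIdeal ^ h = Ideal.span {g} := hg
  have hg0 : g ≠ 0 := by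
    rintro rfl
    rw [Ideal.span_singleton_zero] at hg'
    exact pow_ne_zero h w.ne_bot hg'
  have hgF : algebraMap (𝓞 K) K g ≠ 0 := by
    intro h0
    exact hg0 ((FaithfulSMul.algebraMap_injective (𝓞 K) K) (by rw [h0, map_zero]))
  refine ⟨Units.mk0 _ hgF, ?_, fun w' hne => ?_⟩
  · have hle : w.intValuation g ≤ exp (-(h : ℤ)) := by
      rw [HeightOneSpectrum.intValuation_le_pow_iff_dvd, hg']
    have hgt : ¬ w.intValuation g ≤ exp (-((h + 1 : ℕ) : ℤ)) := by
      rw [HeightOneSpectrum.intValuation_le_pow_iff_dvd, ← hg']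
      intro hd
      have h3 := Ideal.le_of_dvd hd
      exact absurd (Ideal.pow_right_strictAnti w.asIdeal w.ne_bot w.isPrime.ne_top
        (Nat.lt_succ_self h)) (not_lt_of_ge h3)
    have hval : w.intValuation g = exp (o w (Units.mk0 _ hgF)) := by
      rw [← SelUnit_val, Units.val_mk0, HeightOneSpectrum.valuation_of_algebraMap]
    rw [hval, exp_le_exp] at hle hgt
    push_cast at hgt
    omega
  · rw [o_eq_zero, Units.val_mk0]
    refine le_antisymm (w'.valuation_le_one g) (not_lt.1 fun hlt => hne ?_)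
    rw [HeightOneSpectrum.valuation_lt_one_iff_mem] at hlt
    have hle : w.asIdeal ≤ w'.asIdeal := by
      have : w.asIdeal ^ h ≤ w'.asIdeal := by
        rw [hg', Ideal.span_singleton_le_iff_mem]; exact hlt
      exact w'.isPrime.le_of_pow_le this
    have := w.isMaximal.eq_of_le w'.isPrime.ne_top hle
    exact HeightOneSpectrum.ext this.symm

private theorem SelUnit_fin (x : Kˣ) : {w : HeightOneSpectrum (𝓞 K) | o w x ≠ 0}.Finite := by
  refine ((HeightOneSpectrum.Support.finite (𝓞 K) (x : K)).union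
    (HeightOneSpectrum.Support.finite (𝓞 K) ((x⁻¹ : Kˣ) : K))).subset fun w hw => ?_
  have hw' : o w x ≠ 0 := hw
  rcases lt_or_gt_of_ne hw' with h | h
  · right
    show 1 < w.valuation K ((x⁻¹ : Kˣ) : K)
    rw [SelUnit_val, SelUnit_inv, ← exp_zero, exp_lt_exp]
    omega
  · left
    show 1 < w.valuation K (x : K)
    rw [SelUnit_val, ← exp_zero, exp_lt_exp]
    exact h

/-- all `N`-th powers of places outside `A` are principal outside `A` -/
private def SelUnit_PP (A : Finset (HeightOneSpectrum (𝓞 K))) (N : ℤ) : Prop :=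
  ∀ v ∉ A, ∃ x : Kˣ, o v x = N ∧ ∀ w ∉ A, w ≠ v → o w x = 0

private theorem SelUnit_fam {A : Finset (HeightOneSpectrum (𝓞 K))} {N : ℤ} (h : SelUnit_PP A N)
    (e : HeightOneSpectrum (𝓞 K) → ℤ) (he : {w | e w ≠ 0}.Finite) :
    ∃ x : Kˣ, ∀ w ∉ A, o w x = N * e w := by
  classical
  choose! p hp1 hp2 using h
  refine ⟨∏ v ∈ he.toFinset with v ∉ A, p v ^ e v, fun w hw => ?_⟩
  rw [o_prod]
  by_cases h0 : e w = 0
  · rw [h0, mul_zero]
    refine Finset.sum_eq_zero fun v hv => ?_
    rw [Finset.mem_filter, Set.Finite.mem_toFinset] at hv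
    have hne : w ≠ v := by
      rintro rfl
      exact hv.1 h0
    rw [o_pow, hp2 v hv.2 w hw hne, mul_zero]
  · rw [Finset.sum_eq_single w]
    · rw [o_pow, hp1 w hw, mul_comm]
    · intro v hv hne
      rw [Finset.mem_filter] at hv
      rw [o_pow, hp2 v hv.2 w hw hne.symm, mul_zero]
    · intro hw'
      exact absurd (Finset.mem_filter.2 ⟨he.mem_toFinset.2 h0, hw⟩) hw'

private theorem SelUnit_step {T : Finset ℕ} (hodd : OddT K T)
    {A : Finset (HeightOneSpectrum (𝓞 K))}
    (hA : ∀ v : HeightOneSpectrum (𝓞 K),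
      v ∈ A ↔ (2 : 𝓞 K) ∈ v.asIdeal ∨ ∃ l ∈ T, (l : 𝓞 K) ∈ v.asIdeal)
    {M : ℤ} (h : SelUnit_PP A (2 * M)) : SelUnit_PP A M := by
  classical
  intro v hv
  have hA' : ∀ w ∉ A, (2 : 𝓞 K) ∉ w.asIdeal ∧ ∀ l ∈ T, (l : 𝓞 K) ∉ w.asIdeal := by
    intro w hw
    rw [hA] at hw
    exact ⟨fun h => hw (Or.inl h), fun l hl h => hw (Or.inr ⟨l, hl, h⟩)⟩
  obtain ⟨y, hy0, hyv, hyw⟩ := hodd v (hA' v hv).1 (hA' v hv).2
  set y' : Kˣ := Units.mk0 y hy0 with hy'
  have hv' : ¬ Even (o v y') := by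
    rw [← SelUnit_sq]
    exact hyv
  have hw' : ∀ w ∉ A, w ≠ v → Even (o w y') := by
    intro w hw hne
    rw [← SelUnit_sq]
    exact hyw w hne (hA' w hw).1 (hA' w hw).2
  obtain ⟨k, hk⟩ := Int.not_even_iff_odd.1 hv'
  obtain ⟨x, hx⟩ := SelUnit_fam h (fun w => if w = v then k else o w y' / 2)
    (((SelUnit_fin y').insert v).subset fun w hw => by
      rw [Set.mem_insert_iff]
      by_cases hwv : w = v
      · exact Or.inl hwv
      · right
        have hw2 : (if w = v then k else o w y' / 2) ≠ 0 := hw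
        rw [if_neg hwv] at hw2
        show o w y' ≠ 0
        intro h0
        rw [h0] at hw2
        exact hw2 rfl)
  refine ⟨y' ^ M * x⁻¹, ?_, fun w hw hne => ?_⟩
  · rw [o_mul, o_pow, SelUnit_inv, hx v hv, if_pos rfl, hk]
    ring
  · obtain ⟨m, hm⟩ := hw' w hw hne
    rw [o_mul, o_pow, SelUnit_inv, hx w hw, if_neg hne, hm, ← two_mul,
      Int.mul_ediv_cancel_left _ two_ne_zero]
    ring

theorem sel_unit {T : Finset ℕ} (hodd : OddT K T) {A : Finset (HeightOneSpectrum (𝓞 K))}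
    (hA : ∀ v : HeightOneSpectrum (𝓞 K),
      v ∈ A ↔ (2 : 𝓞 K) ∈ v.asIdeal ∨ ∃ l ∈ T, (l : 𝓞 K) ∈ v.asIdeal)
    {y : Kˣ} (hy : ∀ v ∉ A, IsSquare (v.valuation K (y : K))) :
    ∃ x ∈ sUnit A, ∃ z : Kˣ, y = x * z ^ 2 := by
  classical
  have hpos : Nat.card (ClassGroup (𝓞 K)) ≠ 0 := Nat.card_pos.ne'
  obtain ⟨a, h', hh', hcard⟩ := Nat.exists_eq_two_pow_mul_odd hpos
  have hbase : SelUnit_PP A ((2 : ℤ) ^ a * h') := by
    intro v _
    obtain ⟨x, hx1, hx2⟩ := SelUnit_gen v
    refine ⟨x⁻¹, ?_, fun w _ hne => ?_⟩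
    · rw [SelUnit_inv, hx1, hcard]
      push_cast
      ring
    · rw [SelUnit_inv, hx2 w hne, neg_zero]
  have hdesc : ∀ n : ℕ, SelUnit_PP A ((2 : ℤ) ^ n * h') → SelUnit_PP A (h' : ℤ) := by
    intro n
    induction n with
    | zero =>
      intro h
      rwa [pow_zero, one_mul] at h
    | succ n ih =>
      intro h
      refine ih (SelUnit_step hodd hA ?_)
      rwa [← mul_assoc, ← pow_succ']
  have hP := hdesc a hbase
  obtain ⟨k, hk⟩ := hh'
  obtain ⟨x, hx⟩ := SelUnit_fam hP (fun w => o w y / 2)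
    ((SelUnit_fin y).subset fun w hw => by
      have hw2 : o w y / 2 ≠ 0 := hw
      show o w y ≠ 0
      intro h0
      rw [h0] at hw2
      exact hw2 rfl)
  set z : Kˣ := x * (y ^ (k : ℤ))⁻¹ with hz
  have hoz : ∀ w ∉ A, 2 * o w z = o w y := by
    intro w hw
    obtain ⟨m, hm⟩ := (SelUnit_sq w y).1 (hy w hw)
    rw [hz, o_mul, SelUnit_inv, o_pow, hx w hw, hm, ← two_mul,
      Int.mul_ediv_cancel_left _ two_ne_zero, hk]
    push_cast
    ring
  refine ⟨y * (z ^ (2 : ℤ))⁻¹, ?_, z, ?_⟩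
  · rw [mem_sUnit]
    intro w hw
    rw [← o_eq_zero, o_mul, SelUnit_inv, o_pow, hoz w hw, add_neg_cancel]
  · rw [zpow_ofNat, inv_mul_cancel_right]

end Pool.Agent.Work.MP_787500_nt.HN
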