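import Mathlib
import Pool.Agent.Work.MP_787500_nt.HN.Defs

/-!
# Module LOCGRP (size S-M): closeness and the groups `LS`, `LN`

* `LS_of_close`: `x / y = 1 + 4 ((x - y) / (4 y))` and the valuation of `(x - y) / (4 y)` is `< 1`: `LocSq.one_add_four_mul`
  (`H10_LocSq.lean`), so `x / y ∈ LS w`; then `x ∈ LS w ↔ y ∈ LS w` in the group.
* `mem_LN_iff` (⇒): `x = n z`, `n = b ^ 2 - a c ^ 2`, `z ∈ LS w`: choose `y` with `w (z - y ^ 2)` small; `n y ^ 2 = (b y) ^ 2 - a (c y) ^ 2`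
  and `n y ^ 2 - x = n (y ^ 2 - z)`. (⇐): take `γ = w (4 x)`: `b ^ 2 - a c ^ 2 =: n` is nonzero (`w (n - x) < w x`), and
  `x / n ∈ LS w` by closeness, so `x = n * (x / n)`.
* `LN_eq_top`: if `a ∈ LS w`: for `x` and `γ`: `a` is close to `y ^ 2`, `y ≠ 0`; with `b = (x + 1) / 2`, `c = (x - 1) / (2 y)`:
  `b ^ 2 - y ^ 2 c ^ 2 = x`, and `b ^ 2 - a c ^ 2 - x = (y ^ 2 - a) c ^ 2`. The valuation of `c = (x - 1) / (2 y)` is bounded because
  `w y` is fixed: `w y ^ 2 = w a` as soon as `w (a - y ^ 2) < w a`. `mem_LN_iff`.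
-/

set_option autoImplicit false
set_option linter.unusedSectionVars false

namespace Pool.Agent.Work.MP_787500_nt.HN

open IsDedekindDomain NumberField WithZero

variable {F : Type*} [Field F] [NumberField F] {w : HeightOneSpectrum (𝓞 F)}

private theorem two_le : w.valuation F (2 : F) ≤ 1 := by
  have : w.valuation F (algebraMap (𝓞 F) F 2) ≤ 1 := w.valuation_le_one 2
  rwa [map_ofNat] at this

private theorem four_le : w.valuation F (4 : F) ≤ 1 := by
  have : w.valuation F (algebraMap (𝓞 F) F 4) ≤ 1 := w.valuation_le_one 4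
  rwa [map_ofNat] at this

theorem div_mem_LS_of_close {x y : Fˣ}
    (h : w.valuation F ((x : F) - y) < w.valuation F (4 * (y : F))) : x / y ∈ LS w := by
  rw [mem_LS]
  have h2 : (2 : F) ≠ 0 := two_ne_zero
  have h4 : (4 : F) ≠ 0 := OfNat.ofNat_ne_zero 4
  have hy : (y : F) ≠ 0 := y.ne_zero
  have e : ((x / y : Fˣ) : F) = 1 + 4 * (((x : F) - y) / (4 * y)) := by
    rw [Units.val_div_eq_div_val]
    field_simp
    ring
  rw [e]
  refine LocSq.one_add_four_mul h2 ?_ two_le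
  rw [map_div₀]
  exact (div_lt_one₀ (zero_lt_iff.mpr ((Valuation.ne_zero_iff _).mpr (mul_ne_zero h4 hy)))).mpr h

theorem LS_of_close {x y : Fˣ} (h : w.valuation F ((x : F) - y) < w.valuation F (4 * (y : F))) :
    x ∈ LS w ↔ y ∈ LS w := by
  have h1 := div_mem_LS_of_close h
  constructor
  · intro hx
    have := (LS w).div_mem hx h1
    rwa [div_div_cancel] at this
  · intro hy
    have := (LS w).mul_mem h1 hy
    rwa [div_mul_cancel] at this

theorem mem_LN_iff {a x : Fˣ} : x ∈ LN w a ↔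
    ∀ γ : WithZero (Multiplicative ℤ), γ ≠ 0 →
      ∃ b c : F, w.valuation F (b ^ 2 - a * c ^ 2 - x) < γ := by
  constructor
  · intro hx γ hγ
    obtain ⟨n, ⟨b, c, hbc⟩, z, hz, rfl⟩ := Subgroup.mem_sup.1 hx
    obtain ⟨δ, hδ, h1⟩ := exists_lt_of_ne_zero (a := w.valuation F (n : F)) hγ
    obtain ⟨y, hy⟩ := (mem_LS.1 hz) δ hδ
    refine ⟨b * y, c * y, ?_⟩
    have e : (b * y) ^ 2 - a * (c * y) ^ 2 - ((n * z : Fˣ) : F) = n * (y ^ 2 - z) := by
      rw [Units.val_mul, hbc]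
      ring
    rw [e, map_mul, Valuation.map_sub_swap]
    exact h1 _ hy
  · intro h
    have h4 : (4 : F) ≠ 0 := OfNat.ofNat_ne_zero 4
    have hx0 : (x : F) ≠ 0 := x.ne_zero
    obtain ⟨b, c, hbc⟩ := h (w.valuation F (4 * (x : F)))
      ((Valuation.ne_zero_iff _).mpr (mul_ne_zero h4 hx0))
    have hn : b ^ 2 - a * c ^ 2 ≠ 0 := by
      intro h0
      rw [h0, zero_sub, Valuation.map_neg, map_mul] at hbc
      have : w.valuation F (4 : F) * w.valuation F (x : F) ≤ 1 * w.valuation F (x : F) := by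
        gcongr
        exact four_le
      rw [one_mul] at this
      exact absurd hbc (not_lt.2 this)
    have h1 : Units.mk0 _ hn / x ∈ LS w := div_mem_LS_of_close hbc
    refine Subgroup.mem_sup.2 ⟨Units.mk0 _ hn, ⟨b, c, rfl⟩, (Units.mk0 _ hn / x)⁻¹,
      (LS w).inv_mem h1, ?_⟩
    rw [inv_div, mul_div_cancel]

theorem LN_eq_top {a : Fˣ} (h : a ∈ LS w) : LN w a = ⊤ := by
  rw [eq_top_iff]
  intro x _
  rw [mem_LN_iff]
  intro γ hγ
  have h2 : (2 : F) ≠ 0 := two_ne_zero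
  have h4 : (4 : F) ≠ 0 := OfNat.ofNat_ne_zero 4
  have ha0 : (a : F) ≠ 0 := a.ne_zero
  have hva : w.valuation F (a : F) ≠ 0 := (Valuation.ne_zero_iff _).mpr ha0
  obtain ⟨δ, hδ, h1⟩ :=
    exists_lt_of_ne_zero (a := w.valuation F (((x : F) - 1) ^ 2 / (4 * a))) hγ
  obtain ⟨y, hy⟩ := (mem_LS.1 h) (min δ (w.valuation F (a : F))) (by
    rcases min_choice δ (w.valuation F (a : F)) with h' | h' <;> rw [h'] <;> assumption)
  have hy1 : w.valuation F (y ^ 2 - a) < w.valuation F (a : F) := by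
    rw [Valuation.map_sub_swap]
    exact hy.trans_le (min_le_right _ _)
  have hy2 : w.valuation F (y ^ 2 - a) < δ := by
    rw [Valuation.map_sub_swap]
    exact hy.trans_le (min_le_left _ _)
  have hvy : w.valuation F (y ^ 2) = w.valuation F (a : F) := Valuation.map_eq_of_sub_lt _ hy1
  have hy0 : y ≠ 0 := by
    rintro rfl
    rw [zero_pow two_ne_zero, map_zero] at hvy
    exact hva hvy.symm
  refine ⟨((x : F) + 1) / 2, ((x : F) - 1) / (2 * y), ?_⟩
  have e : (((x : F) + 1) / 2) ^ 2 - a * (((x : F) - 1) / (2 * y)) ^ 2 - x =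
      (((x : F) - 1) / (2 * y)) ^ 2 * (y ^ 2 - a) := by
    field_simp
    ring
  have e2 : w.valuation F ((((x : F) - 1) / (2 * y)) ^ 2) =
      w.valuation F (((x : F) - 1) ^ 2 / (4 * a)) := by
    rw [show (((x : F) - 1) / (2 * y)) ^ 2 = ((x : F) - 1) ^ 2 / (4 * y ^ 2) by
      field_simp; ring, map_div₀, map_div₀, map_mul, map_mul, hvy]
  rw [e, map_mul, e2]
  exact h1 _ hy2

/-- squares of local squares classes: the quotient has exponent 2 -/
theorem sq_mem_LS (x : Fˣ) : x ^ 2 ∈ LS w := sq_le_LS w ⟨x, rfl⟩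

end Pool.Agent.Work.MP_787500_nt.HN
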