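import Mathlib
import Pool.Agent.Work.MP_787500_nt.HN.LocGrp

/-!
# Module WEAK (size M): weak approximation

* `exists_approx`: write `z w = n w / d` with one common denominator `d ∈ 𝓞 F`, `d ≠ 0` (finitely many `w`; `IsLocalization`). Choose `N` so
  large that `w x ≤ exp (-N)` implies `w (x / d) < γ` for all `w ∈ A`. By the Chinese remainder theorem
  (`IsDedekindDomain.exists_forall_sub_mem_ideal`, the primes of `A` are pairwise different) there is `r ∈ 𝓞 F` with
  `r - n w ∈ w.asIdeal ^ N` for all `w ∈ A` (`HeightOneSpectrum.valuation_le_pow_iff_mem` or `intValuation_le_pow_iff_mem`); `x = r / d`.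
* `exists_weak`: approximate `z w` with `γ` smaller than all `w (4 z w)`; then `x ≠ 0` at least if `A` is not empty (if `A` is
  empty take `x = 1`), and `div_mem_LS_of_close` (`LocGrp.lean`).
-/

set_option autoImplicit false
set_option linter.unusedSectionVars false

namespace Pool.Agent.Work.MP_787500_nt.HN

open IsDedekindDomain NumberField WithZero

variable {F : Type*} [Field F] [NumberField F]

theorem exists_approx (A : Finset (HeightOneSpectrum (𝓞 F))) (z : HeightOneSpectrum (𝓞 F) → F)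
    {γ : WithZero (Multiplicative ℤ)} (hγ : γ ≠ 0) :
    ∃ x : F, ∀ w ∈ A, w.valuation F (x - z w) < γ := by
  classical
  obtain ⟨d, hd⟩ := IsLocalization.exist_integer_multiples_of_finset (nonZeroDivisors (𝓞 F))
    (A.image z)
  have hd0 : (d : 𝓞 F) ≠ 0 := nonZeroDivisors.ne_zero d.2
  have hd0' : algebraMap (𝓞 F) F (d : 𝓞 F) ≠ 0 := by
    rw [Ne, FaithfulSMul.algebraMap_eq_zero_iff]
    exact hd0
  have hn : ∀ w ∈ A, ∃ n : 𝓞 F, algebraMap (𝓞 F) F n = algebraMap (𝓞 F) F (d : 𝓞 F) * z w := by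
    intro w hw
    obtain ⟨n, hn⟩ := hd (z w) (Finset.mem_image_of_mem z hw)
    refine ⟨n, ?_⟩
    rw [hn, Algebra.smul_def]
  choose! n hn using hn
  have hN : ∀ w ∈ A, ∃ N : ℕ, exp (-(N : ℤ)) < γ *
      w.valuation F (algebraMap (𝓞 F) F (d : 𝓞 F)) := by
    intro w _
    have h1 : γ * w.valuation F (algebraMap (𝓞 F) F (d : 𝓞 F)) ≠ 0 :=
      mul_ne_zero hγ ((Valuation.ne_zero_iff _).mpr hd0')
    refine ⟨(-log (γ * w.valuation F (algebraMap (𝓞 F) F (d : 𝓞 F)))).toNat + 1, ?_⟩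
    rw [← exp_log h1, exp_lt_exp]
    push_cast
    have := Int.self_le_toNat (-log (γ * w.valuation F (algebraMap (𝓞 F) F (d : 𝓞 F))))
    rw [exp_log h1]
    omega
  choose! N hN using hN
  obtain ⟨r, hr⟩ := IsDedekindDomain.exists_forall_sub_mem_ideal (s := A) (fun w => w.asIdeal) N
    (fun w _ => w.prime) (fun w _ w' _ hww => fun h => hww (HeightOneSpectrum.ext h))
    (fun w => n w.1)
  refine ⟨algebraMap (𝓞 F) F r / algebraMap (𝓞 F) F (d : 𝓞 F), fun w hw => ?_⟩
  have e : algebraMap (𝓞 F) F r / algebraMap (𝓞 F) F (d : 𝓞 F) - z w =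
      algebraMap (𝓞 F) F (r - n w) / algebraMap (𝓞 F) F (d : 𝓞 F) := by
    rw [map_sub, hn w hw]
    field_simp
  have h2 : w.valuation F (algebraMap (𝓞 F) F (r - n w)) ≤ exp (-(N w : ℤ)) := by
    rw [HeightOneSpectrum.valuation_of_algebraMap, HeightOneSpectrum.intValuation_le_pow_iff_mem]
    exact hr w hw
  rw [e, map_div₀, div_lt_iff₀ (zero_lt_iff.mpr ((Valuation.ne_zero_iff _).mpr hd0'))]
  exact h2.trans_lt (hN w hw)

theorem exists_weak (A : Finset (HeightOneSpectrum (𝓞 F))) (z : HeightOneSpectrum (𝓞 F) → Fˣ) :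
    ∃ x : Fˣ, ∀ w ∈ A, x / z w ∈ LS w := by
  classical
  rcases A.eq_empty_or_nonempty with rfl | ⟨w₀, hw₀⟩
  · exact ⟨1, fun w hw => absurd hw (Finset.notMem_empty w)⟩
  have h4 : (4 : F) ≠ 0 := OfNat.ofNat_ne_zero 4
  have hne : ∀ w : HeightOneSpectrum (𝓞 F), w.valuation F (4 * (z w : F)) ≠ 0 := fun w =>
    (Valuation.ne_zero_iff _).mpr (mul_ne_zero h4 (z w).ne_zero)
  obtain ⟨x, hx⟩ := exists_approx A (fun w => (z w : F))
    (γ := A.inf' ⟨w₀, hw₀⟩ fun w => w.valuation F (4 * (z w : F))) (by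
      obtain ⟨w, -, hw⟩ := A.exists_mem_eq_inf' ⟨w₀, hw₀⟩ fun w => w.valuation F (4 * (z w : F))
      rw [hw]
      exact hne w)
  have hx' : ∀ w ∈ A, w.valuation F (x - z w) < w.valuation F (4 * (z w : F)) := fun w hw =>
    (hx w hw).trans_le (A.inf'_le (fun w => w.valuation F (4 * (z w : F))) hw)
  have hx0 : x ≠ 0 := by
    rintro rfl
    have h1 := hx' w₀ hw₀
    rw [zero_sub, Valuation.map_neg, map_mul] at h1
    have h2 : w₀.valuation F (4 : F) ≤ 1 := by
      have : w₀.valuation F (algebraMap (𝓞 F) F 4) ≤ 1 := w₀.valuation_le_one 4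
      rwa [map_ofNat] at this
    have h3 : w₀.valuation F (4 : F) * w₀.valuation F (z w₀ : F) ≤
        1 * w₀.valuation F (z w₀ : F) := by
      gcongr
    rw [one_mul] at h3
    exact absurd h1 (not_lt.2 h3)
  exact ⟨Units.mk0 x hx0, fun w hw => div_mem_LS_of_close (hx' w hw)⟩

end Pool.Agent.Work.MP_787500_nt.HN
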