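import Mathlib
import Pool.Agent.Work.MP_787500_nt.HN.Weak

/-!
# Module DENS (size M): elements fixed by a decomposition group are approximated by the base field

`E / F` finite Galois, `Q` a place of `E`, `z ∈ E` fixed by all `g` with `conjPrime g Q = Q`. Let `D` be the set of these `g` and `m ≥ 1` its
cardinality. The set `A` of the places `conjPrime g Q`, `g ∈ Gal (E / F)`, is finite. By `exists_approx` (`Weak.lean`) there is `y' ∈ E` with
`Q (y' - z) < δ` and `Q' (y') < δ` for all `Q' ∈ A`, `Q' ≠ Q`. `T = ∑ g, g y'` is in `F`. For `g ∈ D`: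
`Q (g y' - z) = Q (g (y' - z)) = (conjPrime g Q) (y' - z) = Q (y' - z) < δ` (`valuation_conjPrime`); for `g ∉ D`: `Q (g y') = (conjPrime g Q) (y') < δ`. So
`Q (T - m z) < δ`, and `Q (z - T / m) < δ / Q (m)`: choose `δ = γ * Q (m)`.
-/

set_option autoImplicit false
set_option linter.unusedSectionVars false

namespace Pool.Agent.Work.MP_787500_nt.HN

open IsDedekindDomain NumberField WithZero

variable {F E : Type*} [Field F] [NumberField F] [Field E] [NumberField E] [Algebra F E]

theorem dens [IsGalois F E] (Q : HeightOneSpectrum (𝓞 E)) {z : E}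
    (hz : ∀ g : E ≃ₐ[F] E, conjPrime (g : E ≃+* E) Q = Q → g z = z)
    {γ : WithZero (Multiplicative ℤ)} (hγ : γ ≠ 0) :
    ∃ y : F, Q.valuation E (z - algebraMap F E y) < γ := by
  classical
  have hfd : FiniteDimensional F E := Module.Finite.of_restrictScalars_finite ℚ F E
  let cj : (E ≃ₐ[F] E) → HeightOneSpectrum (𝓞 E) := fun g => conjPrime (g : E ≃+* E) Q
  let D : Finset (E ≃ₐ[F] E) := Finset.univ.filter fun g => cj g = Q
  let A : Finset (HeightOneSpectrum (𝓞 E)) := Finset.univ.image cj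
  have hval : ∀ (g : E ≃ₐ[F] E) (x : E), Q.valuation E (g x) = (cj g).valuation E x :=
    fun g x => (valuation_conjPrime (g : E ≃+* E) Q x).symm
  have h1 : (1 : E ≃ₐ[F] E) ∈ D := by
    refine Finset.mem_filter.2 ⟨Finset.mem_univ _, ?_⟩
    apply HeightOneSpectrum.ext
    ext x
    have h := mem_conjPrime ((1 : E ≃ₐ[F] E) : E ≃+* E) Q x
    have h2 : RingOfIntegers.mapRingEquiv ((1 : E ≃ₐ[F] E) : E ≃+* E) x = x := rfl
    rw [h2] at h
    exact h
  have hm0 : ((D.card : ℕ) : E) ≠ 0 := Nat.cast_ne_zero.2 (Finset.card_ne_zero_of_mem h1)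
  have hvm : Q.valuation E ((D.card : ℕ) : E) ≠ 0 := (Valuation.ne_zero_iff _).2 hm0
  obtain ⟨y', hy'⟩ := exists_approx A (fun Q' => if Q' = Q then z else 0)
    (mul_ne_zero hγ hvm)
  have hT : ∑ g : E ≃ₐ[F] E, g y' = algebraMap F E (Algebra.trace F E y') :=
    (trace_eq_sum_automorphisms y').symm
  have hsum : (∑ g : E ≃ₐ[F] E, g y') - (D.card : E) * z =
      ∑ g : E ≃ₐ[F] E, (g y' - if g ∈ D then z else 0) := by
    rw [Finset.sum_sub_distrib, Finset.sum_ite_mem, Finset.univ_inter, Finset.sum_const,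
      nsmul_eq_mul]
  have hlt : Q.valuation E ((∑ g : E ≃ₐ[F] E, g y') - (D.card : E) * z) <
      γ * Q.valuation E ((D.card : ℕ) : E) := by
    rw [hsum]
    refine Valuation.map_sum_lt _ (mul_ne_zero hγ hvm) fun g _ => ?_
    have hA : cj g ∈ A := Finset.mem_image_of_mem _ (Finset.mem_univ g)
    have h2 := hy' (cj g) hA
    by_cases hg : g ∈ D
    · have hgQ : cj g = Q := (Finset.mem_filter.1 hg).2
      rw [if_pos hg]
      have h3 : g y' - z = g (y' - z) := by
        rw [map_sub, hz g hgQ]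
      rw [h3, hval]
      simpa only [if_pos hgQ] using h2
    · have hgQ : cj g ≠ Q := fun h => hg (Finset.mem_filter.2 ⟨Finset.mem_univ _, h⟩)
      rw [if_neg hg, sub_zero, hval]
      simpa only [if_neg hgQ, sub_zero] using h2
  refine ⟨Algebra.trace F E y' / (D.card : F), ?_⟩
  have hkey : (z - algebraMap F E (Algebra.trace F E y' / (D.card : F))) * (D.card : E) =
      -((∑ g : E ≃ₐ[F] E, g y') - (D.card : E) * z) := by
    rw [hT, map_div₀, map_natCast]
    field_simp
    ring
  have h5 : Q.valuation E (z - algebraMap F E (Algebra.trace F E y' / (D.card : F))) *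
      Q.valuation E ((D.card : ℕ) : E) < γ * Q.valuation E ((D.card : ℕ) : E) := by
    rw [← map_mul, hkey, Valuation.map_neg]
    exact hlt
  exact lt_of_mul_lt_mul_right h5 zero_le

end Pool.Agent.Work.MP_787500_nt.HN
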