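import Mathlib
import Pool.Agent.Work.MP_787500_nt.HN.CDefs
import Pool.Agent.Work.MP_787500_nt.HN.Dens
import Pool.Agent.Work.MP_787500_nt.H10_Gal

/-!
# Module DENSD (size M-L): approximation for decomposition groups in the absolute Galois group

`U` is open, `F = Fx U` a number field, `Ω = AlgebraicClosure K`, `Q ≠ ⊥` a prime of `𝓞 Ω`, `D = stabD Q ⊓ U`. Let `s` be a finite set of elements of
`Fx D`. `E` = the normal closure in `Ω` of `F (s)` (an intermediate field of `Ω / F`, finite and Galois over `F`: `IntermediateField.normalClosure`, or the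
field generated by the roots of the minimal polynomials), a number field. `P = Q ∩ 𝓞 E`. Let `z ∈ s`, `g ∈ Gal (E / F)` with `conjPrime g P = P`. Lift
`g` to `ĝ ∈ Gal (Ω / F) ≃ U` (`AlgEquiv.restrictNormalHom_surjective`; `fx_fixing` for the identification with `U`, see the proof of `S1_NormT_trans` in
`GP/S1_NormT.lean`). `Q` and `ĝ • Q` have the same intersection with `𝓞 E` (up to `g` versus `g⁻¹`, which also fixes `P`), so by `exists_smul_eq` for
`Ω / E` there is `h ∈ Gal (Ω / E)` with `h • ĝ • Q = Q`: `h ĝ` is in `stabD Q ⊓ U` and it restricts to `g` on `E`. So `g z = z`. Apply `dens`.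
-/

set_option autoImplicit false
set_option linter.unusedSectionVars false

namespace Pool.Agent.Work.MP_787500_nt.HN

open IsDedekindDomain NumberField WithZero
open Pool.Agent.Work.MP_787500_nt.GP (sysT stabD Fx GoodT inT)

universe u

variable {K : Type u} [Field K] [NumberField K]

private theorem DensD_comm {U : Subgroup (AbsGal K)} {E : IntermediateField (Fx U) (AlgebraicClosure K)}
    (x : 𝓞 (Fx U)) : algebraMap (𝓞 E) (𝓞 (AlgebraicClosure K)) (algebraMap (𝓞 (Fx U)) (𝓞 E) x) =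
      algebraMap (𝓞 (Fx U)) (𝓞 (AlgebraicClosure K)) x := by
  apply RingOfIntegers.ext
  rfl

theorem densD {U : Subgroup (AbsGal K)} (hU : IsOpen (U : Set (AbsGal K))) [NumberField (Fx U)]
    {Q : Ideal (𝓞 (AlgebraicClosure K))} (hQ : Q.IsPrime) (hb : Q ≠ ⊥)
    {w : HeightOneSpectrum (𝓞 (Fx U))}
    (hw : Q.comap (algebraMap (𝓞 (Fx U)) (𝓞 (AlgebraicClosure K))) = w.asIdeal)
    (s : Finset (AlgebraicClosure K)) (hs : ∀ z ∈ s, z ∈ Fx (stabD Q ⊓ U)) :
    ∃ (E : IntermediateField (Fx U) (AlgebraicClosure K)) (_ : NumberField E)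
      (P : HeightOneSpectrum (𝓞 E)), below (Fx U) P = w ∧
      ∀ z ∈ s, ∃ z' : E, (z' : AlgebraicClosure K) = z ∧
        ∀ γ : WithZero (Multiplicative ℤ), γ ≠ 0 →
          ∃ y : Fx U, P.valuation E (z' - algebraMap (Fx U) E y) < γ := by
  classical
  have hfix : (Fx U).fixingSubgroup = U := fx_fixing hU
  let L : IntermediateField (Fx U) (AlgebraicClosure K) :=
    IntermediateField.adjoin (Fx U) (s : Set (AlgebraicClosure K))
  have hL : FiniteDimensional (Fx U) L :=
    IntermediateField.finiteDimensional_adjoin (fun x _ => Algebra.IsIntegral.isIntegral x)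
  let E : IntermediateField (Fx U) (AlgebraicClosure K) :=
    IntermediateField.normalClosure (Fx U) L (AlgebraicClosure K)
  have hE : FiniteDimensional (Fx U) E := inferInstance
  have hnum : NumberField E := NumberField.of_module_finite (Fx U) E
  have hnorm : Normal (Fx U) E := inferInstance
  have hgal : IsGalois (Fx U) E := ⟨⟩
  have hLE : L ≤ E := IntermediateField.le_normalClosure L
  have hinj : Function.Injective (algebraMap (𝓞 E) (𝓞 (AlgebraicClosure K))) :=
    FaithfulSMul.algebraMap_injective _ _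
  let P : HeightOneSpectrum (𝓞 E) :=
    ⟨Q.comap (algebraMap (𝓞 E) (𝓞 (AlgebraicClosure K))), Ideal.comap_isPrime _ _,
      fun h => hb (Ideal.eq_bot_of_comap_eq_bot h)⟩
  have hP : ∀ x : 𝓞 E, x ∈ P.asIdeal ↔ algebraMap (𝓞 E) (𝓞 (AlgebraicClosure K)) x ∈ Q :=
    fun x => Iff.rfl
  refine ⟨E, hnum, P, ?_, fun z hz => ?_⟩
  · apply HeightOneSpectrum.ext
    rw [← hw]
    ext x
    show algebraMap (𝓞 (Fx U)) (𝓞 E) x ∈ P.asIdeal ↔ _
    rw [hP, DensD_comm, Ideal.mem_comap]
  · have hzE : z ∈ E := hLE (IntermediateField.subset_adjoin _ _ hz)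
    refine ⟨⟨z, hzE⟩, rfl, fun γ hγ => dens P (z := (⟨z, hzE⟩ : E)) (fun g hg => ?_) hγ⟩
    obtain ⟨g', hg'⟩ := AlgEquiv.restrictNormalHom_surjective (F := Fx U) (K₁ := E)
      (AlgebraicClosure K) g
    have hcom : ∀ x : E, g' (x : AlgebraicClosure K) = ((g x : E) : AlgebraicClosure K) := by
      intro x
      rw [← hg']
      exact (AlgEquiv.restrictNormal_commutes g' E x).symm
    let Q₁ : Ideal (𝓞 (AlgebraicClosure K)) := Q.comap
      (MulSemiringAction.toRingEquiv (AlgebraicClosure K ≃ₐ[Fx U] AlgebraicClosure K)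
        (𝓞 (AlgebraicClosure K)) g' : 𝓞 (AlgebraicClosure K) →+* 𝓞 (AlgebraicClosure K))
    have hQ₁ : ∀ x, x ∈ Q₁ ↔ g' • x ∈ Q := fun x => Iff.rfl
    have hQ₁p : Q₁.IsPrime := Ideal.comap_isPrime _ _
    have hcomap : Q₁.comap (algebraMap (𝓞 E) (𝓞 (AlgebraicClosure K))) =
        Q.comap (algebraMap (𝓞 E) (𝓞 (AlgebraicClosure K))) := by
      ext x
      rw [Ideal.mem_comap, hQ₁]
      have h1 : g' • (algebraMap (𝓞 E) (𝓞 (AlgebraicClosure K)) x) =
          algebraMap (𝓞 E) (𝓞 (AlgebraicClosure K))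
            (RingOfIntegers.mapRingEquiv (g : E ≃+* E) x) := by
        apply RingOfIntegers.ext
        exact hcom (algebraMap (𝓞 E) E x)
      rw [h1]
      show RingOfIntegers.mapRingEquiv (g : E ≃+* E) x ∈ P.asIdeal ↔ x ∈ P.asIdeal
      rw [← mem_conjPrime, hg]
    obtain ⟨h, hh⟩ := exists_smul_eq (F := E) Q₁ Q hcomap
    have hmem : ∀ x, x ∈ Q ↔ g' • (h⁻¹ • x) ∈ Q := by
      intro x
      conv_lhs => rw [hh]
      rw [Ideal.mem_pointwise_smul_iff_inv_smul_mem, hQ₁]
    let τ : AbsGal K := (g'.restrictScalars K) * ((h⁻¹).restrictScalars (Fx U)).restrictScalars K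
    have hτ : ∀ x, τ x = g' (h⁻¹ x) := fun x => rfl
    have hτ1 : τ ∈ stabD Q := by
      rw [GP.mem_stabD]
      intro x
      exact hmem x
    have hτ2 : τ ∈ U := by
      rw [← hfix, IntermediateField.mem_fixingSubgroup_iff]
      intro x hx
      rw [hτ]
      have h1 : h⁻¹ x = x := ((h⁻¹).restrictScalars (Fx U)).commutes ⟨x, hx⟩
      rw [h1]
      exact g'.commutes ⟨x, hx⟩
    have hz1 : τ z = z := GP.mem_Fx.1 (hs z hz) τ ⟨hτ1, hτ2⟩
    have hz2 : h⁻¹ z = z := (h⁻¹).commutes ⟨z, hzE⟩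
    apply Subtype.ext
    rw [← hcom]
    show g' z = z
    rw [hτ, hz2] at hz1
    exact hz1

end Pool.Agent.Work.MP_787500_nt.HN
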