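import Mathlib
import Pool.Agent.Work.MP_787500_nt.HN.LocGrp
import Pool.Agent.Work.MP_787500_nt.HN.Weak

/-!
# Module LOCCOUNT (size M-L): the number of local square classes

`card_LS`: `(LS w).index = 4 * card (𝓞 F ⧸ w ^ e)`, `e = ee w` (0 if `w` is not above 2), exact. Let `N = 2 e + 1`, `R = 𝓞 F ⧸ w ^ N`, a finite
ring, `U = {x : Fˣ | w x = 1}`.
(1) `Fˣ / U ≃ ℤ` by the valuation (surjective), so `(U ⊔ LS w).index = 2`: an element of `LS w` has even valuation
(`w x = (w y) ^ 2` for a close `y ^ 2`), and conversely an element of even valuation is `y ^ 2 u` with `u ∈ U`.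
(2) `[U LS : LS] = [U : U ⊓ LS]`. For `u ∈ U` choose `r ∈ 𝓞 F` with `w (r - u) ≤ exp (-N)` (`exists_approx` / density of `𝓞 F` in the
valuation ring of `w`: `u = n / d` with `d ∉ w`, invert `d` modulo `w ^ N`). This gives a surjective homomorphism `π : U → Rˣ`.
`u ∈ LS w` iff `π u` is a square in `Rˣ`: (⇒) `u` is close to `y ^ 2`, `w y = 1`, so `π u = (π y) ^ 2`; (⇐) `π u = (π y) ^ 2` means
`w (u - y ^ 2) ≤ exp (-N) < exp (-2 e) = w (4 y ^ 2)`: `div_mem_LS_of_close`. So `[U : U ⊓ LS] = [Rˣ : (Rˣ) ^ 2] = card {u ∈ Rˣ | u ^ 2 = 1}` (finite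
commutative group: kernel and cokernel of squaring have the same size).
(3) `card {u ∈ Rˣ | u ^ 2 = 1} = 2 card (𝓞 F ⧸ w ^ e)`: for `r ∈ 𝓞 F` with `(r - 1) (r + 1) ∈ w ^ N`: the exponents `i`, `j` of `w` in `r - 1`, `r + 1`
satisfy `i + j ≥ N` and `min (i, j) ≤ e` (the difference is 2), so one of them is `≥ N - e = e + 1`. Conversely if `r = ± 1 + y`,
`y ∈ w ^ (N - e)`, then `r ^ 2 - 1 = y ^ 2 ± 2 y ∈ w ^ N` (`2 (N - e) ≥ N`, `e + (N - e) = N`). The two families are disjoint
(`2 ∉ w ^ (N - e)` as `N - e > e`) and each has `card (w ^ (N - e) / w ^ N)` elements, which is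
`card (𝓞 F ⧸ w ^ N) / card (𝓞 F ⧸ w ^ (N - e)) = card (𝓞 F ⧸ w) ^ e = card (𝓞 F ⧸ w ^ e)` (`cardQuot_pow_of_prime`, `Ideal.absNorm` multiplicative).
-/

set_option autoImplicit false
set_option linter.unusedSectionVars false

namespace Pool.Agent.Work.MP_787500_nt.HN

open IsDedekindDomain NumberField WithZero

variable {F : Type*} [Field F] [NumberField F]

private theorem LocCount_pos (w : HeightOneSpectrum (𝓞 F)) (n : ℕ) :
    0 < Nat.card (𝓞 F ⧸ w.asIdeal ^ n) := by
  have h : Ideal.absNorm (w.asIdeal ^ n) ≠ 0 := by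
    rw [map_pow]
    exact pow_ne_zero _ (Ideal.absNorm_eq_zero_iff.not.2 w.ne_bot)
  exact Nat.pos_of_ne_zero h

private theorem LocCount_pow (w : HeightOneSpectrum (𝓞 F)) (n : ℕ) :
    Nat.card (𝓞 F ⧸ w.asIdeal ^ n) = Ideal.absNorm w.asIdeal ^ n := by
  rw [← map_pow]
  rfl

private theorem LocCount_mem (w : HeightOneSpectrum (𝓞 F)) (r : 𝓞 F) (n : ℕ) :
    r ∈ w.asIdeal ^ n ↔ w.valuation F (algebraMap (𝓞 F) F r) ≤ exp (-(n : ℤ)) := by
  rw [HeightOneSpectrum.valuation_of_algebraMap, HeightOneSpectrum.intValuation_le_pow_iff_mem]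

private theorem LocCount_memI (w : HeightOneSpectrum (𝓞 F)) (r : 𝓞 F) :
    r ∈ w.asIdeal ^ (2 * ee w + 1) ↔
      w.valuation F (algebraMap (𝓞 F) F r) < exp (-(2 * (ee w : ℤ))) := by
  rw [LocCount_mem]
  by_cases h : w.valuation F (algebraMap (𝓞 F) F r) = 0
  · rw [h]
    exact ⟨fun _ => zero_lt_iff.2 exp_ne_zero, fun _ => zero_le⟩
  · rw [← exp_log h, exp_le_exp, exp_lt_exp]
    push_cast
    omega

private theorem LocCount_two_mem (w : HeightOneSpectrum (𝓞 F)) (n : ℕ) :
    (2 : 𝓞 F) ∈ w.asIdeal ^ n ↔ n ≤ ee w := by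
  rw [LocCount_mem, map_ofNat, val_two, exp_le_exp]
  omega

private theorem LocCount_four (w : HeightOneSpectrum (𝓞 F)) :
    w.valuation F (4 : F) = exp (-(2 * (ee w : ℤ))) := by
  rw [show (4 : F) = 2 * 2 by norm_num, map_mul, val_two, ← exp_add]
  congr 1
  ring

/-- the number of square roots of 1 modulo `w ^ (2 e + 1)` -/
private theorem LocCount_roots (w : HeightOneSpectrum (𝓞 F)) :
    {ρ : 𝓞 F ⧸ w.asIdeal ^ (2 * ee w + 1) | ρ ^ 2 = 1}.ncard =
      2 * Nat.card (𝓞 F ⧸ w.asIdeal ^ ee w) := by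
  set e := ee w with he
  set I := w.asIdeal ^ (2 * e + 1) with hI
  have hIJ : I ≤ w.asIdeal ^ (e + 1) := Ideal.pow_le_pow_right (by omega)
  set J : Ideal (𝓞 F ⧸ I) := (w.asIdeal ^ (e + 1)).map (Ideal.Quotient.mk I) with hJ
  have hmemJ : ∀ r : 𝓞 F, Ideal.Quotient.mk I r ∈ J ↔ r ∈ w.asIdeal ^ (e + 1) :=
    fun r => Ideal.mem_quotient_iff_mem hIJ
  haveI : Finite (𝓞 F ⧸ I) := Nat.finite_of_card_ne_zero (LocCount_pos w (2 * e + 1)).ne'
  have hcardJ : Nat.card J = Nat.card (𝓞 F ⧸ w.asIdeal ^ e) := by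
    have h1 := Submodule.card_eq_card_quotient_mul_card J
    have h2 : Nat.card ((𝓞 F ⧸ I) ⧸ J) = Nat.card (𝓞 F ⧸ w.asIdeal ^ (e + 1)) :=
      Nat.card_congr (DoubleQuot.quotQuotEquivQuotOfLE hIJ).toEquiv
    have h3 : Nat.card (𝓞 F ⧸ I) = Ideal.absNorm w.asIdeal ^ (2 * e + 1) :=
      LocCount_pow w (2 * e + 1)
    rw [h2, h3, LocCount_pow] at h1
    rw [LocCount_pow]
    have hq : 0 < Ideal.absNorm w.asIdeal ^ (e + 1) := by
      rw [← LocCount_pow]
      exact LocCount_pos w _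
    refine Nat.eq_of_mul_eq_mul_right hq ?_
    rw [← h1, ← pow_add]
    congr 1
    omega
  have hset : {ρ : 𝓞 F ⧸ I | ρ ^ 2 = 1} =
      (fun j => 1 + j) '' (J : Set (𝓞 F ⧸ I)) ∪ (fun j => -1 + j) '' (J : Set (𝓞 F ⧸ I)) := by
    ext ρ
    obtain ⟨r, rfl⟩ := Ideal.Quotient.mk_surjective ρ
    constructor
    · intro h
      have h1 : (Ideal.Quotient.mk I r) ^ 2 = 1 := h
      have h2 : (r - 1) * (r + 1) ∈ I := by
        rw [← Ideal.Quotient.eq_zero_iff_mem, map_mul, map_sub, map_add, map_one,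
          show (Ideal.Quotient.mk I r - 1) * (Ideal.Quotient.mk I r + 1) =
            Ideal.Quotient.mk I r ^ 2 - 1 by ring, h1, sub_self]
      by_cases h3 : r - 1 ∈ w.asIdeal ^ (e + 1)
      · left
        refine ⟨Ideal.Quotient.mk I (r - 1), (hmemJ _).2 h3, ?_⟩
        show 1 + Ideal.Quotient.mk I (r - 1) = _
        rw [map_sub, map_one]
        ring
      · by_cases h4 : r + 1 ∈ w.asIdeal ^ (e + 1)
        · right
          refine ⟨Ideal.Quotient.mk I (r + 1), (hmemJ _).2 h4, ?_⟩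
          show -1 + Ideal.Quotient.mk I (r + 1) = _
          rw [map_add, map_one]
          ring
        · exfalso
          rw [LocCount_mem] at h2 h3 h4
          have n3 : w.valuation F (algebraMap (𝓞 F) F (r - 1)) ≠ 0 := by
            intro h0
            rw [h0] at h3
            exact h3 zero_le
          have n4 : w.valuation F (algebraMap (𝓞 F) F (r + 1)) ≠ 0 := by
            intro h0
            rw [h0] at h4
            exact h4 zero_le
          rw [map_mul, map_mul, ← exp_log n3, ← exp_log n4, ← exp_add, exp_le_exp] at h2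
          rw [← exp_log n3, exp_le_exp] at h3
          rw [← exp_log n4, exp_le_exp] at h4
          push_cast at h2 h3 h4
          omega
    · have hsq : ∀ y ∈ w.asIdeal ^ (e + 1), y ^ 2 ∈ I := by
        intro y hy
        have h1 : y ^ 2 ∈ (w.asIdeal ^ (e + 1)) ^ 2 := Ideal.pow_mem_pow hy 2
        rw [← pow_mul] at h1
        exact Ideal.pow_le_pow_right (by omega) h1
      have htwo : ∀ y ∈ w.asIdeal ^ (e + 1), 2 * y ∈ I := by
        intro y hy
        have h1 : 2 * y ∈ w.asIdeal ^ e * w.asIdeal ^ (e + 1) :=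
          Ideal.mul_mem_mul ((LocCount_two_mem w e).2 le_rfl) hy
        rw [← pow_add] at h1
        exact Ideal.pow_le_pow_right (by omega) h1
      rintro (⟨j, hj, h⟩ | ⟨j, hj, h⟩)
      · obtain ⟨y, rfl⟩ := Ideal.Quotient.mk_surjective j
        have hy := (hmemJ y).1 hj
        rw [← h]
        show (1 + Ideal.Quotient.mk I y) ^ 2 = 1
        have h1 := Ideal.Quotient.eq_zero_iff_mem.2 (hsq y hy)
        have h2 := Ideal.Quotient.eq_zero_iff_mem.2 (htwo y hy)
        rw [map_pow] at h1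
        rw [map_mul, map_ofNat] at h2
        linear_combination h1 + h2
      · obtain ⟨y, rfl⟩ := Ideal.Quotient.mk_surjective j
        have hy := (hmemJ y).1 hj
        rw [← h]
        show (-1 + Ideal.Quotient.mk I y) ^ 2 = 1
        have h1 := Ideal.Quotient.eq_zero_iff_mem.2 (hsq y hy)
        have h2 := Ideal.Quotient.eq_zero_iff_mem.2 (htwo y hy)
        rw [map_pow] at h1
        rw [map_mul, map_ofNat] at h2
        linear_combination h1 - h2
  have hdisj : Disjoint ((fun j => 1 + j) '' (J : Set (𝓞 F ⧸ I)))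
      ((fun j => -1 + j) '' (J : Set (𝓞 F ⧸ I))) := by
    rw [Set.disjoint_left]
    rintro _ ⟨j, hj, rfl⟩ ⟨j', hj', h⟩
    have h1 : (2 : 𝓞 F ⧸ I) ∈ J := by
      have h2 : (2 : 𝓞 F ⧸ I) = j' - j := by
        have h3 : -1 + j' = 1 + j := h
        linear_combination -h3
      rw [h2]
      exact J.sub_mem hj' hj
    have h2 : Ideal.Quotient.mk I 2 ∈ J := by
      rw [map_ofNat]
      exact h1
    rw [hmemJ, LocCount_two_mem] at h2
    omega
  rw [hset, Set.ncard_union_eq hdisj, Set.ncard_image_of_injective _ (add_right_injective 1),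
    Set.ncard_image_of_injective _ (add_right_injective (-1)), ← two_mul, ← hcardJ]
  rfl

/-- the units at `w` -/
private def LocCount_U (w : HeightOneSpectrum (𝓞 F)) : Subgroup Fˣ where
  carrier := {x | w.valuation F (x : F) = 1}
  mul_mem' := fun {x y} hx hy => by
    have hx' : w.valuation F (x : F) = 1 := hx
    have hy' : w.valuation F (y : F) = 1 := hy
    show w.valuation F ((x * y : Fˣ) : F) = 1
    rw [Units.val_mul, map_mul, hx', hy', one_mul]
  one_mem' := by
    show w.valuation F ((1 : Fˣ) : F) = 1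
    rw [Units.val_one, map_one]
  inv_mem' := fun {x} hx => by
    have hx' : w.valuation F (x : F) = 1 := hx
    show w.valuation F ((x⁻¹ : Fˣ) : F) = 1
    rw [Units.val_inv_eq_inv_val, map_inv₀, hx', inv_one]

private theorem LocCount_memU {w : HeightOneSpectrum (𝓞 F)} {x : Fˣ} :
    x ∈ LocCount_U w ↔ w.valuation F (x : F) = 1 := Iff.rfl

private theorem LocCount_ex (w : HeightOneSpectrum (𝓞 F)) (u : LocCount_U w) :
    ∃ r : 𝓞 F, w.valuation F (algebraMap (𝓞 F) F r - ((u : Fˣ) : F)) <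
      exp (-(2 * (ee w : ℤ))) :=
  HeightOneSpectrum.exists_valuation_sub_lt_of_integer w (le_of_eq (LocCount_memU.1 u.2))
    (Units.mk0 (exp (-(2 * (ee w : ℤ)))) exp_ne_zero)

private theorem LocCount_le (w : HeightOneSpectrum (𝓞 F)) : exp (-(2 * (ee w : ℤ))) ≤
    (1 : WithZero (Multiplicative ℤ)) := by
  rw [← exp_zero, exp_le_exp]
  omega

private theorem LocCount_eq (w : HeightOneSpectrum (𝓞 F)) {r s : 𝓞 F} {x : F}
    (hr : w.valuation F (algebraMap (𝓞 F) F r - x) < exp (-(2 * (ee w : ℤ))))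
    (hs : w.valuation F (algebraMap (𝓞 F) F s - x) < exp (-(2 * (ee w : ℤ)))) :
    Ideal.Quotient.mk (w.asIdeal ^ (2 * ee w + 1)) r =
      Ideal.Quotient.mk (w.asIdeal ^ (2 * ee w + 1)) s := by
  rw [Ideal.Quotient.eq, LocCount_memI, map_sub]
  have e1 : algebraMap (𝓞 F) F r - algebraMap (𝓞 F) F s =
      (algebraMap (𝓞 F) F r - x) - (algebraMap (𝓞 F) F s - x) := by ring
  rw [e1]
  exact lt_of_le_of_lt (Valuation.map_sub _ _ _) (max_lt hr hs)

/-- reduction of units modulo `w ^ (2 e + 1)` -/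
private noncomputable def LocCount_res (w : HeightOneSpectrum (𝓞 F)) :
    LocCount_U w →* 𝓞 F ⧸ w.asIdeal ^ (2 * ee w + 1) where
  toFun u := Ideal.Quotient.mk _ (LocCount_ex w u).choose
  map_one' := by
    rw [← map_one (Ideal.Quotient.mk (w.asIdeal ^ (2 * ee w + 1)))]
    refine LocCount_eq w (LocCount_ex w 1).choose_spec ?_
    rw [map_one]
    show w.valuation F (1 - ((1 : Fˣ) : F)) < _
    rw [Units.val_one, sub_self, map_zero]
    exact zero_lt_iff.2 exp_ne_zero
  map_mul' u u' := by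
    rw [← map_mul]
    refine LocCount_eq w (LocCount_ex w (u * u')).choose_spec ?_
    have h1 := (LocCount_ex w u).choose_spec
    have h2 := (LocCount_ex w u').choose_spec
    set r := (LocCount_ex w u).choose
    set r' := (LocCount_ex w u').choose
    have e1 : algebraMap (𝓞 F) F (r * r') - (((u * u' : LocCount_U w) : Fˣ) : F) =
        (algebraMap (𝓞 F) F r - ((u : Fˣ) : F)) * ((u' : Fˣ) : F) +
          algebraMap (𝓞 F) F r * (algebraMap (𝓞 F) F r' - ((u' : Fˣ) : F)) := by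
      rw [map_mul, Subgroup.coe_mul, Units.val_mul]
      ring
    rw [e1]
    refine lt_of_le_of_lt (Valuation.map_add _ _ _) (max_lt ?_ ?_)
    · rw [map_mul, LocCount_memU.1 u'.2, mul_one]
      exact h1
    · rw [map_mul]
      calc _ ≤ 1 * w.valuation F (algebraMap (𝓞 F) F r' - ((u' : Fˣ) : F)) := by
            gcongr
            exact w.valuation_le_one r
        _ < _ := by
          rw [one_mul]
          exact h2

private theorem LocCount_res_eq (w : HeightOneSpectrum (𝓞 F)) (u : LocCount_U w) {r : 𝓞 F}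
    (hr : w.valuation F (algebraMap (𝓞 F) F r - ((u : Fˣ) : F)) < exp (-(2 * (ee w : ℤ)))) :
    LocCount_res w u = Ideal.Quotient.mk _ r :=
  LocCount_eq w (LocCount_ex w u).choose_spec hr

private theorem LocCount_res_iff (w : HeightOneSpectrum (𝓞 F)) (u u' : LocCount_U w) :
    LocCount_res w u = LocCount_res w u' ↔
      w.valuation F (((u : Fˣ) : F) - ((u' : Fˣ) : F)) < exp (-(2 * (ee w : ℤ))) := by
  have h1 := (LocCount_ex w u).choose_spec
  have h2 := (LocCount_ex w u').choose_spec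
  set r := (LocCount_ex w u).choose
  set r' := (LocCount_ex w u').choose
  rw [LocCount_res_eq w u h1, LocCount_res_eq w u' h2, Ideal.Quotient.eq, LocCount_memI, map_sub]
  constructor
  · intro h
    have e1 : ((u : Fˣ) : F) - ((u' : Fˣ) : F) =
        (algebraMap (𝓞 F) F r - algebraMap (𝓞 F) F r') -
          (algebraMap (𝓞 F) F r - ((u : Fˣ) : F)) + (algebraMap (𝓞 F) F r' - ((u' : Fˣ) : F)) := by
      ring
    rw [e1]
    exact lt_of_le_of_lt (Valuation.map_add _ _ _)
      (max_lt (lt_of_le_of_lt (Valuation.map_sub _ _ _) (max_lt h h1)) h2)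
  · intro h
    have e1 : algebraMap (𝓞 F) F r - algebraMap (𝓞 F) F r' =
        (((u : Fˣ) : F) - ((u' : Fˣ) : F)) +
          (algebraMap (𝓞 F) F r - ((u : Fˣ) : F)) - (algebraMap (𝓞 F) F r' - ((u' : Fˣ) : F)) := by
      ring
    rw [e1]
    exact lt_of_le_of_lt (Valuation.map_sub _ _ _)
      (max_lt (lt_of_le_of_lt (Valuation.map_add _ _ _) (max_lt h h1)) h2)

private noncomputable def LocCount_ru (w : HeightOneSpectrum (𝓞 F)) :
    LocCount_U w →* (𝓞 F ⧸ w.asIdeal ^ (2 * ee w + 1))ˣ := (LocCount_res w).toHomUnits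

private theorem LocCount_ru_val (w : HeightOneSpectrum (𝓞 F)) (u : LocCount_U w) :
    (LocCount_ru w u : 𝓞 F ⧸ w.asIdeal ^ (2 * ee w + 1)) = LocCount_res w u := rfl

private theorem LocCount_ru_surj (w : HeightOneSpectrum (𝓞 F)) :
    Function.Surjective (LocCount_ru w) := by
  intro ρ
  obtain ⟨r, hr⟩ := Ideal.Quotient.mk_surjective (ρ : 𝓞 F ⧸ w.asIdeal ^ (2 * ee w + 1))
  obtain ⟨s, hs⟩ := Ideal.Quotient.mk_surjective
    ((ρ⁻¹ : (𝓞 F ⧸ w.asIdeal ^ (2 * ee w + 1))ˣ) : 𝓞 F ⧸ w.asIdeal ^ (2 * ee w + 1))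
  have hrw : r ∉ w.asIdeal := by
    intro h
    have h1 : Ideal.Quotient.mk (w.asIdeal ^ (2 * ee w + 1)) (r * s - 1) = 0 := by
      rw [map_sub, map_mul, hr, hs, map_one, Units.mul_inv, sub_self]
    rw [Ideal.Quotient.eq_zero_iff_mem] at h1
    have h2 : r * s - 1 ∈ w.asIdeal := Ideal.pow_le_self (by omega) h1
    have h3 : (1 : 𝓞 F) ∈ w.asIdeal := by
      have h4 := w.asIdeal.sub_mem (w.asIdeal.mul_mem_right s h) h2
      rwa [sub_sub_cancel] at h4
    exact w.isPrime.ne_top ((Ideal.eq_top_iff_one _).2 h3)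
  have hv : w.valuation F (algebraMap (𝓞 F) F r) = 1 :=
    (HeightOneSpectrum.valuation_eq_one_iff_notMem w).2 hrw
  have hr0 : algebraMap (𝓞 F) F r ≠ 0 := by
    intro h0
    rw [h0, map_zero] at hv
    exact zero_ne_one hv
  refine ⟨⟨Units.mk0 _ hr0, hv⟩, ?_⟩
  apply Units.ext
  rw [LocCount_ru_val, ← hr]
  apply LocCount_res_eq
  rw [Units.val_mk0, sub_self, map_zero]
  exact zero_lt_iff.2 exp_ne_zero

private theorem LocCount_sq (w : HeightOneSpectrum (𝓞 F)) (u : LocCount_U w) :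
    (u : Fˣ) ∈ LS w ↔ LocCount_ru w u ∈
      (powMonoidHom 2 : (𝓞 F ⧸ w.asIdeal ^ (2 * ee w + 1))ˣ →* _).range := by
  constructor
  · intro h
    obtain ⟨y, hy⟩ := h (exp (-(2 * (ee w : ℤ)))) exp_ne_zero
    have hvu : w.valuation F ((u : Fˣ) : F) = 1 := LocCount_memU.1 u.2
    have hy1 : w.valuation F (y ^ 2) = 1 := by
      have h6 : w.valuation F (y ^ 2 - ((u : Fˣ) : F)) < w.valuation F ((u : Fˣ) : F) := by
        rw [Valuation.map_sub_swap, hvu]
        exact lt_of_lt_of_le hy (LocCount_le w)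
      have h7 := Valuation.map_add_eq_of_lt_left (w.valuation F) h6
      rwa [hvu, show ((u : Fˣ) : F) + (y ^ 2 - ((u : Fˣ) : F)) = y ^ 2 by ring] at h7
    have hy2 : w.valuation F y = 1 := by
      rw [map_pow] at hy1
      exact (pow_left_inj₀ zero_le zero_le two_ne_zero).1 (by rw [hy1, one_pow])
    have hy0 : y ≠ 0 := by
      rintro rfl
      rw [map_zero] at hy2
      exact zero_ne_one hy2
    refine ⟨LocCount_ru w ⟨Units.mk0 y hy0, hy2⟩, ?_⟩
    show (LocCount_ru w ⟨Units.mk0 y hy0, hy2⟩) ^ 2 = _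
    rw [← map_pow]
    apply Units.ext
    rw [LocCount_ru_val, LocCount_ru_val, LocCount_res_iff, Valuation.map_sub_swap]
    exact hy
  · rintro ⟨ρ, hρ⟩
    obtain ⟨y, rfl⟩ := LocCount_ru_surj w ρ
    have h1 : LocCount_ru w (y ^ 2) = LocCount_ru w u := by
      rw [map_pow]
      exact hρ
    have h2 := congrArg Units.val h1
    rw [LocCount_ru_val, LocCount_ru_val, LocCount_res_iff, Valuation.map_sub_swap] at h2
    have h3 : w.valuation F (((u : Fˣ) : F) - (((y : Fˣ) ^ 2 : Fˣ) : F)) <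
        w.valuation F (4 * (((y : Fˣ) ^ 2 : Fˣ) : F)) := by
      rw [map_mul, LocCount_four, Units.val_pow_eq_pow_val, map_pow, LocCount_memU.1 y.2,
        one_pow, mul_one]
      exact h2
    exact (LS_of_close h3).2 (sq_mem_LS _)

private theorem LocCount_relIndex (w : HeightOneSpectrum (𝓞 F)) :
    (LS w).relIndex (LocCount_U w) = 2 * Nat.card (𝓞 F ⧸ w.asIdeal ^ ee w) := by
  haveI : Finite (𝓞 F ⧸ w.asIdeal ^ (2 * ee w + 1)) :=
    Nat.finite_of_card_ne_zero (LocCount_pos w (2 * ee w + 1)).ne'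
  have h1 : (LS w).subgroupOf (LocCount_U w) =
      ((powMonoidHom 2 : (𝓞 F ⧸ w.asIdeal ^ (2 * ee w + 1))ˣ →* _).range).comap
        (LocCount_ru w) := by
    ext u
    rw [Subgroup.mem_subgroupOf, Subgroup.mem_comap]
    exact LocCount_sq w u
  have h2 : (LS w).relIndex (LocCount_U w) =
      ((powMonoidHom 2 : (𝓞 F ⧸ w.asIdeal ^ (2 * ee w + 1))ˣ →* _).range).index := by
    show ((LS w).subgroupOf (LocCount_U w)).index = _
    rw [h1, Subgroup.index_comap_of_surjective _ (LocCount_ru_surj w)]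
  rw [h2, ← LocCount_roots w]
  generalize hf : (powMonoidHom 2 : (𝓞 F ⧸ w.asIdeal ^ (2 * ee w + 1))ˣ →* _) = f
  have h3 := Subgroup.card_mul_index f.ker
  rw [Subgroup.index_ker, ← Subgroup.card_mul_index f.range, mul_comm] at h3
  have h4 : 0 < Nat.card f.range := Nat.card_pos
  have h5 := Nat.eq_of_mul_eq_mul_left h4 h3
  rw [← h5]
  have h6 : {ρ : 𝓞 F ⧸ w.asIdeal ^ (2 * ee w + 1) | ρ ^ 2 = 1} =
      Units.val '' (f.ker : Set (𝓞 F ⧸ w.asIdeal ^ (2 * ee w + 1))ˣ) := by
    ext ρ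
    constructor
    · intro h
      have h7 : ρ ^ 2 = 1 := h
      have h8 : ρ * ρ = 1 := by rw [← pow_two]; exact h7
      refine ⟨⟨ρ, ρ, h8, h8⟩, ?_, rfl⟩
      rw [SetLike.mem_coe, MonoidHom.mem_ker, ← hf]
      apply Units.ext
      exact h7
    · rintro ⟨x, hx, rfl⟩
      rw [SetLike.mem_coe, MonoidHom.mem_ker, ← hf] at hx
      have h7 := congrArg Units.val hx
      exact h7
  rw [h6, Set.ncard_image_of_injective _ Units.val_injective]
  rfl

private theorem LocCount_even (w : HeightOneSpectrum (𝓞 F)) (x : Fˣ) :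
    x ∈ LocCount_U w ⊔ LS w ↔ Even (log (w.valuation F (x : F))) := by
  have hne : ∀ y : Fˣ, w.valuation F (y : F) ≠ 0 := fun y => (Valuation.ne_zero_iff _).2 y.ne_zero
  constructor
  · intro h
    obtain ⟨u, hu, z, hz, rfl⟩ := Subgroup.mem_sup.1 h
    obtain ⟨y, hy⟩ := hz (w.valuation F (z : F)) (hne z)
    have h1 : w.valuation F (z : F) = w.valuation F y ^ 2 := by
      have h6 : w.valuation F (y ^ 2 - (z : F)) < w.valuation F (z : F) := by
        rw [Valuation.map_sub_swap]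
        exact hy
      have h7 := Valuation.map_add_eq_of_lt_left (w.valuation F) h6
      rw [show (z : F) + (y ^ 2 - (z : F)) = y ^ 2 by ring, map_pow] at h7
      exact h7.symm
    rw [Units.val_mul, map_mul, LocCount_memU.1 hu, one_mul, h1, log_pow]
    simp
  · rintro ⟨k, hk⟩
    obtain ⟨π, hπ⟩ := w.valuation_exists_uniformizer F
    have hπ0 : π ≠ 0 := by
      rintro rfl
      rw [map_zero] at hπ
      exact exp_ne_zero hπ.symm
    set z : Fˣ := Units.mk0 π hπ0 ^ (-k) with hz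
    have hzv : w.valuation F (z : F) = exp k := by
      rw [hz, Units.val_zpow_eq_zpow_val, Units.val_mk0, map_zpow₀, hπ, ← exp_zsmul]
      simp
    have hx : x = (x / z ^ 2) * z ^ 2 := by rw [div_mul_cancel]
    rw [hx]
    refine Subgroup.mul_mem_sup ?_ (sq_mem_LS z)
    rw [LocCount_memU, Units.val_div_eq_div_val, map_div₀, Units.val_pow_eq_pow_val, map_pow, hzv,
      ← exp_log (hne x), hk, ← exp_nsmul, ← exp_sub]
    simp [two_mul]

private theorem LocCount_two (w : HeightOneSpectrum (𝓞 F)) :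
    (LocCount_U w ⊔ LS w).index = 2 := by
  rw [Subgroup.index_eq_two_iff]
  obtain ⟨π, hπ⟩ := w.valuation_exists_uniformizer F
  have hπ0 : π ≠ 0 := by
    rintro rfl
    rw [map_zero] at hπ
    exact exp_ne_zero hπ.symm
  refine ⟨Units.mk0 π hπ0, fun b => ?_⟩
  have hb : w.valuation F (b : F) ≠ 0 := (Valuation.ne_zero_iff _).2 b.ne_zero
  rw [LocCount_even, LocCount_even, Units.val_mul, Units.val_mk0, map_mul, hπ,
    log_mul hb exp_ne_zero, log_exp]
  rcases Int.even_or_odd (log (w.valuation F (b : F))) with h | h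
  · right
    refine ⟨h, ?_⟩
    rw [Int.not_even_iff_odd]
    exact h.add_odd (by decide)
  · left
    exact ⟨h.add_odd (by decide), by rwa [Int.not_even_iff_odd]⟩

theorem card_LS (w : HeightOneSpectrum (𝓞 F)) :
    (LS w).index = 4 * Nat.card (𝓞 F ⧸ w.asIdeal ^ ee w) := by
  have h1 := Subgroup.relIndex_mul_index (H := LS w) (K := LocCount_U w ⊔ LS w) le_sup_right
  rw [Subgroup.relIndex_sup_right, LocCount_relIndex, LocCount_two] at h1
  rw [← h1]
  ring

theorem card_quot_pos (w : HeightOneSpectrum (𝓞 F)) (n : ℕ) :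
    0 < Nat.card (𝓞 F ⧸ w.asIdeal ^ n) := by
  exact LocCount_pos w n

end Pool.Agent.Work.MP_787500_nt.HN
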