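import Mathlib
import Pool.Agent.Work.MP_787500_nt.HN.Defs

/-!
# Module QUADEX (size M): the quadratic extension

* `exists_qext`: `a` is not a square (`a ∉ sq F`; an element `y : F` with `y ^ 2 = a` is a unit). `E = AdjoinRoot (X ^ 2 - C a)`: the
  polynomial is irreducible (degree 2, no root; `X_pow_sub_C_irreducible_of_prime` or similar); `E` is a field of
  degree 2 over `F` (power basis), `NumberField E` (characteristic zero, finite over `ℚ` by `Module.Finite.trans`),
  `t = root`, `σ` from `AdjoinRoot.liftAlgHom` with `t ↦ -t` (an involution), `hE`: every element is a polynomial of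
  degree `< 2` in `t`. The universe of `E` is that of `F`. Totally complex: a real place of `E` would restrict to a
  real place of `F` (an embedding `φ : E →+* ℂ` with real image restricts to `F` with real image; see
  `NumberField.IsTotallyComplex` in Mathlib, perhaps there is already a lemma for extensions).
* `QExt.inv`: `σ (σ x) = x` (on `algebraMap b + algebraMap c * t`).
* `QExt.norm`: `(b + c t) σ (b + c t) = b ^ 2 - a c ^ 2`.
* `QExt.exists_norm`: from `norm` (`b ^ 2 - a c ^ 2` is not 0 as the product is a unit).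
* `QExt.fix`: `σ x = x` implies `c t = -c t`, `c = 0`.
* `QExt.ker_sq`: `y ^ 2 = x ∈ F`, `y = b + c t`: `y ^ 2 = b ^ 2 + a c ^ 2 + 2 b c t`, so `b c = 0` (`1, t` are
  independent: `a` is not a square): `c = 0`, `x = b ^ 2`, or `b = 0`, `x = a c ^ 2`, `x a = (a c) ^ 2`.
* `QExt.hilbert`: `u σ u = 1`: `y = 1 + u` if `u ≠ -1` (`u σ y = u + 1`), `y = t` if `u = -1`.
* `QExt.finrank`: `Module.finrank F E = 2`: `1, t` is a basis, tower law.
-/

set_option autoImplicit false
set_option linter.unusedSectionVars false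

namespace Pool.Agent.Work.MP_787500_nt.HN

open IsDedekindDomain NumberField WithZero

universe u

theorem exists_qext {F : Type u} [Field F] [NumberField F] {a : Fˣ} (ha : a ∉ sq F) :
    ∃ (E : Type u) (_ : Field E) (_ : NumberField E) (_ : Algebra F E), Nonempty (QExt F E a) ∧
      (IsTotallyComplex F → IsTotallyComplex E) := by
  classical
  have hirr : Irreducible (Polynomial.X ^ 2 - Polynomial.C (a : F)) := by
    refine X_pow_sub_C_irreducible_of_prime Nat.prime_two fun b hb => ha ?_
    have hb0 : b ≠ 0 := by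
      rintro rfl
      rw [zero_pow two_ne_zero] at hb
      exact a.ne_zero hb.symm
    exact ⟨Units.mk0 b hb0, Units.ext (by simpa using hb)⟩
  haveI : Fact (Irreducible (Polynomial.X ^ 2 - Polynomial.C (a : F))) := ⟨hirr⟩
  have hmonic : (Polynomial.X ^ 2 - Polynomial.C (a : F)).Monic :=
    Polynomial.monic_X_pow_sub_C _ two_ne_zero
  haveI : Module.Finite F (AdjoinRoot (Polynomial.X ^ 2 - Polynomial.C (a : F))) :=
    hmonic.finite_adjoinRoot
  have hNF : NumberField (AdjoinRoot (Polynomial.X ^ 2 - Polynomial.C (a : F))) :=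
    NumberField.of_module_finite F _
  have ht : (AdjoinRoot.root (Polynomial.X ^ 2 - Polynomial.C (a : F))) ^ 2 =
      algebraMap F (AdjoinRoot (Polynomial.X ^ 2 - Polynomial.C (a : F))) a := by
    have h1 := AdjoinRoot.eval₂_root (Polynomial.X ^ 2 - Polynomial.C (a : F))
    rw [Polynomial.eval₂_sub, Polynomial.eval₂_pow, Polynomial.eval₂_X, Polynomial.eval₂_C,
      sub_eq_zero] at h1
    exact h1
  have hσ0 : Polynomial.eval₂
      ((Algebra.ofId F (AdjoinRoot (Polynomial.X ^ 2 - Polynomial.C (a : F))) : F →ₐ[F] _) :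
        F →+* AdjoinRoot (Polynomial.X ^ 2 - Polynomial.C (a : F)))
      (-(AdjoinRoot.root (Polynomial.X ^ 2 - Polynomial.C (a : F))))
      (Polynomial.X ^ 2 - Polynomial.C (a : F)) = 0 := by
    rw [Polynomial.eval₂_sub, Polynomial.eval₂_pow, Polynomial.eval₂_X, Polynomial.eval₂_C,
      neg_sq, ht, sub_eq_zero]
    rfl
  let f : AdjoinRoot (Polynomial.X ^ 2 - Polynomial.C (a : F)) →ₐ[F]
      AdjoinRoot (Polynomial.X ^ 2 - Polynomial.C (a : F)) :=
    AdjoinRoot.liftAlgHom _ (Algebra.ofId F _) _ hσ0
  have hf : f (AdjoinRoot.root _) = -(AdjoinRoot.root _) := AdjoinRoot.lift_root hσ0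
  have hff : f.comp f = AlgHom.id F _ := by
    apply AdjoinRoot.algHom_ext
    rw [AlgHom.comp_apply, hf, map_neg, hf, neg_neg]
    rfl
  refine ⟨AdjoinRoot (Polynomial.X ^ 2 - Polynomial.C (a : F)), inferInstance, hNF, inferInstance,
    ⟨⟨AdjoinRoot.root _, ht, ?_, AlgEquiv.ofAlgHom f f hff hff, hf, ha⟩⟩, ?_⟩
  · intro x
    obtain ⟨p, rfl⟩ := AdjoinRoot.mk_surjective x
    have hne1 : (Polynomial.X ^ 2 - Polynomial.C (a : F)) ≠ 1 := by
      intro h
      have := congrArg Polynomial.natDegree h
      rw [Polynomial.natDegree_X_pow_sub_C, Polynomial.natDegree_one] at this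
      exact two_ne_zero this
    have hdeg := Polynomial.natDegree_modByMonic_lt p hmonic hne1
    rw [Polynomial.natDegree_X_pow_sub_C] at hdeg
    obtain ⟨c, b, hcb⟩ := Polynomial.exists_eq_X_add_C_of_natDegree_le_one
      (Nat.lt_succ_iff.1 hdeg)
    refine ⟨b, c, ?_⟩
    have h1 := Polynomial.modByMonic_add_div p (Polynomial.X ^ 2 - Polynomial.C (a : F))
    conv_lhs => rw [← h1]
    rw [map_add, map_mul, AdjoinRoot.mk_self, zero_mul, add_zero, hcb, map_add, map_mul,
      AdjoinRoot.mk_X, AdjoinRoot.mk_C, AdjoinRoot.mk_C, add_comm]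
    rfl
  · intro hF
    exact NumberField.isTotallyComplex_of_algebra F _

variable {F E : Type*} [Field F] [Field E] [Algebra F E] {a : Fˣ}

theorem QExt.inv (q : QExt F E a) (x : E) : q.σ (q.σ x) = x := by
  obtain ⟨b, c, rfl⟩ := q.hE x
  rw [map_add, map_mul, AlgEquiv.commutes, AlgEquiv.commutes, q.hσ, map_add, map_mul, map_neg,
    AlgEquiv.commutes, AlgEquiv.commutes, q.hσ, neg_neg]

theorem QExt.norm (q : QExt F E a) (b c : F) :
    (algebraMap F E b + algebraMap F E c * q.t) * q.σ (algebraMap F E b + algebraMap F E c * q.t) =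
      algebraMap F E (b ^ 2 - a * c ^ 2) := by
  rw [map_add, map_mul, AlgEquiv.commutes, AlgEquiv.commutes, q.hσ, map_sub, map_pow, map_mul,
    map_pow, ← q.ht]
  ring

theorem QExt.exists_norm (q : QExt F E a) (y : Eˣ) :
    ∃ x : Fˣ, x ∈ Nm a ∧ algebraMap F E (x : F) = (y : E) * q.σ y := by
  obtain ⟨b, c, h⟩ := q.hE y
  have h1 := q.norm b c
  rw [← h] at h1
  have h2 : b ^ 2 - a * c ^ 2 ≠ 0 := by
    intro h0
    rw [h0, map_zero, mul_eq_zero] at h1
    rcases h1 with h1 | h1
    · exact y.ne_zero h1
    · exact y.ne_zero ((map_eq_zero_iff q.σ q.σ.injective).1 h1)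
  exact ⟨Units.mk0 _ h2, ⟨b, c, rfl⟩, h1.symm⟩

/-- the inclusion of the unit groups -/
def im (F E : Type*) [Field F] [Field E] [Algebra F E] : Fˣ →* Eˣ :=
  Units.map (algebraMap F E : F →* E)

theorem im_val (x : Fˣ) : (im F E x : E) = algebraMap F E (x : F) := rfl

/-- the norm -/
noncomputable def QExt.N (q : QExt F E a) : Eˣ →* Fˣ where
  toFun y := (q.exists_norm y).choose
  map_one' := by
    apply Units.ext
    apply (algebraMap F E).injective
    rw [(q.exists_norm 1).choose_spec.2]
    simp
  map_mul' x y := by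
    apply Units.ext
    apply (algebraMap F E).injective
    rw [(q.exists_norm (x * y)).choose_spec.2, Units.val_mul, Units.val_mul, map_mul, map_mul,
      (q.exists_norm x).choose_spec.2, (q.exists_norm y).choose_spec.2]
    ring

theorem QExt.N_val (q : QExt F E a) (y : Eˣ) :
    algebraMap F E (q.N y : F) = (y : E) * q.σ y := (q.exists_norm y).choose_spec.2

theorem QExt.N_range (q : QExt F E a) : q.N.range = Nm a := by
  ext x
  constructor
  · rintro ⟨y, rfl⟩
    exact (q.exists_norm y).choose_spec.1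
  · rintro ⟨b, c, h⟩
    have h1 := q.norm b c
    rw [← h] at h1
    have hy : algebraMap F E b + algebraMap F E c * q.t ≠ 0 := by
      intro h0
      rw [h0, zero_mul] at h1
      exact x.ne_zero ((map_eq_zero_iff _ (algebraMap F E).injective).1 h1.symm)
    refine ⟨Units.mk0 _ hy, ?_⟩
    apply Units.ext
    apply (algebraMap F E).injective
    rw [q.N_val]
    exact h1

private theorem QExt.indep (q : QExt F E a) {b c : F}
    (h : algebraMap F E b + algebraMap F E c * q.t = 0) : b = 0 ∧ c = 0 := by
  have hc : c = 0 := by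
    by_contra hc
    apply q.nsq
    have hc' : algebraMap F E c ≠ 0 := by
      rw [Ne, map_eq_zero_iff _ (algebraMap F E).injective]
      exact hc
    have h1 : q.t = algebraMap F E (-b / c) := by
      rw [map_div₀, map_neg, eq_div_iff hc']
      linear_combination h
    have h2 := q.ht
    rw [h1, ← map_pow] at h2
    have h3 := (algebraMap F E).injective h2
    have h4 : -b / c ≠ 0 := by
      intro h0
      rw [h0, zero_pow two_ne_zero] at h3
      exact a.ne_zero h3.symm
    exact ⟨Units.mk0 _ h4, Units.ext h3⟩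
  subst hc
  rw [map_zero, zero_mul, add_zero] at h
  exact ⟨(map_eq_zero_iff _ (algebraMap F E).injective).1 h, rfl⟩

private theorem QExt.t_ne (q : QExt F E a) : q.t ≠ 0 := by
  intro h
  have h1 := q.ht
  rw [h, zero_pow two_ne_zero] at h1
  exact a.ne_zero ((map_eq_zero_iff _ (algebraMap F E).injective).1 h1.symm)

theorem QExt.fix [CharZero F] (q : QExt F E a) {x : E} (h : q.σ x = x) :
    ∃ b : F, algebraMap F E b = x := by
  obtain ⟨b, c, rfl⟩ := q.hE x
  rw [map_add, map_mul, AlgEquiv.commutes, AlgEquiv.commutes, q.hσ] at h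
  have h1 : algebraMap F E 0 + algebraMap F E (2 * c) * q.t = 0 := by
    rw [map_zero, map_mul, map_ofNat]
    linear_combination -h
  have h2 := (q.indep h1).2
  have h3 : c = 0 := by
    rcases mul_eq_zero.1 h2 with h3 | h3
    · exact absurd h3 two_ne_zero
    · exact h3
  exact ⟨b, by rw [h3, map_zero, zero_mul, add_zero]⟩

theorem QExt.ker_sq [CharZero F] (q : QExt F E a) {x : Fˣ} (h : im F E x ∈ sq E) :
    x ∈ sq F ∨ x * a ∈ sq F := by
  obtain ⟨y, hy⟩ := h
  obtain ⟨b, c, hbc⟩ := q.hE y
  have hy' : (y : E) ^ 2 = algebraMap F E (x : F) := by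
    have := congrArg (fun z : Eˣ => (z : E)) hy
    simpa [im_val] using this
  have h1 : algebraMap F E (b ^ 2 + a * c ^ 2 - x) + algebraMap F E (2 * b * c) * q.t = 0 := by
    rw [map_sub, map_add, map_pow, map_mul, map_pow, map_mul, map_mul, map_ofNat, ← q.ht, ← hy',
      hbc]
    ring
  obtain ⟨h2, h3⟩ := q.indep h1
  have h4 : b = 0 ∨ c = 0 := by
    rcases mul_eq_zero.1 h3 with h4 | h4
    · rcases mul_eq_zero.1 h4 with h5 | h5
      · exact absurd h5 two_ne_zero
      · exact Or.inl h5
    · exact Or.inr h4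
  rcases h4 with h4 | h4
  · right
    subst h4
    have hc : c ≠ 0 := by
      rintro rfl
      apply x.ne_zero
      linear_combination -h2
    refine ⟨a * Units.mk0 c hc, Units.ext ?_⟩
    simp only [powMonoidHom_apply, Units.val_pow_eq_pow_val, Units.val_mul, Units.val_mk0]
    linear_combination (a : F) * h2
  · left
    subst h4
    have hb : b ≠ 0 := by
      rintro rfl
      apply x.ne_zero
      linear_combination -h2
    refine ⟨Units.mk0 b hb, Units.ext ?_⟩
    simp only [powMonoidHom_apply, Units.val_pow_eq_pow_val, Units.val_mk0]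
    linear_combination h2

theorem QExt.hilbert (q : QExt F E a) {u : E} (h : u * q.σ u = 1) : ∃ y : Eˣ, u * q.σ y = y := by
  by_cases hu : 1 + u = 0
  · refine ⟨Units.mk0 q.t q.t_ne, ?_⟩
    rw [Units.val_mk0, q.hσ]
    linear_combination (-q.t) * hu
  · refine ⟨Units.mk0 _ hu, ?_⟩
    rw [Units.val_mk0, map_add, map_one]
    linear_combination h

theorem QExt.finrank {F E : Type*} [Field F] [NumberField F] [Field E] [NumberField E] [Algebra F E]
    {a : Fˣ} (q : QExt F E a) :
    Module.finrank F E = 2 ∧ Module.finrank ℚ E = 2 * Module.finrank ℚ F := by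
  have h1 : Module.finrank F E = 2 := by
    have hli : LinearIndependent F ![(1 : E), q.t] := by
      rw [LinearIndependent.pair_iff]
      intro b c h
      rw [Algebra.smul_def, Algebra.smul_def, mul_one] at h
      exact q.indep h
    have hsp : ⊤ ≤ Submodule.span F (Set.range ![(1 : E), q.t]) := by
      intro x _
      obtain ⟨b, c, rfl⟩ := q.hE x
      rw [Matrix.range_cons, Matrix.range_cons, Matrix.range_empty, Set.union_empty,
        Set.singleton_union, Submodule.mem_span_pair]
      exact ⟨b, c, by rw [Algebra.smul_def, Algebra.smul_def, mul_one]⟩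
    rw [Module.finrank_eq_card_basis (Module.Basis.mk hli hsp), Fintype.card_fin]
  refine ⟨h1, ?_⟩
  rw [← Module.finrank_mul_finrank ℚ F E, h1, mul_comm]

end Pool.Agent.Work.MP_787500_nt.HN
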