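import Mathlib
import Pool.Agent.Work.MP_787500_nt.HN.QuadEx
import Pool.Agent.Work.MP_787500_nt.HN.LocGrp
import Pool.Agent.Work.MP_787500_nt.HN.Weak
import Pool.Agent.Work.MP_787500_nt.GP.N3_Quad

/-!
# Module PLACES (size M-L): places in a quadratic extension

`E = F (t)`, `t ^ 2 = a`, `σ t = -t`. `below F Q` = place below `Q`, `conjPrime σ Q` = `{x | σ x ∈ Q}` (`H10_Val.lean`: `valuation_conjPrime`,
`exists_valuation_below`: `Q.valuation (algebraMap x) = (below F Q).valuation x ^ e`, `e ≥ 1`; `H10_Tower.lean`: `exists_above`).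
* `eq_or_conj`: two places of `E` above the same place of `F` are equal or conjugate: if `Q'` is different from `Q` and
  `conjPrime σ Q`, choose `x ∈ 𝓞 E` with `x ∈ Q'`, `x ∉ Q`, `x ∉ conjPrime σ Q` (prime avoidance / CRT); then
  `x * σ x ∈ 𝓞 F` is in `Q'` but not in `Q`: contradiction. (`IsGalois` transitivity from Mathlib is also possible.)
* `split_iff`: (⇒) `a ∈ LS w`: `quad_split` (`GP/N3_Quad.lean`) with `y` such that `w (a - y ^ 2) < w (4 a)`. (⇐) `Q ≠ Q'` above `w`, so `Q' = conjPrime σ Q`. Let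
  `γ ≠ 0`. By `exists_approx` in `E` there is `z` with `Q (z - t) < γ'`, `Q' (z + t) < γ'`. Then `Q (σ z - t) = Q (σ (z + t)) = Q' (z + t) < γ'` (`σ t = -t`), so
  `y = (z + σ z) / 2` is in `F` (`QExt.fix`) and `Q (y - t) < γ' / Q 2`, so `Q (y ^ 2 - a) = Q ((y - t) (y + t))` is small, and
  `w (y ^ 2 - a) ^ e = Q (y ^ 2 - a)`. So `LocSq`.
* `nonsplit_unique`: for `a ∉ LS w` there is exactly one place above `w`, it is stable under `σ`.
* `abv_card`: `Abv E A` is finite; every `w ∈ A` has two places above it if `a ∈ LS w` and one if not.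
-/

set_option autoImplicit false
set_option linter.unusedSectionVars false

namespace Pool.Agent.Work.MP_787500_nt.HN

open IsDedekindDomain NumberField WithZero

variable {F E : Type*} [Field F] [NumberField F] [Field E] [NumberField E] [Algebra F E] {a : Fˣ}

theorem below_conjPrime (q : QExt F E a) (Q : HeightOneSpectrum (𝓞 E)) :
    below F (conjPrime (q.σ : E ≃+* E) Q) = below F Q := by
  apply HeightOneSpectrum.ext
  ext x
  show RingOfIntegers.mapRingEquiv (q.σ : E ≃+* E) (algebraMap (𝓞 F) (𝓞 E) x) ∈ Q.asIdeal ↔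
    algebraMap (𝓞 F) (𝓞 E) x ∈ Q.asIdeal
  have : RingOfIntegers.mapRingEquiv (q.σ : E ≃+* E) (algebraMap (𝓞 F) (𝓞 E) x) =
      algebraMap (𝓞 F) (𝓞 E) x := by
    apply RingOfIntegers.ext
    show q.σ (algebraMap F E (algebraMap (𝓞 F) F x)) = algebraMap F E (algebraMap (𝓞 F) F x)
    exact q.σ.commutes _
  rw [this]

private theorem not_le_of_ne {Q Q' : HeightOneSpectrum (𝓞 E)} (h : Q' ≠ Q) :
    ¬ Q'.asIdeal ≤ Q.asIdeal := fun hle =>
  h (HeightOneSpectrum.ext (Q'.isMaximal.eq_of_le Q.isPrime.ne_top hle))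

private theorem val_one_of_notMem {Q : HeightOneSpectrum (𝓞 E)} {x : 𝓞 E} (h : x ∉ Q.asIdeal) :
    Q.valuation E (algebraMap (𝓞 E) E x) = 1 :=
  le_antisymm (Q.valuation_le_one x)
    (not_lt.1 fun hlt => h ((Q.valuation_lt_one_iff_mem (K := E) x).1 hlt))

theorem eq_or_conj (q : QExt F E a) {Q Q' : HeightOneSpectrum (𝓞 E)} (h : below F Q = below F Q') :
    Q' = Q ∨ Q' = conjPrime (q.σ : E ≃+* E) Q := by
  by_contra hcon
  push Not at hcon
  obtain ⟨h1, h2⟩ := hcon
  have h3 : ¬ ((Q'.asIdeal : Set (𝓞 E)) ⊆ Q.asIdeal ∪ (conjPrime (q.σ : E ≃+* E) Q).asIdeal) := by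
    rw [Ideal.subset_union]
    rintro (h4 | h4)
    · exact not_le_of_ne h1 h4
    · exact not_le_of_ne h2 h4
  obtain ⟨x, hx, hx'⟩ := Set.not_subset.1 h3
  rw [Set.mem_union, not_or] at hx'
  obtain ⟨hx1, hx2⟩ := hx'
  have hx1' : x ∉ Q.asIdeal := hx1
  have hx2' : x ∉ (conjPrime (q.σ : E ≃+* E) Q).asIdeal := hx2
  have v1 := val_one_of_notMem hx1'
  have v2 := val_one_of_notMem hx2'
  rw [valuation_conjPrime] at v2
  have hx0 : algebraMap (𝓞 E) E x ≠ 0 := by
    intro h0
    rw [h0, map_zero] at v1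
    exact zero_ne_one v1
  obtain ⟨n, -, hn⟩ := q.exists_norm (Units.mk0 _ hx0)
  rw [Units.val_mk0] at hn
  obtain ⟨e, he, hval⟩ := exists_valuation_below (K := F) Q
  obtain ⟨e', he', hval'⟩ := exists_valuation_below (K := F) Q'
  -- at `Q`
  have h5 : Q.valuation E (algebraMap F E (n : F)) = 1 := by
    rw [hn, map_mul, v1, one_mul]
    exact v2
  rw [← hval] at h5
  have h6 : (below F Q).valuation F (n : F) = 1 :=
    (pow_eq_one_iff_of_nonneg zero_le he).1 h5
  -- at `Q'`
  have h7 : Q'.valuation E (algebraMap F E (n : F)) < 1 := by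
    rw [hn, map_mul]
    have h8 : Q'.valuation E (algebraMap (𝓞 E) E x) < 1 :=
      (Q'.valuation_lt_one_iff_mem (K := E) x).2 hx
    have h9 : Q'.valuation E (q.σ (algebraMap (𝓞 E) E x)) ≤ 1 :=
      Q'.valuation_le_one (K := E) (RingOfIntegers.mapRingEquiv (q.σ : E ≃+* E) x)
    exact (mul_le_of_le_one_right' h9).trans_lt h8
  rw [← hval', ← h, h6, one_pow] at h7
  exact lt_irrefl _ h7

theorem split_iff (q : QExt F E a) (w : HeightOneSpectrum (𝓞 F)) :
    a ∈ LS w ↔ ∃ Q Q' : HeightOneSpectrum (𝓞 E), Q ≠ Q' ∧ below F Q = w ∧ below F Q' = w := by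
  classical
  constructor
  · intro h
    refine GP.quad_split q.ht a.ne_zero q.hE q.σ q.hσ ?_
    refine (mem_LS.1 h) _ ((Valuation.ne_zero_iff _).2 (mul_ne_zero ?_ a.ne_zero))
    have : (4 : F) = 2 * 2 := by norm_num
    rw [this]
    exact mul_ne_zero two_ne_zero two_ne_zero
  · rintro ⟨Q, Q', hne, hQ, hQ'⟩
    have hc : Q' = conjPrime (q.σ : E ≃+* E) Q := by
      rcases eq_or_conj q (hQ.trans hQ'.symm) with h | h
      · exact absurd h.symm hne
      · exact h
    obtain ⟨e, he, hval⟩ := exists_valuation_below (K := F) Q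
    rw [hQ] at hval
    have h2 : Q.valuation E (2 : E) ≠ 0 := (Valuation.ne_zero_iff _).2 two_ne_zero
    intro γ hγ
    obtain ⟨δ, hδ, hM⟩ := exists_lt_of_ne_zero (a := max 1 (Q.valuation E (2 * q.t)))
      (pow_ne_zero e hγ)
    have hδ' : min δ 1 * Q.valuation E 2 ≠ 0 := by
      refine mul_ne_zero ?_ h2
      rcases min_choice δ 1 with h | h <;> rw [h]
      · exact hδ
      · exact one_ne_zero
    obtain ⟨x, hx⟩ := exists_approx {Q, Q'} (fun P => if P = Q then q.t else -q.t) hδ'
    have hx1 : Q.valuation E (x - q.t) < min δ 1 * Q.valuation E 2 := by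
      have := hx Q (Finset.mem_insert_self _ _)
      rwa [if_pos rfl] at this
    have hx2 : Q'.valuation E (x + q.t) < min δ 1 * Q.valuation E 2 := by
      have := hx Q' (Finset.mem_insert_of_mem (Finset.mem_singleton_self _))
      rwa [if_neg hne.symm, sub_neg_eq_add] at this
    rw [hc, valuation_conjPrime] at hx2
    have hx3 : (q.σ : E ≃+* E) (x + q.t) = q.σ x - q.t := by
      show q.σ (x + q.t) = _
      rw [map_add, q.hσ, sub_eq_add_neg]
    rw [hx3] at hx2
    obtain ⟨y, hy⟩ := q.fix (x := (x + q.σ x) / 2) (by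
      rw [map_div₀, map_add, q.inv, map_ofNat, add_comm])
    refine ⟨y, ?_⟩
    have hy2 : Q.valuation E (algebraMap F E y - q.t) < min δ 1 := by
      have h3 : (algebraMap F E y - q.t) * 2 = (x - q.t) + (q.σ x - q.t) := by
        rw [hy]
        field_simp
        ring
      have h4 : Q.valuation E (algebraMap F E y - q.t) * Q.valuation E 2 <
          min δ 1 * Q.valuation E 2 := by
        rw [← map_mul, h3]
        exact (Valuation.map_add _ _ _).trans_lt (max_lt hx1 hx2)
      exact lt_of_mul_lt_mul_right h4 zero_le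
    have hy3 : Q.valuation E (algebraMap F E y + q.t) ≤ max 1 (Q.valuation E (2 * q.t)) := by
      have h3 : algebraMap F E y + q.t = (algebraMap F E y - q.t) + 2 * q.t := by ring
      rw [h3]
      refine (Valuation.map_add _ _ _).trans (max_le_max ?_ le_rfl)
      exact (hy2.trans_le (min_le_right _ _)).le
    have hfin : w.valuation F ((a : F) - y ^ 2) ^ e < γ ^ e := by
      rw [hval]
      have h3 : algebraMap F E ((a : F) - y ^ 2) =
          -((algebraMap F E y + q.t) * (algebraMap F E y - q.t)) := by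
        rw [map_sub, map_pow, ← q.ht]
        ring
      rw [h3, Valuation.map_neg, map_mul]
      refine (mul_le_mul_left hy3 _).trans_lt ?_
      exact hM _ (hy2.trans_le (min_le_left _ _))
    exact lt_of_pow_lt_pow_left₀ _ zero_le hfin

theorem nonsplit_unique (q : QExt F E a) {w : HeightOneSpectrum (𝓞 F)} (h : a ∉ LS w) :
    ∃ Q : HeightOneSpectrum (𝓞 E), below F Q = w ∧ conjPrime (q.σ : E ≃+* E) Q = Q ∧
      ∀ Q', below F Q' = w → Q' = Q := by
  obtain ⟨Q, hQ⟩ := exists_above (K := F) (L := E) w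
  have huniq : ∀ Q', below F Q' = w → Q' = Q := by
    intro Q' hQ'
    by_contra hne
    exact h ((split_iff q w).2 ⟨Q', Q, hne, hQ', hQ⟩)
  exact ⟨Q, hQ, huniq _ (by rw [below_conjPrime, hQ]), huniq⟩

private theorem fib_card (q : QExt F E a) (w : HeightOneSpectrum (𝓞 F)) :
    {Q : HeightOneSpectrum (𝓞 E) | below F Q = w}.Finite ∧
      (a ∈ LS w → {Q : HeightOneSpectrum (𝓞 E) | below F Q = w}.ncard = 2) ∧
      (a ∉ LS w → {Q : HeightOneSpectrum (𝓞 E) | below F Q = w}.ncard = 1) := by
  classical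
  by_cases h : a ∈ LS w
  · obtain ⟨Q, Q', hne, hQ, hQ'⟩ := (split_iff q w).1 h
    have e : {P : HeightOneSpectrum (𝓞 E) | below F P = w} = {Q, Q'} := by
      ext P
      simp only [Set.mem_ofPred_eq, Set.mem_insert_iff, Set.mem_singleton_iff]
      constructor
      · intro hP
        have hc : Q' = conjPrime (q.σ : E ≃+* E) Q := by
          rcases eq_or_conj q (hQ.trans hQ'.symm) with h | h
          · exact absurd h.symm hne
          · exact h
        rcases eq_or_conj q (hQ.trans hP.symm) with h | h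
        · exact Or.inl h
        · exact Or.inr (h.trans hc.symm)
      · rintro (rfl | rfl)
        · exact hQ
        · exact hQ'
    rw [e]
    exact ⟨Set.toFinite _, fun _ => Set.ncard_pair hne, fun h' => absurd h h'⟩
  · obtain ⟨Q, hQ, -, huniq⟩ := nonsplit_unique q h
    have e : {P : HeightOneSpectrum (𝓞 E) | below F P = w} = {Q} := by
      ext P
      simp only [Set.mem_ofPred_eq, Set.mem_singleton_iff]
      exact ⟨huniq P, fun h' => h' ▸ hQ⟩
    rw [e]
    exact ⟨Set.toFinite _, fun h' => absurd h' h, fun _ => Set.ncard_singleton _⟩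

theorem abv_card (q : QExt F E a) (A : Finset (HeightOneSpectrum (𝓞 F))) :
    (Abv E A).Finite ∧ (Abv E A).ncard + (NS A a).card = 2 * A.card := by
  classical
  induction A using Finset.induction_on with
  | empty =>
    have h1 : Abv E (∅ : Finset (HeightOneSpectrum (𝓞 F))) = ∅ := by
      ext Q
      simp [Abv]
    have h2 : NS (∅ : Finset (HeightOneSpectrum (𝓞 F))) a = ∅ := by
      ext w
      rw [mem_NS]
      simp
    rw [h1, h2]
    simp
  | insert w A hw ih =>
    obtain ⟨ih1, ih2⟩ := ih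
    obtain ⟨hf, h2, h1⟩ := fib_card q w
    have e : Abv E (insert w A) = {Q : HeightOneSpectrum (𝓞 E) | below F Q = w} ∪ Abv E A := by
      ext Q
      simp [Abv, Finset.mem_insert]
    have hdisj : Disjoint {Q : HeightOneSpectrum (𝓞 E) | below F Q = w} (Abv E A) := by
      rw [Set.disjoint_left]
      intro Q hQ hQA
      have hQ' : below F Q = w := hQ
      have hQA' : below F Q ∈ A := hQA
      rw [hQ'] at hQA'
      exact hw hQA'
    rw [e, Set.ncard_union_eq hdisj hf ih1, Finset.card_insert_of_notMem hw]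
    refine ⟨hf.union ih1, ?_⟩
    by_cases h : a ∈ LS w
    · have e2 : NS (insert w A) a = NS A a := by
        ext u
        rw [mem_NS, mem_NS, Finset.mem_insert]
        constructor
        · rintro ⟨rfl | h3, h4⟩
          · exact absurd h h4
          · exact ⟨h3, h4⟩
        · rintro ⟨h3, h4⟩
          exact ⟨Or.inr h3, h4⟩
      rw [e2, h2 h]
      omega
    · have e2 : NS (insert w A) a = insert w (NS A a) := by
        ext u
        rw [mem_NS, Finset.mem_insert, Finset.mem_insert, mem_NS]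
        constructor
        · rintro ⟨rfl | h3, h4⟩
          · exact Or.inl rfl
          · exact Or.inr ⟨h3, h4⟩
        · rintro (rfl | ⟨h3, h4⟩)
          · exact ⟨Or.inl rfl, h⟩
          · exact ⟨Or.inr h3, h4⟩
      have h3 : w ∉ NS A a := fun h4 => hw (mem_NS.1 h4).1
      rw [e2, Finset.card_insert_of_notMem h3, h1 h]
      omega

end Pool.Agent.Work.MP_787500_nt.HN
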