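import Mathlib
import Pool.Agent.Work.MP_787500_nt.HN.QuadEx
import Pool.Agent.Work.MP_787500_nt.HN.Places

/-!
# Module LOCDEG (size M): the local degree at a place that does not split

`Q` is the only place of `E` above `w` (`nonsplit_unique`). With `e = w.asIdeal.ramificationIdx' Q.asIdeal`,
`f = w.asIdeal.inertiaDeg' Q.asIdeal`: `e * f = 2` (`Ideal.sum_ramification_inertia` with `primesOverFinset = {Q.asIdeal}`, or its
non-deprecated replacement; `QExt.finrank`). `HeightOneSpectrum.valuation_liesOver` (see the proof of `exists_valuation_below` in `H10_Val.lean`):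
`w.valuation x ^ e = Q.valuation (algebraMap x)`; with `x = 2` and `val_two`: `ee Q = e * ee w`.
`card (𝓞 E ⧸ Q ^ n) = card (𝓞 E ⧸ Q) ^ n` (`Ideal.absNorm` is multiplicative, `Ideal.absNorm_apply`,
`Submodule.cardQuot_apply`) and `card (𝓞 E ⧸ Q) = card (𝓞 F ⧸ w) ^ f` (`f` is the degree of the residue field extension;
`Ideal.inertiaDeg'` / `Module.card_eq_pow_finrank`). So `card (𝓞 E ⧸ Q ^ ee Q) = card (𝓞 F ⧸ w) ^ (f e ee w) =
card (𝓞 F ⧸ w ^ ee w) ^ 2`.
-/

set_option autoImplicit false
set_option linter.unusedSectionVars false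

namespace Pool.Agent.Work.MP_787500_nt.HN

open IsDedekindDomain NumberField WithZero

variable {F E : Type*} [Field F] [NumberField F] [Field E] [NumberField E] [Algebra F E] {a : Fˣ}

set_option linter.deprecated false in
private theorem e_mul_f (q : QExt F E a) {Q : HeightOneSpectrum (𝓞 E)} (h : a ∉ LS (below F Q)) :
    (below F Q).asIdeal.ramificationIdx' Q.asIdeal * (below F Q).asIdeal.inertiaDeg' Q.asIdeal =
      2 := by
  classical
  have hmax : (below F Q).asIdeal.IsMaximal := (below F Q).isMaximal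
  have hsum := Ideal.sum_ramification_inertia (𝓞 E) F E (p := (below F Q).asIdeal)
    (below F Q).ne_bot
  have hset : IsDedekindDomain.primesOverFinset (below F Q).asIdeal (𝓞 E) = {Q.asIdeal} := by
    ext P
    rw [IsDedekindDomain.mem_primesOverFinset_iff (below F Q).ne_bot, Finset.mem_singleton]
    constructor
    · rintro ⟨hP, hPw⟩
      have hne : P ≠ ⊥ := by
        rintro rfl
        have h1 := hPw.over
        rw [Ideal.under_bot] at h1
        exact (below F Q).ne_bot h1
      obtain ⟨Q₀, h1, -, h2⟩ := nonsplit_unique q h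
      have h3 := h2 ⟨P, hP, hne⟩ (HeightOneSpectrum.ext hPw.over.symm)
      have h4 := h2 Q rfl
      rw [← h4] at h3
      exact congrArg HeightOneSpectrum.asIdeal h3
    · rintro rfl
      exact ⟨Q.isPrime, ⟨rfl⟩⟩
  rw [hset, Finset.sum_singleton, q.finrank.1] at hsum
  exact hsum

private theorem ee_eq (Q : HeightOneSpectrum (𝓞 E)) :
    ee Q = (below F Q).asIdeal.ramificationIdx' Q.asIdeal * ee (below F Q) := by
  have : Q.asIdeal.LiesOver (below F Q).asIdeal := ⟨rfl⟩
  have h1 := HeightOneSpectrum.valuation_liesOver (K := F) E (below F Q) Q (2 : F)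
  have h2 : algebraMap F E 2 = 2 := map_ofNat _ 2
  rw [h2, val_two, val_two, ← exp_nsmul, exp_inj, nsmul_eq_mul, mul_neg, neg_inj] at h1
  exact_mod_cast h1.symm

private theorem card_pow {K : Type*} [Field K] [NumberField K] (v : HeightOneSpectrum (𝓞 K))
    (n : ℕ) : Nat.card (𝓞 K ⧸ v.asIdeal ^ n) = Ideal.absNorm v.asIdeal ^ n := by
  rw [← map_pow, Ideal.absNorm_apply, Submodule.cardQuot_apply]

theorem loc_deg (q : QExt F E a) {Q : HeightOneSpectrum (𝓞 E)} (h : a ∉ LS (below F Q)) :
    Nat.card (𝓞 E ⧸ Q.asIdeal ^ ee Q) =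
      Nat.card (𝓞 F ⧸ (below F Q).asIdeal ^ ee (below F Q)) ^ 2 := by
  have hl : Q.asIdeal.LiesOver (below F Q).asIdeal := ⟨rfl⟩
  have h1 : Ideal.absNorm Q.asIdeal = Ideal.absNorm (below F Q).asIdeal ^
      ((below F Q).asIdeal.inertiaDeg' Q.asIdeal) :=
    Ideal.absNorm_eq_pow_inertiaDeg'_of_liesOver Q.asIdeal (below F Q).asIdeal
      (below F Q).isPrime (below F Q).ne_bot
  rw [card_pow, card_pow, h1, ee_eq (F := F) Q, ← pow_mul, ← pow_mul]
  congr 1
  have h2 := e_mul_f q h
  calc _ = ((below F Q).asIdeal.ramificationIdx' Q.asIdeal *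
        (below F Q).asIdeal.inertiaDeg' Q.asIdeal) * ee (below F Q) := by ring
    _ = _ := by rw [h2, mul_comm]

end Pool.Agent.Work.MP_787500_nt.HN
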