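import Mathlib
import Pool.Agent.Work.MP_787500_nt.HN.CDefs
import Pool.Agent.Work.MP_787500_nt.GP.S0_KumT

/-!
# Module KUMF (size M): homomorphisms of open subgroups and square roots, full system

Copy from `GP/S0_KumT.lean` (private lemmas `S0_KumT_sign`, `_ne`, `_fix`, `_neg`, `_off`, `_z2`).
* `act2_memF`: `t ≠ 0`, `U` fixes `t ^ 2`, so `g t = ± t` for `g ∈ U`. Let `W₀ ≤ U` be a member. The stabilizer of `t` in `AbsGal K` is open,
  so it contains an open normal subgroup `N` (the group is compact; for example the normal core has finite index and is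
  closed; or the fixing subgroup of the normal closure of `K (t)`). `W' = {w ∈ W₀ | ∀ h, w (h t) = h t}` is normal, contains `W₀ ⊓ N`
  (`w (h t) = h ((h⁻¹ w h) t)`), so it is open, and `W₀ / W'` is killed by squaring (`w (h t) = h ((h⁻¹ w h) t) = ± h t` as `h⁻¹ w h ∈ W₀ ≤ U`), so
  `Full K W'` (see the proof of `homs_of_T` in `GP/S0_KumT.lean`, which constructs the same group). `act2 U t` is invariant under `W'`.
* `exists_act2F`: as `exists_act2T` (`exists_kum` for the open, hence closed subgroup `U`).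
* `act2_eq_of_sq`: if `t ^ 2 = t' ^ 2` then `t' = ± t`, and `g t = t ↔ g (-t) = -t`.
-/

set_option autoImplicit false
set_option linter.unusedSectionVars false

namespace Pool.Agent.Work.MP_787500_nt.HN

open IsDedekindDomain NumberField
open Pool.Agent.Work.MP_787500_nt.PA (TwoSys Sm1 Sm2 homs Coc Cob Opn)
open Pool.Agent.Work.MP_787500_nt.GP (sysT stabD Fx GoodT inT)

universe u

variable {K : Type u} [Field K] [NumberField K]

private theorem kf_sign {g : AbsGal K} {t : AlgebraicClosure K} (h : g (t ^ 2) = t ^ 2) :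
    g t = t ∨ g t = -t := by
  apply sq_eq_sq_iff_eq_or_eq_neg.1
  rw [← map_pow, h]

private theorem kf_ne {t : AlgebraicClosure K} (ht : t ≠ 0) : -t ≠ t := by
  intro h
  have h2 : (2 : AlgebraicClosure K) * t = 0 := by linear_combination -h
  exact mul_ne_zero two_ne_zero ht h2

private theorem kf_fix {U : Subgroup (AbsGal K)} {g : AbsGal K} {t : AlgebraicClosure K}
    (h : g t = t) : PA.act2 U t g = 0 := by
  classical
  unfold PA.act2
  rw [if_neg]
  rintro ⟨_, h2⟩
  exact h2 h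

private theorem kf_neg {U : Subgroup (AbsGal K)} {g : AbsGal K} {t : AlgebraicClosure K}
    (ht : t ≠ 0) (hg : g ∈ U) (h : g t = -t) : PA.act2 U t g = 1 := by
  classical
  unfold PA.act2
  rw [if_pos]
  refine ⟨hg, ?_⟩
  rw [h]
  exact kf_ne ht

private theorem kf_off {U : Subgroup (AbsGal K)} {g : AbsGal K} {t : AlgebraicClosure K}
    (hg : g ∉ U) : PA.act2 U t g = 0 := by
  classical
  unfold PA.act2
  rw [if_neg]
  rintro ⟨h1, _⟩
  exact hg h1

private theorem kf_z2 (a : ZMod 2) : a = 0 ∨ a = 1 := by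
  revert a; decide

/-- a member in `U` that fixes all conjugates of `t` -/
private theorem kf_member {U : Subgroup (AbsGal K)} (hU : Opn (fullSys K) U)
    {t : AlgebraicClosure K} (hfix : ∀ g ∈ U, g (t ^ 2) = t ^ 2) :
    ∃ W : Subgroup (AbsGal K), (fullSys K).mem W ∧ W ≤ U ∧ ∀ w ∈ W, w t = t := by
  classical
  obtain ⟨W₀, hW₀, hle⟩ := hU
  have hn0 : W₀.Normal := Gn.GoodG.normal hW₀
  have hsgn : ∀ w ∈ W₀, ∀ h : AbsGal K, w (h t) = h t ∨ w (h t) = -(h t) := by
    intro w hw h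
    have h1 : h⁻¹ * w * h ∈ W₀ := by
      have := hn0.conj_mem w hw h⁻¹
      rwa [inv_inv] at this
    have h2 : h ((h⁻¹ * w * h) t) = w (h t) := by
      rw [← AlgEquiv.mul_apply, ← AlgEquiv.mul_apply]
      congr 1
      group
    rcases kf_sign (hfix _ (hle h1)) with h3 | h3
    · left
      rw [← h2, h3]
    · right
      rw [← h2, h3, map_neg]
  let W' : Subgroup (AbsGal K) :=
    { carrier := {w | w ∈ W₀ ∧ ∀ h : AbsGal K, w (h t) = h t}
      mul_mem' := by
        rintro a b ⟨ha, ha'⟩ ⟨hb, hb'⟩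
        exact ⟨W₀.mul_mem ha hb, fun h => by rw [AlgEquiv.mul_apply, hb', ha']⟩
      one_mem' := ⟨W₀.one_mem, fun h => rfl⟩
      inv_mem' := by
        rintro a ⟨ha, ha'⟩
        refine ⟨W₀.inv_mem ha, fun h => ?_⟩
        have h1 : a⁻¹ (a (h t)) = h t := by
          rw [← AlgEquiv.mul_apply, inv_mul_cancel]
          rfl
        rw [ha'] at h1
        exact h1 }
  have hW' : ∀ w, w ∈ W' ↔ w ∈ W₀ ∧ ∀ h : AbsGal K, w (h t) = h t := fun w => Iff.rfl
  refine ⟨W', ⟨⟨fun w hw g => ?_⟩, ?_, le_top, fun g _ => ?_, fun _ h => h.elim⟩,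
    fun w hw => hle ((hW' w).1 hw).1, fun w hw => ((hW' w).1 hw).2 1⟩
  · rw [hW'] at hw ⊢
    refine ⟨hn0.conj_mem w hw.1 g, fun h => ?_⟩
    have h1 := hw.2 (g⁻¹ * h)
    have h2 : (g * w * g⁻¹) (h t) = g (w ((g⁻¹ * h) t)) := rfl
    rw [h2, h1, ← AlgEquiv.mul_apply]
    congr 1
    group
  · have hint : IsIntegral K t := Algebra.IsIntegral.isIntegral t
    let S : Set (AlgebraicClosure K) := (minpoly K t).rootSet (AlgebraicClosure K)
    have hfin : FiniteDimensional K (IntermediateField.adjoin K S) :=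
      IntermediateField.finiteDimensional_adjoin fun x _ => Algebra.IsIntegral.isIntegral x
    have hop := IntermediateField.fixingSubgroup_isOpen (IntermediateField.adjoin K S)
    have hW₀o : IsOpen (W₀ : Set (AbsGal K)) := Gn.GoodG.isOpen hW₀
    refine Subgroup.isOpen_mono
      (H₁ := W₀ ⊓ (IntermediateField.adjoin K S).fixingSubgroup) ?_ (hW₀o.inter hop)
    intro w hw
    rw [hW']
    refine ⟨hw.1, fun h => ?_⟩
    have hmem : h t ∈ IntermediateField.adjoin K S := by
      apply IntermediateField.subset_adjoin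
      refine (Polynomial.mem_rootSet).2 ⟨minpoly.ne_zero hint, ?_⟩
      have : Polynomial.aeval (h t) (minpoly K t) = h (Polynomial.aeval t (minpoly K t)) :=
        Polynomial.aeval_algHom_apply h.toAlgHom t _
      rw [this, minpoly.aeval, map_zero]
    exact (IntermediateField.mem_fixingSubgroup_iff _ _).1 hw.2 _ hmem
  · obtain ⟨k, hk⟩ := Gn.GoodG.pow hW₀ g (Subgroup.mem_top g)
    refine ⟨k + 1, ?_⟩
    rw [hW']
    have h1 : g ^ 2 ^ (k + 1) = g ^ 2 ^ k * g ^ 2 ^ k := by
      rw [← pow_add]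
      congr 1
      ring
    rw [h1]
    refine ⟨W₀.mul_mem hk hk, fun h => ?_⟩
    rw [AlgEquiv.mul_apply]
    rcases hsgn _ hk h with h2 | h2
    · rw [h2, h2]
    · rw [h2, map_neg, h2, neg_neg]

theorem act2_memF {U : Subgroup (AbsGal K)} (hU : Opn (fullSys K) U) {t : AlgebraicClosure K}
    (ht0 : t ≠ 0) (hfix : ∀ g ∈ U, g (t ^ 2) = t ^ 2) : PA.act2 U t ∈ homs (fullSys K) U := by
  obtain ⟨W, hW, hle, hWt⟩ := kf_member hU hfix
  refine ⟨⟨W, hW, ?_⟩, fun g hg => kf_off hg, ?_⟩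
  · intro g w hw
    have hwU : w ∈ U := hle hw
    have hwt : w t = t := hWt w hw
    by_cases hg : g ∈ U
    · have hgw : (g * w) t = g t := by
        rw [AlgEquiv.mul_apply, hwt]
      rcases kf_sign (hfix g hg) with h | h
      · rw [kf_fix h, kf_fix (by rw [hgw, h])]
      · rw [kf_neg ht0 hg h, kf_neg ht0 (U.mul_mem hg hwU) (by rw [hgw, h])]
    · have hgw : g * w ∉ U := fun h => hg (by
        have := U.mul_mem h (U.inv_mem hwU)
        rwa [mul_inv_cancel_right] at this)
      rw [kf_off hg, kf_off hgw]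
  · intro g hg h hh
    have hgh := U.mul_mem hg hh
    rcases kf_sign (hfix g hg) with h1 | h1 <;> rcases kf_sign (hfix h hh) with h2 | h2
    · rw [kf_fix h1, kf_fix h2, kf_fix (by rw [AlgEquiv.mul_apply, h2, h1]), add_zero]
    · rw [kf_fix h1, kf_neg ht0 hh h2,
        kf_neg ht0 hgh (by rw [AlgEquiv.mul_apply, h2, map_neg, h1]), zero_add]
    · rw [kf_neg ht0 hg h1, kf_fix h2,
        kf_neg ht0 hgh (by rw [AlgEquiv.mul_apply, h2, h1]), add_zero]
    · rw [kf_neg ht0 hg h1, kf_neg ht0 hh h2,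
        kf_fix (by rw [AlgEquiv.mul_apply, h2, map_neg, h1, neg_neg])]
      decide

theorem exists_act2F {U : Subgroup (AbsGal K)} (hU : Opn (fullSys K) U) {ψ : AbsGal K → ZMod 2}
    (hψ : ψ ∈ homs (fullSys K) U) :
    ∃ t : AlgebraicClosure K, t ≠ 0 ∧ (∀ g ∈ U, g (t ^ 2) = t ^ 2) ∧ ψ = PA.act2 U t := by
  classical
  obtain ⟨⟨W, hW, hsm⟩, hoff, hmul⟩ := hψ
  have h1 : ψ 1 = 0 := by
    have := hmul 1 U.one_mem 1 U.one_mem
    rw [mul_one] at this
    simpa using this
  have hUo : IsOpen (U : Set (AbsGal K)) := opn_isOpen hU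
  have hsm1 : ∀ w ∈ W, ψ w = 0 := by
    intro w hw
    have := hsm 1 w hw
    rwa [one_mul, h1] at this
  obtain ⟨t, ht0, ht1, ht2⟩ := GP.exists_kum (C := U) (Subgroup.isClosed_of_isOpen U hUo) ψ hmul
    ⟨W, Gn.GoodG.isOpen hW, fun g hg => hsm1 g hg.2⟩
  refine ⟨t, ht0, fun g hg => ?_, ?_⟩
  · rcases ht1 g hg with h | h
    · rw [map_pow, h]
    · rw [map_pow, h, neg_sq]
  · funext g
    by_cases hg : g ∈ U
    · rcases ht1 g hg with h | h
      · rw [(ht2 g hg).2 h, kf_fix h]
      · rw [kf_neg ht0 hg h]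
        refine (kf_z2 _).resolve_left (fun h3 => ?_)
        have h4 := (ht2 g hg).1 h3
        rw [h] at h4
        exact kf_ne ht0 h4
    · rw [hoff g hg, kf_off hg]

theorem act2_eq_of_sq {U : Subgroup (AbsGal K)} {t t' : AlgebraicClosure K} (h : t ^ 2 = t' ^ 2) :
    PA.act2 U t = PA.act2 U t' := by
  classical
  rcases sq_eq_sq_iff_eq_or_eq_neg.1 h with h1 | h1
  · rw [h1]
  · funext g
    subst h1
    unfold PA.act2
    simp only [map_neg, neg_inj, ne_eq]

end Pool.Agent.Work.MP_787500_nt.HN
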