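import Mathlib
import Pool.Agent.Work.MP_787500_nt.HN.KumF
import Pool.Agent.Work.MP_787500_nt.GP.C6_In

/-!
# Module REPAIR (size M-L): descent of coboundaries to the system of T

`G = AbsGal K`, `f g h = z g + z h + z (g h)`, `z` invariant under `W'` (`Full K W'`), `f` invariant under `W` (`GoodT K T W`). Let `c = f 1 1 = z 1`,
`lam w = z w + c` for `w ∈ W`, 0 outside `W`.
(1) For `w ∈ W`: `f g w = f g 1 = z 1 = c`, `f w g = f 1 g = c`; so `z (g w) = z g + lam w` and `z (w g) = lam w + z g`. `lam` is additive on `W`, and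
`lam (g w g⁻¹) = lam w` (compute `z (g w) = z ((g w g⁻¹) g)`). `lam` is invariant under `W ⊓ W'`, so `lam ∈ homs (fullSys K) W`.
(2) `exists_act2F`: `lam = act2 W t`, `b = t ^ 2 ∈ Fx W`, `b ≠ 0`. `Fx W` is a number field (`fx_numberField`, `fx_fixing`). For a prime `Q ≠ ⊥` of `𝓞 Ω` with
`2 ∉ Q` and no `l ∈ T` in `Q`: `Q.inertia ≤ W`, and by `ram_iff` (`GP/C6_In.lean`): `lam = 0` on `Q.inertia` iff the valuation of `b` at `Q ∩ 𝓞 (Fx W)` is a
square. Let `R` be the set of the places `v` of `K` outside 2 and `T` that are of the form `Q ∩ 𝓞 K` with `lam ≠ 0` on `Q.inertia`. It is finite (`b` has valuation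
1 at almost all places of `Fx W`). If `Q`, `Q'` are above the same place of `K` then `Q' = g • Q` (`exists_smul_eq`, `F = K`) and `Q'.inertia = g Q.inertia g⁻¹`
(`conj_mem_inertia`), so `lam ≠ 0` on `Q.inertia` iff `lam ≠ 0` on `Q'.inertia` by (1).
(3) `y = ∏ v ∈ R, y_v` with `y_v` from `OddT`, `r ^ 2 = y`, `ω = act2 ⊤ r ∈ homs (fullSys K) ⊤` (`act2_memF`). For `Q` as in (2) above `v`: `v (y)` is not a square iff
`v ∈ R`; by `ram_iff` for `U = ⊤` (`Fx ⊤` is `K`, the image of `K`): `ω ≠ 0` on `Q.inertia` iff `v ∈ R` iff `lam ≠ 0` on `Q.inertia`. By `inertia_uniq` (`t₁ = r`, `t₂ = t`; signs) `lam = ω` on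
`Q.inertia` in all cases.
(4) `z' = z + ω`: `f g h = z' g + z' h + z' (g h)` (`ω` is additive). `W'' = {w ∈ W | lam w + ω w = 0}`: a normal subgroup (`ω` is invariant under conjugation), open
(it contains `W ⊓ W' ⊓` (a member for `ω`)), `g ^ (2 ^ (k + 1)) ∈ W''` if `g ^ (2 ^ k) ∈ W`, and it contains the inertia groups of the primes outside 2 and `T` (for
`Q = ⊥` the inertia group is trivial, `eq_one_of_inertia_bot`). So `GoodT K T W''`, and `z' (g w) = z' g` for `w ∈ W''`.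
-/

set_option autoImplicit false
set_option linter.unusedSectionVars false

namespace Pool.Agent.Work.MP_787500_nt.HN

open IsDedekindDomain NumberField
open Pool.Agent.Work.MP_787500_nt.PA (TwoSys Sm1 Sm2 homs Coc Cob Opn)
open Pool.Agent.Work.MP_787500_nt.GP (sysT stabD Fx GoodT inT)

universe u

variable {K : Type u} [Field K] [NumberField K]

private theorem Repair_surj {x : AlgebraicClosure K} (hx : x ∈ Fx (⊤ : Subgroup (AbsGal K))) :
    ∃ a : K, algebraMap K (AlgebraicClosure K) a = x :=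
  mem_base_of_fixed (fun σ => GP.mem_Fx.1 hx σ trivial)

private theorem Repair_topval [NumberField (Fx (⊤ : Subgroup (AbsGal K)))]
    (v : HeightOneSpectrum (𝓞 (Fx (⊤ : Subgroup (AbsGal K))))) (x : K) :
    (below K v).valuation K x =
      v.valuation (Fx (⊤ : Subgroup (AbsGal K))) (algebraMap K (Fx (⊤ : Subgroup (AbsGal K))) x) := by
  obtain ⟨e, he, h⟩ := exists_valuation_below (K := K) v
  obtain ⟨π, hπ⟩ := v.valuation_exists_uniformizer (Fx (⊤ : Subgroup (AbsGal K)))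
  obtain ⟨p, hp⟩ := Repair_surj π.2
  have hp' : algebraMap K (Fx (⊤ : Subgroup (AbsGal K))) p = π := Subtype.ext hp
  have h1 := h p
  rw [hp', hπ] at h1
  have hne : (below K v).valuation K p ≠ 0 := by
    intro h0
    rw [h0, zero_pow he] at h1
    exact WithZero.exp_ne_zero h1.symm
  obtain ⟨k, hk⟩ : ∃ k : ℤ, (below K v).valuation K p = WithZero.exp k :=
    ⟨_, (WithZero.exp_log hne).symm⟩
  rw [hk, ← WithZero.exp_nsmul] at h1
  have h2 : e • k = -1 := WithZero.exp_injective h1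
  have he1 : e = 1 := by
    rw [nsmul_eq_mul] at h2
    have h3 : (e : ℤ) ∣ 1 := ⟨-k, by linarith⟩
    exact_mod_cast Int.eq_one_of_dvd_one (Int.natCast_nonneg e) h3
  subst he1
  rw [← h x, pow_one]

theorem repair {T : Finset ℕ} (hodd : OddT K T) {f : AbsGal K → AbsGal K → ZMod 2}
    (hf : Coc (sysT K T) ⊤ f) (h : Cob (fullSys K) ⊤ f) : Cob (sysT K T) ⊤ f := by
  classical
  obtain ⟨⟨W, hW, hfW⟩, hcoc⟩ := hf
  obtain ⟨z, ⟨W', hW', hzW⟩, hz⟩ := h
  have hWT : GoodT K T W := hW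
  have hWn : W.Normal := hWT.normal
  have hWo : IsOpen (W : Set (AbsGal K)) := hWT.isOpen
  have two : (2 : ZMod 2) = 0 := rfl
  -- (1)
  have hgw : ∀ g : AbsGal K, ∀ w ∈ W, z (g * w) = z g + (z w + z 1) := by
    intro g w hw
    have h1 := hfW g 1 1 W.one_mem w hw
    have h2 := hz g trivial 1 trivial
    have h3 := hz g trivial w trivial
    rw [mul_one, one_mul] at h1
    rw [mul_one] at h2
    rw [h2, h3] at h1
    linear_combination h1 - z w * two
  have hwg : ∀ g : AbsGal K, ∀ w ∈ W, z (w * g) = (z w + z 1) + z g := by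
    intro g w hw
    have h1 := hfW 1 g w hw 1 W.one_mem
    have h2 := hz 1 trivial g trivial
    have h3 := hz w trivial g trivial
    rw [mul_one, one_mul] at h1
    rw [one_mul] at h2
    rw [h2, h3] at h1
    linear_combination h1 - z w * two
  obtain ⟨lam, hlam⟩ : ∃ lam : AbsGal K → ZMod 2, lam = fun g => if g ∈ W then z g + z 1 else 0 :=
    ⟨_, rfl⟩
  have lam_in : ∀ w ∈ W, lam w = z w + z 1 := by
    intro w hw
    rw [hlam]
    exact if_pos hw
  have lam_out : ∀ w, w ∉ W → lam w = 0 := by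
    intro w hw
    rw [hlam]
    exact if_neg hw
  have lam_mul : ∀ w ∈ W, ∀ w' ∈ W, lam (w * w') = lam w + lam w' := by
    intro w hw w' hw'
    rw [lam_in _ (W.mul_mem hw hw'), lam_in w hw, lam_in w' hw', hgw w w' hw']
    ring
  have lam_conj : ∀ g : AbsGal K, ∀ w ∈ W, lam (g * w * g⁻¹) = lam w := by
    intro g w hw
    have h1 := hWn.conj_mem w hw g
    have h2 := hwg g _ h1
    rw [inv_mul_cancel_right, hgw g w hw] at h2
    rw [lam_in _ h1, lam_in w hw]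
    linear_combination -h2
  have lam_hom : lam ∈ homs (fullSys K) W := by
    refine ⟨⟨W ⊓ W', (fullSys K).inf (full_of_goodT hW) hW', fun g w hw => ?_⟩,
      fun g hg => lam_out g hg, fun g hg k hk => lam_mul g hg k hk⟩
    by_cases hg : g ∈ W
    · rw [lam_in g hg, lam_in _ (W.mul_mem hg hw.1), hzW g w hw.2]
    · rw [lam_out g hg, lam_out]
      intro h1
      apply hg
      have := W.mul_mem h1 (W.inv_mem hw.1)
      rwa [mul_inv_cancel_right] at this
  -- (2)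
  have hopW : Opn (fullSys K) W := ⟨W, full_of_goodT hW, le_rfl⟩
  obtain ⟨t, ht0, htfix, htlam⟩ := exists_act2F hopW lam_hom
  have hN : NumberField (Fx W) := fx_numberField hWo
  have hfixW : (Fx W).fixingSubgroup = W := fx_fixing hWo
  have hbmem : t ^ 2 ∈ Fx W := GP.mem_Fx.2 htfix
  obtain ⟨b, hbt⟩ : ∃ b : Fx W, (b : AlgebraicClosure K) = t ^ 2 := ⟨⟨_, hbmem⟩, rfl⟩
  have hb0 : b ≠ 0 := by
    rintro rfl
    exact pow_ne_zero 2 ht0 hbt.symm
  have lam_iff : ∀ w ∈ W, lam w = 0 ↔ w t = t := by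
    intro w hw
    rw [htlam]
    unfold PA.act2
    by_cases h1 : w t = t
    · rw [if_neg (fun h' => h'.2 h1)]
      exact ⟨fun _ => h1, fun _ => rfl⟩
    · rw [if_pos ⟨hw, h1⟩]
      exact ⟨fun h' => absurd h' one_ne_zero, fun h' => absurd h' h1⟩
  have hinW : ∀ Q : Ideal (𝓞 (AlgebraicClosure K)), Q.IsPrime →
      (2 : 𝓞 (AlgebraicClosure K)) ∉ Q → (∀ l ∈ T, (l : 𝓞 (AlgebraicClosure K)) ∉ Q) →
      Q.inertia (AbsGal K) ≤ W := by
    intro Q hQ h2 hT n hn
    exact hWT.inertia n ⟨Q, hQ, h2, hT, hn⟩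
  let R : Set (HeightOneSpectrum (𝓞 K)) :=
    {v | (2 : 𝓞 K) ∉ v.asIdeal ∧ (∀ l ∈ T, (l : 𝓞 K) ∉ v.asIdeal) ∧
      ∃ Q : Ideal (𝓞 (AlgebraicClosure K)), Q.IsPrime ∧
        Q.comap (algebraMap (𝓞 K) (𝓞 (AlgebraicClosure K))) = v.asIdeal ∧
        ∃ n ∈ Q.inertia (AbsGal K), lam n ≠ 0}
  have hup2 : ∀ (Q : Ideal (𝓞 (AlgebraicClosure K))) (v : HeightOneSpectrum (𝓞 K)),
      Q.comap (algebraMap (𝓞 K) (𝓞 (AlgebraicClosure K))) = v.asIdeal →
      ((2 : 𝓞 (AlgebraicClosure K)) ∈ Q ↔ (2 : 𝓞 K) ∈ v.asIdeal) := by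
    intro Q v hv
    rw [← hv, Ideal.mem_comap, map_ofNat]
  have hupl : ∀ (Q : Ideal (𝓞 (AlgebraicClosure K))) (v : HeightOneSpectrum (𝓞 K)) (l : ℕ),
      Q.comap (algebraMap (𝓞 K) (𝓞 (AlgebraicClosure K))) = v.asIdeal →
      ((l : 𝓞 (AlgebraicClosure K)) ∈ Q ↔ (l : 𝓞 K) ∈ v.asIdeal) := by
    intro Q v l hv
    rw [← hv, Ideal.mem_comap, map_natCast]
  have hRfin : R.Finite := by
    refine ((val_ne_one_finite hb0).image (fun w => below K w)).subset ?_
    rintro v ⟨hv2, hvT, Q, hQ, hQv, n, hn, hln⟩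
    have hQb : Q ≠ ⊥ := by
      rintro rfl
      apply v.ne_bot
      rw [← hQv]
      exact Ideal.comap_bot_of_injective _ (FaithfulSMul.algebraMap_injective _ _)
    have hQ2 : (2 : 𝓞 (AlgebraicClosure K)) ∉ Q := fun h' => hv2 ((hup2 Q v hQv).1 h')
    have hQT : ∀ l ∈ T, (l : 𝓞 (AlgebraicClosure K)) ∉ Q :=
      fun l hl h' => hvT l hl ((hupl Q v l hQv).1 h')
    have hin := hinW Q hQ hQ2 hQT
    let w : HeightOneSpectrum (𝓞 (Fx W)) :=
      ⟨Q.comap (algebraMap (𝓞 (Fx W)) (𝓞 (AlgebraicClosure K))), Ideal.comap_isPrime _ _,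
        fun h => hQb (Ideal.eq_bot_of_comap_eq_bot h)⟩
    refine ⟨w, ?_, ?_⟩
    · intro hw1
      apply hln
      rw [lam_iff n (hin hn)]
      exact (GP.ram_iff hfixW hQ hQ2 (v := w) rfl hin hb0 hbt.symm).2
        ⟨1, by rw [hw1, one_mul]⟩ n hn
    · apply HeightOneSpectrum.ext
      rw [← hQv]
      ext x
      show algebraMap (𝓞 K) (𝓞 (Fx W)) x ∈ w.asIdeal ↔ _
      show algebraMap (𝓞 (Fx W)) (𝓞 (AlgebraicClosure K)) (algebraMap (𝓞 K) (𝓞 (Fx W)) x) ∈ Q ↔ _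
      rw [Ideal.mem_comap]
      exact Iff.rfl
  -- independence of the prime above
  have hRind : ∀ v ∈ R, ∀ Q : Ideal (𝓞 (AlgebraicClosure K)), Q.IsPrime →
      Q.comap (algebraMap (𝓞 K) (𝓞 (AlgebraicClosure K))) = v.asIdeal →
      ∃ n ∈ Q.inertia (AbsGal K), lam n ≠ 0 := by
    rintro v ⟨hv2, hvT, P, hP, hPv, n, hn, hln⟩ Q hQ hQv
    have hnW : n ∈ W := hinW P hP (fun h' => hv2 ((hup2 P v hPv).1 h'))
      (fun l hl h' => hvT l hl ((hupl P v l hPv).1 h')) hn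
    obtain ⟨g, hg⟩ := exists_smul_eq (F := K) Q P (hQv.trans hPv.symm)
    rw [hg] at hn
    refine ⟨g⁻¹ * n * g, conj_mem_inertia hn, ?_⟩
    have h1 := lam_conj g⁻¹ n hnW
    rw [inv_inv] at h1
    rw [h1]
    exact hln
  -- (3)
  have hy : ∀ v : HeightOneSpectrum (𝓞 K), ∃ y : K, v ∈ R → (y ≠ 0 ∧
      ¬ IsSquare (v.valuation K y) ∧ ∀ w : HeightOneSpectrum (𝓞 K), w ≠ v →
        (2 : 𝓞 K) ∉ w.asIdeal → (∀ l ∈ T, (l : 𝓞 K) ∉ w.asIdeal) →
          IsSquare (w.valuation K y)) := by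
    intro v
    by_cases hv : v ∈ R
    · obtain ⟨y, hy⟩ := hodd v hv.1 hv.2.1
      exact ⟨y, fun _ => hy⟩
    · exact ⟨0, fun h' => absurd h' hv⟩
  choose y hy using hy
  obtain ⟨Y, hYd⟩ : ∃ Y : K, Y = ∏ v ∈ hRfin.toFinset, y v := ⟨_, rfl⟩
  have hY0 : Y ≠ 0 := by
    rw [hYd]
    exact Finset.prod_ne_zero_iff.2 fun v hv => (hy v ((Set.Finite.mem_toFinset _).1 hv)).1
  have hYv : ∀ v : HeightOneSpectrum (𝓞 K), (2 : 𝓞 K) ∉ v.asIdeal →
      (∀ l ∈ T, (l : 𝓞 K) ∉ v.asIdeal) → (IsSquare (v.valuation K Y) ↔ v ∉ R) := by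
    intro v hv2 hvT
    have hprod : v.valuation K Y = ∏ v' ∈ hRfin.toFinset, v.valuation K (y v') := by
      rw [hYd, map_prod]
    constructor
    · intro hsq hv
      have hmem : v ∈ hRfin.toFinset := (Set.Finite.mem_toFinset _).2 hv
      rw [hprod, ← Finset.mul_prod_erase _ _ hmem] at hsq
      have h1 : IsSquare (∏ v' ∈ hRfin.toFinset.erase v, v.valuation K (y v')) := by
        refine Finset.prod_induction _ IsSquare (fun _ _ h1 h2 => h1.mul h2)
          ⟨1, (one_mul 1).symm⟩ (fun v' hv' => ?_)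
        obtain ⟨h3, h4⟩ := Finset.mem_erase.1 hv'
        exact (hy v' ((Set.Finite.mem_toFinset _).1 h4)).2.2 v (Ne.symm h3) hv2 hvT
      have h2 : (∏ v' ∈ hRfin.toFinset.erase v, v.valuation K (y v')) ≠ 0 := by
        refine Finset.prod_ne_zero_iff.2 fun v' hv' => ?_
        exact (Valuation.ne_zero_iff _).2
          (hy v' ((Set.Finite.mem_toFinset _).1 (Finset.mem_erase.1 hv').2)).1
      have h3 := hsq.div h1
      rw [mul_div_cancel_right₀ _ h2] at h3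
      exact (hy v hv).2.1 h3
    · intro hv
      rw [hprod]
      refine Finset.prod_induction _ IsSquare (fun _ _ h1 h2 => h1.mul h2)
        ⟨1, (one_mul 1).symm⟩ (fun v' hv' => ?_)
      have h4 := (Set.Finite.mem_toFinset _).1 hv'
      exact (hy v' h4).2.2 v (fun h5 => hv (h5 ▸ h4)) hv2 hvT
  obtain ⟨r, hr⟩ := IsAlgClosed.exists_pow_nat_eq (algebraMap K (AlgebraicClosure K) Y) two_pos
  have hr0 : r ≠ 0 := by
    rintro rfl
    rw [zero_pow two_ne_zero] at hr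
    exact hY0 ((map_eq_zero _).1 hr.symm)
  have hrfix : ∀ g ∈ (⊤ : Subgroup (AbsGal K)), g (r ^ 2) = r ^ 2 := by
    intro g _
    rw [hr]
    exact g.commutes Y
  have hopT : Opn (fullSys K) (⊤ : Subgroup (AbsGal K)) := by
    obtain ⟨W₁, hW₁⟩ := (fullSys K).ex
    exact ⟨W₁, hW₁, le_top⟩
  obtain ⟨ω, hωd⟩ : ∃ ω, ω = PA.act2 (⊤ : Subgroup (AbsGal K)) r := ⟨_, rfl⟩
  have hω : ω ∈ homs (fullSys K) ⊤ := by
    rw [hωd]
    exact act2_memF hopT hr0 hrfix
  have om_iff : ∀ w : AbsGal K, ω w = 0 ↔ w r = r := by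
    intro w
    rw [hωd]
    unfold PA.act2
    by_cases h1 : w r = r
    · rw [if_neg (fun h' => h'.2 h1)]
      exact ⟨fun _ => h1, fun _ => rfl⟩
    · rw [if_pos ⟨trivial, h1⟩]
      exact ⟨fun h' => absurd h' one_ne_zero, fun h' => absurd h' h1⟩
  have om_mul : ∀ g h : AbsGal K, ω (g * h) = ω g + ω h := fun g h => hω.2.2 g trivial h trivial
  have om_one : ω 1 = 0 := by
    have := om_mul 1 1
    rw [mul_one] at this
    simpa using this
  have lam_one : lam 1 = 0 := by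
    have := lam_mul 1 W.one_mem 1 W.one_mem
    rw [mul_one] at this
    simpa using this
  have hNT : NumberField (Fx (⊤ : Subgroup (AbsGal K))) := fx_numberField isOpen_univ
  have hfixT : (Fx (⊤ : Subgroup (AbsGal K))).fixingSubgroup = ⊤ := fx_fixing isOpen_univ
  have hram : ∀ Q : Ideal (𝓞 (AlgebraicClosure K)), Q.IsPrime → Q ≠ ⊥ →
      (2 : 𝓞 (AlgebraicClosure K)) ∉ Q → (∀ l ∈ T, (l : 𝓞 (AlgebraicClosure K)) ∉ Q) →
      ∀ v : HeightOneSpectrum (𝓞 K),
        Q.comap (algebraMap (𝓞 K) (𝓞 (AlgebraicClosure K))) = v.asIdeal →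
        ((∀ n ∈ Q.inertia (AbsGal K), n r = r) ↔ v ∉ R) := by
    intro Q hQ hQb hQ2 hQT v hQv
    let v' : HeightOneSpectrum (𝓞 (Fx (⊤ : Subgroup (AbsGal K)))) :=
      ⟨Q.comap (algebraMap (𝓞 (Fx (⊤ : Subgroup (AbsGal K)))) (𝓞 (AlgebraicClosure K))),
        Ideal.comap_isPrime _ _, fun h => hQb (Ideal.eq_bot_of_comap_eq_bot h)⟩
    have hbel : below K v' = v := by
      apply HeightOneSpectrum.ext
      rw [← hQv]
      ext x
      rw [Ideal.mem_comap]
      exact Iff.rfl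
    have hY0' : algebraMap K (Fx (⊤ : Subgroup (AbsGal K))) Y ≠ 0 := by
      intro h'
      exact hY0 ((map_eq_zero _).1 h')
    rw [← hYv v (fun h' => hQ2 ((hup2 Q v hQv).2 h')) (fun l hl h' => hQT l hl ((hupl Q v l hQv).2 h')),
      ← hbel, Repair_topval]
    exact GP.ram_iff hfixT hQ hQ2 (v := v') rfl le_top hY0' hr
  have key : ∀ Q : Ideal (𝓞 (AlgebraicClosure K)), Q.IsPrime →
      (2 : 𝓞 (AlgebraicClosure K)) ∉ Q → (∀ l ∈ T, (l : 𝓞 (AlgebraicClosure K)) ∉ Q) →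
      ∀ n ∈ Q.inertia (AbsGal K), lam n = ω n := by
    intro Q hQ hQ2 hQT n hn
    have hin := hinW Q hQ hQ2 hQT
    by_cases hQb : Q = ⊥
    · rw [hQb] at hn
      rw [eq_one_of_inertia_bot hn, lam_one, om_one]
    · let v : HeightOneSpectrum (𝓞 K) :=
        ⟨Q.comap (algebraMap (𝓞 K) (𝓞 (AlgebraicClosure K))), Ideal.comap_isPrime _ _,
          fun h => hQb (Ideal.eq_bot_of_comap_eq_bot h)⟩
      have hQv : Q.comap (algebraMap (𝓞 K) (𝓞 (AlgebraicClosure K))) = v.asIdeal := rfl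
      have hr' := hram Q hQ hQb hQ2 hQT v hQv
      by_cases hv : v ∈ R
      · obtain ⟨n₁, hn₁, hl₁⟩ := hRind v hv Q hQ hQv
        have h1 : ∃ n₂ ∈ Q.inertia (AbsGal K), n₂ r ≠ r := by
          by_contra hcon
          push Not at hcon
          exact hr'.1 hcon hv
        have h2 := GP.inertia_uniq hQ hQ2 hr0 ht0
          (fun m _ => sq_eq_sq_iff_eq_or_eq_neg.1 (by rw [← map_pow, hrfix m trivial]))
          (fun m hm => sq_eq_sq_iff_eq_or_eq_neg.1 (by rw [← map_pow, htfix m (hin hm)])) h1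
          ⟨n₁, hn₁, fun h' => hl₁ ((lam_iff n₁ (hin hn₁)).2 h')⟩ hn
        rw [← om_iff, ← lam_iff n (hin hn)] at h2
        have h3 : ∀ a b : ZMod 2, (a = 0 ↔ b = 0) → b = a := by decide
        exact h3 _ _ h2
      · rw [(om_iff n).2 (hr'.2 hv n hn)]
        by_contra hl
        apply hv
        refine ⟨fun h' => hQ2 ((hup2 Q v hQv).2 h'),
          fun l hl' h' => hQT l hl' ((hupl Q v l hQv).2 h'), Q, hQ, hQv, n, hn, hl⟩
  -- (4)
  have lam_inv : ∀ w ∈ W, lam w⁻¹ = lam w := by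
    intro w hw
    have h1 := lam_mul w hw w⁻¹ (W.inv_mem hw)
    rw [mul_inv_cancel, lam_one] at h1
    have h2 : ∀ a b : ZMod 2, 0 = a + b → b = a := by decide
    exact h2 _ _ h1
  have om_inv : ∀ w : AbsGal K, ω w⁻¹ = ω w := by
    intro w
    have h1 := om_mul w w⁻¹
    rw [mul_inv_cancel, om_one] at h1
    have h2 : ∀ a b : ZMod 2, 0 = a + b → b = a := by decide
    exact h2 _ _ h1
  let W'' : Subgroup (AbsGal K) :=
    { carrier := {w | w ∈ W ∧ lam w = ω w}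
      mul_mem' := by
        rintro a b ⟨ha, ha'⟩ ⟨hb, hb'⟩
        exact ⟨W.mul_mem ha hb, by rw [lam_mul a ha b hb, om_mul, ha', hb']⟩
      one_mem' := ⟨W.one_mem, by rw [lam_one, om_one]⟩
      inv_mem' := by
        rintro a ⟨ha, ha'⟩
        exact ⟨W.inv_mem ha, by rw [lam_inv a ha, om_inv, ha']⟩ }
  have hW'' : ∀ w, w ∈ W'' ↔ w ∈ W ∧ lam w = ω w := fun w => Iff.rfl
  have hgood : GoodT K T W'' := by
    refine ⟨⟨fun w hw g => ?_⟩, ?_, le_top, fun g _ => ?_, ?_⟩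
    · rw [hW''] at hw ⊢
      refine ⟨hWn.conj_mem w hw.1 g, ?_⟩
      rw [lam_conj g w hw.1, om_mul, om_mul, om_inv, hw.2]
      have h2 : ∀ a b : ZMod 2, b = a + b + a := by decide
      exact h2 _ _
    · obtain ⟨⟨W₂, hW₂, hωW⟩, -, -⟩ := hω
      have hW'o : IsOpen (W' : Set (AbsGal K)) := Gn.GoodG.isOpen hW'
      have hW₂o : IsOpen (W₂ : Set (AbsGal K)) := Gn.GoodG.isOpen hW₂
      refine Subgroup.isOpen_mono (H₁ := W ⊓ W' ⊓ W₂) ?_ ((hWo.inter hW'o).inter hW₂o)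
      intro w hw
      rw [hW'']
      refine ⟨hw.1.1, ?_⟩
      have h1 := hzW 1 w hw.1.2
      have h2 := hωW 1 w hw.2
      rw [one_mul] at h1 h2
      rw [lam_in w hw.1.1, h1, h2, om_one]
      linear_combination z 1 * two
    · obtain ⟨k, hk⟩ := hWT.pow g (Subgroup.mem_top g)
      refine ⟨k + 1, ?_⟩
      rw [hW'']
      have h1 : g ^ 2 ^ (k + 1) = g ^ 2 ^ k * g ^ 2 ^ k := by
        rw [← pow_add]
        congr 1
        ring
      rw [h1]
      refine ⟨W.mul_mem hk hk, ?_⟩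
      rw [lam_mul _ hk _ hk, om_mul]
      have h2 : ∀ a b : ZMod 2, a + a = b + b := by decide
      exact h2 _ _
    · rintro σ ⟨Q, hQ, h2, hT, hσ⟩
      exact ⟨hinW Q hQ h2 hT hσ, key Q hQ h2 hT σ hσ⟩
  refine ⟨fun g => z g + ω g, ⟨W'', hgood, fun g w hw => ?_⟩, fun g _ k _ => ?_⟩
  · have h1 := (hW'' w).1 hw
    show z (g * w) + ω (g * w) = z g + ω g
    rw [hgw g w h1.1, om_mul, ← lam_in w h1.1, h1.2]
    linear_combination ω w * two
  · show f g k = z g + ω g + (z k + ω k) + (z (g * k) + ω (g * k))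
    rw [hz g trivial k trivial, om_mul]
    linear_combination -(ω g + ω k) * two

end Pool.Agent.Work.MP_787500_nt.HN
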