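import Mathlib
import Pool.Agent.Work.MP_787500_nt.HN.Defs

/-!
# Module CARDTWO (size S-M): the product of the local degrees above 2

The ideal generated by 2 in `𝓞 F` is `∏ w ∈ A, w.asIdeal ^ ee w` (for `w` not above 2: `ee w = 0`; the exponent of `w` in the
factorization of `(2)` is given by `w.intValuation 2 = exp (-ee w)`, `val_two`). `Ideal.absNorm` is multiplicative and
`absNorm I = Nat.card (𝓞 F ⧸ I)` (`Ideal.absNorm_apply`, `Submodule.cardQuot_apply`), and `absNorm (span {2}) = |norm 2| = 2 ^ [F : ℚ]`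
(`Ideal.absNorm_span_singleton`, `Algebra.norm_algebraMap`, `RingOfIntegers.rank`).
-/

set_option autoImplicit false
set_option linter.unusedSectionVars false

namespace Pool.Agent.Work.MP_787500_nt.HN

open IsDedekindDomain NumberField WithZero

variable {F : Type*} [Field F] [NumberField F]

theorem prod_card_two {A : Finset (HeightOneSpectrum (𝓞 F))} (hA : Dy A) :
    ∏ w ∈ A, Nat.card (𝓞 F ⧸ w.asIdeal ^ ee w) = 2 ^ Module.finrank ℚ F := by
  classical
  have h20 : (2 : 𝓞 F) ≠ 0 := two_ne_zero
  have hI : Ideal.span {(2 : 𝓞 F)} ≠ 0 := by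
    rw [Ne, Ideal.zero_eq_bot, Ideal.span_singleton_eq_bot]
    exact h20
  have hcount : ∀ w : HeightOneSpectrum (𝓞 F),
      ee w = (Associates.mk w.asIdeal).count (Associates.mk (Ideal.span {(2 : 𝓞 F)})).factors := by
    intro w
    have h1 : w.valuation F (2 : F) = w.intValuation (2 : 𝓞 F) := by
      have h : w.valuation F (algebraMap (𝓞 F) F 2) = w.intValuation (2 : 𝓞 F) :=
        HeightOneSpectrum.valuation_of_algebraMap w (2 : 𝓞 F)
      rwa [map_ofNat (algebraMap (𝓞 F) F) 2] at h
    rw [val_two, HeightOneSpectrum.intValuation_if_neg _ h20, exp_inj] at h1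
    omega
  have hprod : ∏ w ∈ A, w.asIdeal ^ ee w = Ideal.span {(2 : 𝓞 F)} := by
    conv_rhs => rw [← Ideal.finprod_heightOneSpectrum_factorization hI]
    rw [finprod_eq_prod_of_mulSupport_subset (s := A)]
    · refine Finset.prod_congr rfl fun w _ => ?_
      rw [hcount w]
      rfl
    · intro w hw
      rw [Function.mem_mulSupport] at hw
      by_contra hwA
      apply hw
      have h2 : (2 : 𝓞 F) ∉ w.asIdeal := fun h => hwA (hA w h)
      have h3 : w.intValuation (2 : 𝓞 F) = 1 := HeightOneSpectrum.intValuation_eq_one_iff.2 h2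
      have h4 : ee w = 0 := by
        have h1 : w.valuation F (2 : F) = w.intValuation (2 : 𝓞 F) := by
          have h : w.valuation F (algebraMap (𝓞 F) F 2) = w.intValuation (2 : 𝓞 F) :=
            HeightOneSpectrum.valuation_of_algebraMap w (2 : 𝓞 F)
          rwa [map_ofNat (algebraMap (𝓞 F) F) 2] at h
        rw [val_two, h3, ← exp_zero, exp_inj] at h1
        omega
      show w.asIdeal ^ _ = 1
      rw [← hcount w, h4, pow_zero]
  have hnorm : ∀ w ∈ A, Nat.card (𝓞 F ⧸ w.asIdeal ^ ee w) = Ideal.absNorm (w.asIdeal ^ ee w) := by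
    intro w _
    rw [Ideal.absNorm_apply, Submodule.cardQuot_apply]
  rw [Finset.prod_congr rfl hnorm, ← map_prod, hprod, Ideal.absNorm_span_singleton]
  have h5 : (2 : 𝓞 F) = algebraMap ℤ (𝓞 F) 2 := by simp
  rw [h5, Algebra.norm_algebraMap, RingOfIntegers.rank]
  simp

end Pool.Agent.Work.MP_787500_nt.HN
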