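import Mathlib

/-!
# Module IDX (size M, Mathlib only): indices of subgroups of commutative groups

* `two_pow_le_relIndex`: put `g S = ∏ i ∈ S, x i` for `S ⊆ s`. If `L.relIndex Y ≠ 0` the set of cosets `Y / (L ⊓ Y)` is finite
  and `S ↦ class of g S` is injective: if `g S` and `g S'` have the same class then `g S / g S' ∈ L`, and as squares are
  in `L` (`hsq`) the product over the symmetric difference of `S` and `S'` is in `L` (`g S * g S' = g (S Δ S') * (g (S ∩ S'))^2`), so
  `S Δ S' = ∅` by `h`. So `2 ^ s.card ≤ L.relIndex Y`.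
* `index_iInf`: the map `T → ∏ i ∈ s, T ⧸ H i` is surjective by `h` with kernel `⨅ i ∈ s, H i`. Induction on `s` is also
  possible: `(H i ⊓ I).index = (H i).index * I.index` when `H i ⊔ I = ⊤`.
* `exact_index`: `φ : G₁ →* G₂`, `ν : G₂ →* G₁` between finite commutative groups: `card (range ν) = card G₂ / card (ker ν)`,
  `ker ν = range φ`, `card (range φ) = card G₁ / 2`, so `card (range ν) * card G₁ = 2 * card G₂`, and
  `card G₁ = (range ν).index * card (range ν)`.
* `le_relIndex_of_index`: `I ≤ L`, `I.index = 2 * I.relIndex Y` (so `(Y ⊔ I).index = 2`), all finite. Then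
  `L.index = L.relIndex (Y ⊔ L) * (Y ⊔ L).index = L.relIndex Y * (Y ⊔ L).index` (`Subgroup.relIndex_sup_right` or similar,
  commutative group) and `(Y ⊔ L).index` divides `(Y ⊔ I).index = 2`.
-/

set_option autoImplicit false
set_option linter.unusedSectionVars false

namespace Pool.Agent.Work.MP_787500_nt.HN

section comm

variable {T : Type*} [CommGroup T]

theorem two_pow_le_relIndex {ι : Type*} [DecidableEq ι] (s : Finset ι) (x : ι → T) {L Y : Subgroup T}
    (hx : ∀ i ∈ s, x i ∈ Y) (hsq : ∀ y : T, y ^ 2 ∈ L)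
    (h : ∀ S ⊆ s, ∏ i ∈ S, x i ∈ L → S = ∅) (h0 : L.relIndex Y ≠ 0) :
    2 ^ s.card ≤ L.relIndex Y := by
  classical
  have hg : ∀ S : {S // S ∈ s.powerset}, ∏ i ∈ S.1, x i ∈ Y := fun S =>
    Y.prod_mem fun i hi => hx i (Finset.mem_powerset.1 S.2 hi)
  haveI : (L.subgroupOf Y).FiniteIndex := ⟨h0⟩
  have hfin : Finite (Y ⧸ L.subgroupOf Y) := Subgroup.finite_quotient_of_finiteIndex
  have hinj : Function.Injective (fun S : {S // S ∈ s.powerset} =>
      (QuotientGroup.mk (⟨∏ i ∈ S.1, x i, hg S⟩ : Y) : Y ⧸ L.subgroupOf Y)) := by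
    intro S S' hS
    rw [QuotientGroup.eq, Subgroup.mem_subgroupOf] at hS
    simp only [Subgroup.coe_mul, Subgroup.coe_inv] at hS
    have h1 : (∏ i ∈ S.1, x i) * ∏ i ∈ S'.1, x i ∈ L := by
      have h2 := L.mul_mem (hsq (∏ i ∈ S.1, x i)) hS
      have h3 : (∏ i ∈ S.1, x i) ^ 2 * ((∏ i ∈ S.1, x i)⁻¹ * ∏ i ∈ S'.1, x i) =
          (∏ i ∈ S.1, x i) * ∏ i ∈ S'.1, x i := by
        rw [pow_two, mul_assoc, mul_inv_cancel_left]
      rwa [h3] at h2
    have h4 : (∏ i ∈ S.1, x i) * ∏ i ∈ S'.1, x i =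
        (∏ i ∈ (S.1 \ S'.1) ∪ (S'.1 \ S.1), x i) * (∏ i ∈ S.1 ∩ S'.1, x i) ^ 2 := by
      rw [Finset.prod_union]
      · rw [← Finset.prod_inter_mul_prod_sdiff S.1 S'.1, ← Finset.prod_inter_mul_prod_sdiff S'.1 S.1,
          Finset.inter_comm S'.1 S.1, pow_two]
        generalize ∏ i ∈ S.1 ∩ S'.1, x i = A
        generalize ∏ i ∈ S.1 \ S'.1, x i = B
        generalize ∏ i ∈ S'.1 \ S.1, x i = C
        rw [mul_mul_mul_comm A B A C, mul_comm]
      · rw [Finset.disjoint_left]
        intro i hi hi'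
        rw [Finset.mem_sdiff] at hi hi'
        exact hi.2 hi'.1
    have h5 : ∏ i ∈ (S.1 \ S'.1) ∪ (S'.1 \ S.1), x i ∈ L := by
      rw [h4] at h1
      exact (L.mul_mem_cancel_right (hsq _)).1 h1
    have h6 := h _ (Finset.union_subset
      (Finset.sdiff_subset.trans (Finset.mem_powerset.1 S.2))
      (Finset.sdiff_subset.trans (Finset.mem_powerset.1 S'.2))) h5
    rw [Finset.union_eq_empty, Finset.sdiff_eq_empty_iff_subset,
      Finset.sdiff_eq_empty_iff_subset] at h6
    exact Subtype.ext (h6.1.antisymm h6.2)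
  have h7 := Nat.card_le_card_of_injective _ hinj
  rw [Nat.card_eq_fintype_card, Fintype.card_coe, Finset.card_powerset] at h7
  exact h7

theorem index_iInf {ι : Type*} [DecidableEq ι] (s : Finset ι) (H : ι → Subgroup T)
    (h : ∀ z : ι → T, ∃ x : T, ∀ i ∈ s, x / z i ∈ H i) :
    (⨅ i ∈ s, H i).index = ∏ i ∈ s, (H i).index := by
  induction s using Finset.induction_on with
  | empty => simp
  | insert i s hi ih =>
    have ih' := ih fun z => by
      obtain ⟨x, hx⟩ := h z
      exact ⟨x, fun j hj => hx j (Finset.mem_insert_of_mem hj)⟩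
    have hsup : H i ⊔ ⨅ j ∈ s, H j = ⊤ := by
      rw [eq_top_iff]
      intro y _
      obtain ⟨x, hx⟩ := h (Function.update (fun _ => 1) i y)
      have h1 : x / y ∈ H i := by
        have := hx i (Finset.mem_insert_self i s)
        rwa [Function.update_self] at this
      have h2 : x ∈ ⨅ j ∈ s, H j := by
        rw [Subgroup.mem_iInf]
        intro j
        rw [Subgroup.mem_iInf]
        intro hj
        have := hx j (Finset.mem_insert_of_mem hj)
        rw [Function.update_of_ne (fun hji : j = i => hi (hji ▸ hj)), div_one] at this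
        exact this
      have h3 : y = (x / y)⁻¹ * x := by
        rw [inv_div, div_mul_cancel]
      rw [h3]
      exact Subgroup.mul_mem_sup ((H i).inv_mem h1) h2
    rw [Finset.iInf_insert, Finset.prod_insert hi, ← ih']
    have h1 : (H i ⊓ ⨅ j ∈ s, H j).relIndex (⨅ j ∈ s, H j) * (⨅ j ∈ s, H j).index =
        (H i ⊓ ⨅ j ∈ s, H j).index := Subgroup.relIndex_mul_index inf_le_right
    rw [← h1, Subgroup.inf_relIndex_right, ← Subgroup.relIndex_sup_left, hsup,
      Subgroup.relIndex_top_right]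

theorem exact_index {G₁ G₂ : Type*} [CommGroup G₁] [CommGroup G₂] [Finite G₁] [Finite G₂]
    (φ : G₁ →* G₂) (ν : G₂ →* G₁) (hex : ν.ker = φ.range) (hker : Nat.card φ.ker = 2) :
    ν.range.index * (2 * Nat.card G₂) = Nat.card G₁ ^ 2 := by
  have h1 : Nat.card φ.ker * Nat.card φ.range = Nat.card G₁ := by
    rw [← Subgroup.index_ker, Subgroup.card_mul_index]
  have h2 : Nat.card ν.ker * Nat.card ν.range = Nat.card G₂ := by
    rw [← Subgroup.index_ker, Subgroup.card_mul_index]
  have h3 : Nat.card ν.range * ν.range.index = Nat.card G₁ := Subgroup.card_mul_index _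
  rw [hker, ← hex] at h1
  rw [← h2]
  calc ν.range.index * (2 * (Nat.card ν.ker * Nat.card ν.range)) =
      (2 * Nat.card ν.ker) * (Nat.card ν.range * ν.range.index) := by ring
    _ = Nat.card G₁ ^ 2 := by rw [h1, h3, pow_two]

theorem le_relIndex_of_index {I L Y : Subgroup T} (hIL : I ≤ L) (h0 : I.index ≠ 0)
    (h : I.index = 2 * I.relIndex Y) : L.index ≤ 2 * L.relIndex Y := by
  have h1 : I.relIndex (Y ⊔ I) * (Y ⊔ I).index = I.index :=
    Subgroup.relIndex_mul_index le_sup_right
  have h2 : L.relIndex (Y ⊔ L) * (Y ⊔ L).index = L.index :=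
    Subgroup.relIndex_mul_index le_sup_right
  rw [Subgroup.relIndex_sup_right] at h1 h2
  have h3 : I.relIndex Y ≠ 0 := by
    intro h0'
    rw [h0', mul_zero] at h
    exact h0 h
  have h4 : (Y ⊔ I).index = 2 := by
    have : I.relIndex Y * (Y ⊔ I).index = I.relIndex Y * 2 := by rw [h1, h, mul_comm]
    exact Nat.eq_of_mul_eq_mul_left (Nat.pos_of_ne_zero h3) this
  have h5 : (Y ⊔ L).index ∣ 2 := by
    rw [← h4]
    exact Subgroup.index_dvd_of_le (sup_le_sup_left hIL Y)
  have h6 := Nat.le_of_dvd two_pos h5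
  rw [← h2, mul_comm 2]
  exact Nat.mul_le_mul_left _ h6

end comm

end Pool.Agent.Work.MP_787500_nt.HN
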