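import Mathlib
import Pool.Agent.Work.MP_787500_nt.HN.QuadEx
import Pool.Agent.Work.MP_787500_nt.HN.LocGrp

/-!
# Module LOCEXACT (size M-L): local Galois cohomology of a quadratic extension at a stable place

`Q` is a place of `E = F (t)` with `conjPrime σ Q = Q`, `w = below F Q`. Write `|x|` for `Q.valuation E x`; `|σ x| = |x|`
(`valuation_conjPrime`); for `x ∈ F`, `|x| = w x ^ e` with a fixed `e ≠ 0` (`exists_valuation_below`), so inequalities between
elements of `F` can be checked with `|.|`. `|2| ≤ 1`.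
* `im_LS`: `x ∈ LS w` is close to `y ^ 2`, `y ∈ F`; so `im x ∈ LS Q` (any place `Q`).
* `loc_ker`: let `im x ∈ LS Q`; choose `y = b + c t ∈ E` with `|x - y ^ 2| < |16 x|`. Applying `σ`: `|x - σ y ^ 2| < |16 x|`.
  `y ^ 2 = b ^ 2 + a c ^ 2 + 2 b c t`, `σ y ^ 2 = b ^ 2 + a c ^ 2 - 2 b c t`. Sum and difference: `|x - (b ^ 2 + a c ^ 2)| < |8 x|`,
  `|b c t| < |4 x|`. So `|b ^ 2 + a c ^ 2| = |x|`, `|b ^ 2| |a c ^ 2| = |b c t| ^ 2 < |16 x ^ 2|`.
  If `|a c ^ 2| ≤ |b ^ 2|` then `|x| ≤ |b ^ 2|`, so `|a c ^ 2| < |16 x|`, and `|x - b ^ 2| < |4 x|`, `|b ^ 2| = |x|`: all elements are in `F`, so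
  `w (x - b ^ 2) < w (4 b ^ 2)` and `x / b ^ 2 ∈ LS w` (`div_mem_LS_of_close`). If `|b ^ 2| ≤ |a c ^ 2|`: in the same way
  `|x - a c ^ 2| < |4 x|`, `x / (a c ^ 2) ∈ LS w`, so `x a ∈ LS w`.
* `loc_norm`: `x ∈ LS Q`: `|x - y ^ 2| < |4 x|`, `x = y ^ 2 (1 + δ)`, `|δ| < |4|`; `N x = (N y) ^ 2 (1 + η)`,
  `η = δ + σ δ + δ σ δ ∈ F`, `|η| < |4|`: `w (η / 4) < 1`, `LocSq.one_add_four_mul`.
* `loc_exact`: let `n = N x ∈ LS w`: there is `c ∈ Fˣ` with `w (n - c ^ 2) < w (16 n)`. `u = x / c`, `u σ u = n / c ^ 2 = 1 + ε` with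
  `ε ∈ F`, `|ε| < |16|`. `y = 1 + u`; `u σ y = u + 1 + ε = y + ε`. If `|y| < |4|`: `-u = 1 + 4 (-y / 4) ∈ LS Q`, take `f = -c`.
  Otherwise `y ≠ 0`, `u (y σ y) = y (y + ε) = y ^ 2 (1 + 4 (ε / (4 y)))` and `|ε / (4 y)| < |16| / |16| = 1`: it is in `LS Q`; with
  `N y = y σ y ∈ F`: `x / (c / N y) = u N y`. Take `f = c / N y`.
-/

set_option autoImplicit false
set_option linter.unusedSectionVars false

namespace Pool.Agent.Work.MP_787500_nt.HN

open IsDedekindDomain NumberField WithZero

variable {F E : Type*} [Field F] [NumberField F] [Field E] [NumberField E] [Algebra F E] {a : Fˣ}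

private theorem LocExact_cancel {K : Type*} [Field K] {v : Valuation K (WithZero (Multiplicative ℤ))}
    {a b c : K} (h : v (a * b) < v (a * c)) : v b < v c := by
  by_contra hcon
  rw [not_lt] at hcon
  rw [map_mul, map_mul] at h
  exact absurd h (not_lt.2 (by gcongr))

private theorem LocExact_mul {K : Type*} [Field K] {v : Valuation K (WithZero (Multiplicative ℤ))}
    {a b c : K} (ha : a ≠ 0) (h : v b < v c) : v (a * b) < v (a * c) := by
  rw [map_mul, map_mul]
  exact (mul_lt_mul_iff_right₀ (zero_lt_iff.mpr ((v.ne_zero_iff).mpr ha))).mpr h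

private theorem LocExact_two (Q : HeightOneSpectrum (𝓞 E)) : Q.valuation E (2 : E) ≤ 1 := by
  have : Q.valuation E (algebraMap (𝓞 E) E 2) ≤ 1 := Q.valuation_le_one 2
  rwa [map_ofNat] at this

private theorem LocExact_small {Q : HeightOneSpectrum (𝓞 E)} (k : E) :
    Q.valuation E (2 * k) ≤ Q.valuation E k := by
  rw [map_mul]
  calc Q.valuation E 2 * Q.valuation E k ≤ 1 * Q.valuation E k := by
        gcongr
        exact LocExact_two Q
    _ = _ := one_mul _

/-- comparison of the valuations of elements of `F` -/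
private theorem LocExact_lt (Q : HeightOneSpectrum (𝓞 E)) (x y : F) :
    (below F Q).valuation F x < (below F Q).valuation F y ↔
      Q.valuation E (algebraMap F E x) < Q.valuation E (algebraMap F E y) := by
  obtain ⟨e, he, hval⟩ := exists_valuation_below (K := F) Q
  rw [← hval, ← hval]
  exact (pow_lt_pow_iff_left₀ zero_le zero_le he).symm

private theorem LocExact_conj (q : QExt F E a) {Q : HeightOneSpectrum (𝓞 E)}
    (hQ : conjPrime (q.σ : E ≃+* E) Q = Q) (x : E) :
    Q.valuation E (q.σ x) = Q.valuation E x := by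
  have := valuation_conjPrime (q.σ : E ≃+* E) Q x
  rw [hQ] at this
  exact this.symm

theorem im_LS {Q : HeightOneSpectrum (𝓞 E)} {x : Fˣ} (h : x ∈ LS (below F Q)) :
    im F E x ∈ LS Q := by
  obtain ⟨e, he, hval⟩ := exists_valuation_below (K := F) Q
  intro γ hγ
  have hm : min γ 1 ≠ 0 := by
    rcases min_choice γ 1 with h | h <;> rw [h]
    · exact hγ
    · exact one_ne_zero
  obtain ⟨y, hy⟩ := h (min γ 1) hm
  refine ⟨algebraMap F E y, ?_⟩
  rw [im_val, ← map_pow, ← map_sub, ← hval]
  calc (below F Q).valuation F ((x : F) - y ^ 2) ^ e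
      ≤ (below F Q).valuation F ((x : F) - y ^ 2) ^ 1 :=
        pow_le_pow_right_of_le_one' (hy.le.trans (min_le_right _ _)) (by omega)
    _ < γ := by rw [pow_one]; exact lt_of_lt_of_le hy (min_le_left _ _)

theorem loc_ker (q : QExt F E a) {Q : HeightOneSpectrum (𝓞 E)}
    (hQ : conjPrime (q.σ : E ≃+* E) Q = Q) {x : Fˣ} (h : im F E x ∈ LS Q) :
    x ∈ LS (below F Q) ∨ x * a ∈ LS (below F Q) := by
  have h2 : (2 : E) ≠ 0 := two_ne_zero
  have hx0 : algebraMap F E (x : F) ≠ 0 := by
    rw [Ne, map_eq_zero]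
    exact x.ne_zero
  have h16 : (16 : E) * algebraMap F E (x : F) ≠ 0 := mul_ne_zero (by norm_num) hx0
  obtain ⟨y, hy⟩ := h (Q.valuation E (16 * algebraMap F E (x : F))) ((Valuation.ne_zero_iff _).2 h16)
  rw [im_val] at hy
  obtain ⟨b, c, rfl⟩ := q.hE y
  set V := Q.valuation E with hV
  set X := algebraMap F E (x : F) with hX
  set B := algebraMap F E b with hB
  set D := algebraMap F E c with hD
  set A := algebraMap F E (a : F) with hA
  have ht : q.t ^ 2 = A := q.ht
  have hy' : V (X - (B - D * q.t) ^ 2) < V (16 * X) := by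
    have e1 : q.σ (X - (B + D * q.t) ^ 2) = X - (B - D * q.t) ^ 2 := by
      rw [map_sub, map_pow, map_add, map_mul, q.hσ, hX, hB, hD, AlgEquiv.commutes,
        AlgEquiv.commutes, AlgEquiv.commutes]
      ring
    rw [← e1, LocExact_conj q hQ]
    exact hy
  have hsum : V (X - (B ^ 2 + A * D ^ 2)) < V (8 * X) := by
    apply LocExact_cancel (a := (2 : E))
    have e1 : 2 * (X - (B ^ 2 + A * D ^ 2)) =
        (X - (B + D * q.t) ^ 2) + (X - (B - D * q.t) ^ 2) := by
      rw [← ht]; ring
    rw [e1, show (2 : E) * (8 * X) = 16 * X by ring]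
    exact lt_of_le_of_lt (V.map_add _ _) (max_lt hy hy')
  have hdiff : V (B * D * q.t) < V (4 * X) := by
    apply LocExact_cancel (a := (4 : E))
    have e1 : 4 * (B * D * q.t) = (X - (B - D * q.t) ^ 2) - (X - (B + D * q.t) ^ 2) := by ring
    rw [e1, show (4 : E) * (4 * X) = 16 * X by ring]
    exact lt_of_le_of_lt (V.map_sub _ _) (max_lt hy' hy)
  have hle8 : V (8 * X) ≤ V (4 * X) := by
    have := LocExact_small (Q := Q) (4 * X)
    rwa [show (2 : E) * (4 * X) = 8 * X by ring] at this
  have hle16 : V (16 * X) ≤ V (4 * X) := by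
    have := LocExact_small (Q := Q) (8 * X)
    rw [show (2 : E) * (8 * X) = 16 * X by ring] at this
    exact this.trans hle8
  have hle4 : V (4 * X) ≤ V X := by
    have h1 := LocExact_small (Q := Q) (2 * X)
    rw [show (2 : E) * (2 * X) = 4 * X by ring] at h1
    exact h1.trans (LocExact_small (Q := Q) X)
  have hval : V (B ^ 2 + A * D ^ 2) = V X := by
    have h1 : V ((B ^ 2 + A * D ^ 2) - X) < V X := by
      rw [Valuation.map_sub_swap]
      exact lt_of_lt_of_le hsum (hle8.trans hle4)
    have h3 := Valuation.map_add_eq_of_lt_left V h1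
    rwa [show X + (B ^ 2 + A * D ^ 2 - X) = B ^ 2 + A * D ^ 2 by ring] at h3
  have hprod : V (B ^ 2 * (A * D ^ 2)) < V (X * (16 * X)) := by
    rw [← ht, show B ^ 2 * (q.t ^ 2 * D ^ 2) = (B * D * q.t) ^ 2 by ring,
      show X * (16 * X) = (4 * X) ^ 2 by ring, map_pow, map_pow]
    exact (pow_lt_pow_iff_left₀ zero_le zero_le (by norm_num)).2 hdiff
  have hVX : 0 < V X := zero_lt_iff.2 ((Valuation.ne_zero_iff _).2 hx0)
  have hmax : V X ≤ max (V (B ^ 2)) (V (A * D ^ 2)) := by
    rw [← hval]
    exact V.map_add _ _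
  -- one of the two summands is close to `X`
  have key : ∀ U W : E, U + W = B ^ 2 + A * D ^ 2 → U * W = B ^ 2 * (A * D ^ 2) → V W ≤ V U →
      V (X - U) < V (4 * U) := by
    intro U W hs hp hle
    have h1 : V X ≤ V U := by
      rw [← hval, ← hs]
      exact (V.map_add _ _).trans (max_le le_rfl hle)
    have h3 : V W < V (16 * X) := by
      by_contra hcon
      rw [not_lt] at hcon
      have : V (X * (16 * X)) ≤ V (U * W) := by
        rw [map_mul V X, map_mul V U]
        exact mul_le_mul' h1 hcon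
      rw [hp] at this
      exact absurd hprod (not_lt.2 this)
    have h4 : V (X - U) < V (4 * X) := by
      rw [show X - U = (X - (B ^ 2 + A * D ^ 2)) + W by rw [← hs]; ring]
      exact lt_of_le_of_lt (V.map_add _ _)
        (max_lt (lt_of_lt_of_le hsum hle8) (lt_of_lt_of_le h3 hle16))
    have h5 : V U = V X := by
      have h6 : V (U - X) < V X := by
        rw [Valuation.map_sub_swap]
        exact lt_of_lt_of_le h4 hle4
      have h7 := Valuation.map_add_eq_of_lt_left V h6
      rwa [show X + (U - X) = U by ring] at h7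
    rw [map_mul, h5, ← map_mul]
    exact h4
  rcases le_total (V (A * D ^ 2)) (V (B ^ 2)) with hle | hle
  · left
    have h1 := key (B ^ 2) (A * D ^ 2) rfl rfl hle
    have hb : b ≠ 0 := by
      intro hb
      rw [hB, hb] at h1
      simp at h1
    have h3 : (below F Q).valuation F ((x : F) - ((Units.mk0 b hb ^ 2 : Fˣ) : F)) <
        (below F Q).valuation F (4 * ((Units.mk0 b hb ^ 2 : Fˣ) : F)) := by
      rw [LocExact_lt, Units.val_pow_eq_pow_val, Units.val_mk0, map_sub, map_mul, map_pow,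
        map_ofNat]
      exact h1
    exact (LS_of_close h3).2 (sq_mem_LS _)
  · right
    have h1 := key (A * D ^ 2) (B ^ 2) (add_comm _ _) (mul_comm _ _) hle
    have hc : c ≠ 0 := by
      intro hc
      rw [hD, hc] at h1
      simp at h1
    have h3 : (below F Q).valuation F ((x : F) - ((a * Units.mk0 c hc ^ 2 : Fˣ) : F)) <
        (below F Q).valuation F (4 * ((a * Units.mk0 c hc ^ 2 : Fˣ) : F)) := by
      rw [LocExact_lt, Units.val_mul, Units.val_pow_eq_pow_val, Units.val_mk0, map_sub,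
        map_mul (algebraMap F E) 4, map_mul (algebraMap F E) (a : F), map_pow, map_ofNat]
      exact h1
    have h4 := div_mem_LS_of_close h3
    have h5 : x * a = x / (a * Units.mk0 c hc ^ 2) * (a * Units.mk0 c hc) ^ 2 := by
      have e1 : (a * Units.mk0 c hc) ^ 2 = a * Units.mk0 c hc ^ 2 * a := by
        rw [mul_pow, pow_two a]
        ac_rfl
      rw [e1, ← mul_assoc, div_mul_cancel]
    rw [h5]
    exact mul_mem h4 (sq_mem_LS _)

theorem loc_norm (q : QExt F E a) {Q : HeightOneSpectrum (𝓞 E)}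
    (hQ : conjPrime (q.σ : E ≃+* E) Q = Q) {x : Eˣ} (h : x ∈ LS Q) : q.N x ∈ LS (below F Q) := by
  have h4 : (4 : E) * (x : E) ≠ 0 := mul_ne_zero (by norm_num) x.ne_zero
  have hle4 : Q.valuation E (4 * (x : E)) ≤ Q.valuation E (x : E) := by
    have h1 := LocExact_small (Q := Q) (2 * (x : E))
    rw [show (2 : E) * (2 * (x : E)) = 4 * x by ring] at h1
    exact h1.trans (LocExact_small (Q := Q) (x : E))
  obtain ⟨y, hy⟩ := h (Q.valuation E (4 * (x : E))) ((Valuation.ne_zero_iff _).2 h4)
  have hy0 : y ≠ 0 := by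
    rintro rfl
    rw [show (x : E) - 0 ^ 2 = x by ring] at hy
    exact absurd hy (not_lt.2 hle4)
  have hyx : Q.valuation E (y ^ 2) = Q.valuation E (x : E) := by
    have h6 : Q.valuation E (y ^ 2 - (x : E)) < Q.valuation E (x : E) := by
      rw [Valuation.map_sub_swap]
      exact lt_of_lt_of_le hy hle4
    have h7 := Valuation.map_add_eq_of_lt_left (Q.valuation E) h6
    rwa [show (x : E) + (y ^ 2 - x) = y ^ 2 by ring] at h7
  set Y : Eˣ := Units.mk0 y hy0 with hY
  set z : Eˣ := x / Y ^ 2 with hz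
  have hzv : (z : E) = (x : E) / y ^ 2 := by
    rw [hz, Units.val_div_eq_div_val, Units.val_pow_eq_pow_val, hY, Units.val_mk0]
  have hδ : Q.valuation E ((z : E) - 1) < Q.valuation E (4 : E) := by
    apply LocExact_cancel (a := y ^ 2)
    rw [hzv, mul_sub, mul_div_cancel₀ _ (pow_ne_zero 2 hy0), mul_one, mul_comm (y ^ 2) (4 : E),
      map_mul _ (4 : E), hyx, ← map_mul]
    exact hy
  have hx : x = Y ^ 2 * z := by
    rw [hz, mul_div_cancel]
  rw [hx, map_mul, map_pow]
  refine mul_mem (sq_mem_LS _) ?_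
  have h4' : Q.valuation E (4 : E) ≤ 1 := by
    have h1 := LocExact_small (Q := Q) (2 : E)
    rw [show (2 : E) * 2 = 4 by norm_num] at h1
    exact h1.trans (LocExact_two Q)
  have h5 : (below F Q).valuation F ((q.N z : F) - ((1 : Fˣ) : F)) <
      (below F Q).valuation F (4 * ((1 : Fˣ) : F)) := by
    rw [LocExact_lt, Units.val_one, mul_one, map_sub, q.N_val, map_one, map_ofNat]
    have e1 : (z : E) * q.σ z - 1 = (z - 1) + q.σ (z - 1) + (z - 1) * q.σ (z - 1) := by
      rw [map_sub, map_one]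
      ring
    have h6 : Q.valuation E (q.σ ((z : E) - 1)) < Q.valuation E (4 : E) := by
      rw [LocExact_conj q hQ]
      exact hδ
    rw [e1]
    refine lt_of_le_of_lt (Valuation.map_add _ _ _) (max_lt ?_ ?_)
    · exact lt_of_le_of_lt (Valuation.map_add _ _ _) (max_lt hδ h6)
    · rw [map_mul]
      calc Q.valuation E ((z : E) - 1) * Q.valuation E (q.σ ((z : E) - 1))
          ≤ 1 * Q.valuation E (q.σ ((z : E) - 1)) := by
            gcongr
            exact hδ.le.trans h4'
        _ < Q.valuation E 4 := by rw [one_mul]; exact h6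
  exact (LS_of_close h5).2 (one_mem _)

theorem loc_exact (q : QExt F E a) {Q : HeightOneSpectrum (𝓞 E)}
    (hQ : conjPrime (q.σ : E ≃+* E) Q = Q) {x : Eˣ} (h : q.N x ∈ LS (below F Q)) :
    ∃ f : Fˣ, x / im F E f ∈ LS Q := by
  have hinj : Function.Injective (algebraMap F E) := (algebraMap F E).injective
  set n : Fˣ := q.N x with hn
  have h16 : (16 : F) * (n : F) ≠ 0 := mul_ne_zero (by norm_num) n.ne_zero
  obtain ⟨c, hc⟩ := h ((below F Q).valuation F (16 * (n : F))) ((Valuation.ne_zero_iff _).2 h16)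
  have h2F : (below F Q).valuation F (2 : F) ≤ 1 := by
    have : (below F Q).valuation F (algebraMap (𝓞 F) F 2) ≤ 1 := (below F Q).valuation_le_one 2
    rwa [map_ofNat] at this
  have hle : (below F Q).valuation F (16 * (n : F)) ≤ (below F Q).valuation F (n : F) := by
    rw [show (16 : F) * n = 2 * 2 * 2 * 2 * n by ring, map_mul, map_mul, map_mul, map_mul]
    calc _ ≤ 1 * 1 * 1 * 1 * (below F Q).valuation F (n : F) := by gcongr
      _ = _ := by simp
  have hc0 : c ≠ 0 := by
    rintro rfl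
    rw [show (n : F) - 0 ^ 2 = n by ring] at hc
    exact absurd hc (not_lt.2 hle)
  have hcn : (below F Q).valuation F (c ^ 2) = (below F Q).valuation F (n : F) := by
    have h6 : (below F Q).valuation F (c ^ 2 - (n : F)) < (below F Q).valuation F (n : F) := by
      rw [Valuation.map_sub_swap]
      exact lt_of_lt_of_le hc hle
    have h7 := Valuation.map_add_eq_of_lt_left ((below F Q).valuation F) h6
    rwa [show (n : F) + (c ^ 2 - n) = c ^ 2 by ring] at h7
  set C : Fˣ := Units.mk0 c hc0 with hC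
  set u : Eˣ := x / im F E C with hu
  set ε : F := (n : F) / c ^ 2 - 1 with hε
  have hCv : ((im F E C : Eˣ) : E) = algebraMap F E c := rfl
  have hcE : algebraMap F E c ≠ 0 := by
    rw [Ne, map_eq_zero]
    exact hc0
  have huv : (u : E) = (x : E) / algebraMap F E c := by
    rw [hu, Units.val_div_eq_div_val, hCv]
  have hεF : (below F Q).valuation F ε < (below F Q).valuation F (16 : F) := by
    apply LocExact_cancel (a := c ^ 2)
    rw [hε, mul_sub, mul_div_cancel₀ _ (pow_ne_zero 2 hc0), mul_one, mul_comm (c ^ 2) (16 : F),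
      map_mul _ (16 : F), hcn, ← map_mul]
    exact hc
  have hεE : Q.valuation E (algebraMap F E ε) < Q.valuation E (16 : E) := by
    have := (LocExact_lt Q ε (16 : F)).1 hεF
    rwa [map_ofNat] at this
  have huu : (u : E) * q.σ u = 1 + algebraMap F E ε := by
    rw [huv, map_div₀, AlgEquiv.commutes, hε, map_sub, map_div₀, map_pow, map_one, hn, q.N_val]
    field_simp
    ring
  have h4le : Q.valuation E (4 : E) ≤ 1 := by
    have h1 := LocExact_small (Q := Q) (2 : E)
    rw [show (2 : E) * 2 = 4 by norm_num] at h1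
    exact h1.trans (LocExact_two Q)
  by_cases hy : Q.valuation E (1 + (u : E)) < Q.valuation E (4 : E)
  · refine ⟨-C, ?_⟩
    have e1 : x / im F E (-C) = -u := by
      apply Units.ext
      rw [Units.val_div_eq_div_val, Units.val_neg, huv, im_val, Units.val_neg, map_neg, div_neg]
      rfl
    rw [e1]
    have h5 : Q.valuation E (((-u : Eˣ) : E) - ((1 : Eˣ) : E)) <
        Q.valuation E (4 * ((1 : Eˣ) : E)) := by
      rw [Units.val_neg, Units.val_one, mul_one, show -(u : E) - 1 = -(1 + u) by ring,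
        Valuation.map_neg]
      exact hy
    exact (LS_of_close h5).2 (one_mem _)
  · rw [not_lt] at hy
    have hy0 : 1 + (u : E) ≠ 0 := by
      intro h0
      rw [h0, map_zero] at hy
      have h4 : Q.valuation E (4 : E) ≠ 0 := (Valuation.ne_zero_iff _).2 (by norm_num)
      exact h4 (le_antisymm hy zero_le)
    set Y : Eˣ := Units.mk0 (1 + (u : E)) hy0 with hY
    refine ⟨C / q.N Y, ?_⟩
    have e1 : x / im F E (C / q.N Y) = u * im F E (q.N Y) := by
      rw [map_div, hu, div_div_eq_mul_div, div_mul_eq_mul_div]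
    rw [e1]
    have e2 : ((u * im F E (q.N Y) : Eˣ) : E) =
        (Y : E) ^ 2 + (Y : E) * algebraMap F E ε := by
      rw [Units.val_mul, im_val, q.N_val]
      have e3 : (u : E) * q.σ (Y : E) = (Y : E) + algebraMap F E ε := by
        rw [hY, Units.val_mk0, map_add, map_one, mul_add, huu]
        ring
      calc (u : E) * ((Y : E) * q.σ (Y : E)) = (Y : E) * ((u : E) * q.σ (Y : E)) := by ring
        _ = _ := by rw [e3]; ring
    have h5 : Q.valuation E (((u * im F E (q.N Y) : Eˣ) : E) - ((Y ^ 2 : Eˣ) : E)) <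
        Q.valuation E (4 * ((Y ^ 2 : Eˣ) : E)) := by
      rw [e2, Units.val_pow_eq_pow_val, add_sub_cancel_left,
        show (4 : E) * (Y : E) ^ 2 = Y * (4 * Y) by ring]
      apply LocExact_mul Y.ne_zero
      calc Q.valuation E (algebraMap F E ε) < Q.valuation E (16 : E) := hεE
        _ = Q.valuation E 4 * Q.valuation E 4 := by
          rw [← map_mul]
          norm_num
        _ ≤ Q.valuation E 4 * Q.valuation E (Y : E) := by
          gcongr
          exact hy
        _ = _ := (map_mul _ _ _).symm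
    exact (LS_of_close h5).2 (sq_mem_LS _)

end Pool.Agent.Work.MP_787500_nt.HN
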