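import Mathlib
import Pool.Agent.Work.MP_787500_nt.HN.Idx
import Pool.Agent.Work.MP_787500_nt.HN.LocCount
import Pool.Agent.Work.MP_787500_nt.HN.LocDeg
import Pool.Agent.Work.MP_787500_nt.HN.LocExact

/-!
# Module LOCIDX (size M): the index of the local norms

`a ∉ LS w`; then `a ∉ sq F` (`sq_le_LS`), `E` from `exists_qext`, `Q` the place above `w`, stable under `σ` (`nonsplit_unique`).
`G₁ = Fˣ ⧸ LS w`, `G₂ = Eˣ ⧸ LS Q`, finite (`card_LS`, `card_quot_pos`; `Subgroup.index` is the cardinality of the quotient).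
`φ : G₁ → G₂` induced by `im F E` (`im_LS`), `ν : G₂ → G₁` induced by `q.N` (`loc_norm`). `ker φ = {1, a}` has two elements (`loc_ker`;
`a = t ^ 2` in `E`; `a ∉ LS w`). `ker ν = range φ`: `loc_exact`, and `N (im f) = f ^ 2`. The index of `range ν` is the index of `LN w a`
(`N_range`; `LN w a = Nm a ⊔ LS w` is the preimage of `range ν`). By `exact_index`, with `c = card (𝓞 F ⧸ w ^ ee w)`:
`(LN w a).index * (2 * (4 * c ^ 2)) = (4 * c) ^ 2` (`card_LS` for `w` and `Q`, `loc_deg`), so `(LN w a).index = 2`.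
-/

set_option autoImplicit false
set_option linter.unusedSectionVars false

namespace Pool.Agent.Work.MP_787500_nt.HN

open IsDedekindDomain NumberField WithZero

private theorem LocIdx_group {G H : Type*} [CommGroup G] [CommGroup H] {L : Subgroup G}
    {M : Subgroup H} (im : G →* H) (N : H →* G) {a : G} (ha : a ∉ L) {c : ℕ} (hc : 0 < c)
    (hL : L.index = 4 * c) (hM : M.index = 4 * c ^ 2) (hsq : ∀ x : G, x ^ 2 ∈ L)
    (h1 : ∀ x ∈ L, im x ∈ M) (h2 : ∀ x ∈ M, N x ∈ L) (h3 : ∀ x, N (im x) = x ^ 2)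
    (h4 : ∀ x, im x ∈ M → x ∈ L ∨ x * a ∈ L) (h5 : im a ∈ M)
    (h6 : ∀ x, N x ∈ L → ∃ f, x / im f ∈ M) : (N.range ⊔ L).index = 2 := by
  haveI : Finite (G ⧸ L) := by
    rw [← Subgroup.index_ne_zero_iff_finite, hL]
    omega
  haveI : Finite (H ⧸ M) := by
    rw [← Subgroup.index_ne_zero_iff_finite, hM]
    positivity
  let φ : G ⧸ L →* H ⧸ M := QuotientGroup.map _ _ im (fun x hx => h1 x hx)
  let ν : H ⧸ M →* G ⧸ L := QuotientGroup.map _ _ N (fun x hx => h2 x hx)
  have hφ : ∀ x : G, φ (QuotientGroup.mk x) = QuotientGroup.mk (im x) := fun _ => rfl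
  have hν : ∀ x : H, ν (QuotientGroup.mk x) = QuotientGroup.mk (N x) := fun _ => rfl
  have hex : ν.ker = φ.range := by
    ext z
    obtain ⟨x, rfl⟩ := QuotientGroup.mk_surjective z
    rw [MonoidHom.mem_ker, hν, QuotientGroup.eq_one_iff, MonoidHom.mem_range]
    constructor
    · intro hx
      obtain ⟨f, hf⟩ := h6 x hx
      refine ⟨QuotientGroup.mk f, ?_⟩
      rw [hφ, QuotientGroup.eq]
      rwa [div_eq_inv_mul] at hf
    · rintro ⟨f, hf⟩
      obtain ⟨f, rfl⟩ := QuotientGroup.mk_surjective f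
      rw [hφ, QuotientGroup.eq] at hf
      have h7 := h2 _ hf
      rw [map_mul, map_inv, h3] at h7
      have h8 : N x = f ^ 2 * ((f ^ 2)⁻¹ * N x) := by rw [mul_inv_cancel_left]
      rw [h8]
      exact mul_mem (hsq _) h7
  have hker : Nat.card φ.ker = 2 := by
    have h7 : (φ.ker : Set (G ⧸ L)) = {1, (QuotientGroup.mk a : G ⧸ L)} := by
      ext z
      obtain ⟨x, rfl⟩ := QuotientGroup.mk_surjective z
      rw [SetLike.mem_coe, MonoidHom.mem_ker, hφ, QuotientGroup.eq_one_iff, Set.mem_insert_iff,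
        Set.mem_singleton_iff, QuotientGroup.eq_one_iff, QuotientGroup.eq]
      constructor
      · intro hx
        rcases h4 x hx with h8 | h8
        · exact Or.inl h8
        · right
          have h9 : x⁻¹ * a = (x⁻¹) ^ 2 * (x * a) := by
            rw [pow_two, mul_assoc, inv_mul_cancel_left]
          rw [h9]
          exact mul_mem (hsq _) h8
      · rintro (h8 | h8)
        · exact h1 _ h8
        · have h9 := h1 _ h8
          rw [map_mul, map_inv] at h9
          have h10 : im x = ((im x)⁻¹ * im a)⁻¹ * im a := by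
            rw [mul_inv_rev, inv_inv, mul_comm (im a)⁻¹, inv_mul_cancel_right]
          rw [h10]
          exact mul_mem (inv_mem h9) h5
    have h8 : (1 : G ⧸ L) ≠ QuotientGroup.mk a := by
      intro h9
      exact ha ((QuotientGroup.eq_one_iff a).1 h9.symm)
    have h9 : Nat.card φ.ker = (φ.ker : Set (G ⧸ L)).ncard :=
      Nat.card_coe_set_eq _
    rw [h9, h7, Set.ncard_pair h8]
  have hidx : ν.range.index = (N.range ⊔ L).index := by
    have h7 : ν.range.comap (QuotientGroup.mk' L) = N.range ⊔ L := by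
      ext x
      rw [Subgroup.mem_comap, MonoidHom.mem_range, Subgroup.mem_sup]
      constructor
      · rintro ⟨y, hy⟩
        obtain ⟨y, rfl⟩ := QuotientGroup.mk_surjective y
        rw [hν, QuotientGroup.mk'_apply, QuotientGroup.eq] at hy
        exact ⟨N y, ⟨y, rfl⟩, (N y)⁻¹ * x, hy, by rw [mul_inv_cancel_left]⟩
      · rintro ⟨_, ⟨y, rfl⟩, z, hz, rfl⟩
        refine ⟨QuotientGroup.mk y, ?_⟩
        rw [hν, QuotientGroup.mk'_apply, QuotientGroup.eq, inv_mul_cancel_left]
        exact hz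
    rw [← h7, Subgroup.index_comap_of_surjective _ (QuotientGroup.mk'_surjective _)]
  have hfin := exact_index φ ν hex hker
  have e1 : Nat.card (G ⧸ L) = 4 * c := hL
  have e2 : Nat.card (H ⧸ M) = 4 * c ^ 2 := hM
  rw [hidx, e1, e2] at hfin
  have h7 : (8 * c ^ 2) * (N.range ⊔ L).index = (8 * c ^ 2) * 2 := by
    linear_combination hfin
  exact Nat.eq_of_mul_eq_mul_left (by positivity) h7

variable {F : Type*} [Field F] [NumberField F]

theorem LN_index {w : HeightOneSpectrum (𝓞 F)} {a : Fˣ} (h : a ∉ LS w) : (LN w a).index = 2 := by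
  have hsq : a ∉ sq F := fun h' => h (sq_le_LS w h')
  obtain ⟨E, _, _, _, ⟨q⟩, -⟩ := exists_qext hsq
  obtain ⟨Q, hQw, hQc, -⟩ := nonsplit_unique q h
  subst hQw
  have hNim : ∀ x : Fˣ, q.N (im F E x) = x ^ 2 := by
    intro x
    apply Units.ext
    apply (algebraMap F E).injective
    rw [q.N_val, im_val, AlgEquiv.commutes, Units.val_pow_eq_pow_val, map_pow, pow_two]
  have hia : im F E a ∈ LS Q := by
    apply sq_le_LS
    have ht : q.t ≠ 0 := by
      intro h0
      have := q.ht
      rw [h0] at this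
      have h3 : algebraMap F E (a : F) ≠ 0 := by
        rw [Ne, map_eq_zero]
        exact a.ne_zero
      exact h3 (by rw [← this]; ring)
    refine ⟨Units.mk0 q.t ht, ?_⟩
    apply Units.ext
    show q.t ^ 2 = _
    rw [q.ht, im_val]
  rw [LN, ← q.N_range]
  exact LocIdx_group (im F E) q.N h (card_quot_pos (below F Q) (ee (below F Q)))
    (card_LS (below F Q)) (by rw [card_LS Q, loc_deg q h]) (fun x => sq_mem_LS x)
    (fun x hx => im_LS hx) (fun x hx => loc_norm q hQc hx) hNim (fun x hx => loc_ker q hQc hx)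
    hia (fun x hx => loc_exact q hQc hx)

/-- a consequence: there is an element that is not a local norm -/
theorem exists_not_LN {w : HeightOneSpectrum (𝓞 F)} {a : Fˣ} (h : a ∉ LS w) : ∃ z : Fˣ, z ∉ LN w a := by
  by_contra hcon
  push Not at hcon
  have h1 := LN_index h
  rw [(Subgroup.eq_top_iff' _).2 hcon, Subgroup.index_top] at h1
  omega

end Pool.Agent.Work.MP_787500_nt.HN
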