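import Mathlib
import Pool.Agent.Work.MP_787500_nt.HN.Defs
import Pool.Agent.Work.MP_787500_nt.GP.N2_Rank

/-!
# Module SUCARD (size M): the number of square classes of S-units

`relIndex_sq_sUnit`: `F` totally complex of degree `2 m`. `(sq F).relIndex (sUnit A)` = index of `{x ∈ sUnit A | x is a square in F}` in `sUnit A`; a
square root of an S-unit is an S-unit (`v y ^ 2 = 1` gives `v y = 1`), so it is the index of the squares in the finitely
generated commutative group `B = sUnit A` (`sUnit_fg`) of rank `m + card A - 1` (`sUnit_rank`). `B` has exactly two elements with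
`b ^ 2 = 1`. For a finitely generated commutative group with exactly two such elements the index of the squares is
`2 ^ (rank + 1)`: `N1_NormAlg.lean` has this as a private lemma (see its header: `B ≃ torsion × ℤ ^ r`); copy it.
-/

set_option autoImplicit false
set_option linter.unusedSectionVars false

namespace Pool.Agent.Work.MP_787500_nt.HN

open IsDedekindDomain NumberField WithZero
open Pool.Agent.Work.MP_787500_nt.GP (sUnit mem_sUnit)

variable {F : Type*} [Field F] [NumberField F]

private theorem index_squares {B : Type*} [CommGroup B] [Group.FG B] (ε : B) (hε : ε ≠ 1)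
    (h : ε ^ 2 = 1) (h2 : ∀ x : B, x ^ 2 = 1 → x = 1 ∨ x = ε) :
    (powMonoidHom 2 : B →* B).range.index = 2 ^ (Module.finrank ℤ (Additive B) + 1) := by
  have hfg : AddGroup.FG (Additive B) := GroupFG.iff_add_fg.1 inferInstance
  have e1 : (powMonoidHom 2 : B →* B).range.index = (dbl (Additive B)).range.index := rfl
  rw [e1, index_dbl_eq, pow_succ]
  congr 1
  rw [Nat.card_eq_two_iff]
  refine ⟨0, ⟨Additive.ofMul ε, ?_⟩, ?_, ?_⟩
  · exact congrArg Additive.ofMul h
  · intro h3
    exact hε (congrArg (fun x => (x : Additive B).toMul) (congrArg Subtype.val h3)).symm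
  · ext ⟨x, hx⟩
    simp only [Set.mem_insert_iff, Set.mem_singleton_iff, Set.mem_univ, iff_true]
    rcases h2 x.toMul (congrArg Additive.toMul hx) with h4 | h4
    · left
      exact Subtype.ext (congrArg Additive.ofMul h4)
    · right
      exact Subtype.ext (congrArg Additive.ofMul h4)

private theorem sq_eq_one_iff_of_side_cond {x : F} (h : x ^ 2 = 1) : x = 1 ∨ x = -1 := by
  have h3 : (x - 1) * (x + 1) = 0 := by linear_combination h
  rcases mul_eq_zero.1 h3 with h | h
  · left
    exact sub_eq_zero.1 h
  · right
    exact eq_neg_of_add_eq_zero_left h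

private theorem pow_two_eq_one {r : WithZero (Multiplicative ℤ)} (h : r ^ 2 = 1) : r = 1 := by
  have hr0 : r ≠ 0 := by
    rintro rfl
    rw [zero_pow two_ne_zero] at h
    exact zero_ne_one h
  obtain ⟨n, rfl⟩ : ∃ n : ℤ, r = exp n := ⟨_, (exp_log hr0).symm⟩
  rw [← exp_nsmul, ← exp_zero, exp_inj] at h
  rw [← exp_zero, exp_inj]
  simpa using h

theorem relIndex_sq_sUnit [IsTotallyComplex F] (A : Finset (HeightOneSpectrum (𝓞 F))) {m : ℕ}
    (hm : Module.finrank ℚ F = 2 * m) : (sq F).relIndex (sUnit A) = 2 ^ (m + A.card) := by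
  have hfg : Group.FG (sUnit A) := GP.sUnit_fg A
  have hrk := GP.sUnit_rank A
  rw [hm] at hrk
  have hmem : (-1 : Fˣ) ∈ sUnit A := by
    intro v _
    rw [Units.val_neg, Units.val_one, Valuation.map_neg, map_one]
  have key := index_squares (⟨-1, hmem⟩ : sUnit A)
    (by
      intro h
      have h1 : (-1 : Fˣ) = 1 := congrArg Subtype.val h
      have h2 : (-1 : F) = 1 := by
        have := congrArg Units.val h1
        simpa using this
      have h3 : (2 : F) = 0 := by linear_combination (-1 : F) * h2
      exact two_ne_zero h3)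
    (Subtype.ext (by simp))
    (fun x hx => by
      have h1 : (x : Fˣ) ^ 2 = 1 := congrArg Subtype.val hx
      have h2 : ((x : Fˣ) : F) ^ 2 = 1 := by
        rw [← Units.val_pow_eq_pow_val, h1, Units.val_one]
      rcases sq_eq_one_iff_of_side_cond h2 with h | h
      · left
        exact Subtype.ext (Units.ext h)
      · right
        exact Subtype.ext (Units.ext (by rw [h]; simp)))
  have hrk2 : Module.finrank ℤ (Additive (sUnit A)) + 1 = m + A.card := by omega
  rw [hrk2] at key
  rw [← key]
  show ((sq F).subgroupOf (sUnit A)).index = _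
  congr 1
  ext x
  rw [Subgroup.mem_subgroupOf]
  constructor
  · rintro ⟨y, hy⟩
    have hy' : y ^ 2 = (x : Fˣ) := hy
    have hyA : y ∈ sUnit A := by
      intro v hv
      have h1 := x.2 v hv
      rw [← hy', Units.val_pow_eq_pow_val, map_pow] at h1
      exact pow_two_eq_one h1
    exact ⟨⟨y, hyA⟩, Subtype.ext hy'⟩
  · rintro ⟨y, rfl⟩
    exact ⟨y, rfl⟩

theorem exists_half_degree [IsTotallyComplex F] : ∃ m : ℕ, Module.finrank ℚ F = 2 * m :=
  ⟨_, NumberField.IsTotallyComplex.finrank F⟩

end Pool.Agent.Work.MP_787500_nt.HN
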