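import Mathlib
import Pool.Agent.Work.MP_787500_nt.HN.Idx
import Pool.Agent.Work.MP_787500_nt.HN.QuadEx
import Pool.Agent.Work.MP_787500_nt.HN.ClA
import Pool.Agent.Work.MP_787500_nt.HN.SuCard
import Pool.Agent.Work.MP_787500_nt.HN.Places
import Pool.Agent.Work.MP_787500_nt.GP.N3_Quad

/-!
# Module NORMIDX (size M-L): the norm index for S-units

`F` totally complex of degree `2 m`, `A` contains the places above 2, `CL A`, `a ∈ sUnit A` not a square, `E = F (t)` from `exists_qext`, `B` =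
the finite set `Abv E A`, `Y = sUnit A`, `X = sUnit B`. Every place of `E` outside `B` is unramified over `F`: `quad_unram` (`a` has valuation 1, a
square, at the places outside `A`): `Q x = w x` for `x ∈ F`, `w = below F Q`.
(1) `mid_exact`: `x ∈ X` and `x * σ x = c ^ 2`, `c ∈ F` (`c ∈ Y`). Then `u = x / c` has `u * σ u = 1`, so `u = y / σ y` (`hilbert`), `y ∈ Eˣ`. For a place
`Q` outside `B`: `Q y = Q (σ y) = (conjPrime σ Q) y` since `x`, `c` are units at `Q`. So the valuation `exp (-n_w)` of `y` at the places above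
`w ∉ A` depends only on `w`; almost all `n_w` are 0. By `CL A` there is `f ∈ Fˣ` with `w f = exp (-n_w)` for all `w ∉ A` (product of powers of
the elements of `CL`). Then `y / f ∈ X` and `u = y' / σ y'` with `y' = y / f`, so `x = c y' / σ y' = c (y' σ y') / (σ y') ^ 2`, where
`c (y' σ y')` is in `F`, and in `Y`.
(2) Counting: `G₁ = Y / (Y ⊓ sq)`, `G₂ = X / (X ⊓ sq)`, `φ : G₁ → G₂` inclusion, `ν : G₂ → G₁` norm. `ker φ = {1, a}` has two elements
(`QExt.ker_sq`; `a ∉ sq`), `ker ν = range φ` ((1); conversely the norm of `y ∈ F` is `y ^ 2`). `card G₁ = 2 ^ (m + |A|)`,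
`card G₂ = 2 ^ (2 m + |B|)` (`relIndex_sq_sUnit` for `E`, totally complex of degree `4 m`). `exact_index`:
`(range ν).index * 2 ^ (2 m + |B| + 1) = 2 ^ (2 m + 2 |A|)`. So `(range ν).index * 2 ^ (|B| + 1) = 2 ^ (2 |A|)`; with
`|B| + |NS| = 2 |A|` (`abv_card`): `(range ν).index * 2 = 2 ^ |NS|`. Hence `|NS| ≥ 1` and `(range ν).index = 2 ^ (|NS| - 1)`.
(3) `Nm a ⊓ Y` contains the norms of `X` and the squares in `Y`, so `(Nm a).relIndex Y` divides `(range ν).index` (in particular it is not 0).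
-/

set_option autoImplicit false
set_option linter.unusedSectionVars false

namespace Pool.Agent.Work.MP_787500_nt.HN

open IsDedekindDomain NumberField WithZero
open Pool.Agent.Work.MP_787500_nt.GP (sUnit mem_sUnit)

private theorem NormIdx_grp {G H : Type*} [CommGroup G] [CommGroup H] {L : Subgroup G}
    {M : Subgroup H} (im : G →* H) (N : H →* G) {a : G} (ha : a ∉ L)
    (hL : L.index ≠ 0) (hM : M.index ≠ 0) (hsq : ∀ x : G, x ^ 2 ∈ L)
    (h1 : ∀ x ∈ L, im x ∈ M) (h2 : ∀ x ∈ M, N x ∈ L) (h3 : ∀ x, N (im x) = x ^ 2)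
    (h4 : ∀ x, im x ∈ M → x ∈ L ∨ x * a ∈ L) (h5 : im a ∈ M)
    (h6 : ∀ x, N x ∈ L → ∃ f, x / im f ∈ M) :
    (N.range ⊔ L).index * (2 * M.index) = L.index ^ 2 := by
  haveI : Finite (G ⧸ L) := Subgroup.index_ne_zero_iff_finite.1 hL
  haveI : Finite (H ⧸ M) := Subgroup.index_ne_zero_iff_finite.1 hM
  let φ : G ⧸ L →* H ⧸ M := QuotientGroup.map _ _ im (fun x hx => h1 x hx)
  let ν : H ⧸ M →* G ⧸ L := QuotientGroup.map _ _ N (fun x hx => h2 x hx)
  have hφ : ∀ x : G, φ (QuotientGroup.mk x) = QuotientGroup.mk (im x) := fun _ => rfl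
  have hν : ∀ x : H, ν (QuotientGroup.mk x) = QuotientGroup.mk (N x) := fun _ => rfl
  have hex : ν.ker = φ.range := by
    ext z
    obtain ⟨x, rfl⟩ := QuotientGroup.mk_surjective z
    rw [MonoidHom.mem_ker, hν, QuotientGroup.eq_one_iff, MonoidHom.mem_range]
    constructor
    · intro hx
      obtain ⟨f, hf⟩ := h6 x hx
      refine ⟨QuotientGroup.mk f, ?_⟩
      rw [hφ, QuotientGroup.eq]
      rwa [div_eq_inv_mul] at hf
    · rintro ⟨f, hf⟩
      obtain ⟨f, rfl⟩ := QuotientGroup.mk_surjective f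
      rw [hφ, QuotientGroup.eq] at hf
      have h7 := h2 _ hf
      rw [map_mul, map_inv, h3] at h7
      have h8 : N x = f ^ 2 * ((f ^ 2)⁻¹ * N x) := by rw [mul_inv_cancel_left]
      rw [h8]
      exact mul_mem (hsq _) h7
  have hker : Nat.card φ.ker = 2 := by
    have h7 : (φ.ker : Set (G ⧸ L)) = {1, (QuotientGroup.mk a : G ⧸ L)} := by
      ext z
      obtain ⟨x, rfl⟩ := QuotientGroup.mk_surjective z
      rw [SetLike.mem_coe, MonoidHom.mem_ker, hφ, QuotientGroup.eq_one_iff, Set.mem_insert_iff,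
        Set.mem_singleton_iff, QuotientGroup.eq_one_iff, QuotientGroup.eq]
      constructor
      · intro hx
        rcases h4 x hx with h8 | h8
        · exact Or.inl h8
        · right
          have h9 : x⁻¹ * a = (x⁻¹) ^ 2 * (x * a) := by
            rw [pow_two, mul_assoc, inv_mul_cancel_left]
          rw [h9]
          exact mul_mem (hsq _) h8
      · rintro (h8 | h8)
        · exact h1 _ h8
        · have h9 := h1 _ h8
          rw [map_mul, map_inv] at h9
          have h10 : im x = ((im x)⁻¹ * im a)⁻¹ * im a := by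
            rw [mul_inv_rev, inv_inv, mul_comm (im a)⁻¹, inv_mul_cancel_right]
          rw [h10]
          exact mul_mem (inv_mem h9) h5
    have h8 : (1 : G ⧸ L) ≠ QuotientGroup.mk a := by
      intro h9
      exact ha ((QuotientGroup.eq_one_iff a).1 h9.symm)
    have h9 : Nat.card φ.ker = (φ.ker : Set (G ⧸ L)).ncard :=
      Nat.card_coe_set_eq _
    rw [h9, h7, Set.ncard_pair h8]
  have hidx : ν.range.index = (N.range ⊔ L).index := by
    have h7 : ν.range.comap (QuotientGroup.mk' L) = N.range ⊔ L := by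
      ext x
      rw [Subgroup.mem_comap, MonoidHom.mem_range, Subgroup.mem_sup]
      constructor
      · rintro ⟨y, hy⟩
        obtain ⟨y, rfl⟩ := QuotientGroup.mk_surjective y
        rw [hν, QuotientGroup.mk'_apply, QuotientGroup.eq] at hy
        exact ⟨N y, ⟨y, rfl⟩, (N y)⁻¹ * x, hy, by rw [mul_inv_cancel_left]⟩
      · rintro ⟨_, ⟨y, rfl⟩, z, hz, rfl⟩
        refine ⟨QuotientGroup.mk y, ?_⟩
        rw [hν, QuotientGroup.mk'_apply, QuotientGroup.eq, inv_mul_cancel_left]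
        exact hz
    rw [← h7, Subgroup.index_comap_of_surjective _ (QuotientGroup.mk'_surjective _)]
  have hfin := exact_index φ ν hex hker
  rw [hidx] at hfin
  exact hfin

private theorem NormIdx_group {G H : Type*} [CommGroup G] [CommGroup H] {L Y P : Subgroup G}
    {M X : Subgroup H} (im : G →* H) (N : H →* G) {a : G} (haY : a ∈ Y) (ha : a ∉ L)
    (hL : L.relIndex Y ≠ 0) (hM : M.relIndex X ≠ 0) (hsq : ∀ x : G, x ^ 2 ∈ L)
    (him : ∀ x ∈ Y, im x ∈ X) (hN : ∀ x ∈ X, N x ∈ Y)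
    (h1 : ∀ x ∈ L, im x ∈ M) (h2 : ∀ x ∈ M, N x ∈ L) (h3 : ∀ x, N (im x) = x ^ 2)
    (h4 : ∀ x, im x ∈ M → x ∈ L ∨ x * a ∈ L) (h5 : im a ∈ M)
    (h6 : ∀ x ∈ X, N x ∈ L → ∃ f ∈ Y, x / im f ∈ M) (hP : ∀ x ∈ X, N x ∈ P) (hLP : L ≤ P) :
    P.relIndex Y ≠ 0 ∧ P.relIndex Y * (2 * M.relIndex X) ≤ L.relIndex Y ^ 2 := by
  let imY : Y →* X := ((im.comp Y.subtype).codRestrict X fun x => him x x.2)
  let NX : X →* Y := ((N.comp X.subtype).codRestrict Y fun x => hN x x.2)
  have hi : ∀ x : Y, ((imY x : X) : H) = im x := fun _ => rfl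
  have hn : ∀ x : X, ((NX x : Y) : G) = N x := fun _ => rfl
  have hidx := NormIdx_grp (L := L.subgroupOf Y) (M := M.subgroupOf X) imY NX
    (a := (⟨a, haY⟩ : Y)) (fun h => ha (Subgroup.mem_subgroupOf.1 h)) hL hM
    (fun x => Subgroup.mem_subgroupOf.2 (hsq x))
    (fun x hx => Subgroup.mem_subgroupOf.2 (h1 _ (Subgroup.mem_subgroupOf.1 hx)))
    (fun x hx => Subgroup.mem_subgroupOf.2 (h2 _ (Subgroup.mem_subgroupOf.1 hx)))
    (fun x => Subtype.ext (h3 x))
    (fun x hx => (h4 x (Subgroup.mem_subgroupOf.1 hx)).imp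
      (fun h => Subgroup.mem_subgroupOf.2 h) (fun h => Subgroup.mem_subgroupOf.2 h))
    (Subgroup.mem_subgroupOf.2 h5)
    (fun x hx => by
      obtain ⟨f, hf, hf'⟩ := h6 x x.2 (Subgroup.mem_subgroupOf.1 hx)
      exact ⟨⟨f, hf⟩, Subgroup.mem_subgroupOf.2 hf'⟩)
  have hle : NX.range ⊔ L.subgroupOf Y ≤ P.subgroupOf Y := by
    rw [sup_le_iff]
    constructor
    · rintro _ ⟨x, rfl⟩
      exact Subgroup.mem_subgroupOf.2 (hP x x.2)
    · intro x hx
      exact Subgroup.mem_subgroupOf.2 (hLP (Subgroup.mem_subgroupOf.1 hx))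
  have hne : (NX.range ⊔ L.subgroupOf Y).index ≠ 0 := by
    intro h0
    rw [h0, zero_mul] at hidx
    exact hL (pow_eq_zero_iff (two_ne_zero)|>.1 hidx.symm)
  have hdvd := Subgroup.index_dvd_of_le hle
  refine ⟨fun h0 => hne ?_, ?_⟩
  · have h0' : (P.subgroupOf Y).index = 0 := h0
    rw [h0'] at hdvd
    exact Nat.eq_zero_of_zero_dvd hdvd
  · have hle' := Nat.le_of_dvd (Nat.pos_of_ne_zero hne) hdvd
    calc P.relIndex Y * (2 * M.relIndex X)
        ≤ (NX.range ⊔ L.subgroupOf Y).index * (2 * M.relIndex X) := Nat.mul_le_mul_right _ hle'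
      _ = L.relIndex Y ^ 2 := hidx

variable {F : Type*} [Field F] [NumberField F]

/-- elements with given valuations outside `A` -/
private theorem NormIdx_CL {A : Finset (HeightOneSpectrum (𝓞 F))} (hC : CL A)
    (g : HeightOneSpectrum (𝓞 F) → ℤ) (S : Finset (HeightOneSpectrum (𝓞 F)))
    (hS : ∀ w ∉ S, g w = 0) :
    ∃ f : Fˣ, ∀ w ∉ A, w.valuation F (f : F) = exp (g w) := by
  classical
  have h1 : ∀ v : HeightOneSpectrum (𝓞 F), ∃ y : Fˣ, v ∉ A → v.valuation F (y : F) = exp (-1 : ℤ) ∧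
      ∀ w ∉ A, w ≠ v → w.valuation F (y : F) = 1 := by
    intro v
    by_cases hv : v ∈ A
    · exact ⟨1, fun h => absurd hv h⟩
    · obtain ⟨y, hy⟩ := hC v hv
      exact ⟨y, fun _ => hy⟩
  choose y hy using h1
  refine ⟨∏ v ∈ S \ A, y v ^ (-g v), fun w hw => ?_⟩
  rw [Units.coe_prod, map_prod]
  by_cases hwS : w ∈ S
  · rw [Finset.prod_eq_single w]
    · rw [Units.val_zpow_eq_zpow_val, map_zpow₀, (hy w hw).1, ← exp_zsmul]
      simp
    · intro v hv hvw
      rw [Units.val_zpow_eq_zpow_val, map_zpow₀,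
        (hy v (Finset.mem_sdiff.1 hv).2).2 w hw hvw.symm, one_zpow]
    · intro h
      exact absurd (Finset.mem_sdiff.2 ⟨hwS, hw⟩) h
  · rw [hS w hwS, exp_zero]
    refine Finset.prod_eq_one fun v hv => ?_
    have hvw : w ≠ v := by
      rintro rfl
      exact hwS (Finset.mem_sdiff.1 hv).1
    rw [Units.val_zpow_eq_zpow_val, map_zpow₀,
      (hy v (Finset.mem_sdiff.1 hv).2).2 w hw hvw, one_zpow]

private theorem NormIdx_mid {E : Type*} [Field E] [NumberField E] [Algebra F E] {a : Fˣ}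
    (q : QExt F E a) {A : Finset (HeightOneSpectrum (𝓞 F))} (hC : CL A)
    (B : Finset (HeightOneSpectrum (𝓞 E))) (hB : ∀ Q, Q ∈ B ↔ below F Q ∈ A)
    (hunr : ∀ Q : HeightOneSpectrum (𝓞 E), Q ∉ B → ∀ x : F,
      Q.valuation E (algebraMap F E x) = (below F Q).valuation F x)
    (hN : ∀ x ∈ sUnit B, q.N x ∈ sUnit A) {x : Eˣ} (hx : x ∈ sUnit B) (hx' : q.N x ∈ sq F) :
    ∃ f ∈ sUnit A, x / im F E f ∈ sq E := by
  obtain ⟨c, hc⟩ := hx'
  have hc' : c ^ 2 = q.N x := hc
  have hcA : c ∈ sUnit A := by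
    rw [mem_sUnit]
    intro v hv
    have h1 := (mem_sUnit.1 (hN x hx)) v hv
    rw [← hc', Units.val_pow_eq_pow_val, map_pow] at h1
    exact (pow_left_inj₀ zero_le zero_le two_ne_zero).1 (by rw [h1, one_pow])
  have hconjB : ∀ Q ∉ B, conjPrime (q.σ : E ≃+* E) Q ∉ B := by
    intro Q hQ h
    rw [hB, below_conjPrime] at h
    exact hQ ((hB Q).2 h)
  set u : Eˣ := x / im F E c with hu
  have hcE : algebraMap F E (c : F) ≠ 0 := by
    rw [Ne, map_eq_zero]
    exact c.ne_zero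
  have huv : (u : E) = (x : E) / algebraMap F E (c : F) := by
    rw [hu, Units.val_div_eq_div_val, im_val]
  have huu : (u : E) * q.σ u = 1 := by
    rw [huv, map_div₀, AlgEquiv.commutes, div_mul_div_comm, ← q.N_val, ← hc',
      Units.val_pow_eq_pow_val, map_pow, ← pow_two, div_self (pow_ne_zero 2 hcE)]
  obtain ⟨y, hy⟩ := q.hilbert huu
  have hQu : ∀ Q ∉ B, Q.valuation E (u : E) = 1 := by
    intro Q hQ
    have h1 : below F Q ∉ A := fun h => hQ ((hB Q).2 h)
    rw [huv, map_div₀, (mem_sUnit.1 hx) Q hQ, hunr Q hQ, (mem_sUnit.1 hcA) _ h1, div_one]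
  have hQy : ∀ Q ∉ B, (conjPrime (q.σ : E ≃+* E) Q).valuation E (y : E) =
      Q.valuation E (y : E) := by
    intro Q hQ
    rw [valuation_conjPrime]
    conv_rhs => rw [← hy]
    rw [map_mul, hQu Q hQ, one_mul]
    rfl
  obtain ⟨T, hT⟩ := exists_support y
  choose Qw hQw using fun w : HeightOneSpectrum (𝓞 F) => exists_above (K := F) (L := E) w
  classical
  obtain ⟨f, hf⟩ := NormIdx_CL hC (fun w => log ((Qw w).valuation E (y : E)))
    (T.image (below F)) (by
      intro w hw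
      have h1 : Qw w ∉ T := by
        intro h
        exact hw (Finset.mem_image.2 ⟨Qw w, h, hQw w⟩)
      show log ((Qw w).valuation E (y : E)) = 0
      rw [(mem_sUnit.1 hT) _ h1, log_one])
  have hfy : ∀ Q ∉ B, Q.valuation E (y : E) = Q.valuation E (algebraMap F E (f : F)) := by
    intro Q hQ
    have h1 : below F Q ∉ A := fun h => hQ ((hB Q).2 h)
    have hy0 : (Qw (below F Q)).valuation E (y : E) ≠ 0 := (Valuation.ne_zero_iff _).2 y.ne_zero
    rw [hunr Q hQ, hf _ h1, exp_log hy0]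
    rcases eq_or_conj q (hQw (below F Q)) with h2 | h2
    · rw [← h2]
    · have h3 : Qw (below F Q) ∉ B := by
        intro h
        rw [hB, hQw] at h
        exact h1 h
      have h4 := hQy _ h3
      rw [← h2] at h4
      exact h4
  set y' : Eˣ := y / im F E f with hy'
  have hy'X : y' ∈ sUnit B := by
    rw [mem_sUnit]
    intro Q hQ
    rw [hy', Units.val_div_eq_div_val, map_div₀, im_val, hfy Q hQ, div_self]
    exact (Valuation.ne_zero_iff _).2 (by
      rw [Ne, map_eq_zero]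
      exact f.ne_zero)
  refine ⟨c * q.N y', mul_mem hcA (hN _ hy'X), ?_⟩
  set s : Eˣ := Units.map (q.σ : E →* E) y' with hs
  have hsv : (s : E) = q.σ (y' : E) := rfl
  refine ⟨s⁻¹, ?_⟩
  show (s⁻¹) ^ 2 = _
  apply Units.ext
  have e0 : ((x / im F E (c * q.N y') : Eˣ) : E) =
      (x : E) / (algebraMap F E (c : F) * ((y' : E) * q.σ y')) := by
    rw [Units.val_div_eq_div_val x, im_val, Units.val_mul, map_mul, q.N_val]
  have hfE : algebraMap F E (f : F) ≠ 0 := by
    rw [Ne, map_eq_zero]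
    exact f.ne_zero
  have hy'v : (y' : E) = (y : E) / algebraMap F E (f : F) := by
    rw [hy', Units.val_div_eq_div_val, im_val]
  have hσy : q.σ (y : E) ≠ 0 := by
    rw [Ne, map_eq_zero_iff _ q.σ.injective]
    exact y.ne_zero
  have hxv : (x : E) = algebraMap F E (c : F) * (y : E) / q.σ (y : E) := by
    have h1 : (x : E) = algebraMap F E (c : F) * u := by
      rw [huv]
      field_simp
    rw [h1, eq_div_iff hσy, mul_assoc, hy]
  have hy0 : (y : E) ≠ 0 := y.ne_zero
  rw [e0, Units.val_pow_eq_pow_val, Units.val_inv_eq_inv_val, hsv, hxv, hy'v, map_div₀,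
    AlgEquiv.commutes]
  field_simp

theorem norm_idx [IsTotallyComplex F] {A : Finset (HeightOneSpectrum (𝓞 F))} (hD : Dy A) (hC : CL A)
    {a : Fˣ} (ha : a ∈ sUnit A) (hsq : a ∉ sq F) :
    1 ≤ (NS A a).card ∧ (Nm a).relIndex (sUnit A) ≠ 0 ∧
      (Nm a).relIndex (sUnit A) ≤ 2 ^ ((NS A a).card - 1) := by
  obtain ⟨E, _, _, _, ⟨q⟩, htc⟩ := exists_qext hsq
  haveI : IsTotallyComplex E := htc inferInstance
  obtain ⟨hfin, hcard⟩ := abv_card (E := E) q A
  have hBmem : ∀ Q : HeightOneSpectrum (𝓞 E), Q ∈ hfin.toFinset ↔ below F Q ∈ A := by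
    intro Q
    rw [Set.Finite.mem_toFinset]
    rfl
  have hBcard : hfin.toFinset.card = (Abv E A).ncard := (Set.ncard_eq_toFinset_card _ hfin).symm
  generalize hfin.toFinset = B at hBmem hBcard
  have hunr : ∀ Q : HeightOneSpectrum (𝓞 E), Q ∉ B → ∀ x : F,
      Q.valuation E (algebraMap F E x) = (below F Q).valuation F x := by
    intro Q hQ x
    have h1 : below F Q ∉ A := fun h => hQ ((hBmem Q).2 h)
    refine GP.quad_unram q.ht a.ne_zero q.hE q.σ q.hσ (fun h => h1 (hD _ h)) ?_ rfl x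
    rw [(mem_sUnit.1 ha) _ h1]
    exact IsSquare.one
  have him : ∀ x ∈ sUnit A, im F E x ∈ sUnit B := by
    intro x hx
    rw [mem_sUnit]
    intro Q hQ
    have h1 : below F Q ∉ A := fun h => hQ ((hBmem Q).2 h)
    rw [im_val, hunr Q hQ, (mem_sUnit.1 hx) _ h1]
  have hN : ∀ x ∈ sUnit B, q.N x ∈ sUnit A := by
    intro x hx
    rw [mem_sUnit]
    intro w hw
    obtain ⟨Q, rfl⟩ := exists_above (K := F) (L := E) w
    have hQ : Q ∉ B := fun h => hw ((hBmem Q).1 h)
    have hQ' : conjPrime (q.σ : E ≃+* E) Q ∉ B := by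
      intro h
      rw [hBmem, below_conjPrime] at h
      exact hw h
    rw [← hunr Q hQ, q.N_val, map_mul, (mem_sUnit.1 hx) Q hQ, one_mul]
    have h3 := valuation_conjPrime (q.σ : E ≃+* E) Q (x : E)
    rw [(mem_sUnit.1 hx) _ hQ'] at h3
    exact h3.symm
  have hNim : ∀ x : Fˣ, q.N (im F E x) = x ^ 2 := by
    intro x
    apply Units.ext
    apply (algebraMap F E).injective
    rw [q.N_val, im_val, AlgEquiv.commutes, Units.val_pow_eq_pow_val, map_pow, pow_two]
  have hia : im F E a ∈ sq E := by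
    have ht : q.t ≠ 0 := by
      intro h0
      have := q.ht
      rw [h0] at this
      have h3 : algebraMap F E (a : F) ≠ 0 := by
        rw [Ne, map_eq_zero]
        exact a.ne_zero
      exact h3 (by rw [← this]; ring)
    refine ⟨Units.mk0 q.t ht, ?_⟩
    apply Units.ext
    show q.t ^ 2 = _
    rw [q.ht, im_val]
  obtain ⟨m, hm⟩ := exists_half_degree (F := F)
  have hmE : Module.finrank ℚ E = 2 * (2 * m) := by rw [q.finrank.2, hm]
  have hiF := relIndex_sq_sUnit A hm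
  have hiE := relIndex_sq_sUnit B hmE
  have hmain := NormIdx_group (L := sq F) (Y := sUnit A) (P := Nm a) (M := sq E) (X := sUnit B)
    (im F E) q.N ha hsq (by rw [hiF]; positivity) (by rw [hiE]; positivity)
    (fun x => ⟨x, rfl⟩) him hN
    (fun x hx => by
      obtain ⟨y, rfl⟩ := hx
      exact ⟨im F E y, by simp⟩)
    (fun x hx => by
      obtain ⟨y, rfl⟩ := hx
      exact ⟨q.N y, by simp⟩)
    hNim (fun x hx => q.ker_sq hx) hia
    (fun x hx hx' => NormIdx_mid q hC B hBmem hunr hN hx hx')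
    (fun x _ => by rw [← q.N_range]; exact ⟨x, rfl⟩) (sq_le_Nm a)
  obtain ⟨h0, hle⟩ := hmain
  rw [hiF, hiE, ← pow_mul] at hle
  have hBA : B.card + (NS A a).card = 2 * A.card := by rw [hBcard]; exact hcard
  have he : (m + A.card) * 2 = (2 * m + B.card) + (NS A a).card := by omega
  rw [he, pow_add 2 (2 * m + B.card)] at hle
  have hle2 : (Nm a).relIndex (sUnit A) * 2 ≤ 2 ^ (NS A a).card := by
    have hpos : 0 < 2 ^ (2 * m + B.card) := by positivity
    refine Nat.le_of_mul_le_mul_left ?_ hpos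
    calc 2 ^ (2 * m + B.card) * ((Nm a).relIndex (sUnit A) * 2)
        = (Nm a).relIndex (sUnit A) * (2 * 2 ^ (2 * m + B.card)) := by ring
      _ ≤ _ := hle
  have hpos : 1 ≤ (Nm a).relIndex (sUnit A) := Nat.one_le_iff_ne_zero.2 h0
  have h1 : 1 ≤ (NS A a).card := by
    rw [Nat.one_le_iff_ne_zero]
    intro h
    rw [h] at hle2
    omega
  refine ⟨h1, h0, ?_⟩
  obtain ⟨k, hk⟩ : ∃ k, (NS A a).card = k + 1 := ⟨(NS A a).card - 1, by omega⟩
  rw [hk, pow_succ] at hle2
  rw [hk, Nat.add_sub_cancel]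
  omega

end Pool.Agent.Work.MP_787500_nt.HN
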