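import Mathlib
import Pool.Agent.Work.MP_787500_nt.HN.NormIdx
import Pool.Agent.Work.MP_787500_nt.HN.LocIdx
import Pool.Agent.Work.MP_787500_nt.HN.ClA

/-!
# Module NONSPLIT (size M): there are places that do not split

Suppose `a ∈ LS v` for all `v ∉ A`. By `exists_CL'` we may enlarge `A`: `Dy A`, `CL A`, `a ∈ sUnit A`. Let `N = NS A a`; for every `A' ⊇ A`:
`NS A' a = N`. For `w ∈ N` choose `z w ∉ LN w a` (`exists_not_LN`), and by `exists_weak` an element `x w ∈ Fˣ` with `x w / z w ∈ LS w` and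
`x w ∈ LS w'` for `w' ∈ N`, `w' ≠ w` (target 1 there). So `x w ∉ LN w a` and `x w ∈ LN w' a`. By `exists_CL'` there is `A' ⊇ A` with all
`x w ∈ sUnit A'`, `Dy A'`, `CL A'`. For `S ⊆ N` not empty, `w ∈ S`: `∏ i ∈ S, x i` is not in `LN w a` (one factor is not, the others are), so
it is not in `Nm a`. By `two_pow_le_relIndex` (`L = Nm a`, `Y = sUnit A'`; squares are in `Nm a`): `2 ^ N.card ≤ (Nm a).relIndex (sUnit A')`, but by
`norm_idx` it is at most `2 ^ (N.card - 1)` and `N.card ≥ 1`. Contradiction.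
-/

set_option autoImplicit false
set_option linter.unusedSectionVars false

namespace Pool.Agent.Work.MP_787500_nt.HN

open IsDedekindDomain NumberField WithZero
open Pool.Agent.Work.MP_787500_nt.GP (sUnit mem_sUnit)

variable {F : Type*} [Field F] [NumberField F]

theorem exists_nonsplit [IsTotallyComplex F] {a : Fˣ} (ha : a ∉ sq F)
    (A : Finset (HeightOneSpectrum (𝓞 F))) : ∃ v ∉ A, a ∉ LS v := by
  classical
  by_contra hcon
  push Not at hcon
  obtain ⟨A₁, hAA, hD, hC, haA'⟩ := exists_CL' (Finset.univ : Finset Unit) (fun _ => a) A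
  have haA : a ∈ sUnit A₁ := haA' () (Finset.mem_univ _)
  have hcon1 : ∀ v ∉ A₁, a ∈ LS v := fun v hv => hcon v fun h => hv (hAA h)
  have hz : ∀ w : HeightOneSpectrum (𝓞 F), ∃ z : Fˣ, a ∉ LS w → z ∉ LN w a := by
    intro w
    by_cases h : a ∈ LS w
    · exact ⟨1, fun h' => absurd h h'⟩
    · obtain ⟨z, hz⟩ := exists_not_LN h
      exact ⟨z, fun _ => hz⟩
  choose z hz using hz
  have hx : ∀ w : HeightOneSpectrum (𝓞 F), ∃ x : Fˣ, ∀ w' ∈ NS A₁ a,
      x / (if w' = w then z w else 1) ∈ LS w' := fun w => exists_weak (NS A₁ a) _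
  choose x hx using hx
  obtain ⟨A₂, hA12, hD2, hC2, hx2⟩ := exists_CL' (NS A₁ a) x A₁
  obtain ⟨h1, h2, h3⟩ := norm_idx hD2 hC2 (sUnit_mono hA12 haA) ha
  have hN : NS A₂ a = NS A₁ a := by
    ext w
    rw [mem_NS, mem_NS]
    constructor
    · rintro ⟨_, hw⟩
      exact ⟨by_contra fun h => hw (hcon1 w h), hw⟩
    · rintro ⟨hw, hw'⟩
      exact ⟨hA12 hw, hw'⟩
  have hself : ∀ w ∈ NS A₁ a, x w ∉ LN w a := by
    intro w hw h
    apply hz w (mem_NS.1 hw).2
    have h4 := hx w w hw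
    rw [if_pos rfl] at h4
    have h5 := (LN w a).div_mem h (LS_le_LN w a h4)
    rwa [div_div_cancel] at h5
  have hother : ∀ w, ∀ w' ∈ NS A₁ a, w' ≠ w → x w ∈ LN w' a := by
    intro w w' hw' hne
    have h4 := hx w w' hw'
    rw [if_neg hne, div_one] at h4
    exact LS_le_LN w' a h4
  have key := two_pow_le_relIndex (NS A₁ a) x (L := Nm a) (Y := sUnit A₂) hx2
    (fun y => sq_le_Nm a ⟨y, rfl⟩) (fun S hS hprod => by
      by_contra hne
      obtain ⟨w, hw⟩ := Finset.nonempty_iff_ne_empty.2 hne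
      have h4 : ∏ i ∈ S, x i ∈ LN w a := Nm_le_LN w a hprod
      rw [← Finset.mul_prod_erase S x hw] at h4
      have h5 : ∏ i ∈ S.erase w, x i ∈ LN w a :=
        Subgroup.prod_mem _ fun i hi => hother i w (hS hw) (Finset.ne_of_mem_erase hi).symm
      exact hself w (hS hw) ((Subgroup.mul_mem_cancel_right _ h5).1 h4)) h2
  rw [hN] at h1 h3
  have h6 := key.trans h3
  have h7 := (Nat.pow_le_pow_iff_right (by norm_num : 1 < 2)).1 h6
  omega

end Pool.Agent.Work.MP_787500_nt.HN
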