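import Mathlib
import Pool.Agent.Work.MP_787500_nt.HN.LocCount

/-!
# Module TAME (size M): places not above 2

`2 ∉ v.asIdeal`, so `v 2 = 1`, `v 4 = 1`, `ee v = 0`.
* `LS_of_sq_close`: `v (x - b ^ 2) < v x`: `div_mem_LS_of_close`.
* `unit_mul`: the index of `LS v` is 4 (`card_LS`, `ee v = 0`, the quotient by `v ^ 0 = ⊤` has one element). Let `H` be the subgroup of the
  `x` with `v x` a square. It contains `LS v` (`v x = v y ^ 2` for `y ^ 2` close to `x`) and is different from `⊤` (an element of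
  valuation `exp (-1)`: `HeightOneSpectrum.valuation_exists_uniformizer`), so `(LS v).relIndex H ≤ 2` (`LS.index = LS.relIndex H * H.index`,
  `H.index ≥ 2`). If `x, y ∈ H` are not in `LS v` then `x * y ∈ LS v` (a quotient of order at most 2).
* `mem_LS_of_ram`: `x ∈ LN v y` is close to `b ^ 2 - y c ^ 2` (`mem_LN_iff`, `γ = v x`), so `v (b ^ 2 - y c ^ 2) = v x` is a square. `v (b ^ 2)` is a
  square and `v (y c ^ 2)` is not (or is 0): they are different, `v x` is their maximum, a square, so it is `v (b ^ 2)` and `v (y c ^ 2) < v x`.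
  Then `v (x - b ^ 2) < v x` (the approximation was within `v x`), `LS_of_sq_close`.
* `even_of_inert`: `v y = v z ^ 2` for some `z ≠ 0` (an element of given valuation: power of a uniformizer). Suppose `v x` is not a square, `x` close
  to `n = b ^ 2 - y c ^ 2`, `v n = v x`. If `v (b ^ 2) ≠ v (y c ^ 2)` then `v n` is the larger one, a square, contradiction. So
  `v (b ^ 2) = v (y c ^ 2)` and `v n < v (b ^ 2)` (`v n ≤ v (b ^ 2)`, and it is not equal as `v (b ^ 2)` is a square); `c ≠ 0`, and
  `v (y - (b / c) ^ 2) < v y`: `y ∈ LS v` by `LS_of_sq_close`, contradiction.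
-/

set_option autoImplicit false
set_option linter.unusedSectionVars false

namespace Pool.Agent.Work.MP_787500_nt.HN

open IsDedekindDomain NumberField WithZero

variable {F : Type*} [Field F] [NumberField F] {v : HeightOneSpectrum (𝓞 F)}

private theorem v_two (h2 : (2 : 𝓞 F) ∉ v.asIdeal) : v.valuation F (2 : F) = 1 := by
  have h1 : v.valuation F (algebraMap (𝓞 F) F 2) < 1 ↔ (2 : 𝓞 F) ∈ v.asIdeal :=
    v.valuation_lt_one_iff_mem (K := F) (2 : 𝓞 F)
  have h3 : v.valuation F (algebraMap (𝓞 F) F 2) ≤ 1 := v.valuation_le_one (K := F) (2 : 𝓞 F)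
  rw [map_ofNat] at h1 h3
  exact le_antisymm h3 (not_lt.1 fun h => h2 (h1.1 h))

private theorem v_four (h2 : (2 : 𝓞 F) ∉ v.asIdeal) : v.valuation F (4 : F) = 1 := by
  rw [show (4 : F) = 2 * 2 by norm_num, map_mul, v_two h2, one_mul]

private theorem vx_ne (x : Fˣ) : v.valuation F (x : F) ≠ 0 := (Valuation.ne_zero_iff _).2 x.ne_zero

/-- if `x - y` is small then `x` and `y` have the same valuation -/
private theorem v_eq_of_close {x y : F} (h : v.valuation F (x - y) < v.valuation F x) :
    v.valuation F y = v.valuation F x := by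
  have h1 : y = x + -(x - y) := by ring
  rw [h1]
  exact Valuation.map_add_eq_of_lt_left _ (by rwa [Valuation.map_neg])

theorem LS_of_sq_close (h2 : (2 : 𝓞 F) ∉ v.asIdeal) {x : Fˣ} {b : F}
    (h : v.valuation F ((x : F) - b ^ 2) < v.valuation F (x : F)) : x ∈ LS v := by
  have h1 := v_eq_of_close h
  have hb : b ≠ 0 := by
    rintro rfl
    rw [zero_pow two_ne_zero, map_zero] at h1
    exact vx_ne x h1.symm
  have h3 : x ∈ LS v ↔ (Units.mk0 b hb) ^ 2 ∈ LS v := by
    apply LS_of_close
    rw [Units.val_pow_eq_pow_val, Units.val_mk0, map_mul, v_four h2, one_mul, h1]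
    exact h
  exact h3.2 (sq_mem_LS _)

theorem isSquare_val_of_LS {x : Fˣ} (h : x ∈ LS v) : IsSquare (v.valuation F (x : F)) := by
  obtain ⟨y, hy⟩ := (mem_LS.1 h) _ (vx_ne x)
  have h1 := v_eq_of_close hy
  exact ⟨v.valuation F y, by rw [← h1, map_pow, pow_two]⟩

private theorem not_isSquare_exp : ¬ IsSquare (exp (-1 : ℤ) : WithZero (Multiplicative ℤ)) := by
  rintro ⟨r, hr⟩
  have hr0 : r ≠ 0 := by
    rintro rfl
    rw [mul_zero] at hr
    exact exp_ne_zero hr
  obtain ⟨n, rfl⟩ : ∃ n : ℤ, r = exp n := ⟨_, (exp_log hr0).symm⟩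
  rw [← exp_add, exp_inj] at hr
  omega

/-- the elements of even valuation -/
private def ev (v : HeightOneSpectrum (𝓞 F)) : Subgroup Fˣ where
  carrier := {x | IsSquare (v.valuation F (x : F))}
  mul_mem' := fun {x y} hx hy => by
    show IsSquare (v.valuation F ((x * y : Fˣ) : F))
    rw [Units.val_mul, map_mul]
    exact IsSquare.mul hx hy
  one_mem' := by
    show IsSquare (v.valuation F ((1 : Fˣ) : F))
    rw [Units.val_one, map_one]
    exact IsSquare.one
  inv_mem' := fun {x} hx => by
    show IsSquare (v.valuation F ((x⁻¹ : Fˣ) : F))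
    rw [Units.val_inv_eq_inv_val, map_inv₀]
    obtain ⟨r, hr⟩ := (hx : IsSquare (v.valuation F (x : F)))
    exact ⟨r⁻¹, by rw [hr, mul_inv]⟩

theorem unit_mul (h2 : (2 : 𝓞 F) ∉ v.asIdeal) {x y : Fˣ} (hx : IsSquare (v.valuation F (x : F)))
    (hy : IsSquare (v.valuation F (y : F))) (hx' : x ∉ LS v) (hy' : y ∉ LS v) : x * y ∈ LS v := by
  have hle : LS v ≤ ev v := fun z hz => isSquare_val_of_LS hz
  have hee : ee v = 0 := by
    unfold ee
    rw [v_two h2, log_one, neg_zero, Int.toNat_zero]
  have hidx : (LS v).index = 4 := by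
    rw [card_LS, hee, pow_zero]
    have : Subsingleton (𝓞 F ⧸ (1 : Ideal (𝓞 F))) := by
      rw [Ideal.one_eq_top]
      exact Ideal.Quotient.subsingleton_iff.2 rfl
    rw [Nat.card_of_subsingleton (0 : 𝓞 F ⧸ (1 : Ideal (𝓞 F)))]
  have hmul := Subgroup.relIndex_mul_index hle
  rw [hidx] at hmul
  have hne1 : (ev v).index ≠ 1 := by
    intro h1
    rw [Subgroup.index_eq_one] at h1
    obtain ⟨p, hp⟩ := v.valuation_exists_uniformizer F
    have hp0 : p ≠ 0 := by
      rintro rfl
      rw [map_zero] at hp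
      exact exp_ne_zero hp.symm
    have h3 : Units.mk0 p hp0 ∈ ev v := by
      rw [h1]
      trivial
    have h4 : IsSquare (v.valuation F p) := h3
    rw [hp] at h4
    exact not_isSquare_exp h4
  have hrel : (LS v).relIndex (ev v) = 1 ∨ (LS v).relIndex (ev v) = 2 := by
    have h0 : (LS v).relIndex (ev v) ≠ 0 := by
      intro h
      rw [h, zero_mul] at hmul
      omega
    have h0' : (ev v).index ≠ 0 := by
      intro h
      rw [h, mul_zero] at hmul
      omega
    have h5 : 2 ≤ (ev v).index := by omega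
    have h6 : (LS v).relIndex (ev v) ≤ 2 := by
      by_contra hcon
      push Not at hcon
      nlinarith
    omega
  rcases hrel with h1 | h1
  · exact absurd ((Subgroup.relIndex_eq_one.1 h1) hx) hx'
  · have h3 := Subgroup.mul_mem_iff_of_index_two (H := (LS v).subgroupOf (ev v)) h1
      (a := ⟨x, hx⟩) (b := ⟨y, hy⟩)
    rw [Subgroup.mem_subgroupOf, Subgroup.mem_subgroupOf, Subgroup.mem_subgroupOf] at h3
    exact h3.2 ⟨fun h => absurd h hx', fun h => absurd h hy'⟩

private theorem isSq_sq (b : F) : IsSquare (v.valuation F (b ^ 2)) :=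
  ⟨v.valuation F b, by rw [map_pow, pow_two]⟩

theorem mem_LS_of_ram (h2 : (2 : 𝓞 F) ∉ v.asIdeal) {x y : Fˣ}
    (hy : ¬ IsSquare (v.valuation F (y : F))) (hx : IsSquare (v.valuation F (x : F)))
    (h : x ∈ LN v y) : x ∈ LS v := by
  obtain ⟨b, c, hbc⟩ := (mem_LN_iff.1 h) _ (vx_ne x)
  have hbc' : v.valuation F ((x : F) - (b ^ 2 - y * c ^ 2)) < v.valuation F (x : F) := by
    rw [← Valuation.map_neg, neg_sub]
    exact hbc
  have hn := v_eq_of_close hbc'
  -- it is enough that `y c ^ 2` is small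
  have key : v.valuation F ((y : F) * c ^ 2) < v.valuation F (x : F) → x ∈ LS v := by
    intro hs
    apply LS_of_sq_close h2 (b := b)
    have e : (x : F) - b ^ 2 = (x - (b ^ 2 - y * c ^ 2)) - y * c ^ 2 := by ring
    rw [e]
    exact (Valuation.map_sub _ _ _).trans_lt (max_lt hbc' hs)
  by_cases hc : c = 0
  · apply key
    rw [hc, zero_pow two_ne_zero, mul_zero, map_zero]
    exact zero_lt_iff.2 (vx_ne x)
  · have hyc : ¬ IsSquare (v.valuation F ((y : F) * c ^ 2)) := by
      rintro ⟨r, hr⟩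
      apply hy
      refine ⟨r * (v.valuation F c)⁻¹, ?_⟩
      have hc0 : v.valuation F c ≠ 0 := (Valuation.ne_zero_iff _).2 hc
      rw [map_mul, map_pow] at hr
      calc v.valuation F (y : F) = v.valuation F (y : F) * v.valuation F c ^ 2 *
            ((v.valuation F c)⁻¹ * (v.valuation F c)⁻¹) := by
              field_simp
        _ = _ := by rw [hr, mul_mul_mul_comm]
    have hne : v.valuation F (b ^ 2) ≠ v.valuation F ((y : F) * c ^ 2) := by
      intro he
      exact hyc (he ▸ isSq_sq b)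
    rcases lt_or_gt_of_ne hne with hlt | hgt
    · exfalso
      have h3 := Valuation.map_sub_eq_of_lt_right (v.valuation F) hlt
      rw [hn] at h3
      exact hyc (h3 ▸ hx)
    · have h3 := Valuation.map_sub_eq_of_lt_left (v.valuation F) hgt
      rw [hn] at h3
      apply key
      rw [h3]
      exact hgt

theorem even_of_inert (h2 : (2 : 𝓞 F) ∉ v.asIdeal) {x y : Fˣ}
    (hy : IsSquare (v.valuation F (y : F))) (hy' : y ∉ LS v) (h : x ∈ LN v y) :
    IsSquare (v.valuation F (x : F)) := by
  by_contra hx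
  obtain ⟨b, c, hbc⟩ := (mem_LN_iff.1 h) _ (vx_ne x)
  have hbc' : v.valuation F ((x : F) - (b ^ 2 - y * c ^ 2)) < v.valuation F (x : F) := by
    rw [← Valuation.map_neg, neg_sub]
    exact hbc
  have hn := v_eq_of_close hbc'
  have hyc : IsSquare (v.valuation F ((y : F) * c ^ 2)) := by
    rw [map_mul]
    exact IsSquare.mul hy (isSq_sq c)
  rcases lt_trichotomy (v.valuation F (b ^ 2)) (v.valuation F ((y : F) * c ^ 2)) with hlt | heq | hgt
  · have h3 := Valuation.map_sub_eq_of_lt_right (v.valuation F) hlt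
    rw [hn] at h3
    exact hx (h3 ▸ hyc)
  · have hc : c ≠ 0 := by
      rintro rfl
      rw [zero_pow two_ne_zero, mul_zero, map_zero, map_eq_zero] at heq
      rw [heq, zero_pow two_ne_zero, mul_zero, sub_zero, map_zero] at hn
      exact vx_ne x hn.symm
    have hlt : v.valuation F (b ^ 2 - y * c ^ 2) < v.valuation F ((y : F) * c ^ 2) := by
      refine lt_of_le_of_ne ?_ ?_
      · refine (Valuation.map_sub _ _ _).trans ?_
        rw [heq, max_self]
      · intro he
        rw [hn] at he
        exact hx (he ▸ hyc)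
    apply hy'
    apply LS_of_sq_close h2 (b := b / c)
    have hc0 : v.valuation F (c ^ 2) ≠ 0 := (Valuation.ne_zero_iff _).2 (pow_ne_zero 2 hc)
    have e : (y : F) - (b / c) ^ 2 = -(b ^ 2 - y * c ^ 2) / c ^ 2 := by
      field_simp
      ring
    rw [e, map_div₀, Valuation.map_neg, div_lt_iff₀ (zero_lt_iff.2 hc0), ← map_mul]
    exact hlt
  · have h3 := Valuation.map_sub_eq_of_lt_left (v.valuation F) hgt
    rw [hn] at h3
    exact hx (h3 ▸ isSq_sq b)

end Pool.Agent.Work.MP_787500_nt.HN
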