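import Mathlib
import Pool.Agent.Work.MP_787500_nt.HN.NonSplit
import Pool.Agent.Work.MP_787500_nt.HN.Tame

/-!
# Module AUXPRIME (size M): a place that splits in `F (√a)` and does not split in `F (√ω)`

`E = F (t)` from `exists_qext`, totally complex. `im ω ∉ sq E` by `QExt.ker_sq`. Let `A₁ ⊇ A` contain the places above 2 with
`a, ω ∈ sUnit A₁` (`exists_CL'`), and let `B` be the finite set `Abv E A₁` (`abv_card`). `exists_nonsplit` for `E`: there is a place `Q ∉ B` of `E` with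
`im ω ∉ LS Q`. Let `v = below F Q ∉ A₁`. `ω ∉ LS v` (`im_LS`). If `a ∉ LS v` then `a`, `ω` have valuation 1 at `v`, `2 ∉ v.asIdeal`, so
`ω * a ∈ LS v` (`unit_mul`), `im (ω * a) ∈ LS Q`, and `im a = t ^ 2 ∈ LS Q`, so `im ω ∈ LS Q`: contradiction. So `a ∈ LS v`.
-/

set_option autoImplicit false
set_option linter.unusedSectionVars false

namespace Pool.Agent.Work.MP_787500_nt.HN

open IsDedekindDomain NumberField WithZero
open Pool.Agent.Work.MP_787500_nt.GP (sUnit mem_sUnit)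

variable {F : Type*} [Field F] [NumberField F]

theorem exists_aux_prime [IsTotallyComplex F] {a ω : Fˣ} (ha : a ∉ sq F) (hω : ω ∉ sq F)
    (hωa : ω * a ∉ sq F) (A : Finset (HeightOneSpectrum (𝓞 F))) :
    ∃ v ∉ A, (2 : 𝓞 F) ∉ v.asIdeal ∧ a ∈ LS v ∧ ω ∉ LS v := by
  classical
  obtain ⟨E, _, _, _, ⟨q⟩, hE⟩ := exists_qext ha
  have hEc : IsTotallyComplex E := hE inferInstance
  obtain ⟨A₁, hAA, hD, -, hA⟩ := exists_CL' (Finset.univ : Finset (Fin 2)) ![a, ω] A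
  have haA : a ∈ sUnit A₁ := hA 0 (Finset.mem_univ _)
  have hωA : ω ∈ sUnit A₁ := hA 1 (Finset.mem_univ _)
  have hsq : im F E ω ∉ sq E := fun h => (q.ker_sq h).elim hω hωa
  obtain ⟨Q, hQ, hQ'⟩ := exists_nonsplit hsq (abv_card q A₁).1.toFinset
  have hv : below F Q ∉ A₁ := fun h => hQ ((Set.Finite.mem_toFinset _).2 h)
  have h2v : (2 : 𝓞 F) ∉ (below F Q).asIdeal := fun h => hv (hD _ h)
  have hω' : ω ∉ LS (below F Q) := fun h => hQ' (im_LS h)
  refine ⟨below F Q, fun h => hv (hAA h), h2v, ?_, hω'⟩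
  by_contra ha'
  have h1 : ω * a ∈ LS (below F Q) := unit_mul h2v ⟨1, by rw [hωA _ hv, one_mul]⟩
    ⟨1, by rw [haA _ hv, one_mul]⟩ hω' ha'
  have h3 : im F E (ω * a) ∈ LS Q := im_LS h1
  rw [map_mul] at h3
  have ht0 : q.t ≠ 0 := by
    intro h0
    have h4 := q.ht
    rw [h0, zero_pow two_ne_zero] at h4
    exact a.ne_zero ((map_eq_zero _).1 h4.symm)
  have h4 : im F E a ∈ LS Q := by
    refine sq_le_LS Q ⟨Units.mk0 q.t ht0, ?_⟩
    apply Units.ext
    show ((Units.mk0 q.t ht0) ^ 2 : Eˣ).val = _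
    rw [Units.val_pow_eq_pow_val, Units.val_mk0, q.ht]
    rfl
  exact hQ' ((Subgroup.mul_mem_cancel_right _ h4).1 h3)

end Pool.Agent.Work.MP_787500_nt.HN
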