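import Mathlib
import Pool.Agent.Work.MP_787500_nt.HN.AuxPrime
import Pool.Agent.Work.MP_787500_nt.HN.SuCard

/-!
# Module AUXSET (size M-L): the auxiliary places

`Y = sUnit A`, `Sq = sq F`. For a finite set `A₁` of places `v ∉ A`, not above 2, put `K A₁ = {x ∈ Y | ∀ v ∈ A₁, x ∈ LS v}`. Elements of `Y` have
valuation 1 at the places `v ∈ A₁`, so for `x, y ∈ Y`: `x * y ∈ LS v` iff (`x ∈ LS v` iff `y ∈ LS v`) (`unit_mul` and the group property).
* `pattern_index`: suppose that for all `R ⊆ A₁` there is `x ∈ Y` with (`x ∉ LS v` iff `v ∈ R`) for all `v ∈ A₁`. Then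
  `(sq F).relIndex (K A₁) * 2 ^ A₁.card = 2 ^ s`: the map `Y → powerset of A₁`, `x ↦ {v ∈ A₁ | x ∉ LS v}`, is surjective with fibres the cosets of
  `K A₁`, so `(K A₁).relIndex Y = 2 ^ A₁.card`, and `Sq.relIndex Y = Sq.relIndex (K A₁) * (K A₁).relIndex Y` (`Sq ⊓ Y ≤ K A₁`, as squares are in `LS v`).
* `exists_auxset`: by induction on `k`: for `k + 1 ≤ s` there is `A₁` with `k` elements, disjoint from `A`, no element above 2, `a ∈ LS v` for
  `v ∈ A₁`, and with the surjectivity. `k = 0`: the empty set. Step (`k + 2 ≤ s`): by `pattern_index`, `Sq.relIndex (K A₁) = 2 ^ (s - k) ≥ 4`. The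
  elements `x ∈ K A₁` with `x ∈ Sq` or `x * a ∈ Sq` form at most two classes modulo `Sq`; so there is `ω ∈ K A₁`, `ω ∉ Sq`, `ω * a ∉ Sq`. By
  `exists_aux_prime` (for `A ∪ A₁`) there is `v`. `insert v A₁`: for `R ⊆ insert v A₁` take `x` for `R.erase v` (with respect to `A₁`); if its
  behaviour at `v` is wrong replace `x` by `x * ω`.
  For `k + 1 = s`: `Sq.relIndex (K A₁) = 2`, and `1`, `a` are in `K A₁` in different classes (`a ∉ Sq`), so each `x ∈ K A₁` is in `Sq` or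
  `x * a ∈ Sq`.
-/

set_option autoImplicit false
set_option linter.unusedSectionVars false

namespace Pool.Agent.Work.MP_787500_nt.HN

open IsDedekindDomain NumberField WithZero
open Pool.Agent.Work.MP_787500_nt.GP (sUnit mem_sUnit)

variable {F : Type*} [Field F] [NumberField F]

private theorem auxset_unit {A : Finset (HeightOneSpectrum (𝓞 F))} {v : HeightOneSpectrum (𝓞 F)}
    (hv : v ∉ A) (h2 : (2 : 𝓞 F) ∉ v.asIdeal) {x y : Fˣ} (hx : x ∈ sUnit A) (hy : y ∈ sUnit A) :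
    x * y ∈ LS v ↔ (x ∈ LS v ↔ y ∈ LS v) := by
  by_cases h1 : x ∈ LS v
  · rw [Subgroup.mul_mem_cancel_left _ h1]
    simp [h1]
  · by_cases h3 : y ∈ LS v
    · rw [Subgroup.mul_mem_cancel_right _ h3]
      simp [h1, h3]
    · simp only [h1, h3, iff_self, iff_true]
      exact unit_mul h2 ⟨1, by rw [hx v hv, one_mul]⟩ ⟨1, by rw [hy v hv, one_mul]⟩ h1 h3

private theorem auxset_index {A A₁ : Finset (HeightOneSpectrum (𝓞 F))}
    (hA₁ : ∀ v ∈ A₁, v ∉ A ∧ (2 : 𝓞 F) ∉ v.asIdeal)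
    (hR : ∀ R ⊆ A₁, ∃ x ∈ sUnit A, ∀ v ∈ A₁, (x ∉ LS v ↔ v ∈ R)) :
    (⨅ v ∈ A₁, LS v).relIndex (sUnit A) = 2 ^ A₁.card := by
  classical
  have h1 : (⨅ v ∈ A₁, (LS v).subgroupOf (sUnit A)).index = ∏ v ∈ A₁, ((LS v).subgroupOf (sUnit A)).index := by
    refine index_iInf A₁ (fun v => (LS v).subgroupOf (sUnit A)) (fun z => ?_)
    obtain ⟨x, hx, hx'⟩ := hR (A₁.filter fun v => (z v : Fˣ) ∉ LS v) (Finset.filter_subset _ _)
    refine ⟨⟨x, hx⟩, fun v hv => ?_⟩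
    rw [Subgroup.mem_subgroupOf]
    show x / (z v : Fˣ) ∈ LS v
    have h3 := hx' v hv
    rw [Finset.mem_filter] at h3
    have h4 : x ∈ LS v ↔ (z v : Fˣ) ∈ LS v := by
      constructor
      · intro h5
        by_contra h6
        exact h3.2 ⟨hv, h6⟩ h5
      · intro h5
        by_contra h6
        exact (h3.1 h6).2 h5
    have h5 := (auxset_unit (hA₁ v hv).1 (hA₁ v hv).2 hx (z v).2).2 h4
    have h6 : x / (z v : Fˣ) = x * (z v : Fˣ) / (z v : Fˣ) ^ 2 := by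
      rw [div_eq_div_iff_mul_eq_mul]
      rw [pow_two, mul_assoc]
    rw [h6]
    exact (LS v).div_mem h5 (sq_mem_LS _)
  have h2 : ∀ v ∈ A₁, ((LS v).subgroupOf (sUnit A)).index = 2 := by
    intro v hv
    obtain ⟨x, hx, hx'⟩ := hR {v} (Finset.singleton_subset_iff.2 hv)
    have hxv : x ∉ LS v := (hx' v hv).2 (Finset.mem_singleton_self v)
    rw [Subgroup.index_eq_two_iff]
    refine ⟨⟨x, hx⟩, fun b => ?_⟩
    rw [Subgroup.mem_subgroupOf, Subgroup.mem_subgroupOf]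
    have h3 := auxset_unit (hA₁ v hv).1 (hA₁ v hv).2 b.2 hx
    have h4 : (b : Fˣ) * x ∈ LS v ↔ (b : Fˣ) ∉ LS v := by
      rw [h3]
      simp [hxv]
    show Xor ((b : Fˣ) * x ∈ LS v) _
    rw [h4]
    by_cases h5 : (b : Fˣ) ∈ LS v
    · exact Or.inr ⟨h5, not_not.2 h5⟩
    · exact Or.inl ⟨h5, h5⟩
  have h3 : (⨅ v ∈ A₁, LS v).subgroupOf (sUnit A) = ⨅ v ∈ A₁, (LS v).subgroupOf (sUnit A) := by
    ext x
    simp only [Subgroup.mem_subgroupOf, Subgroup.mem_iInf]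
  rw [Subgroup.relIndex, h3, h1, Finset.prod_congr rfl h2, Finset.prod_const]

private theorem auxset_rel {A A₁ : Finset (HeightOneSpectrum (𝓞 F))} {s : ℕ}
    (hs : (sq F).relIndex (sUnit A) = 2 ^ s)
    (hA₁ : ∀ v ∈ A₁, v ∉ A ∧ (2 : 𝓞 F) ∉ v.asIdeal)
    (hR : ∀ R ⊆ A₁, ∃ x ∈ sUnit A, ∀ v ∈ A₁, (x ∉ LS v ↔ v ∈ R)) :
    (sq F ⊓ sUnit A).relIndex ((⨅ v ∈ A₁, LS v) ⊓ sUnit A) * 2 ^ A₁.card = 2 ^ s := by
  have h1 : sq F ⊓ sUnit A ≤ (⨅ v ∈ A₁, LS v) ⊓ sUnit A := by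
    refine inf_le_inf_right _ ?_
    refine le_iInf₂ fun v _ => sq_le_LS v
  have h2 := Subgroup.relIndex_mul_relIndex _ _ (sUnit A) h1 inf_le_right
  rw [Subgroup.inf_relIndex_right, Subgroup.inf_relIndex_right, auxset_index hA₁ hR, hs] at h2
  exact h2

private theorem auxset_two {A A₁ : Finset (HeightOneSpectrum (𝓞 F))} {a : Fˣ}
    (ha : a ∈ sUnit A) (hsq : a ∉ sq F) (haA : ∀ v ∈ A₁, a ∈ LS v) :
    (sq F ⊓ sUnit A).relIndex ((⨅ v ∈ A₁, LS v) ⊓ sUnit A) = 2 ↔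
      ∀ x ∈ sUnit A, (∀ v ∈ A₁, x ∈ LS v) → x ∈ sq F ∨ x * a ∈ sq F := by
  have hmem : ∀ x, x ∈ (⨅ v ∈ A₁, LS v) ⊓ sUnit A ↔ (∀ v ∈ A₁, x ∈ LS v) ∧ x ∈ sUnit A := by
    intro x
    rw [Subgroup.mem_inf]
    simp only [Subgroup.mem_iInf]
  have ha' : a ∈ (⨅ v ∈ A₁, LS v) ⊓ sUnit A := (hmem a).2 ⟨haA, ha⟩
  rw [Subgroup.relIndex]
  constructor
  · intro h x hx hx'
    have h1 := Subgroup.mul_mem_iff_of_index_two h (a := ⟨x, (hmem x).2 ⟨hx', hx⟩⟩) (b := ⟨a, ha'⟩)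
    rw [Subgroup.mem_subgroupOf, Subgroup.mem_subgroupOf, Subgroup.mem_subgroupOf] at h1
    by_cases h2 : x ∈ sq F
    · exact Or.inl h2
    · right
      refine (h1.2 ?_).1
      exact iff_of_false (fun h3 => h2 h3.1) (fun h3 => hsq h3.1)
  · intro h
    rw [Subgroup.index_eq_two_iff]
    refine ⟨⟨a, ha'⟩, fun b => ?_⟩
    obtain ⟨b, hb⟩ := b
    rw [Subgroup.mem_subgroupOf, Subgroup.mem_subgroupOf]
    show Xor (b * a ∈ sq F ⊓ sUnit A) (b ∈ sq F ⊓ sUnit A)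
    have hb' := (hmem b).1 hb
    rcases h b hb'.2 hb'.1 with h2 | h2
    · right
      refine ⟨⟨h2, hb'.2⟩, fun h3 => hsq ?_⟩
      exact (Subgroup.mul_mem_cancel_left _ h2).1 h3.1
    · left
      refine ⟨⟨h2, (sUnit A).mul_mem hb'.2 ha⟩, fun h3 => hsq ?_⟩
      exact (Subgroup.mul_mem_cancel_left _ h3.1).1 h2

theorem exists_auxset [IsTotallyComplex F] {A : Finset (HeightOneSpectrum (𝓞 F))} {a : Fˣ}
    (ha : a ∈ sUnit A) (hsq : a ∉ sq F) {s : ℕ} (hs : (sq F).relIndex (sUnit A) = 2 ^ s) :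
    ∃ A₁ : Finset (HeightOneSpectrum (𝓞 F)), Disjoint A A₁ ∧ A₁.card + 1 = s ∧
      (∀ v ∈ A₁, (2 : 𝓞 F) ∉ v.asIdeal ∧ a ∈ LS v) ∧
      (∀ x ∈ sUnit A, (∀ v ∈ A₁, x ∈ LS v) → x ∈ sq F ∨ x * a ∈ sq F) ∧
      ∀ R ⊆ A₁, ∃ x ∈ sUnit A, ∀ v ∈ A₁, (x ∉ LS v ↔ v ∈ R) := by
  classical
  have key : ∀ k : ℕ, k + 1 ≤ s → ∃ A₁ : Finset (HeightOneSpectrum (𝓞 F)), Disjoint A A₁ ∧
      A₁.card = k ∧ (∀ v ∈ A₁, (2 : 𝓞 F) ∉ v.asIdeal ∧ a ∈ LS v) ∧
      ∀ R ⊆ A₁, ∃ x ∈ sUnit A, ∀ v ∈ A₁, (x ∉ LS v ↔ v ∈ R) := by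
    intro k
    induction k with
    | zero =>
      intro _
      refine ⟨∅, Finset.disjoint_empty_right A, rfl, fun v hv => absurd hv (Finset.notMem_empty v),
        fun R _ => ⟨1, (sUnit A).one_mem, fun v hv => absurd hv (Finset.notMem_empty v)⟩⟩
    | succ k ih =>
      intro hk
      obtain ⟨A₁, hdisj, hcard, h1, hR⟩ := ih (by omega)
      have hA₁ : ∀ v ∈ A₁, v ∉ A ∧ (2 : 𝓞 F) ∉ v.asIdeal := fun v hv =>
        ⟨fun h' => Finset.disjoint_left.1 hdisj h' hv, (h1 v hv).1⟩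
      obtain ⟨ω, hω1, hω2, hω3, hω4⟩ : ∃ ω ∈ sUnit A, (∀ v ∈ A₁, ω ∈ LS v) ∧ ω ∉ sq F ∧
          ω * a ∉ sq F := by
        by_contra hcon
        push Not at hcon
        have h2 := (auxset_two (A₁ := A₁) ha hsq fun v hv => (h1 v hv).2).2 (fun x hx hx' => by
          by_cases h3 : x ∈ sq F
          · exact Or.inl h3
          · exact Or.inr (hcon x hx hx' h3))
        have h3 := auxset_rel hs hA₁ hR
        rw [h2, hcard, ← pow_succ'] at h3
        have h4 := Nat.pow_right_injective (le_refl 2) h3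
        omega
      obtain ⟨v, hv, hv2, hva, hvω⟩ := exists_aux_prime hsq hω3 hω4 (A ∪ A₁)
      rw [Finset.mem_union, not_or] at hv
      refine ⟨insert v A₁, ?_, ?_, ?_, ?_⟩
      · rw [Finset.disjoint_insert_right]
        exact ⟨hv.1, hdisj⟩
      · rw [Finset.card_insert_of_notMem hv.2, hcard]
      · intro u hu
        rcases Finset.mem_insert.1 hu with rfl | hu
        · exact ⟨hv2, hva⟩
        · exact h1 u hu
      · intro R hRs
        obtain ⟨x, hx, hx'⟩ := hR (R.erase v) (fun u hu => by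
          rcases Finset.mem_insert.1 (hRs (Finset.mem_of_mem_erase hu)) with h | h
          · exact absurd h (Finset.ne_of_mem_erase hu)
          · exact h)
        have hx'' : ∀ u ∈ A₁, (x ∉ LS u ↔ u ∈ R) := by
          intro u hu
          rw [hx' u hu, Finset.mem_erase]
          constructor
          · exact fun h => h.2
          · exact fun h => ⟨fun h' => hv.2 (h' ▸ hu), h⟩
        by_cases h2 : x ∉ LS v ↔ v ∈ R
        · refine ⟨x, hx, fun u hu => ?_⟩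
          rcases Finset.mem_insert.1 hu with rfl | hu
          · exact h2
          · exact hx'' u hu
        · refine ⟨x * ω, (sUnit A).mul_mem hx hω1, fun u hu => ?_⟩
          rcases Finset.mem_insert.1 hu with rfl | hu
          · rw [auxset_unit hv.1 hv2 hx hω1]
            simp only [hvω, iff_false, not_not]
            by_cases h3 : x ∈ LS u
            · simp only [h3, not_true_eq_false, false_iff, not_not] at h2
              simp [h3, h2]
            · simp only [h3, not_false_eq_true, true_iff] at h2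
              simp [h3, h2]
          · rw [Subgroup.mul_mem_cancel_right _ (hω2 u hu)]
            exact hx'' u hu
  have hs1 : 1 ≤ s := by
    by_contra h0
    have h1 : s = 0 := by omega
    rw [h1, pow_zero] at hs
    exact hsq (Subgroup.relIndex_eq_one.1 hs ha)
  obtain ⟨k, hk⟩ := Nat.exists_eq_add_of_le hs1
  obtain ⟨A₁, hdisj, hcard, h1, hR⟩ := key k (by omega)
  have hA₁ : ∀ v ∈ A₁, v ∉ A ∧ (2 : 𝓞 F) ∉ v.asIdeal := fun v hv =>
    ⟨fun h' => Finset.disjoint_left.1 hdisj h' hv, (h1 v hv).1⟩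
  refine ⟨A₁, hdisj, by omega, h1, ?_, hR⟩
  rw [← auxset_two ha hsq fun v hv => (h1 v hv).2]
  have h3 := auxset_rel hs hA₁ hR
  rw [hcard, hk, pow_add, pow_one] at h3
  exact Nat.eq_of_mul_eq_mul_right (by positivity) h3

end Pool.Agent.Work.MP_787500_nt.HN
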