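import Mathlib
import Pool.Agent.Work.MP_787500_nt.HN.AuxSet
import Pool.Agent.Work.MP_787500_nt.HN.NormIdx
import Pool.Agent.Work.MP_787500_nt.HN.ClA

/-!
# Module DONE (size M): with auxiliary places the local conditions at `A` detect squares

Suppose `y ∈ sUnit (A ∪ A₁)` is in `LS w` for all `w ∈ A` and `y ∉ sq F`. Let `B = A ∪ A₁`, `N = NS B y`; `N ⊆ A₁`. For `v ∈ N` define `g v ∈ sUnit B`: if
`v.valuation y` is not a square let `g v ∈ sUnit A` with (`g v ∉ LS v'` iff `v' = v`) for `v' ∈ A₁` (`hR` with `R = {v}`); if it is a square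
let `g v ∈ Fˣ` with `v (g v) = exp (-1)` and `w (g v) = 1` for all `w ∉ A`, `w ≠ v` (`CL A`).
Let `S ⊆ N` be not empty and suppose `x = ∏ i ∈ S, g i ∈ Nm y`. (a) If there is `v ∈ S` where `v.valuation y` is a square: `v x = exp (-1)` (all other
factors have valuation 1 at `v`), not a square; but `y ∉ LS v` and `x ∈ LN v y`, contradiction to `even_of_inert`. (b) Otherwise take any `v ∈ S`:
`v y` is not a square; all factors are in `sUnit A`, so `v x = 1`; `x ∉ LS v` as the factor `g v` is not in `LS v` and the others are; this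
contradicts `mem_LS_of_ram`. So by `two_pow_le_relIndex` (`L = Nm y`, `Y = sUnit B`), `2 ^ N.card ≤ (Nm y).relIndex (sUnit B) ≤ 2 ^ (N.card - 1)`, `N.card ≥ 1`
(`norm_idx` for `B` and `y`): contradiction. (`exp (-1)` is not a square: `Quad.not_isSquare_exp_neg_one`.)
-/

set_option autoImplicit false
set_option linter.unusedSectionVars false

namespace Pool.Agent.Work.MP_787500_nt.HN

open IsDedekindDomain NumberField WithZero
open Pool.Agent.Work.MP_787500_nt.GP (sUnit mem_sUnit)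

variable {F : Type*} [Field F] [NumberField F]

open scoped Classical in
theorem detect [IsTotallyComplex F] {A A₁ : Finset (HeightOneSpectrum (𝓞 F))} (hD : Dy A) (hC : CL A)
    (hdisj : Disjoint A A₁) (hR : ∀ R ⊆ A₁, ∃ x ∈ sUnit A, ∀ v ∈ A₁, (x ∉ LS v ↔ v ∈ R)) {y : Fˣ}
    (hy : y ∈ sUnit (A ∪ A₁)) (h : ∀ w ∈ A, y ∈ LS w) : y ∈ sq F := by
  by_contra hsq
  obtain ⟨B, hB⟩ : ∃ B, B = A ∪ A₁ := ⟨_, rfl⟩
  rw [← hB] at hy
  have hAB : A ⊆ B := by rw [hB]; exact Finset.subset_union_left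
  obtain ⟨h1, h2, h3⟩ := norm_idx (hD.mono hAB) (hC.mono hAB) hy hsq
  have hN1 : ∀ v ∈ NS B y, v ∈ A₁ ∧ v ∉ A ∧ (2 : 𝓞 F) ∉ v.asIdeal ∧ y ∉ LS v := by
    intro v hv
    rw [mem_NS] at hv
    have hvA : v ∉ A := fun h' => hv.2 (h v h')
    have hvB := hv.1
    rw [hB, Finset.mem_union] at hvB
    exact ⟨hvB.resolve_left hvA, hvA, fun h' => hvA (hD v h'), hv.2⟩
  have hg : ∀ v : HeightOneSpectrum (𝓞 F), ∃ g : Fˣ, v ∈ NS B y →
      (g ∈ sUnit B ∧ (∀ w, w ∉ A → w ≠ v → w.valuation F (g : F) = 1) ∧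
        (IsSquare (v.valuation F (y : F)) → ¬ IsSquare (v.valuation F (g : F))) ∧
        (¬ IsSquare (v.valuation F (y : F)) → g ∈ sUnit A ∧ g ∉ LS v ∧
          ∀ w ∈ A₁, w ≠ v → g ∈ LS w)) := by
    intro v
    by_cases hv : v ∈ NS B y
    · obtain ⟨hvA₁, hvA, hv2, hvy⟩ := hN1 v hv
      by_cases hs : IsSquare (v.valuation F (y : F))
      · obtain ⟨g, hg1, hg2⟩ := hC v hvA
        refine ⟨g, fun _ => ⟨?_, hg2, fun _ => ?_, fun h' => absurd hs h'⟩⟩
        · intro w hw
          refine hg2 w (fun h' => hw (hAB h')) ?_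
          rintro rfl
          exact hw (mem_NS.1 hv).1
        · rw [hg1]
          exact Quad.not_isSquare_exp_neg_one
      · obtain ⟨g, hg1, hg2⟩ := hR {v} (Finset.singleton_subset_iff.2 hvA₁)
        refine ⟨g, fun _ => ⟨sUnit_mono hAB hg1, fun w hw _ => hg1 w hw, fun h' => absurd h' hs,
          fun _ => ⟨hg1, ?_, fun w hw hne => ?_⟩⟩⟩
        · exact (hg2 v hvA₁).2 (Finset.mem_singleton_self v)
        · by_contra hcon
          exact hne (Finset.mem_singleton.1 ((hg2 w hw).1 hcon))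
    · exact ⟨1, fun h' => absurd h' hv⟩
  choose g hg using hg
  have key := two_pow_le_relIndex (NS B y) g (L := Nm y) (Y := sUnit B) (fun v hv => (hg v hv).1)
    (fun z => sq_le_Nm y ⟨z, rfl⟩) (fun S hS hprod => by
      by_contra hne
      obtain ⟨v, hv⟩ := Finset.nonempty_iff_ne_empty.2 hne
      by_cases hex : ∃ v ∈ S, IsSquare (v.valuation F (y : F))
      · obtain ⟨v, hv, hvs⟩ := hex
        obtain ⟨hvA₁, hvA, hv2, hvy⟩ := hN1 v (hS hv)
        obtain ⟨-, -, hg3, -⟩ := hg v (hS hv)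
        have h4 := even_of_inert hv2 hvs hvy (Nm_le_LN v y hprod)
        apply hg3 hvs
        rw [← Finset.mul_prod_erase S g hv, Units.val_mul, map_mul] at h4
        have h5 : v.valuation F ((∏ i ∈ S.erase v, g i : Fˣ) : F) = 1 := by
          rw [Units.coe_prod, map_prod]
          exact Finset.prod_eq_one fun i hi =>
            (hg i (hS (Finset.mem_of_mem_erase hi))).2.1 v hvA (Finset.ne_of_mem_erase hi).symm
        rwa [h5, mul_one] at h4
      · push Not at hex
        obtain ⟨hvA₁, hvA, hv2, hvy⟩ := hN1 v (hS hv)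
        obtain ⟨-, -, -, hg4⟩ := hg v (hS hv)
        obtain ⟨-, hg5, -⟩ := hg4 (hex v hv)
        have h5 : v.valuation F ((∏ i ∈ S, g i : Fˣ) : F) = 1 := by
          rw [Units.coe_prod, map_prod]
          exact Finset.prod_eq_one fun i hi => ((hg i (hS hi)).2.2.2 (hex i hi)).1 v hvA
        have h6 := mem_LS_of_ram hv2 (hex v hv) ⟨1, by rw [h5, one_mul]⟩ (Nm_le_LN v y hprod)
        rw [← Finset.mul_prod_erase S g hv] at h6
        have h7 : ∏ i ∈ S.erase v, g i ∈ LS v := Subgroup.prod_mem _ fun i hi =>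
          ((hg i (hS (Finset.mem_of_mem_erase hi))).2.2.2
            (hex i (Finset.mem_of_mem_erase hi))).2.2 v hvA₁ (Finset.ne_of_mem_erase hi).symm
        exact hg5 ((Subgroup.mul_mem_cancel_right _ h7).1 h6)) h2
  have h7 := (Nat.pow_le_pow_iff_right (by norm_num : 1 < 2)).1 (key.trans h3)
  omega

end Pool.Agent.Work.MP_787500_nt.HN
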