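import Mathlib
import Pool.Agent.Work.MP_787500_nt.HN.DOne
import Pool.Agent.Work.MP_787500_nt.HN.CardTwo

/-!
# Module HNT (size M): the norm theorem of Hasse for quadratic extensions

`a ∈ sq F`, `a = d ^ 2`: `x = ((x + 1) / 2) ^ 2 - a ((x - 1) / (2 d)) ^ 2`. Let `a ∉ sq F`. `exists_CL'`: `A` with `Dy A`, `CL A`, `a, x ∈ sUnit A`.
`Module.finrank ℚ F = 2 m`, `s = m + A.card`, `(sq F).relIndex (sUnit A) = 2 ^ s` (`relIndex_sq_sUnit`). `A₁` from `exists_auxset`, `B = A ∪ A₁`,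
`Y = sUnit B`, `B.card = A.card + s - 1`, `(sq F).relIndex Y = 2 ^ (2 s - 1)`. Let `I = ⨅ w ∈ A, LS w`. `I.index = ∏ w ∈ A, (LS w).index` (`index_iInf`
with `exists_weak`) `= ∏ w ∈ A, 4 * card (𝓞 F ⧸ w ^ ee w) = 4 ^ A.card * 2 ^ (2 m) = 2 ^ (2 s)` (`card_LS`, `prod_card_two`). By `detect`
`I ⊓ Y = sq F ⊓ Y`, so `I.relIndex Y = 2 ^ (2 s - 1)`, `I.index = 2 * I.relIndex Y`. Let `L = ⨅ w ∈ A, LN w a ≥ I`. `le_relIndex_of_index`:
`L.index ≤ 2 * L.relIndex Y`. `L.index = ∏ w ∈ A, (LN w a).index = 2 ^ (NS A a).card` (`index_iInf`; `LN_index`, `LN_eq_top`). `NS B a = NS A a =: N`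
(`a ∈ LS v` for `v ∈ A₁`). So `L.relIndex Y ≥ 2 ^ (N.card - 1) ≥ (Nm a).relIndex Y` (`norm_idx` for `B`, `a`), and `Nm a ≤ L`, the indices in `Y` are
finite: `L ⊓ Y = Nm a ⊓ Y`. `x ∈ L ⊓ Y`.
-/

set_option autoImplicit false
set_option linter.unusedSectionVars false

namespace Pool.Agent.Work.MP_787500_nt.HN

open IsDedekindDomain NumberField WithZero
open Pool.Agent.Work.MP_787500_nt.GP (sUnit mem_sUnit)

variable {F : Type*} [Field F] [NumberField F]

private theorem hnt_relIndex {T : Type*} [CommGroup T] {N L Y : Subgroup T} (hNL : N ≤ L)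
    (h0 : N.relIndex Y ≠ 0) (h : N.relIndex Y ≤ L.relIndex Y) : L ⊓ Y ≤ N := by
  have h1 : N ⊓ Y ≤ L ⊓ Y := inf_le_inf_right Y hNL
  have h2 := Subgroup.relIndex_mul_relIndex (N ⊓ Y) (L ⊓ Y) Y h1 inf_le_right
  rw [Subgroup.inf_relIndex_right, Subgroup.inf_relIndex_right] at h2
  have h3 : L.relIndex Y ≠ 0 := by
    intro h3
    rw [h3, mul_zero] at h2
    exact h0 h2.symm
  have h4 : (N ⊓ Y).relIndex (L ⊓ Y) * L.relIndex Y ≤ 1 * L.relIndex Y := by
    rw [h2, one_mul]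
    exact h
  have h5 : (N ⊓ Y).relIndex (L ⊓ Y) ≤ 1 := Nat.le_of_mul_le_mul_right h4 (Nat.pos_of_ne_zero h3)
  have h6 : (N ⊓ Y).relIndex (L ⊓ Y) ≠ 0 := by
    intro h6
    rw [h6, zero_mul] at h2
    exact h0 h2.symm
  have h7 : (N ⊓ Y).relIndex (L ⊓ Y) = 1 := by omega
  exact (Subgroup.relIndex_eq_one.1 h7).trans inf_le_left

theorem hnt [IsTotallyComplex F] {a x : Fˣ} (h : ∀ w : HeightOneSpectrum (𝓞 F), x ∈ LN w a) :
    x ∈ Nm a := by
  classical
  by_cases hsq : a ∈ sq F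
  · obtain ⟨d, hd⟩ := mem_sq.1 hsq
    have h2 : (2 : F) ≠ 0 := two_ne_zero
    have hd0 : (d : F) ≠ 0 := d.ne_zero
    refine ⟨((x : F) + 1) / 2, ((x : F) - 1) / (2 * d), ?_⟩
    have ha : (a : F) = (d : F) ^ 2 := by
      rw [← hd]
      exact Units.val_pow_eq_pow_val _ _
    rw [ha]
    field_simp
    ring
  obtain ⟨A, -, hD, hC, hA⟩ := exists_CL' (Finset.univ : Finset (Fin 2)) ![a, x]
    (∅ : Finset (HeightOneSpectrum (𝓞 F)))
  have haA : a ∈ sUnit A := hA 0 (Finset.mem_univ _)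
  have hxA : x ∈ sUnit A := hA 1 (Finset.mem_univ _)
  obtain ⟨m, hm⟩ := exists_half_degree (F := F)
  have hs := relIndex_sq_sUnit A hm
  obtain ⟨A₁, hdisj, hcard, h1, -, hR⟩ := exists_auxset haA hsq hs
  obtain ⟨B, hB⟩ : ∃ B, B = A ∪ A₁ := ⟨_, rfl⟩
  have hAB : A ⊆ B := by rw [hB]; exact Finset.subset_union_left
  have haB : a ∈ sUnit B := sUnit_mono hAB haA
  have hxB : x ∈ sUnit B := sUnit_mono hAB hxA
  obtain ⟨hN1, hN0, hN⟩ := norm_idx (hD.mono hAB) (hC.mono hAB) haB hsq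
  have hNS : NS B a = NS A a := by
    ext w
    rw [mem_NS, mem_NS, hB, Finset.mem_union]
    constructor
    · rintro ⟨hw | hw, hw'⟩
      · exact ⟨hw, hw'⟩
      · exact absurd (h1 w hw).2 hw'
    · rintro ⟨hw, hw'⟩
      exact ⟨Or.inl hw, hw'⟩
  have hYs := relIndex_sq_sUnit B hm
  have hBc : B.card = A.card + A₁.card := by
    rw [hB]
    exact Finset.card_union_of_disjoint hdisj
  -- the local squares
  have hI : (⨅ w ∈ A, LS w).index = 2 ^ (2 * (m + A.card)) := by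
    rw [index_iInf A (fun w => LS w) (fun z => exists_weak A z)]
    rw [Finset.prod_congr rfl (fun w _ => card_LS w), Finset.prod_mul_distrib, prod_card_two hD,
      Finset.prod_const, hm, mul_add, pow_add, mul_comm]
    congr 1
    rw [pow_mul]
    norm_num
  have hmemI : ∀ y : Fˣ, y ∈ (⨅ w ∈ A, LS w) ↔ ∀ w ∈ A, y ∈ LS w := by
    intro y
    simp only [Subgroup.mem_iInf]
  have hmemL : ∀ y : Fˣ, y ∈ (⨅ w ∈ A, LN w a) ↔ ∀ w ∈ A, y ∈ LN w a := by
    intro y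
    simp only [Subgroup.mem_iInf]
  have hIY : (⨅ w ∈ A, LS w).relIndex (sUnit B) = 2 ^ (m + B.card) := by
    rw [← hYs, ← Subgroup.inf_relIndex_right, ← Subgroup.inf_relIndex_right (sq F)]
    congr 1
    ext y
    rw [Subgroup.mem_inf, Subgroup.mem_inf, hmemI]
    constructor
    · rintro ⟨h2, h3⟩
      refine ⟨detect hD hC hdisj hR ?_ h2, h3⟩
      rw [← hB]
      exact h3
    · rintro ⟨h2, h3⟩
      exact ⟨fun w _ => sq_le_LS w h2, h3⟩
  have hIL : (⨅ w ∈ A, LS w) ≤ ⨅ w ∈ A, LN w a := by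
    intro y hy
    rw [hmemI] at hy
    rw [hmemL]
    exact fun w hw => LS_le_LN w a (hy w hw)
  have hL : (⨅ w ∈ A, LN w a).index = 2 ^ (NS A a).card := by
    rw [index_iInf A (fun w => LN w a) (fun z => by
      obtain ⟨y, hy⟩ := exists_weak A z
      exact ⟨y, fun w hw => LS_le_LN w a (hy w hw)⟩)]
    have h2 : ∀ w ∈ A, (LN w a).index = if a ∉ LS w then 2 else 1 := by
      intro w _
      by_cases h3 : a ∈ LS w
      · rw [if_neg (not_not.2 h3), LN_eq_top h3, Subgroup.index_top]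
      · rw [if_pos h3, LN_index h3]
    rw [Finset.prod_congr rfl h2, Finset.prod_ite, Finset.prod_const, Finset.prod_const_one, mul_one]
    congr 2
  have key := le_relIndex_of_index (I := ⨅ w ∈ A, LS w) (L := ⨅ w ∈ A, LN w a) (Y := sUnit B) hIL
    (by rw [hI]; positivity) (by
      rw [hI, hIY, hBc, ← pow_succ']
      congr 1
      omega)
  rw [hL] at key
  have hNL : Nm a ≤ ⨅ w ∈ A, LN w a := by
    intro y hy
    rw [hmemL]
    exact fun w _ => Nm_le_LN w a hy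
  have hle : (Nm a).relIndex (sUnit B) ≤ (⨅ w ∈ A, LN w a).relIndex (sUnit B) := by
    rw [hNS] at hN1 hN
    obtain ⟨n, hn⟩ := Nat.exists_eq_add_of_le hN1
    rw [hn] at key hN
    refine hN.trans ?_
    have h3 : 1 + n - 1 = n := by omega
    rw [h3]
    rw [add_comm 1 n, pow_succ'] at key
    exact Nat.le_of_mul_le_mul_left key (by norm_num)
  exact hnt_relIndex hNL hN0 hle ⟨(hmemL x).2 fun w _ => h w, hxB⟩

end Pool.Agent.Work.MP_787500_nt.HN
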