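import Mathlib
import Pool.Agent.Work.MP_787500_nt.HN.DensD
import Pool.Agent.Work.MP_787500_nt.HN.LocGrp
import Pool.Agent.Work.MP_787500_nt.GP.C2_Kum
import Pool.Agent.Work.MP_787500_nt.GP.LT2_Sep

/-!
# Module LOCNORM (size M-L): a locally trivial symbol is a local norm

`D = stabD Q ⊓ U` (closed: `GP.stabD_closed` in `LT2_Sep.lean`), `F = Fx U`, `r ^ 2 = a`, `t ^ 2 = x` in `F`. On `D`: `χ g = act2 U r g` (0 iff `g r = r`), `ω g = act2 U t g`,
`χ g * ω h = z g + z h + z (g * h)`, `z` locally constant on `D`. `z 1 = 0`.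
(a) If `g r = r` for all `g ∈ D` then `r ∈ Fx D`; by `densD` (`s = {r}`) `a = r ^ 2` is approximated by squares of `F` at `w` (`P` lies above `w`,
`exists_valuation_below`), `a ∈ LS w`, `LN_eq_top`.
(b) Otherwise let `σ ∈ D` with `σ r = -r`, `D' = {g ∈ D | g r = r}`, closed, normal of index 2 in `D`. On `D'` `z` is additive (`χ = 0`). As in `PA/SymbKer.lean` (⇒):
for `g ∈ D'`: `z (σ g) = z σ + z g + ω g` and `z ((σ g σ⁻¹) σ) = z (σ g σ⁻¹) + z σ`, so `z (σ g σ⁻¹) = z g + ω g`; and `z (σ σ) = z σ + z σ + ω σ = ω σ`.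
`exists_kum` for `D'` and `z`: `τ ≠ 0` in `Ω` with `g τ = ± τ` for `g ∈ D'`, `z g = 0 ↔ g τ = τ`. `β = τ ^ 2` is fixed by `D'`, and `σ σ β = β`. `u = t * τ * σ τ`
is fixed by `D`: for `g ∈ D'` the signs of `g t`, `g τ`, `g (σ τ) = σ ((σ⁻¹ g σ) τ)` are given by `ω g`, `z g`, `z (σ⁻¹ g σ)` and
`z g = z (σ⁻¹ g σ) + ω g` (first formula for `σ⁻¹ g σ`; `ω` is a homomorphism on `U`), the sum is 0; for `σ`: `σ u = (σ t) (σ τ) (σ σ τ)`, signs `ω σ` and
`z (σ σ) = ω σ`; and `D = D' ∪ σ D'`. `b = (β + σ β) / 2`, `c = (β - σ β) / (2 r)` are fixed by `D` (`σ r = -r`), `β = b + c r`,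
`n₀ = b ^ 2 - a c ^ 2 = β * σ β ≠ 0`, `x n₀ = u ^ 2`.
`densD` with `s = {b, c, u}`: `E`, `P`. Choose `b'`, `c'`, `u' ∈ F` close to `b`, `c`, `u` at `P`: `n = b' ^ 2 - a c' ^ 2` is close to `n₀` (so not 0) and `x n - u' ^ 2` is
small: `P (x n - u' ^ 2) < P (4 x n)`, so `w (x n - u' ^ 2) < w (4 x n)` (`exists_valuation_below`), `x n ∈ LS w` (`div_mem_LS_of_close`), `n ∈ Nm a`, `x ∈ LN w a`.
-/

set_option autoImplicit false
set_option linter.unusedSectionVars false

namespace Pool.Agent.Work.MP_787500_nt.HN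

open IsDedekindDomain NumberField WithZero
open Pool.Agent.Work.MP_787500_nt.GP (sysT stabD Fx GoodT inT)

universe u

variable {K : Type u} [Field K] [NumberField K]

/-- squares of approximable elements are approximable -/
private theorem LocNorm_sq {F E : Type*} [Field F] [Field E] [NumberField E] [Algebra F E]
    (P : HeightOneSpectrum (𝓞 E)) {z : E}
    (h : ∀ γ : WithZero (Multiplicative ℤ), γ ≠ 0 →
      ∃ y : F, P.valuation E (z - algebraMap F E y) < γ) :
    ∀ γ : WithZero (Multiplicative ℤ), γ ≠ 0 →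
      ∃ y : F, P.valuation E (z ^ 2 - algebraMap F E (y ^ 2)) < γ := by
  intro γ hγ
  obtain ⟨δ, hδ, h1⟩ :=
    exists_lt_of_ne_zero (a := max (P.valuation E (2 * z)) 1) hγ
  have hm : min δ 1 ≠ 0 := by
    rcases min_choice δ 1 with h' | h' <;> rw [h']
    · exact hδ
    · exact one_ne_zero
  obtain ⟨y, hy⟩ := h (min δ 1) hm
  refine ⟨y, ?_⟩
  have hy1 : P.valuation E (z - algebraMap F E y) < δ := hy.trans_le (min_le_left _ _)
  have hy2 : P.valuation E (z - algebraMap F E y) ≤ 1 := (hy.trans_le (min_le_right _ _)).le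
  have e : z ^ 2 - algebraMap F E (y ^ 2) =
      (2 * z - (z - algebraMap F E y)) * (z - algebraMap F E y) := by
    rw [map_pow]
    ring
  rw [e, map_mul]
  refine lt_of_le_of_lt ?_ (h1 _ hy1)
  refine mul_le_mul' ?_ le_rfl
  exact (Valuation.map_sub _ _ _).trans (max_le_max le_rfl hy2)

private theorem LocNorm_act {U : Subgroup (AbsGal K)} {t : AlgebraicClosure K} {n : AbsGal K}
    (hn : n ∈ U) : (PA.act2 U t n = 0 ↔ n t = t) ∧ (PA.act2 U t n = 1 ↔ n t ≠ t) := by
  classical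
  unfold PA.act2
  by_cases h : n t = t
  · rw [if_neg (fun h' => h'.2 h)]
    exact ⟨⟨fun _ => h, fun _ => rfl⟩, ⟨fun h' => absurd h' zero_ne_one, fun h' => absurd h h'⟩⟩
  · rw [if_pos ⟨hn, h⟩]
    exact ⟨⟨fun h' => absurd h' one_ne_zero, fun h' => absurd h' h⟩, ⟨fun _ => h, fun _ => rfl⟩⟩

private theorem LocNorm_mul {U : Subgroup (AbsGal K)} {t : AlgebraicClosure K} (ht0 : t ≠ 0)
    (hs : ∀ g ∈ U, g t = t ∨ g t = -t) {g k : AbsGal K} (hg : g ∈ U) (hk : k ∈ U) :
    PA.act2 U t (g * k) = PA.act2 U t g + PA.act2 U t k := by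
  have hne : -t ≠ t := by
    intro h
    have h2 : (2 : AlgebraicClosure K) * t = 0 := by linear_combination -h
    exact mul_ne_zero two_ne_zero ht0 h2
  have h1 := LocNorm_act (t := t) (U.mul_mem hg hk)
  have h2 := LocNorm_act (t := t) hg
  have h3 := LocNorm_act (t := t) hk
  rcases hs g hg with hg' | hg' <;> rcases hs k hk with hk' | hk'
  · rw [h2.1.2 hg', h3.1.2 hk', h1.1.2 (by rw [AlgEquiv.mul_apply, hk', hg']), add_zero]
  · rw [h2.1.2 hg', h3.2.2 (by rw [hk']; exact hne), h1.2.2 (by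
      rw [AlgEquiv.mul_apply, hk', map_neg, hg']; exact hne), zero_add]
  · rw [h2.2.2 (by rw [hg']; exact hne), h3.1.2 hk', h1.2.2 (by
      rw [AlgEquiv.mul_apply, hk', hg']; exact hne), add_zero]
  · rw [h2.2.2 (by rw [hg']; exact hne), h3.2.2 (by rw [hk']; exact hne), h1.1.2 (by
      rw [AlgEquiv.mul_apply, hk', map_neg, hg', neg_neg])]
    decide

/-- the sign of a class modulo 2 -/
private noncomputable def LocNorm_sg (a : ZMod 2) : ℤ := if a = 0 then 1 else -1

private theorem LocNorm_sg_add (a b : ZMod 2) :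
    LocNorm_sg (a + b) = LocNorm_sg a * LocNorm_sg b := by
  unfold LocNorm_sg
  revert a b
  decide

private theorem LocNorm_sg_zero : LocNorm_sg 0 = 1 := rfl

theorem locNorm {U : Subgroup (AbsGal K)} (hU : IsOpen (U : Set (AbsGal K))) [NumberField (Fx U)]
    {Q : Ideal (𝓞 (AlgebraicClosure K))} (hQ : Q.IsPrime) (hb : Q ≠ ⊥)
    {w : HeightOneSpectrum (𝓞 (Fx U))}
    (hw : Q.comap (algebraMap (𝓞 (Fx U)) (𝓞 (AlgebraicClosure K))) = w.asIdeal)
    {a x : (Fx U)ˣ} {r t : AlgebraicClosure K} (hr : r ^ 2 = ((a : Fx U) : AlgebraicClosure K))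
    (ht : t ^ 2 = ((x : Fx U) : AlgebraicClosure K))
    (h : LCob (stabD Q ⊓ U) (PA.cup (PA.act2 U r) (PA.act2 U t))) : x ∈ LN w a := by
  classical
  have ha0 : ((a : Fx U) : AlgebraicClosure K) ≠ 0 := fun h => a.ne_zero (ZeroMemClass.coe_eq_zero.1 h)
  have hx0 : ((x : Fx U) : AlgebraicClosure K) ≠ 0 := fun h => x.ne_zero (ZeroMemClass.coe_eq_zero.1 h)
  have hr0 : r ≠ 0 := by
    rintro rfl
    rw [zero_pow two_ne_zero] at hr
    exact ha0 hr.symm
  have ht0 : t ≠ 0 := by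
    rintro rfl
    rw [zero_pow two_ne_zero] at ht
    exact hx0 ht.symm
  have hfixF : ∀ g ∈ U, ∀ y : Fx U, g (y : AlgebraicClosure K) = y :=
    fun g hg y => GP.mem_Fx.1 y.2 g hg
  have hsr : ∀ g ∈ U, g r = r ∨ g r = -r := by
    intro g hg
    apply sq_eq_sq_iff_eq_or_eq_neg.1
    rw [← map_pow, hr, hfixF g hg]
  have hst : ∀ g ∈ U, g t = t ∨ g t = -t := by
    intro g hg
    apply sq_eq_sq_iff_eq_or_eq_neg.1
    rw [← map_pow, ht, hfixF g hg]
  by_cases hall : ∀ g ∈ stabD Q ⊓ U, g r = r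
  · -- case (a)
    obtain ⟨E, hE, P, hPw, happ⟩ := densD hU hQ hb hw {r} (by
      intro z hz
      rw [Finset.mem_singleton] at hz
      rw [hz, GP.mem_Fx]
      exact hall)
    obtain ⟨r', hr', hra⟩ := happ r (Finset.mem_singleton_self r)
    have hra2 := LocNorm_sq P hra
    obtain ⟨e, he, hval⟩ := exists_valuation_below (K := Fx U) P
    rw [hPw] at hval
    have hr'2 : r' ^ 2 = algebraMap (Fx U) E a := by
      apply Subtype.ext
      show ((r' : E) : AlgebraicClosure K) ^ 2 = _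
      rw [hr', hr]
      rfl
    have haLS : a ∈ LS w := by
      rw [mem_LS]
      intro γ hγ
      obtain ⟨y, hy⟩ := hra2 (γ ^ e) (pow_ne_zero e hγ)
      refine ⟨y, ?_⟩
      rw [hr'2, ← map_sub, ← hval] at hy
      exact lt_of_pow_lt_pow_left₀ e zero_le hy
    rw [LN_eq_top haLS]
    exact Subgroup.mem_top x
  · -- case (b)
    push Not at hall
    obtain ⟨σ, hσ, hσr'⟩ := hall
    have hσr : σ r = -r := (hsr σ hσ.2).resolve_left hσr'
    obtain ⟨z, ⟨U', hU', hzU⟩, hz⟩ := h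
    let χ := PA.act2 U r
    let ω := PA.act2 U t
    have hχ : ∀ g ∈ U, (χ g = 0 ↔ g r = r) ∧ (χ g = 1 ↔ g r ≠ r) := fun g hg => LocNorm_act hg
    have hω : ∀ g ∈ U, (ω g = 0 ↔ g t = t) ∧ (ω g = 1 ↔ g t ≠ t) := fun g hg => LocNorm_act hg
    have hc : ∀ g ∈ stabD Q ⊓ U, ∀ k ∈ stabD Q ⊓ U, χ g * ω k = z g + z k + z (g * k) :=
      fun g hg k hk => hz g hg k hk
    have hσD : σ ∈ stabD Q ⊓ U := hσ
    let D' : Subgroup (AbsGal K) := (stabD Q ⊓ U) ⊓ MulAction.stabilizer (AbsGal K) r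
    have hD' : ∀ g, g ∈ D' ↔ g ∈ stabD Q ⊓ U ∧ g r = r := fun g => Iff.rfl
    have hD'cl : IsClosed (D' : Set (AbsGal K)) := by
      have h1 : IsClosed (U : Set (AbsGal K)) := Subgroup.isClosed_of_isOpen U hU
      have h2 : IsOpen (MulAction.stabilizer (AbsGal K) r : Set (AbsGal K)) :=
        stabilizer_isOpen_of_isIntegral r
      exact ((GP.stabD_closed Q).inter h1).inter (Subgroup.isClosed_of_isOpen _ h2)
    have hσ1 : χ σ = 1 := (hχ σ hσ.2).2.2 hσr'
    have hadd : ∀ g ∈ D', ∀ k ∈ stabD Q ⊓ U, z (g * k) = z g + z k := by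
      intro g hg k hk
      have h1 := hc g hg.1 k hk
      rw [(hχ g hg.1.2).1.2 hg.2, zero_mul] at h1
      have h2 : ∀ a b c : ZMod 2, 0 = a + b + c → c = a + b := by decide
      exact h2 _ _ _ h1
    have hz1 : z 1 = 0 := by
      have h1 := hadd 1 D'.one_mem 1 (Subgroup.one_mem _)
      rw [mul_one] at h1
      simpa using h1
    have F1 : ∀ k ∈ stabD Q ⊓ U, z (σ * k) = z σ + z k + ω k := by
      intro k hk
      have h1 := hc σ hσ k hk
      rw [hσ1, one_mul] at h1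
      rw [h1]
      have h2 : ∀ a b c : ZMod 2, c = a + b + (a + b + c) := by decide
      exact h2 _ _ _
    have hσir : σ⁻¹ r = -r := by
      have h1 : σ⁻¹ (σ r) = r := by
        rw [← AlgEquiv.mul_apply, inv_mul_cancel]
        rfl
      rw [hσr, map_neg] at h1
      exact neg_eq_iff_eq_neg.1 h1
    have hcj : ∀ g ∈ D', σ * g * σ⁻¹ ∈ D' := by
      intro g hg
      rw [hD'] at hg ⊢
      refine ⟨Subgroup.mul_mem _ (Subgroup.mul_mem _ hσ hg.1) (Subgroup.inv_mem _ hσ), ?_⟩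
      rw [AlgEquiv.mul_apply, AlgEquiv.mul_apply, hσir, map_neg, hg.2, map_neg, hσr, neg_neg]
    have hcj' : ∀ g ∈ D', σ⁻¹ * g * σ ∈ D' := by
      intro g hg
      rw [hD'] at hg ⊢
      refine ⟨Subgroup.mul_mem _ (Subgroup.mul_mem _ (Subgroup.inv_mem _ hσ) hg.1) hσ, ?_⟩
      rw [AlgEquiv.mul_apply, AlgEquiv.mul_apply, hσr, map_neg, hg.2, map_neg, hσir, neg_neg]
    have hωm : ∀ g ∈ U, ∀ k ∈ U, ω (g * k) = ω g + ω k :=
      fun g hg k hk => LocNorm_mul ht0 hst hg hk
    have F2 : ∀ g ∈ D', z (σ * g * σ⁻¹) = z g + ω g := by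
      intro g hg
      have h1 := hadd _ (hcj g hg) σ hσ
      rw [inv_mul_cancel_right, F1 g hg.1] at h1
      have h2 : ∀ a b c d : ZMod 2, a + b + c = d + a → d = b + c := by decide
      exact h2 _ _ _ _ h1
    have F2' : ∀ g ∈ D', z (σ⁻¹ * g * σ) = z g + ω g := by
      intro g hg
      have h1 := F2 _ (hcj' g hg)
      have e1 : σ * (σ⁻¹ * g * σ) * σ⁻¹ = g := by group
      have e2 : ω (σ⁻¹ * g * σ) = ω g := by
        rw [hωm _ (U.mul_mem (U.inv_mem hσ.2) hg.1.2) _ hσ.2, hωm _ (U.inv_mem hσ.2) _ hg.1.2]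
        have h3 := hωm σ hσ.2 σ⁻¹ (U.inv_mem hσ.2)
        rw [mul_inv_cancel, (hω 1 U.one_mem).1.2 rfl] at h3
        have h4 : ∀ a b c : ZMod 2, 0 = a + b → b + c + a = c := by decide
        exact h4 _ _ _ h3
      rw [e1, e2] at h1
      have h2 : ∀ a b c : ZMod 2, a = b + c → b = a + c := by decide
      exact h2 _ _ _ h1
    have F3 : z (σ * σ) = ω σ := by
      rw [F1 σ hσ]
      have h2 : ∀ a c : ZMod 2, a + a + c = c := by decide
      exact h2 _ _
    obtain ⟨τ, hτ0, hτs, hτz⟩ := GP.exists_kum hD'cl z (fun g hg k hk => hadd g hg k hk.1)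
      ⟨U', hU', fun g hg => by
        have h1 := hzU 1 (Subgroup.one_mem _) g ⟨hg.1.1, hg.2⟩
        rw [one_mul, hz1] at h1
        exact h1⟩
    have sτ : ∀ g ∈ D', g τ = (LocNorm_sg (z g) : AlgebraicClosure K) * τ := by
      intro g hg
      unfold LocNorm_sg
      by_cases h1 : z g = 0
      · rw [if_pos h1, (hτz g hg).1 h1]
        push_cast
        ring
      · rw [if_neg h1, (hτs g hg).resolve_left (fun h2 => h1 ((hτz g hg).2 h2))]
        push_cast
        ring
    have st : ∀ g ∈ U, g t = (LocNorm_sg (ω g) : AlgebraicClosure K) * t := by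
      intro g hg
      unfold LocNorm_sg
      by_cases h1 : ω g = 0
      · rw [if_pos h1, (hω g hg).1.1 h1]
        push_cast
        ring
      · rw [if_neg h1, (hst g hg).resolve_left (fun h2 => h1 ((hω g hg).1.2 h2))]
        push_cast
        ring
    have hσσ : σ * σ ∈ D' := by
      rw [hD']
      refine ⟨Subgroup.mul_mem _ hσ hσ, ?_⟩
      rw [AlgEquiv.mul_apply, hσr, map_neg, hσr, neg_neg]
    -- elements fixed by `D'` and `σ`
    have hext : ∀ y : AlgebraicClosure K, (∀ g ∈ D', g y = y) → σ y = y →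
        y ∈ Fx (stabD Q ⊓ U) := by
      intro y hy hσy
      rw [GP.mem_Fx]
      intro g hg
      rcases hsr g hg.2 with h1 | h1
      · exact hy g ⟨hg, h1⟩
      · have h2 : σ⁻¹ * g ∈ D' := by
          rw [hD']
          refine ⟨Subgroup.mul_mem _ (Subgroup.inv_mem _ hσ) hg, ?_⟩
          rw [AlgEquiv.mul_apply, h1, map_neg, hσir, neg_neg]
        have h3 : σ ((σ⁻¹ * g) y) = g y := by
          rw [← AlgEquiv.mul_apply, mul_inv_cancel_left]
        rw [← h3, hy _ h2, hσy]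
    have hgσ : ∀ (g : AbsGal K) (y : AlgebraicClosure K), g (σ y) = σ ((σ⁻¹ * g * σ) y) := by
      intro g y
      rw [← AlgEquiv.mul_apply, ← AlgEquiv.mul_apply]
      congr 1
      group
    obtain ⟨u, hu⟩ : ∃ u, u = t * (τ * σ τ) := ⟨_, rfl⟩
    have huD : u ∈ Fx (stabD Q ⊓ U) := by
      refine hext u (fun g hg => ?_) ?_
      · rw [hu, map_mul, map_mul, st g hg.1.2, sτ g hg, hgσ g τ, sτ _ (hcj' g hg), F2' g hg,
          map_mul, map_intCast]
        have e1 : (LocNorm_sg (ω g) * LocNorm_sg (z g) * LocNorm_sg (z g + ω g) : ℤ) = 1 := by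
          rw [← LocNorm_sg_add, ← LocNorm_sg_add]
          have h2 : ∀ a b : ZMod 2, a + b + (b + a) = 0 := by decide
          rw [h2]
          rfl
        have e2 : (LocNorm_sg (ω g) * LocNorm_sg (z g) * LocNorm_sg (z g + ω g) :
            AlgebraicClosure K) = 1 := by
          exact_mod_cast e1
        linear_combination (t * τ * σ τ) * e2
      · rw [hu, map_mul, map_mul, st σ hσ.2, ← AlgEquiv.mul_apply, sτ _ hσσ, F3]
        have e1 : (LocNorm_sg (ω σ) * LocNorm_sg (ω σ) : ℤ) = 1 := by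
          rw [← LocNorm_sg_add]
          have h2 : ∀ a : ZMod 2, a + a = 0 := by decide
          rw [h2]
          rfl
        have e2 : (LocNorm_sg (ω σ) * LocNorm_sg (ω σ) : AlgebraicClosure K) = 1 := by
          exact_mod_cast e1
        linear_combination (t * τ * σ τ) * e2
    obtain ⟨β, hβ⟩ : ∃ β, β = τ ^ 2 := ⟨_, rfl⟩
    have hβ0 : β ≠ 0 := by rw [hβ]; exact pow_ne_zero 2 hτ0
    have hβD : ∀ g ∈ D', g β = β := by
      intro g hg
      rw [hβ, map_pow]
      rcases hτs g hg with h1 | h1 <;> rw [h1]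
      rw [neg_sq]
    have hσβD : ∀ g ∈ D', g (σ β) = σ β := by
      intro g hg
      rw [hgσ, hβD _ (hcj' g hg)]
    have hσσβ : σ (σ β) = β := by
      rw [← AlgEquiv.mul_apply]
      exact hβD _ hσσ
    have h2ne : (2 : AlgebraicClosure K) ≠ 0 := two_ne_zero
    obtain ⟨b, hbd⟩ : ∃ b, b = (β + σ β) / 2 := ⟨_, rfl⟩
    obtain ⟨c, hcd⟩ : ∃ c, c = (β - σ β) / (2 * r) := ⟨_, rfl⟩
    have hbD : b ∈ Fx (stabD Q ⊓ U) := by
      refine hext b (fun g hg => ?_) ?_
      · rw [hbd, map_div₀, map_add, hβD g hg, hσβD g hg, map_ofNat]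
      · rw [hbd, map_div₀, map_add, hσσβ, map_ofNat, add_comm]
    have hcD : c ∈ Fx (stabD Q ⊓ U) := by
      refine hext c (fun g hg => ?_) ?_
      · rw [hcd, map_div₀, map_sub, hβD g hg, hσβD g hg, map_mul, map_ofNat, ((hD' g).1 hg).2]
      · rw [hcd, map_div₀, map_sub, hσσβ, map_mul, map_ofNat, hσr]
        field_simp
        ring
    have hn0 : b ^ 2 - ((a : Fx U) : AlgebraicClosure K) * c ^ 2 = β * σ β := by
      rw [hbd, hcd, ← hr]
      field_simp
      ring
    have hxn : ((x : Fx U) : AlgebraicClosure K) * (b ^ 2 - ((a : Fx U) : AlgebraicClosure K) * c ^ 2)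
        = u ^ 2 := by
      rw [hn0, ← ht, hu, hβ, map_pow]
      ring
    obtain ⟨E, hE, P, hPw, happ⟩ := densD hU hQ hb hw {b, c, u} (by
      intro y hy
      rw [Finset.mem_insert, Finset.mem_insert, Finset.mem_singleton] at hy
      rcases hy with rfl | rfl | rfl
      · exact hbD
      · exact hcD
      · exact huD)
    obtain ⟨b', hb', hba⟩ := happ b (by simp)
    obtain ⟨c', hc', hca⟩ := happ c (by simp)
    obtain ⟨u', hu', hua⟩ := happ u (by simp)
    obtain ⟨e, he, hval⟩ := exists_valuation_below (K := Fx U) P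
    rw [hPw] at hval
    obtain ⟨N, hN⟩ : ∃ N : E, N = b' ^ 2 - algebraMap (Fx U) E a * c' ^ 2 := ⟨_, rfl⟩
    have hNc : (N : AlgebraicClosure K) = β * σ β := by
      rw [← hn0, hN, ← hb', ← hc']
      rfl
    have hN0 : N ≠ 0 := by
      intro h0
      rw [h0] at hNc
      exact mul_ne_zero hβ0 ((map_ne_zero σ).2 hβ0) hNc.symm
    have hxN : algebraMap (Fx U) E x * N = u' ^ 2 := by
      apply Subtype.ext
      show ((x : Fx U) : AlgebraicClosure K) * (N : AlgebraicClosure K) = (u' : AlgebraicClosure K) ^ 2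
      rw [hNc, hu', ← hxn, hn0]
    have h4 : (4 : E) ≠ 0 := OfNat.ofNat_ne_zero 4
    have haE : algebraMap (Fx U) E a ≠ 0 := (map_ne_zero _).2 a.ne_zero
    have hxE : algebraMap (Fx U) E x ≠ 0 := (map_ne_zero _).2 x.ne_zero
    have hv0 : ∀ y : E, y ≠ 0 → P.valuation E y ≠ 0 := fun y hy => (Valuation.ne_zero_iff _).2 hy
    have four_le : P.valuation E (4 : E) ≤ 1 := by
      have : P.valuation E (algebraMap (𝓞 E) E 4) ≤ 1 := P.valuation_le_one 4
      rwa [map_ofNat] at this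
    obtain ⟨yb, hyb⟩ := LocNorm_sq P hba _ (hv0 (4 * N) (mul_ne_zero h4 hN0))
    obtain ⟨yc, hyc⟩ := LocNorm_sq P hca _ (hv0 (4 * N / algebraMap (Fx U) E a)
      (div_ne_zero (mul_ne_zero h4 hN0) haE))
    obtain ⟨yu, hyu⟩ := LocNorm_sq P hua _ (hv0 (4 * (algebraMap (Fx U) E x * N))
      (mul_ne_zero h4 (mul_ne_zero hxE hN0)))
    obtain ⟨n, hn⟩ : ∃ n : Fx U, n = yb ^ 2 - a * yc ^ 2 := ⟨_, rfl⟩
    have hNn : P.valuation E (N - algebraMap (Fx U) E n) < P.valuation E (4 * N) := by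
      have e1 : N - algebraMap (Fx U) E n = (b' ^ 2 - algebraMap (Fx U) E (yb ^ 2)) -
          algebraMap (Fx U) E a * (c' ^ 2 - algebraMap (Fx U) E (yc ^ 2)) := by
        rw [hN, hn, map_sub, map_mul]
        ring
      rw [e1]
      refine lt_of_le_of_lt (Valuation.map_sub _ _ _) (max_lt hyb ?_)
      rw [map_mul]
      rw [map_div₀] at hyc
      rw [mul_comm]
      exact (lt_div_iff₀ (zero_lt_iff.2 (hv0 _ haE))).1 hyc
    have h4N : P.valuation E (4 * N) ≤ P.valuation E N := by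
      rw [map_mul]
      calc P.valuation E (4 : E) * P.valuation E N ≤ 1 * P.valuation E N := mul_le_mul' four_le le_rfl
        _ = P.valuation E N := one_mul _
    have hvn : P.valuation E (algebraMap (Fx U) E n) = P.valuation E N := by
      apply Valuation.map_eq_of_sub_lt
      rw [Valuation.map_sub_swap]
      exact hNn.trans_le h4N
    have hn0' : n ≠ 0 := by
      rintro h0
      rw [h0, map_zero, map_zero] at hvn
      exact hv0 N hN0 hvn.symm
    -- `yu ^ 2` is close to `x n`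
    have hclose : P.valuation E (algebraMap (Fx U) E (yu ^ 2 - x * n)) <
        P.valuation E (algebraMap (Fx U) E (4 * (x * n))) := by
      have e1 : algebraMap (Fx U) E (yu ^ 2 - x * n) =
          algebraMap (Fx U) E x * (N - algebraMap (Fx U) E n) -
            (u' ^ 2 - algebraMap (Fx U) E (yu ^ 2)) := by
        rw [map_sub, map_mul, ← hxN]
        ring
      have e2 : P.valuation E (algebraMap (Fx U) E (4 * (x * n))) =
          P.valuation E (4 * (algebraMap (Fx U) E x * N)) := by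
        rw [map_mul, map_mul, map_ofNat, map_mul, map_mul, map_mul, map_mul, hvn]
      rw [e1, e2]
      refine lt_of_le_of_lt (Valuation.map_sub _ _ _) (max_lt ?_ hyu)
      have e3 : (4 : E) * (algebraMap (Fx U) E x * N) = algebraMap (Fx U) E x * (4 * N) := by ring
      rw [e3, map_mul, map_mul (P.valuation E) _ (4 * N)]
      exact (mul_lt_mul_iff_right₀ (zero_lt_iff.2 (hv0 _ hxE))).2 hNn
    have hclosew : w.valuation (Fx U) (yu ^ 2 - x * n) < w.valuation (Fx U) (4 * (x * n)) := by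
      rw [← hval, ← hval] at hclose
      exact lt_of_pow_lt_pow_left₀ e zero_le hclose
    have hyu0 : yu ≠ 0 := by
      rintro rfl
      rw [zero_pow two_ne_zero, zero_sub, Valuation.map_neg] at hclosew
      have four_le' : w.valuation (Fx U) (4 : Fx U) ≤ 1 := by
        have : w.valuation (Fx U) (algebraMap (𝓞 (Fx U)) (Fx U) 4) ≤ 1 := w.valuation_le_one 4
        rwa [map_ofNat] at this
      have h5 : w.valuation (Fx U) (4 * ((x : Fx U) * n)) ≤ w.valuation (Fx U) ((x : Fx U) * n) := by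
        rw [map_mul (w.valuation (Fx U)) 4]
        calc w.valuation (Fx U) (4 : Fx U) * w.valuation (Fx U) ((x : Fx U) * n) ≤
            1 * w.valuation (Fx U) ((x : Fx U) * n) := mul_le_mul' four_le' le_rfl
          _ = w.valuation (Fx U) ((x : Fx U) * n) := one_mul _
      exact absurd hclosew (not_lt.2 h5)
    have hdiv : (Units.mk0 yu hyu0) ^ 2 / (x * Units.mk0 n hn0') ∈ LS w :=
      div_mem_LS_of_close hclosew
    have hxnLS : x * Units.mk0 n hn0' ∈ LS w := by
      have h1 : (Units.mk0 yu hyu0) ^ 2 ∈ LS w := sq_mem_LS _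
      have := (LS w).div_mem h1 hdiv
      rwa [div_div_cancel] at this
    refine Subgroup.mem_sup.2 ⟨(Units.mk0 n hn0')⁻¹, (Nm a).inv_mem ⟨yb, yc, hn⟩,
      x * Units.mk0 n hn0', hxnLS, ?_⟩
    rw [mul_comm, mul_inv_cancel_right]

end Pool.Agent.Work.MP_787500_nt.HN
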