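import Mathlib
import Pool.Agent.Work.MP_787500_nt.HN.KumF
import Pool.Agent.Work.MP_787500_nt.PA.SymbKer

/-!
# Module NORMCUP (size M): the symbol of a norm is trivial

`F = Fx U`, `r ^ 2 = a`, `t ^ 2 = x = b ^ 2 - a c ^ 2`. If `g r = r` for all `g ∈ U` then `act2 U r = 0` and the cup product is 0. Otherwise
`V = {g ∈ U | g r = r}` has index 2 in `U`, is open for the system (`act2_memF` gives a member under which `act2 U r` is invariant; intersected with a
member in `U` it is in `V`), and `act2 U r = chi V U`. Let `s ∈ U`, `s ∉ V`, `s r = -r`. By `cup_chi_iff` (`PA/SymbKer.lean`) for `fullSys K` it suffices to find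
`ψ ∈ homs (fullSys K) V` with `cor V U s ψ = act2 U t`. Let `β = b + c r` (not 0, as `x ≠ 0`), `w ^ 2 = β`, `ψ = act2 V w` (`act2_memF` for `V`, which fixes `β`).
`(w * s w) ^ 2 = β * s β = x`, so `act2 U t = act2 U (w * s w)` (`act2_eq_of_sq`). The proof of `cor V U s ψ g = 0 ↔ g (w * s w) = w * s w` is at
the end of `GP/C3_Symb0.lean` (copy): for `g ∈ V`: `ψ (s g s⁻¹) = ψ (s⁻¹ g s)` and `g (s w) = s ((s⁻¹ g s) w)`; for `g ∈ U`, `g ∉ V`:
`(w * g w) ^ 2 = x`, and `g (w * g w) = g w * (g g) w`.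
-/

set_option autoImplicit false
set_option linter.unusedSectionVars false

namespace Pool.Agent.Work.MP_787500_nt.HN

open IsDedekindDomain NumberField WithZero
open Pool.Agent.Work.MP_787500_nt.PA (TwoSys Sm1 Sm2 homs Coc Cob Opn)
open Pool.Agent.Work.MP_787500_nt.GP (sysT stabD Fx GoodT inT)

universe u

variable {K : Type u} [Field K] [NumberField K]

private theorem nc_z2 (a : ZMod 2) : a = 0 ∨ a = 1 := by
  revert a
  decide

private theorem nc_ne {z : AlgebraicClosure K} (hz : z ≠ 0) : -z ≠ z := by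
  intro h
  apply hz
  have h3 : (2 : AlgebraicClosure K) * z = 0 := by linear_combination -h
  exact (mul_eq_zero.1 h3).resolve_left two_ne_zero

private theorem nc_fix {U : Subgroup (AbsGal K)} {g : AbsGal K} {t : AlgebraicClosure K}
    (h : g t = t) : PA.act2 U t g = 0 := by
  classical
  unfold PA.act2
  exact if_neg fun h2 => h2.2 h

private theorem nc_one {U : Subgroup (AbsGal K)} {g : AbsGal K} {t : AlgebraicClosure K}
    (hg : g ∈ U) (h : g t ≠ t) : PA.act2 U t g = 1 := by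
  classical
  unfold PA.act2
  exact if_pos ⟨hg, h⟩

private theorem nc_off {U : Subgroup (AbsGal K)} {g : AbsGal K} {t : AlgebraicClosure K}
    (hg : g ∉ U) : PA.act2 U t g = 0 := by
  classical
  unfold PA.act2
  exact if_neg fun h2 => hg h2.1

private theorem nc_zero {U : Subgroup (AbsGal K)} {g : AbsGal K} {t : AlgebraicClosure K}
    (hg : g ∈ U) : PA.act2 U t g = 0 ↔ g t = t := by
  constructor
  · intro h
    by_contra h2
    rw [nc_one hg h2] at h
    exact one_ne_zero h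
  · exact nc_fix

theorem cob_of_norm {U : Subgroup (AbsGal K)} (hU : Opn (fullSys K) U) {a x : (Fx U)ˣ}
    {r t : AlgebraicClosure K} (hr : r ^ 2 = ((a : Fx U) : AlgebraicClosure K))
    (ht : t ^ 2 = ((x : Fx U) : AlgebraicClosure K)) (h : x ∈ Nm a) :
    Cob (fullSys K) U (PA.cup (PA.act2 U r) (PA.act2 U t)) := by
  classical
  obtain ⟨b, c, hbc⟩ := h
  have hF : ∀ (y : Fx U), ∀ g ∈ U, g (y : AlgebraicClosure K) = y := fun y g hg =>
    (GP.mem_Fx.1 y.2) g hg
  have ha0 : ((a : Fx U) : AlgebraicClosure K) ≠ 0 := by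
    intro h
    exact a.ne_zero (Subtype.ext h)
  have hx0 : ((x : Fx U) : AlgebraicClosure K) ≠ 0 := by
    intro h
    exact x.ne_zero (Subtype.ext h)
  have hr0 : r ≠ 0 := by
    rintro rfl
    exact ha0 (by rw [← hr]; ring)
  have ht0 : t ≠ 0 := by
    rintro rfl
    exact hx0 (by rw [← ht]; ring)
  have hχ : PA.act2 U r ∈ homs (fullSys K) U :=
    act2_memF hU hr0 fun g hg => by rw [hr]; exact hF _ g hg
  have hω : PA.act2 U t ∈ homs (fullSys K) U :=
    act2_memF hU ht0 fun g hg => by rw [ht]; exact hF _ g hg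
  by_cases hχ0 : ∀ g ∈ U, PA.act2 U r g = 0
  · obtain ⟨W₀, hW₀⟩ := (fullSys K).ex
    refine ⟨fun _ => 0, ⟨W₀, hW₀, fun _ _ _ => rfl⟩, fun g hg h _ => ?_⟩
    unfold PA.cup
    rw [hχ0 g hg, zero_mul]
    rfl
  push Not at hχ0
  obtain ⟨s, hs, hs1⟩ := hχ0
  have hs1' : PA.act2 U r s = 1 := (nc_z2 _).resolve_left hs1
  have hmul := hχ.2.2
  let V : Subgroup (AbsGal K) :=
    { carrier := {g | g ∈ U ∧ PA.act2 U r g = 0}
      mul_mem' := by
        rintro a b ⟨ha, ha'⟩ ⟨hb, hb'⟩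
        exact ⟨mul_mem ha hb, by rw [hmul a ha b hb, ha', hb', add_zero]⟩
      one_mem' := ⟨one_mem _, PA.I2.hom_one hmul⟩
      inv_mem' := by
        rintro a ⟨ha, ha'⟩
        exact ⟨inv_mem ha, by rw [PA.I2.hom_inv hmul ha, ha']⟩ }
  have hVm : ∀ g, g ∈ V ↔ g ∈ U ∧ PA.act2 U r g = 0 := fun g => Iff.rfl
  have hVU : V ≤ U := fun g hg => hg.1
  have hsV : s ∉ V := fun h => hs1 h.2
  have h2 : V.relIndex U = 2 := by
    rw [Subgroup.relIndex, Subgroup.index_eq_two_iff]
    refine ⟨⟨s, hs⟩, fun b => ?_⟩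
    rw [Subgroup.mem_subgroupOf, Subgroup.mem_subgroupOf]
    have h3 := hmul b.1 b.2 s hs
    have e : ((b * ⟨s, hs⟩ : U) : AbsGal K) = (b : AbsGal K) * s := rfl
    rw [e, hVm, hVm, h3, hs1']
    have h4 : (b : AbsGal K) * s ∈ U := mul_mem b.2 hs
    have h5 : (b : AbsGal K) ∈ U := b.2
    rcases nc_z2 (PA.act2 U r (b : AbsGal K)) with h6 | h6
    · rw [h6]
      right
      exact ⟨⟨h5, rfl⟩, fun h => absurd h.2 (by decide)⟩
    · rw [h6]
      left
      exact ⟨⟨h4, by decide⟩, fun h => absurd h.2 (by decide)⟩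
  have hchi : PA.chi V U = PA.act2 U r := by
    funext g
    by_cases hg : g ∈ U
    · by_cases hg' : g ∈ V
      · rw [PA.chi_of_mem U hg', hg'.2]
      · rw [PA.chi_of_not hg hg']
        rcases nc_z2 (PA.act2 U r g) with h | h
        · exact absurd ⟨hg, h⟩ hg'
        · exact h.symm
    · rw [nc_off hg]
      unfold PA.chi
      exact if_neg fun h => hg h.1
  have hV : Opn (fullSys K) V := by
    obtain ⟨W₁, hW₁, hsm⟩ := hχ.1
    obtain ⟨W₂, hW₂, hle⟩ := hU
    refine ⟨W₁ ⊓ W₂, (fullSys K).inf hW₁ hW₂, fun w hw => ⟨hle hw.2, ?_⟩⟩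
    have h3 := hsm 1 w hw.1
    rw [one_mul] at h3
    rw [h3]
    exact PA.I2.hom_one hmul
  rw [← hchi, PA.cup_chi_iff hVU hV h2 hs hsV hω]
  have hbU : ∀ g ∈ U, g (b : AlgebraicClosure K) = b := hF b
  have hcU : ∀ g ∈ U, g (c : AlgebraicClosure K) = c := hF c
  have hrV : ∀ g ∈ V, g r = r := fun g hg => (nc_zero hg.1).1 hg.2
  have hrN : ∀ g ∈ U, g ∉ V → g r = -r := by
    intro g hg hg'
    have h3 : (g r) ^ 2 = r ^ 2 := by
      rw [← map_pow, hr]
      exact hF _ g hg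
    rcases sq_eq_sq_iff_eq_or_eq_neg.1 h3 with h | h
    · exact absurd ⟨hg, nc_fix h⟩ hg'
    · exact h
  obtain ⟨w, hw⟩ := IsAlgClosed.exists_pow_nat_eq
    ((b : AlgebraicClosure K) + c * r) (n := 2) (by norm_num)
  have hprod : ((b : AlgebraicClosure K) + c * r) * (b - c * r) = t ^ 2 := by
    rw [ht, hbc]
    push_cast
    rw [← hr]
    ring
  have hβ : (b : AlgebraicClosure K) + c * r ≠ 0 := by
    intro h
    rw [h, zero_mul] at hprod
    exact pow_ne_zero 2 ht0 hprod.symm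
  have hw0 : w ≠ 0 := by
    rintro rfl
    apply hβ
    rw [← hw]
    ring
  have hβV : ∀ g ∈ V, g (w ^ 2) = w ^ 2 := by
    intro g hg
    rw [hw, map_add, map_mul, hbU g (hVU hg), hcU g (hVU hg), hrV g hg]
  have hwV : ∀ g ∈ V, g w = w ∨ g w = -w := by
    intro g hg
    have h3 : (g w) ^ 2 = w ^ 2 := by
      rw [← map_pow, hβV g hg]
    exact sq_eq_sq_iff_eq_or_eq_neg.1 h3
  have hψ : PA.act2 V w ∈ homs (fullSys K) V := act2_memF hV hw0 hβV
  have p1 : ∀ {g : AbsGal K}, g w = w → PA.act2 V w g = 0 := fun hg => nc_fix hg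
  have p2 : ∀ {g : AbsGal K}, g ∈ V → g w = -w → PA.act2 V w g = 1 := fun hg h =>
    nc_one hg (by rw [h]; exact nc_ne hw0)
  have hψmul := hψ.2.2
  refine ⟨PA.act2 V w, hψ, ?_⟩
  have hrr : ∀ {v : AlgebraicClosure K}, v ^ 2 = t ^ 2 → ∀ g : AbsGal K,
      (g t = t ↔ g v = v) := by
    intro v hv g
    rcases sq_eq_sq_iff_eq_or_eq_neg.1 hv with h | h
    · rw [h]
    · rw [h, map_neg, neg_inj]
  have hgw2 : ∀ g ∈ U, g ∉ V → (g w) ^ 2 = (b : AlgebraicClosure K) - c * r := by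
    intro g hg hg'
    rw [← map_pow, hw, map_add, map_mul, hbU g hg, hcU g hg, hrN g hg hg']
    ring
  funext g
  by_cases hg : g ∈ V
  · rw [PA.cor_apply_mem V U s _ hg]
    have hgc : s⁻¹ * g * s ∈ V := PA.I2.cj' hVU h2 hs hg
    have e1 : PA.act2 V w (s * g * s⁻¹) = PA.act2 V w (s⁻¹ * g * s) := by
      have hss : s * s ∈ V := PA.I2.sq h2 hs
      have h3 := PA.I2.hom_conj hψmul hss hgc
      rw [← h3]
      congr 1
      group
    rw [e1]
    have hv2 : (w * s w) ^ 2 = t ^ 2 := by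
      rw [mul_pow, hw, hgw2 s hs hsV, hprod]
    have hvs := hrr hv2 g
    have hgs : ∀ {ε : AlgebraicClosure K}, (s⁻¹ * g * s) w = ε →
        g (s w) = s ε := by
      intro ε hε
      rw [← hε, ← AlgEquiv.mul_apply, ← AlgEquiv.mul_apply]
      congr 1
      group
    have hv0 : w * s w ≠ 0 := by
      refine mul_ne_zero hw0 ?_
      rw [Ne, EmbeddingLike.map_eq_zero_iff]
      exact hw0
    rcases hwV g hg with h3 | h3 <;> rcases hwV _ hgc with h4 | h4
    · rw [p1 h3, p1 h4, add_zero]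
      symm
      rw [nc_zero (hVU hg), hvs, map_mul, h3, hgs h4]
    · rw [p1 h3, p2 hgc h4, zero_add]
      symm
      apply nc_one (hVU hg)
      rw [Ne, hvs, map_mul, h3, hgs h4, map_neg, mul_neg]
      exact nc_ne hv0
    · rw [p2 hg h3, p1 h4, add_zero]
      symm
      apply nc_one (hVU hg)
      rw [Ne, hvs, map_mul, h3, hgs h4, neg_mul]
      exact nc_ne hv0
    · rw [p2 hg h3, p2 hgc h4]
      have h5 : PA.act2 U t g = 0 := by
        rw [nc_zero (hVU hg), hvs, map_mul, h3, hgs h4, map_neg, neg_mul_neg]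
      rw [h5]
      decide
  · by_cases hgU : g ∈ U
    · rw [PA.cor_apply_not V U s _ hgU hg]
      have hgg : g * g ∈ V := PA.I2.sq h2 hgU
      have hv2 : (w * g w) ^ 2 = t ^ 2 := by
        rw [mul_pow, hw, hgw2 g hgU hg, hprod]
      have hvs := hrr hv2 g
      have hv0 : w * g w ≠ 0 := by
        refine mul_ne_zero hw0 ?_
        rw [Ne, EmbeddingLike.map_eq_zero_iff]
        exact hw0
      rcases hwV _ hgg with h4 | h4
      · rw [p1 h4]
        symm
        rw [nc_zero hgU, hvs, map_mul, ← AlgEquiv.mul_apply, h4, mul_comm]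
      · rw [p2 hgg h4]
        symm
        apply nc_one hgU
        rw [Ne, hvs, map_mul, ← AlgEquiv.mul_apply, h4, mul_neg, mul_comm]
        exact nc_ne hv0
    · rw [PA.cor_apply_off hVU s _ hgU, nc_off hgU]

end Pool.Agent.Work.MP_787500_nt.HN
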