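import Mathlib
import Pool.Agent.Work.MP_787500_nt.HN.Hnt
import Pool.Agent.Work.MP_787500_nt.HN.LocNorm
import Pool.Agent.Work.MP_787500_nt.HN.NormCup
import Pool.Agent.Work.MP_787500_nt.PA.ResKer
import Pool.Agent.Work.MP_787500_nt.PA.Chain

/-!
# Module SHAFULL (size M): the local-global principle for 2-cocycles, full system

By `exists_cob` (`PA/Chain.lean`) there is a member `W ≤ U₀` with `Cob S W f` (`S = fullSys K`). Claim: `Cob S U f` for all `U` with `W ≤ U ≤ U₀`, by strong induction on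
`W.relIndex U` (see the proofs of `sha_T` in `GP/S5_Sha.lean` and `h2_zero` in `GP/C4_H2.lean`). If `U ≠ W`: `exists_between` gives `W ≤ V ≤ U`, `V.relIndex U = 2`, and
`Cob S V f` by induction. `res_cob`: `ψ ∈ homs S U` with `Cob S U (f + cup (chi V U) ψ)`. So for every prime `Q ≠ ⊥`, `cup (chi V U) ψ` is `LCob` on
`stabD Q ⊓ U` (`LCob.add`, `cobF_lCob`, `LCob.mono`). `chi V U = act2 U r`, `ψ = act2 U t` (`chi_mem`, `exists_act2F`), `a = r ^ 2`, `x = t ^ 2` units of `Fx U` (a number field,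
`fx_numberField`). `Fx U ≥ Fx U₀` is totally complex. For every place `w` of `Fx U` there is a prime `Q` of `𝓞 Ω` above it, and `locNorm` gives `x ∈ LN w a`. `hnt`: `x ∈ Nm a`.
`cob_of_norm`: the cup product is `Cob S U`, so `f` is.
-/

set_option autoImplicit false
set_option linter.unusedSectionVars false

namespace Pool.Agent.Work.MP_787500_nt.HN

open IsDedekindDomain NumberField WithZero
open Pool.Agent.Work.MP_787500_nt.PA (TwoSys Sm1 Sm2 homs Coc Cob Opn)
open Pool.Agent.Work.MP_787500_nt.GP (sysT stabD Fx GoodT inT)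

universe u

variable {K : Type u} [Field K] [NumberField K]

private theorem shaFull_congr {G : Type*} [Group G] {S : TwoSys G} {C : Subgroup G}
    {f f' : G → G → ZMod 2} (h : ∀ g k, f' g k = f g k) (hf : Cob S C f) : Cob S C f' := by
  obtain ⟨z, hz, h1⟩ := hf
  exact ⟨z, hz, fun g hg k hk => by rw [h, h1 g hg k hk]⟩

private theorem shaFull_add {G : Type*} [Group G] {S : TwoSys G} {C : Subgroup G}
    {f f' : G → G → ZMod 2} (hf : Cob S C f) (hf' : Cob S C f') :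
    Cob S C (fun g h => f g h + f' g h) := by
  obtain ⟨z, ⟨W, hW, h1⟩, h2⟩ := hf
  obtain ⟨z', ⟨W', hW', h1'⟩, h2'⟩ := hf'
  refine ⟨fun g => z g + z' g, ⟨W ⊓ W', S.inf hW hW', fun g w hw => ?_⟩, fun g hg h hh => ?_⟩
  · simp only
    rw [h1 g w hw.1, h1' g w hw.2]
  · simp only
    rw [h2 g hg h hh, h2' g hg h hh]
    ring

private theorem shaFull_above {U : Subgroup (AbsGal K)} [NumberField (Fx U)]
    (v : HeightOneSpectrum (𝓞 (Fx U))) : ∃ P : Ideal (𝓞 (AlgebraicClosure K)), P.IsPrime ∧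
      P ≠ ⊥ ∧ P.comap (algebraMap (𝓞 (Fx U)) (𝓞 (AlgebraicClosure K))) = v.asIdeal := by
  have : v.asIdeal.IsMaximal := v.isMaximal
  obtain ⟨P, hP, hPv⟩ := Ideal.exists_maximal_ideal_liesOver_of_isIntegral
    (S := 𝓞 (AlgebraicClosure K)) v.asIdeal
  refine ⟨P, hP.isPrime, ?_, hPv.over.symm⟩
  rintro rfl
  have h1 := hPv.over
  rw [Ideal.under_bot] at h1
  exact v.ne_bot h1

private theorem shaFull_step {U₀ V U : Subgroup (AbsGal K)} (hUU : U ≤ U₀)
    (hc : IsTotallyComplex (Fx U₀)) {f : AbsGal K → AbsGal K → ZMod 2}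
    (hf : Coc (fullSys K) U₀ f)
    (hl : ∀ Q : Ideal (𝓞 (AlgebraicClosure K)), Q.IsPrime → Q ≠ ⊥ → LCob (stabD Q ⊓ U₀) f)
    (hVU : V ≤ U) (hV : Opn (fullSys K) V) (hi : V.relIndex U = 2) (hcV : Cob (fullSys K) V f) :
    Cob (fullSys K) U f := by
  have hU : Opn (fullSys K) U := by
    obtain ⟨W, hW, hWV⟩ := hV
    exact ⟨W, hW, hWV.trans hVU⟩
  have hfU : Coc (fullSys K) U f :=
    ⟨hf.1, fun g hg h hh k hk => hf.2 g (hUU hg) h (hUU hh) k (hUU hk)⟩
  obtain ⟨ψ, hψ, hcψ⟩ := PA.res_cob hVU hV hi hfU hcV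
  obtain ⟨r, hr0, hrfix, hrχ⟩ := exists_act2F hU (PA.chi_mem hVU hV hi)
  obtain ⟨t, ht0, htfix, htψ⟩ := exists_act2F hU hψ
  have hNF : NumberField (Fx U) := fx_numberField (opn_isOpen hU)
  have hle : Fx U₀ ≤ Fx U := IntermediateField.fixedField_le hUU
  let _ : Algebra (Fx U₀) (Fx U) := (IntermediateField.inclusion hle).toRingHom.toAlgebra
  have htc : IsTotallyComplex (Fx U) := isTotallyComplex_of_algebra (Fx U₀) (Fx U)
  have hcup : Cob (fullSys K) U (PA.cup (PA.act2 U r) (PA.act2 U t)) := by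
    have hr2 : (⟨r ^ 2, GP.mem_Fx.2 hrfix⟩ : Fx U) ≠ 0 := fun h =>
      (pow_ne_zero 2 hr0) (congrArg (fun z : Fx U => (z : AlgebraicClosure K)) h)
    have ht2 : (⟨t ^ 2, GP.mem_Fx.2 htfix⟩ : Fx U) ≠ 0 := fun h =>
      (pow_ne_zero 2 ht0) (congrArg (fun z : Fx U => (z : AlgebraicClosure K)) h)
    refine cob_of_norm hU (a := Units.mk0 _ hr2) (x := Units.mk0 _ ht2) rfl rfl (hnt fun w => ?_)
    obtain ⟨Q, hQ, hb, hQw⟩ := shaFull_above w
    refine locNorm (opn_isOpen hU) hQ hb hQw (r := r) (t := t) rfl rfl ?_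
    have e1 := (cobF_lCob hcψ).mono (inf_le_right : stabD Q ⊓ U ≤ U)
    have e2 := (hl Q hQ hb).mono (inf_le_inf_left (stabD Q) hUU)
    refine (e1.add e2).congr fun g _ k _ => ?_
    rw [← hrχ, ← htψ]
    have : ∀ x y : ZMod 2, y = x + y + x := by decide
    exact this _ _
  refine shaFull_congr (fun g k => ?_) (shaFull_add hcψ hcup)
  rw [← hrχ, ← htψ]
  have : ∀ x y : ZMod 2, x = x + y + y := by decide
  exact this _ _

theorem sha_full {U₀ : Subgroup (AbsGal K)} (hU₀ : Opn (fullSys K) U₀)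
    (hc : IsTotallyComplex (Fx U₀)) {f : AbsGal K → AbsGal K → ZMod 2}
    (hf : Coc (fullSys K) U₀ f)
    (hl : ∀ Q : Ideal (𝓞 (AlgebraicClosure K)), Q.IsPrime → Q ≠ ⊥ → LCob (stabD Q ⊓ U₀) f) :
    Cob (fullSys K) U₀ f := by
  obtain ⟨W, hW, hWU₀, hcW⟩ := PA.exists_cob hU₀ hf
  have key : ∀ n : ℕ, ∀ U : Subgroup (AbsGal K), W ≤ U → U ≤ U₀ → W.relIndex U = n →
      Cob (fullSys K) U f := by
    intro n
    induction n using Nat.strong_induction_on with
    | _ n ih =>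
      intro U hWU hUU hn
      by_cases hne : W = U
      · rw [← hne]
        exact hcW
      · obtain ⟨V, hWV, hVU, hi, hlt⟩ := PA.exists_between hW hWU hne
        exact shaFull_step hUU hc hf hl hVU ⟨W, hW, hWV⟩ hi
          (ih _ (hn ▸ hlt) V hWV (hVU.trans hUU) rfl)
  exact key _ U₀ hWU₀ le_rfl rfl

end Pool.Agent.Work.MP_787500_nt.HN
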