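import Mathlib
import Pool.Agent.Work.MP_787500_nt.HN.CDefs
import Pool.Agent.Work.MP_787500_nt.GP.N7_Inert
import Pool.Agent.Work.MP_787500_nt.GP.LT3_Gen
import Pool.Agent.Work.MP_787500_nt.H10_Gal

/-!
# Module FROBLOG (size L): the unramified quotients of a decomposition group are cyclic

`Q ≠ ⊥` a prime of `𝓞 Ω`, `Ω = AlgebraicClosure K`, `p = Q ∩ 𝓞 K`, `k = 𝓞 K / p` with `N` elements, `κ = 𝓞 Ω / Q` (a field, algebraic over `k`), `D = stabD Q`. Choose `φ ∈ D` with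
`φ • x - x ^ N ∈ Q` for all `x` (copy the construction of `exists_frob` in `GP/N7_Inert.lean`, or `frobK` in `GP/LT3_Gen.lean`, which uses
`Ideal.Quotient.stabilizerHom_surjective_of_profinite` and `FiniteField.frobeniusAlgEquivOfAlgebraic`).
For `M ≥ 1` let `ζ ∈ Ω` be a primitive root of unity of order `n = N ^ M - 1`. As `N ∈ Q` (characteristic), `n ∉ Q`, and different powers `ζ ^ a`, `ζ ^ b`, `0 ≤ a < b < n`, are
different modulo `Q` (`n = ∏ (1 - ζ ^ j)` over `1 ≤ j < n` up to the value of `1 + X + ... + X ^ (n - 1)` at 1). So the image of `ζ` in `κ` has order `n`.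
(1) For `g ∈ D` there is `i` with `g ζ = ζ ^ (N ^ i)`: `g` acts on `κ` as a `k`-automorphism `ḡ` (`g • Q = Q`; `g` fixes `𝓞 K`); `f = ∏ (i < M) (X - ζ ^ (N ^ i))` in `κ [X]` has
coefficients `c` with `c ^ N = c` (the `N`-power map permutes the factors, `ζ ^ (N ^ M) = ζ`), so the coefficients are in the image of `k` (the `N` elements of
`k` are the roots of `X ^ N - X`), `ḡ` fixes them, so `ḡ ζ` is a root of `f` (compare with `endo_pow` in `GP/LT3_Gen.lean`, the same argument with a prime instead of `N`). So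
`g ζ ≡ ζ ^ (N ^ i)` modulo `Q`, and both are `n`-th roots of unity, so they are equal. Choose such an `i g` for each `g ∈ D`, 0 for other `g`.
(2) `ζ ^ (N ^ i) = ζ ^ (N ^ j)` iff `N ^ i ≡ N ^ j` modulo `N ^ M - 1` iff `i ≡ j` modulo `M` (`N ≥ 2`). So `i (g h) ≡ i g + i h`, and `i (g w) ≡ i g` modulo `M` if `w ζ = ζ`. `U'` = the
stabilizer of `ζ`. `φ ζ = ζ ^ N`, so `(φ ^ i g)⁻¹ g` fixes `ζ` for `g ∈ D`.
(3) Let `W` be open, normal, `Q.inertia ≤ W`, `L = Fx W`, a number field; the residue field of `Q ∩ 𝓞 L` is a finite extension of `k`; let `m ≥ 1` be its degree (or: its number of elements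
is `N ^ m`). Let `m ∣ M`. Every element `x` of this residue field satisfies `x ^ (N ^ m) = x`, so `x ^ (N ^ M) = x`, so it is 0 or a power of the image of `ζ` in `κ` (which are `n`
roots of `X ^ n - 1`). So if `g ∈ D` fixes `ζ` then `g • x - x ∈ Q` for all `x ∈ 𝓞 L`, also for `g⁻¹`. `exists_inertia` (`H10_Gal.lean`, `H = W`, `σ₀ = g`; see how it is used in
`PA/FixedF.lean`) gives `h ∈ W` with `h g ∈ Q.inertia ≤ W`, so `g ∈ W`.
-/

set_option autoImplicit false
set_option linter.unusedSectionVars false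

namespace Pool.Agent.Work.MP_787500_nt.HN

open IsDedekindDomain NumberField
open Pool.Agent.Work.MP_787500_nt.GP (sysT stabD Fx GoodT inT)

universe u

variable {K : Type u} [Field K] [NumberField K]

open scoped Pointwise

/-- different roots of unity of order `n ∉ Q` are different modulo `Q` -/
private theorem FrobLog_root {B : Type*} [CommRing B] [IsDomain B] {Q : Ideal B} {n : ℕ}
    (hn0 : n ≠ 0) (hn : (n : B) ∉ Q) {ζ : B} {a b : ℕ} (hζ : ζ ^ n = 1)
    (h : ζ ^ a - ζ ^ b ∈ Q) : ζ ^ a = ζ ^ b := by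
  obtain ⟨n', rfl⟩ : ∃ n', n = n' + 1 := ⟨n - 1, by omega⟩
  have hinv : ζ ^ b * ζ ^ (n' * b) = 1 := by
    rw [← pow_add, show b + n' * b = (n' + 1) * b by ring, pow_mul, hζ, one_pow]
  by_contra hne
  obtain ⟨ω, hω⟩ : ∃ ω, ω = ζ ^ a * ζ ^ (n' * b) := ⟨_, rfl⟩
  have hω1 : ω ≠ 1 := by
    intro h3
    apply hne
    calc ζ ^ a = ζ ^ a * (ζ ^ b * ζ ^ (n' * b)) := by rw [hinv, mul_one]
      _ = (ζ ^ a * ζ ^ (n' * b)) * ζ ^ b := by ring
      _ = ζ ^ b := by rw [← hω, h3, one_mul]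
  have hωn : ω ^ (n' + 1) = 1 := by
    rw [hω, ← pow_add, ← pow_mul, mul_comm, pow_mul, hζ, one_pow]
  have h4 : ω - 1 ∈ Q := by
    have : ω - 1 = (ζ ^ a - ζ ^ b) * ζ ^ (n' * b) := by
      rw [sub_mul, hinv, hω]
    rw [this]
    exact Q.mul_mem_right _ h
  have h5 : (∑ i ∈ Finset.range (n' + 1), ω ^ i) = 0 := by
    have h6 := geom_sum_mul ω (n' + 1)
    rw [hωn, sub_self] at h6
    exact (mul_eq_zero.1 h6).resolve_right (sub_ne_zero.2 hω1)
  have h6 : (∑ i ∈ Finset.range (n' + 1), ω ^ i) - ((n' + 1 : ℕ) : B) ∈ Q := by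
    have h7 : (∑ i ∈ Finset.range (n' + 1), ω ^ i) - ((n' + 1 : ℕ) : B) =
        ∑ i ∈ Finset.range (n' + 1), (ω ^ i - 1) := by
      rw [Finset.sum_sub_distrib, Finset.sum_const, Finset.card_range, nsmul_eq_mul, mul_one]
    rw [h7]
    refine Q.sum_mem fun i _ => ?_
    have h8 := sub_dvd_pow_sub_pow ω 1 i
    rw [one_pow] at h8
    exact Ideal.mem_of_dvd Q h8 h4
  rw [h5, zero_sub] at h6
  exact hn ((Q.neg_mem_iff).1 h6)

private theorem FrobLog_fixed {k κ : Type*} [Field k] [Fintype k] [Field κ] [Algebra k κ] {c : κ}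
    (hc : c ^ Fintype.card k = c) : ∃ a : k, algebraMap k κ a = c := by
  classical
  have hq : 1 < Fintype.card k := Fintype.one_lt_card
  have hne := FiniteField.X_pow_card_sub_X_ne_zero κ hq
  let S : Finset κ := Finset.univ.image (algebraMap k κ)
  let R : Finset κ :=
    (Polynomial.X ^ Fintype.card k - Polynomial.X : Polynomial κ).roots.toFinset
  have hR : ∀ x, x ∈ R ↔ x ^ Fintype.card k = x := by
    intro x
    rw [Multiset.mem_toFinset, Polynomial.mem_roots hne, Polynomial.IsRoot.def,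
      Polynomial.eval_sub, Polynomial.eval_pow, Polynomial.eval_X, sub_eq_zero]
  have hSR : S ⊆ R := by
    intro x hx
    obtain ⟨a, -, rfl⟩ := Finset.mem_image.1 hx
    rw [hR, ← map_pow, FiniteField.pow_card]
  have hcard : R.card ≤ S.card := by
    rw [Finset.card_image_of_injective _ (algebraMap k κ).injective, Finset.card_univ]
    exact (Multiset.toFinset_card_le _).trans ((Polynomial.card_roots' _).trans
      (FiniteField.X_pow_card_sub_X_natDegree_eq κ hq).le)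
  have h0 := Finset.eq_of_subset_of_card_le hSR hcard
  have h1 : c ∈ S := by
    rw [h0, hR]
    exact hc
  obtain ⟨a, -, ha⟩ := Finset.mem_image.1 h1
  exact ⟨a, ha⟩

private theorem FrobLog_endo {k κ : Type*} [Field k] [Fintype k] [Field κ] [Algebra k κ]
    (φ : κ →+* κ) (hφ : ∀ a : k, φ (algebraMap k κ a) = algebraMap k κ a) {z : κ} {d : ℕ}
    (hd : d ≠ 0) (hz : z ^ Fintype.card k ^ d = z) : ∃ j : ℕ, φ z = z ^ Fintype.card k ^ j := by
  classical
  obtain ⟨q, hq⟩ : ∃ q, q = Fintype.card k := ⟨_, rfl⟩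
  let ψ : κ →+* κ := (FiniteField.frobeniusAlgHom k κ : κ →ₐ[k] κ).toRingHom
  have hψ : ∀ x, ψ x = x ^ q := fun x => by rw [hq]; rfl
  rw [← hq] at hz ⊢
  let f : Polynomial κ := ∏ j ∈ Finset.range d, (Polynomial.X - Polynomial.C (z ^ q ^ j))
  have hfr : f.map ψ = f := by
    have e1 : f.map ψ =
        ∏ j ∈ Finset.range d, (Polynomial.X - Polynomial.C (z ^ q ^ (j + 1))) := by
      rw [Polynomial.map_prod]
      refine Finset.prod_congr rfl fun j _ => ?_
      rw [Polynomial.map_sub, Polynomial.map_X, Polynomial.map_C, hψ, ← pow_mul,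
        ← pow_succ]
    have e2 : (∏ j ∈ Finset.range d, (Polynomial.X - Polynomial.C (z ^ q ^ (j + 1)))) *
        (Polynomial.X - Polynomial.C (z ^ q ^ 0)) = f * (Polynomial.X - Polynomial.C (z ^ q ^ d)) := by
      rw [← Finset.prod_range_succ' (fun j => Polynomial.X - Polynomial.C (z ^ q ^ j)) d,
        Finset.prod_range_succ]
    rw [pow_zero, pow_one, hz] at e2
    rw [e1]
    exact mul_right_cancel₀ (Polynomial.X_sub_C_ne_zero z) e2
  have hcoef : ∀ i, φ (f.coeff i) = f.coeff i := by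
    intro i
    have h1 : (f.coeff i) ^ q = f.coeff i := by
      have := congrArg (fun g : Polynomial κ => g.coeff i) hfr
      simp only [Polynomial.coeff_map, hψ] at this
      exact this
    obtain ⟨a, ha⟩ := FrobLog_fixed (k := k) (by rw [← hq]; exact h1)
    rw [← ha, hφ]
  have hmap : f.map φ = f := by
    ext i
    rw [Polynomial.coeff_map, hcoef]
  have hroot : f.eval z = 0 := by
    rw [Polynomial.eval_prod]
    refine Finset.prod_eq_zero (Finset.mem_range.2 (Nat.pos_of_ne_zero hd)) ?_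
    rw [pow_zero, pow_one, Polynomial.eval_sub, Polynomial.eval_X, Polynomial.eval_C, sub_self]
  have h4 : f.eval (φ z) = 0 := by
    have : (f.map φ).eval (φ z) = φ (f.eval z) := by
      rw [Polynomial.eval_map, Polynomial.eval₂_hom]
    rw [hmap, hroot, map_zero] at this
    exact this
  rw [Polynomial.eval_prod, Finset.prod_eq_zero_iff] at h4
  obtain ⟨j, -, hj⟩ := h4
  rw [Polynomial.eval_sub, Polynomial.eval_X, Polynomial.eval_C] at hj
  exact ⟨j, sub_eq_zero.1 hj⟩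

/-- powers of `N` modulo `N ^ M - 1` -/
private theorem FrobLog_mod {N M n i j : ℕ} (hN : 1 < N) (hM : M ≠ 0) (hn : n + 1 = N ^ M)
    (h : N ^ i ≡ N ^ j [MOD n]) : i ≡ j [MOD M] := by
  have hone : N ^ M ≡ 1 [MOD n] := by
    rw [← hn]
    show (n + 1) % n = 1 % n
    rw [Nat.add_mod_left]
  have hred : ∀ i : ℕ, N ^ i ≡ N ^ (i % M) [MOD n] := by
    intro i
    have e1 : N ^ i = (N ^ M) ^ (i / M) * N ^ (i % M) := by
      rw [← pow_mul, ← pow_add, Nat.div_add_mod]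
    rw [e1]
    have := (hone.pow (i / M)).mul_right (N ^ (i % M))
    rwa [one_pow, one_mul] at this
  by_cases hM1 : M = 1
  · subst hM1
    exact Nat.modEq_one
  have hMpos : 0 < M := Nat.pos_of_ne_zero hM
  have hlt : ∀ i : ℕ, N ^ (i % M) < n := by
    intro i
    have h1 : i % M ≤ M - 1 := by
      have := Nat.mod_lt i hMpos
      omega
    have h2 : N ^ (i % M) ≤ N ^ (M - 1) := Nat.pow_le_pow_right (by omega) h1
    obtain ⟨M', rfl⟩ : ∃ M', M = M' + 2 := ⟨M - 2, by omega⟩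
    have h3 : N ^ (M' + 2) = N ^ (M' + 1) * N := pow_succ _ _
    have h4 : N ^ (M' + 1) = N ^ M' * N := pow_succ _ _
    have h5 : 1 ≤ N ^ M' := Nat.one_le_pow _ _ (by omega)
    have h6 : 2 ≤ N ^ (M' + 1) := by
      rw [h4]
      nlinarith
    have h7 : M' + 2 - 1 = M' + 1 := by omega
    rw [h7] at h2
    have h8 : N ^ (M' + 1) * 2 ≤ N ^ (M' + 2) := by
      rw [h3]
      exact Nat.mul_le_mul_left _ hN
    omega
  have h1 : N ^ (i % M) ≡ N ^ (j % M) [MOD n] := ((hred i).symm.trans h).trans (hred j)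
  have h2 : N ^ (i % M) = N ^ (j % M) := by
    have := h1
    unfold Nat.ModEq at this
    rwa [Nat.mod_eq_of_lt (hlt i), Nat.mod_eq_of_lt (hlt j)] at this
  exact Nat.pow_right_injective hN h2

private theorem FrobLog_stab {Q : Ideal (𝓞 (AlgebraicClosure K))} {g : AbsGal K} (h : g • Q = Q) :
    g ∈ stabD Q := by
  rw [GP.mem_stabD]
  intro x
  conv_rhs => rw [← h]
  exact Ideal.smul_mem_pointwise_smul_iff.symm

theorem frob_log {Q : Ideal (𝓞 (AlgebraicClosure K))} (hQ : Q.IsPrime) (hb : Q ≠ ⊥) :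
    ∃ φ ∈ stabD Q, ∀ W : Subgroup (AbsGal K), IsOpen (W : Set (AbsGal K)) → W.Normal →
      Q.inertia (AbsGal K) ≤ W → ∃ m : ℕ, m ≠ 0 ∧ ∀ M : ℕ, M ≠ 0 → m ∣ M →
        ∃ i : AbsGal K → ℕ, (∀ g ∈ stabD Q, ∀ h ∈ stabD Q, i (g * h) ≡ i g + i h [MOD M]) ∧
          (∃ U' : Subgroup (AbsGal K), IsOpen (U' : Set (AbsGal K)) ∧
            ∀ g ∈ stabD Q, ∀ w ∈ stabD Q ⊓ U', i (g * w) ≡ i g [MOD M]) ∧
          ∀ g ∈ stabD Q, (φ ^ i g)⁻¹ * g ∈ W := by
  classical
  let _ : TopologicalSpace (𝓞 (AlgebraicClosure K)) := ⊥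
  have : DiscreteTopology (𝓞 (AlgebraicClosure K)) := ⟨rfl⟩
  have : ContinuousSMul (AbsGal K) (𝓞 (AlgebraicClosure K)) := by
    rw [continuousSMul_iff_stabilizer_isOpen]
    intro x
    have h1 : IsOpen (MulAction.stabilizer (AbsGal K)
        (algebraMap (𝓞 (AlgebraicClosure K)) (AlgebraicClosure K) x) : Set (AbsGal K)) :=
      stabilizer_isOpen_of_isIntegral _
    convert h1 using 1
    ext σ
    simp only [SetLike.mem_coe, MulAction.mem_stabilizer_iff]
    constructor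
    · intro h
      have := congrArg (algebraMap (𝓞 (AlgebraicClosure K)) (AlgebraicClosure K)) h
      exact this
    · intro h
      apply RingOfIntegers.ext
      exact h
  have hcomm : SMulCommClass (AbsGal K) (𝓞 K) (𝓞 (AlgebraicClosure K)) := ⟨fun g a b => by
    rw [Algebra.smul_def, Algebra.smul_def, MulSemiringAction.smul_mul]
    congr 1
    apply RingOfIntegers.ext
    exact (g : AbsGal K).commutes (algebraMap (𝓞 K) K a)⟩
  have hinv : Algebra.IsInvariant (𝓞 K) (𝓞 (AlgebraicClosure K)) (AbsGal K) := ⟨fun b hb => by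
    obtain ⟨c, hc⟩ := mem_base_of_fixed (F := K) (Ω := AlgebraicClosure K)
      (x := algebraMap (𝓞 (AlgebraicClosure K)) (AlgebraicClosure K) b) (fun σ => by
        have := congrArg (algebraMap (𝓞 (AlgebraicClosure K)) (AlgebraicClosure K)) (hb σ)
        exact this)
    have hint : IsIntegral ℤ c := by
      have h1 : IsIntegral ℤ (algebraMap K (AlgebraicClosure K) c) := by
        rw [hc]
        exact RingOfIntegers.isIntegral_coe b
      exact (isIntegral_algebraMap_iff (algebraMap K (AlgebraicClosure K)).injective).1 h1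
    exact ⟨⟨c, hint⟩, RingOfIntegers.ext hc⟩⟩
  let p : Ideal (𝓞 K) := Q.under (𝓞 K)
  have hover : Q.LiesOver p := ⟨rfl⟩
  have hp : p.IsPrime := inferInstance
  have hp0 : p ≠ ⊥ := by
    intro h
    apply hb
    exact Ideal.eq_bot_of_comap_eq_bot (R := 𝓞 K) h
  have hpm : p.IsMaximal := hp.isMaximal hp0
  have hPm : Q.IsMaximal := Ideal.IsMaximal.of_liesOver_isMaximal Q p
  have hfinq : Finite (𝓞 K ⧸ p) := Ideal.finiteQuotientOfFreeOfNeBot p hp0
  let _ : Field (𝓞 K ⧸ p) := Ideal.Quotient.field p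
  let _ : Field (𝓞 (AlgebraicClosure K) ⧸ Q) := Ideal.Quotient.field Q
  let _ : Fintype (𝓞 K ⧸ p) := Fintype.ofFinite _
  have halg : Algebra.IsAlgebraic (𝓞 K ⧸ p) (𝓞 (AlgebraicClosure K) ⧸ Q) := by
    have h1 : Algebra.IsIntegral (𝓞 K ⧸ p) (𝓞 (AlgebraicClosure K) ⧸ Q) := inferInstance
    exact h1.isAlgebraic
  obtain ⟨τ, hτ⟩ := Ideal.Quotient.stabilizerHom_surjective_of_profinite (A := 𝓞 K)
    (B := 𝓞 (AlgebraicClosure K)) (G := AbsGal K) p Q
    (FiniteField.frobeniusAlgEquivOfAlgebraic (𝓞 K ⧸ p) (𝓞 (AlgebraicClosure K) ⧸ Q))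
  obtain ⟨N, hN⟩ : ∃ N, N = Fintype.card (𝓞 K ⧸ p) := ⟨_, rfl⟩
  have hfrob : ∀ x : 𝓞 (AlgebraicClosure K), (τ : AbsGal K) • x - x ^ N ∈ Q := by
    intro x
    have h6 := DFunLike.congr_fun hτ (Ideal.Quotient.mk Q x)
    rw [Ideal.Quotient.stabilizerHom_apply] at h6
    have h7 : Ideal.Quotient.mk Q ((τ : AbsGal K) • x) =
      Ideal.Quotient.mk Q x ^ Fintype.card (𝓞 K ⧸ p) := h6
    rw [← map_pow, ← hN] at h7
    exact Ideal.Quotient.eq.1 h7
  have hmem : (τ : AbsGal K) ∈ stabD Q := by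
    have hs : (τ : AbsGal K) • Q = Q := τ.2
    exact FrobLog_stab hs
  have hN1 : 1 < N := by rw [hN]; exact Fintype.one_lt_card
  have hNQ : (N : 𝓞 (AlgebraicClosure K)) ∈ Q := by
    have h1 : ((N : ℕ) : 𝓞 K ⧸ p) = 0 := by
      rw [hN]
      exact FiniteField.cast_card_eq_zero _
    rw [← map_natCast (Ideal.Quotient.mk p)] at h1
    have h2 : ((N : ℕ) : 𝓞 K) ∈ p := Ideal.Quotient.eq_zero_iff_mem.1 h1
    have h3 : algebraMap (𝓞 K) (𝓞 (AlgebraicClosure K)) N ∈ Q := h2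
    rwa [map_natCast] at h3
  refine ⟨τ, hmem, fun W hWo hWn hin => ?_⟩
  -- the residue field of the fixed field of `W`
  have hNF : NumberField (Fx W) := fx_numberField hWo
  obtain ⟨m, hm0, hres⟩ : ∃ m : ℕ, m ≠ 0 ∧ ∀ (c : ℕ) (x : 𝓞 (Fx W)),
      algebraMap (𝓞 (Fx W)) (𝓞 (AlgebraicClosure K)) x ^ N ^ (m * c) -
        algebraMap (𝓞 (Fx W)) (𝓞 (AlgebraicClosure K)) x ∈ Q := by
    let q : Ideal (𝓞 (Fx W)) := Q.under (𝓞 (Fx W))
    have hq : q.IsPrime := inferInstance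
    have hq0 : q ≠ ⊥ := by
      intro h
      apply hb
      exact Ideal.eq_bot_of_comap_eq_bot (R := 𝓞 (Fx W)) h
    have hqm : q.IsMaximal := hq.isMaximal hq0
    have hfin : Finite (𝓞 (Fx W) ⧸ q) := Ideal.finiteQuotientOfFreeOfNeBot q hq0
    let _ : Field (𝓞 (Fx W) ⧸ q) := Ideal.Quotient.field q
    let _ : Fintype (𝓞 (Fx W) ⧸ q) := Fintype.ofFinite _
    have hqp : q.LiesOver p := ⟨by
      ext x
      exact Iff.rfl⟩
    have hmf : Module.Finite (𝓞 K ⧸ p) (𝓞 (Fx W) ⧸ q) := Module.Finite.of_finite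
    have hcard := Module.card_eq_pow_finrank (K := 𝓞 K ⧸ p) (V := 𝓞 (Fx W) ⧸ q)
    refine ⟨Module.finrank (𝓞 K ⧸ p) (𝓞 (Fx W) ⧸ q), Module.finrank_pos.ne', fun c x => ?_⟩
    have h1 := FiniteField.pow_card_pow c (Ideal.Quotient.mk q x)
    rw [hcard, ← hN, ← pow_mul, ← map_pow] at h1
    have h2 := Ideal.Quotient.eq.1 h1
    have h3 : algebraMap (𝓞 (Fx W)) (𝓞 (AlgebraicClosure K))
      (x ^ N ^ (Module.finrank (𝓞 K ⧸ p) (𝓞 (Fx W) ⧸ q) * c) - x) ∈ Q := h2
    rwa [map_sub, map_pow] at h3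
  refine ⟨m, hm0, fun M hM0 hmM => ?_⟩
  obtain ⟨c, hc⟩ := hmM
  obtain ⟨n, hn⟩ : ∃ n, n + 1 = N ^ M :=
    ⟨N ^ M - 1, by have := Nat.one_le_pow M N (by omega); omega⟩
  have hn0 : n ≠ 0 := by
    rintro rfl
    have := Nat.one_lt_pow hM0 hN1
    omega
  have hnQ : (n : 𝓞 (AlgebraicClosure K)) ∉ Q := by
    intro h
    have h1 : ((n + 1 : ℕ) : 𝓞 (AlgebraicClosure K)) ∈ Q := by
      rw [hn, Nat.cast_pow]
      exact Ideal.pow_mem_of_mem Q hNQ M (Nat.pos_of_ne_zero hM0)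
    rw [Nat.cast_add, Nat.cast_one] at h1
    exact hQ.ne_top ((Ideal.eq_top_iff_one Q).2 ((Ideal.add_mem_iff_right Q h).1 h1))
  have hnz : NeZero n := ⟨hn0⟩
  obtain ⟨ζ, hζ⟩ : ∃ ζ : AlgebraicClosure K, IsPrimitiveRoot ζ n :=
    HasEnoughRootsOfUnity.exists_primitiveRoot _ _
  have hζi : IsIntegral ℤ ζ := hζ.isIntegral (Nat.pos_of_ne_zero hn0)
  obtain ⟨z, hz⟩ : ∃ z : 𝓞 (AlgebraicClosure K),
      algebraMap (𝓞 (AlgebraicClosure K)) (AlgebraicClosure K) z = ζ := ⟨⟨ζ, hζi⟩, rfl⟩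
  have hzpow : ∀ a : ℕ, algebraMap (𝓞 (AlgebraicClosure K)) (AlgebraicClosure K) (z ^ a) = ζ ^ a := by
    intro a
    rw [map_pow, hz]
  have hzn : z ^ n = 1 := by
    apply RingOfIntegers.ext
    show algebraMap (𝓞 (AlgebraicClosure K)) (AlgebraicClosure K) (z ^ n) =
      algebraMap (𝓞 (AlgebraicClosure K)) (AlgebraicClosure K) 1
    rw [hzpow, hζ.pow_eq_one, map_one]
  have hgz : ∀ (g : AbsGal K) (a : ℕ), g • z = z ^ a ↔ g ζ = ζ ^ a := by
    intro g a
    rw [← hzpow a, ← hz]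
    constructor
    · intro h
      rw [← h]
      rfl
    · intro h
      apply RingOfIntegers.ext
      exact h
  have hpow : ∀ g : AbsGal K, ∃ a : ℕ, g • z = z ^ a := by
    intro g
    obtain ⟨a, -, ha⟩ := hζ.eq_pow_of_pow_eq_one (ξ := g ζ)
      (by rw [← map_pow, hζ.pow_eq_one, map_one])
    exact ⟨a, (hgz g a).2 ha.symm⟩
  -- (1)
  have hlog : ∀ g ∈ stabD Q, ∃ i : ℕ, g ζ = ζ ^ N ^ i := by
    intro g hg
    let C : 𝓞 (AlgebraicClosure K) ≃+* 𝓞 (AlgebraicClosure K) :=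
      MulSemiringAction.toRingEquiv (AbsGal K) (𝓞 (AlgebraicClosure K)) g
    have hC : ∀ x, (C : 𝓞 (AlgebraicClosure K) →+* 𝓞 (AlgebraicClosure K)) x = g • x :=
      fun x => rfl
    let φ : 𝓞 (AlgebraicClosure K) ⧸ Q →+* 𝓞 (AlgebraicClosure K) ⧸ Q :=
      Ideal.quotientMap Q (C : 𝓞 (AlgebraicClosure K) →+* 𝓞 (AlgebraicClosure K))
        (fun x hx => by rw [Ideal.mem_comap, hC]; exact (GP.mem_stabD.1 hg x).1 hx)
    have hφ : ∀ x, φ (Ideal.Quotient.mk Q x) = Ideal.Quotient.mk Q (g • x) := fun x => rfl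
    obtain ⟨j, hj⟩ := FrobLog_endo (k := 𝓞 K ⧸ p) φ (fun a => by
        obtain ⟨a, rfl⟩ := Ideal.Quotient.mk_surjective a
        have e1 : algebraMap (𝓞 K ⧸ p) (𝓞 (AlgebraicClosure K) ⧸ Q) (Ideal.Quotient.mk p a) =
            Ideal.Quotient.mk Q (algebraMap (𝓞 K) (𝓞 (AlgebraicClosure K)) a) := rfl
        rw [e1, hφ]
        congr 1
        apply RingOfIntegers.ext
        exact g.commutes (algebraMap (𝓞 K) K a)) (z := Ideal.Quotient.mk Q z) hM0
      (by rw [← hN, ← map_pow, ← hn, pow_succ, hzn, one_mul])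
    rw [← hN, hφ, ← map_pow] at hj
    have h3 := Ideal.Quotient.eq.1 hj
    obtain ⟨a, ha⟩ := hpow g
    rw [ha] at h3
    have h4 := FrobLog_root hn0 hnQ hzn h3
    exact ⟨j, (hgz g _).1 (ha.trans h4)⟩
  obtain ⟨i, hi⟩ : ∃ i : AbsGal K → ℕ, ∀ g ∈ stabD Q, g ζ = ζ ^ N ^ i g := by
    refine ⟨fun g => if h : g ∈ stabD Q then (hlog g h).choose else 0, fun g hg => ?_⟩
    simp only [dif_pos hg]
    exact (hlog g hg).choose_spec
  -- (2)
  have hinj : ∀ a b : ℕ, ζ ^ N ^ a = ζ ^ N ^ b → a ≡ b [MOD M] := by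
    intro a b hab
    apply FrobLog_mod hN1 hM0 hn
    have hr : ∀ A : ℕ, ζ ^ A = ζ ^ (A % n) := fun A => by
      conv_lhs => rw [← Nat.mod_add_div A n, pow_add, pow_mul, hζ.pow_eq_one, one_pow, mul_one]
    rw [hr (N ^ a), hr (N ^ b)] at hab
    exact hζ.pow_inj (Nat.mod_lt _ (Nat.pos_of_ne_zero hn0)) (Nat.mod_lt _ (Nat.pos_of_ne_zero hn0))
      hab
  have hτζ : (τ : AbsGal K) ζ = ζ ^ N := by
    obtain ⟨a, ha⟩ := hpow (τ : AbsGal K)
    have h1 := hfrob z
    rw [ha] at h1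
    exact (hgz _ _).1 (ha.trans (FrobLog_root hn0 hnQ hzn h1))
  have hτk : ∀ k : ℕ, ((τ : AbsGal K) ^ k) ζ = ζ ^ N ^ k := by
    intro k
    induction k with
    | zero => rw [pow_zero, pow_zero, pow_one]; rfl
    | succ k ih =>
      rw [pow_succ, AlgEquiv.mul_apply, hτζ, map_pow, ih, ← pow_mul, ← pow_succ]
  -- (3)
  have hfixres : ∀ g ∈ stabD Q, g ζ = ζ → ∀ x : 𝓞 (Fx W),
      g • (algebraMap (𝓞 (Fx W)) (𝓞 (AlgebraicClosure K)) x) -
        algebraMap (𝓞 (Fx W)) (𝓞 (AlgebraicClosure K)) x ∈ Q := by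
    intro g hg hgζ x
    have hgz1 : g • z = z := by
      have := (hgz g 1).2 (by rw [pow_one]; exact hgζ)
      rwa [pow_one] at this
    obtain ⟨X, hX⟩ : ∃ X, X = algebraMap (𝓞 (Fx W)) (𝓞 (AlgebraicClosure K)) x := ⟨_, rfl⟩
    have hx := hres c x
    rw [← hc, ← hX] at hx
    rw [← hX]
    by_cases hXQ : X ∈ Q
    · exact Q.sub_mem ((GP.mem_stabD.1 hg X).1 hXQ) hXQ
    · have hprim : IsPrimitiveRoot (Ideal.Quotient.mk Q z) n := by
        refine ⟨by rw [← map_pow, hzn, map_one], fun l hl => ?_⟩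
        have h1 : z ^ l - z ^ 0 ∈ Q := by
          rw [pow_zero]
          apply Ideal.Quotient.eq.1
          rw [map_pow, hl, map_one]
        have h2 := FrobLog_root hn0 hnQ hzn h1
        apply hζ.dvd_of_pow_eq_one
        rw [← hzpow, h2, pow_zero, map_one]
      have hX1 : Ideal.Quotient.mk Q X ^ n = 1 := by
        have h1 : Ideal.Quotient.mk Q (X ^ N ^ M) = Ideal.Quotient.mk Q X := Ideal.Quotient.eq.2 hx
        rw [← hn, map_pow, pow_succ] at h1
        have h2 : Ideal.Quotient.mk Q X ≠ 0 := fun h => hXQ (Ideal.Quotient.eq_zero_iff_mem.1 h)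
        have h3 : (Ideal.Quotient.mk Q X ^ n) * Ideal.Quotient.mk Q X = 1 * Ideal.Quotient.mk Q X := by
          rw [h1, one_mul]
        exact mul_right_cancel₀ h2 h3
      obtain ⟨a, -, ha⟩ := hprim.eq_pow_of_pow_eq_one hX1
      rw [← map_pow] at ha
      have h4 : z ^ a - X ∈ Q := Ideal.Quotient.eq.1 ha
      have h5 : g • (z ^ a - X) ∈ Q := (GP.mem_stabD.1 hg _).1 h4
      rw [smul_sub, smul_pow', hgz1] at h5
      have h6 : g • X - X = (z ^ a - X) - (z ^ a - g • X) := by ring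
      rw [h6]
      exact Q.sub_mem h4 h5
  have hWcl : IsClosed (W : Set (AbsGal K)) := Subgroup.isClosed_of_isOpen W hWo
  have hfixW : ∀ g ∈ stabD Q, g ζ = ζ → g ∈ W := by
    intro g hg hgζ
    have hgi : g⁻¹ ζ = ζ := by
      conv_lhs => rw [← hgζ]
      rw [← AlgEquiv.mul_apply, inv_mul_cancel]
      rfl
    obtain ⟨h, hh, hin'⟩ := exists_inertia W hWcl Q g (by
      intro x hx
      have hxL : algebraMap (𝓞 (AlgebraicClosure K)) (AlgebraicClosure K) x ∈ Fx W := by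
        rw [GP.mem_Fx]
        intro f hf
        have := congrArg (algebraMap (𝓞 (AlgebraicClosure K)) (AlgebraicClosure K)) (hx f hf)
        exact this
      have hint : IsIntegral ℤ (⟨_, hxL⟩ : Fx W) := by
        have h1 : IsIntegral ℤ (algebraMap (Fx W) (AlgebraicClosure K) ⟨_, hxL⟩) :=
          RingOfIntegers.isIntegral_coe x
        exact (isIntegral_algebraMap_iff (algebraMap (Fx W) (AlgebraicClosure K)).injective).1 h1
      have h2 := hfixres g⁻¹ ((stabD Q).inv_mem hg) hgi ⟨⟨_, hxL⟩, hint⟩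
      have h3 : algebraMap (𝓞 (Fx W)) (𝓞 (AlgebraicClosure K)) ⟨⟨_, hxL⟩, hint⟩ = x :=
        RingOfIntegers.ext rfl
      rwa [h3] at h2)
    have h4 : h * g ∈ W := hin hin'
    have := W.mul_mem (W.inv_mem hh) h4
    rwa [inv_mul_cancel_left] at this
  refine ⟨i, fun g hg h hh => ?_, ⟨MulAction.stabilizer (AbsGal K) ζ,
    stabilizer_isOpen_of_isIntegral ζ, fun g hg w hw => ?_⟩, fun g hg => ?_⟩
  · apply hinj
    rw [← hi (g * h) ((stabD Q).mul_mem hg hh), AlgEquiv.mul_apply, hi h hh, map_pow, hi g hg,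
      ← pow_mul, ← pow_add]
  · apply hinj
    have hw2 : w ζ = ζ := hw.2
    rw [← hi (g * w) ((stabD Q).mul_mem hg hw.1), AlgEquiv.mul_apply, hw2, hi g hg]
  · apply hfixW
    · exact (stabD Q).mul_mem ((stabD Q).inv_mem ((stabD Q).pow_mem hmem _)) hg
    · rw [AlgEquiv.mul_apply, hi g hg, ← hτk (i g), ← AlgEquiv.mul_apply, inv_mul_cancel]
      rfl

end Pool.Agent.Work.MP_787500_nt.HN
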