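import Mathlib
import Pool.Agent.Work.MP_787500_nt.HN.FrobLog

/-!
# Module UNRLOC (size M): unramified 2-cocycles are locally trivial

`D = stabD Q`, `φ`, `m` from `frob_log` for `W`. As `W` has finite index (open in a compact group) there is `n ≥ 1` with `φ ^ n ∈ W`. Let `M = 2 * n * m`, `i` as in
`frob_log`. For natural numbers `a`, `b` put `F a b = f (φ ^ a) (φ ^ b)`: `F (a + n) b = F a b = F a (b + n)` (`W` is normal, `f` is invariant under `W` on
both sides: `φ ^ (a + n) = φ ^ a φ ^ n`), and `F a b + F (a + b) c = F b c + F a (b + c)`. For `g, h ∈ D`: `f g h = F (i g) (i h)`.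
Let `c b = ∑ j < b, F j 1`. From the cocycle identity at `(a, b, 1)`, by induction on `b`: `F a b + F a 0 = c b + c a + c (a + b)`, and `F a 0 = F 0 0`
(identity at `(a, 0, 0)`). `c (b + n) = c b + c n`, so `c (b + 2 n) = c b`, so `c` is periodic modulo `M`. Let `z g = c (i g) + F 0 0`. Then
`f g h = z g + z h + z (g h)` as `i (g h) ≡ i g + i h` modulo `M`, and `z (g w) = z g` for `w ∈ D ⊓ U'`.
-/

set_option autoImplicit false
set_option linter.unusedSectionVars false

namespace Pool.Agent.Work.MP_787500_nt.HN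

open IsDedekindDomain NumberField
open Pool.Agent.Work.MP_787500_nt.GP (sysT stabD Fx GoodT inT)

universe u

variable {K : Type u} [Field K] [NumberField K]

private theorem unrLoc_cyc {F : ℕ → ℕ → ZMod 2} {n : ℕ}
    (hcoc : ∀ a b c, F a b + F (a + b) c = F b c + F a (b + c))
    (hn : ∀ a b, F (a + n) b = F a b) :
    ∃ c : ℕ → ZMod 2, (∀ a b, F a b = c a + c b + c (a + b)) ∧ ∀ a, c (a + 2 * n) = c a := by
  have hadd : ∀ x : ZMod 2, x + x = 0 := by decide
  let d : ℕ → ZMod 2 := fun b => ∑ j ∈ Finset.range b, F j 1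
  have hd1 : ∀ b, d (b + 1) = d b + F b 1 := fun b => Finset.sum_range_succ _ _
  have h0 : ∀ a, F a 0 = F 0 0 := by
    intro a
    have := hcoc a 0 0
    rw [add_zero, add_zero] at this
    rw [hadd] at this
    have h2 : ∀ x y : ZMod 2, 0 = x + y → y = x := by decide
    exact h2 _ _ this
  have h1 : ∀ a b, F a b = F 0 0 + d b + d a + d (a + b) := by
    intro a b
    induction b with
    | zero =>
      rw [h0, add_zero]
      have h2 : d 0 = 0 := Finset.sum_range_zero _
      rw [h2]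
      have : ∀ x y : ZMod 2, x = x + 0 + y + y := by decide
      exact this _ _
    | succ b ih =>
      have h2 := hcoc a b 1
      rw [ih] at h2
      rw [hd1, ← add_assoc a b 1, hd1]
      have : ∀ x y z w u v s : ZMod 2, x + y + z + w + u = v + s → s = x + (y + v) + z + (w + u) := by
        decide
      exact this _ _ _ _ _ _ _ h2
  have h2 : ∀ a, d (a + n) = d a + d n := by
    intro a
    induction a with
    | zero =>
      have h2 : d 0 = 0 := Finset.sum_range_zero _
      rw [h2, zero_add, zero_add]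
    | succ a ih =>
      have h3 : a + 1 + n = a + n + 1 := by ring
      rw [h3, hd1, hd1, ih, hn]
      ring
  refine ⟨fun a => d a + F 0 0, fun a b => ?_, fun a => ?_⟩
  · simp only
    rw [h1 a b]
    have : ∀ x y z w : ZMod 2, x + y + z + w = z + x + (y + x) + (w + x) := by decide
    exact this _ _ _ _
  · simp only
    have h3 : a + 2 * n = a + n + n := by ring
    rw [h3, h2, h2]
    have : ∀ x y z : ZMod 2, x + y + y + z = x + z := by decide
    exact this _ _ _

theorem unr_loc {Q : Ideal (𝓞 (AlgebraicClosure K))} (hQ : Q.IsPrime) (hb : Q ≠ ⊥)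
    {W : Subgroup (AbsGal K)} (hWo : IsOpen (W : Set (AbsGal K))) (hWn : W.Normal)
    (hin : Q.inertia (AbsGal K) ≤ W) {f : AbsGal K → AbsGal K → ZMod 2}
    (hf : ∀ g h, ∀ w ∈ W, ∀ w' ∈ W, f (g * w) (h * w') = f g h)
    (hcoc : ∀ g ∈ stabD Q, ∀ h ∈ stabD Q, ∀ k ∈ stabD Q,
      f g h + f (g * h) k = f h k + f g (h * k)) : LCob (stabD Q) f := by
  obtain ⟨φ, hφ, hlog⟩ := frob_log hQ hb
  obtain ⟨m, hm, hM⟩ := hlog W hWo hWn hin
  have hfin : Finite (AbsGal K ⧸ W) := Subgroup.quotient_finite_of_isOpen W hWo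
  have hfi : W.FiniteIndex := ⟨Subgroup.index_ne_zero_of_finite⟩
  obtain ⟨n, hn, hφn⟩ : ∃ n : ℕ, n ≠ 0 ∧ φ ^ n ∈ W :=
    ⟨W.index, hfi.index_ne_zero, Subgroup.pow_index_mem W φ⟩
  obtain ⟨i, hi1, ⟨U', hU', hi2⟩, hi3⟩ := hM (2 * n * m) (by positivity) (Dvd.intro_left _ rfl)
  have hpow : ∀ a : ℕ, φ ^ a ∈ stabD Q := fun a => Subgroup.pow_mem _ hφ a
  obtain ⟨c, hc, hc2⟩ := unrLoc_cyc (F := fun a b => f (φ ^ a) (φ ^ b)) (n := n) (fun a b d => by
      rw [pow_add, pow_add]
      exact hcoc _ (hpow a) _ (hpow b) _ (hpow d)) (fun a b => by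
      have := hf (φ ^ a) (φ ^ b) _ hφn 1 W.one_mem
      rw [mul_one] at this
      rw [pow_add, this])
  have hper : ∀ a b : ℕ, a ≡ b [MOD 2 * n * m] → c a = c b := by
    have h1 : ∀ k a : ℕ, c (a + 2 * n * k) = c a := by
      intro k
      induction k with
      | zero => intro a; rw [mul_zero, add_zero]
      | succ k ih =>
        intro a
        have h2 : a + 2 * n * (k + 1) = a + 2 * n * k + 2 * n := by ring
        rw [h2, hc2, ih]
    have h2 : ∀ a b : ℕ, a ≤ b → a ≡ b [MOD 2 * n * m] → c a = c b := by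
      intro a b hab h
      obtain ⟨k, hk⟩ := (Nat.modEq_iff_dvd' hab).1 h
      have h3 : b = a + 2 * n * (m * k) := by
        rw [← mul_assoc, ← hk]
        omega
      rw [h3, h1]
    intro a b h
    rcases le_total a b with hab | hab
    · exact h2 a b hab h
    · exact (h2 b a hab h.symm).symm
  have hW : ∀ g ∈ stabD Q, ∀ h ∈ stabD Q, f g h = f (φ ^ i g) (φ ^ i h) := by
    intro g hg h hh
    have h1 := hf (φ ^ i g) (φ ^ i h) _ (hi3 g hg) _ (hi3 h hh)
    rw [mul_inv_cancel_left, mul_inv_cancel_left] at h1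
    exact h1
  refine ⟨fun g => c (i g), ⟨U', hU', fun g hg w hw => hper _ _ (hi2 g hg w hw)⟩,
    fun g hg h hh => ?_⟩
  show f g h = c (i g) + c (i h) + c (i (g * h))
  rw [hW g hg h hh, hper _ _ (hi1 g hg h hh)]
  exact hc (i g) (i h)

end Pool.Agent.Work.MP_787500_nt.HN
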