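import Mathlib
import Pool.Agent.Work.MP_787500_nt.HN.ShaFull
import Pool.Agent.Work.MP_787500_nt.HN.UnrLoc
import Pool.Agent.Work.MP_787500_nt.HN.Repair

/-!
# Module SHAT (size S): the local-global principle for the system of T

`coc_full`; `sha_full` with `U₀ = ⊤` (`Fx ⊤` is the image of `K`, totally complex). For a prime `Q ≠ ⊥`: if it contains 2 or an `l ∈ T` this is `hl`; otherwise `Q.inertia` is
contained in the member `W` (`GoodT K T W`) under which `f` is invariant, `unr_loc`. Then `repair`.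
-/

set_option autoImplicit false
set_option linter.unusedSectionVars false

namespace Pool.Agent.Work.MP_787500_nt.HN

open IsDedekindDomain NumberField
open Pool.Agent.Work.MP_787500_nt.PA (TwoSys Sm1 Sm2 homs Coc Cob Opn)
open Pool.Agent.Work.MP_787500_nt.GP (sysT stabD Fx GoodT inT)

universe u

variable {K : Type u} [Field K] [NumberField K]

theorem sha_sysT [IsTotallyComplex K] {T : Finset ℕ} (hodd : OddT K T)
    {f : AbsGal K → AbsGal K → ZMod 2} (hf : Coc (sysT K T) ⊤ f)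
    (hl : ∀ Q : Ideal (𝓞 (AlgebraicClosure K)), Q.IsPrime →
      ((2 : 𝓞 (AlgebraicClosure K)) ∈ Q ∨ ∃ l ∈ T, (l : 𝓞 (AlgebraicClosure K)) ∈ Q) →
      LCob (stabD Q) f) : Cob (sysT K T) ⊤ f := by
  refine repair hodd hf (sha_full ⟨⊤, Gn.GoodG.top (baseF K), le_rfl⟩
    (isTotallyComplex_of_algebra K _) (coc_full hf) fun Q hQ hb => ?_)
  by_cases h : (2 : 𝓞 (AlgebraicClosure K)) ∈ Q ∨ ∃ l ∈ T, (l : 𝓞 (AlgebraicClosure K)) ∈ Q
  · exact (hl Q hQ h).mono inf_le_left
  · rw [not_or] at h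
    obtain ⟨⟨W, hW, hfW⟩, hcoc⟩ := hf
    have hW' : GoodT K T W := hW
    refine (unr_loc hQ hb hW'.isOpen hW'.normal (fun σ hσ => ?_) hfW
      fun g _ h _ k _ => hcoc g trivial h trivial k trivial).mono inf_le_left
    exact hW'.inertia σ ⟨Q, hQ, h.1, fun l hl hlQ => h.2 ⟨l, hl, hlQ⟩, hσ⟩

end Pool.Agent.Work.MP_787500_nt.HN
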