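import Mathlib
import Pool.Agent.Work.MP_787500_nt.HN.CDefs

/-!
# Module INERTEQ (size S-M): inert primes

`K` quadratic, `s ^ 2 = -D`, `s` is in `𝓞 K` (`s` is integral). `w` a place with `(l : 𝓞 K) ∈ w`, `l` prime, and there is no integer `A` with `l ∣ A ^ 2 + D`. `w ∣ (l)`, so `absNorm w ∣ absNorm (l) = l ^ 2`
(`Ideal.absNorm_dvd_absNorm_of_le`, `Ideal.absNorm_span_natCast`, `RingOfIntegers.rank`). If `absNorm w = l` then `𝓞 K ⧸ w` has `l` elements, so every class contains an integer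
(`ℤ → 𝓞 K ⧸ w` has image of `l` elements; characteristic `l`), `s - A ∈ w`, `A ^ 2 + D = A ^ 2 - s ^ 2 ∈ w`, and an integer in `w` is divisible by `l` (otherwise `1 ∈ w`): contradiction. `absNorm w ≠ 1`. So
`absNorm w = l ^ 2 = absNorm (l)` and `w ∣ (l)`, so `w = (l)` (`Ideal.eq_of_dvd_of_absNorm_eq` or: `(l) = w I`, `absNorm I = 1`, `I = ⊤`).
-/

set_option autoImplicit false
set_option linter.unusedSectionVars false

namespace Pool.Agent.Work.MP_787500_nt.HN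

open IsDedekindDomain NumberField WithZero

variable {K : Type*} [Field K] [NumberField K]

theorem asIdeal_of_inert (hK : Module.finrank ℚ K = 2) {D : ℕ} {s : K} (hs : s ^ 2 = -(D : K))
    {l : ℕ} (hl : l.Prime) (hA : ¬ ∃ A : ℤ, (l : ℤ) ∣ A ^ 2 + D) {w : HeightOneSpectrum (𝓞 K)}
    (hw : (l : 𝓞 K) ∈ w.asIdeal) : w.asIdeal = Ideal.span {(l : 𝓞 K)} := by
  have hint : IsIntegral ℤ s := by
    refine ⟨Polynomial.X ^ 2 + Polynomial.C (D : ℤ), Polynomial.monic_X_pow_add_C _ two_ne_zero, ?_⟩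
    rw [Polynomial.eval₂_add, Polynomial.eval₂_pow, Polynomial.eval₂_X, Polynomial.eval₂_C, hs]
    simp
  obtain ⟨s', hs'⟩ : ∃ s' : 𝓞 K, algebraMap (𝓞 K) K s' = s := ⟨⟨s, hint⟩, rfl⟩
  have hs2 : s' ^ 2 = -(D : 𝓞 K) := by
    apply FaithfulSMul.algebraMap_injective (𝓞 K) K
    rw [map_pow, map_neg, map_natCast, hs', hs]
  have hle : Ideal.span {(l : 𝓞 K)} ≤ w.asIdeal := by
    rw [Ideal.span_le, Set.singleton_subset_iff]
    exact hw
  have hnorm : Ideal.absNorm (Ideal.span {(l : 𝓞 K)}) = l ^ 2 := by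
    rw [Ideal.absNorm_span_natCast, RingOfIntegers.rank, hK]
  have h1 : Ideal.absNorm w.asIdeal ∣ l ^ 2 := by
    rw [← hnorm]
    exact Ideal.absNorm_dvd_absNorm_of_le hle
  obtain ⟨m, hm2, hm⟩ := (Nat.dvd_prime_pow hl).1 h1
  interval_cases m
  · exfalso
    rw [pow_zero, Ideal.absNorm_eq_one_iff] at hm
    exact w.isPrime.ne_top hm
  · exfalso
    apply hA
    rw [pow_one] at hm
    have hcard : Nat.card (𝓞 K ⧸ w.asIdeal) = l := hm
    have : Finite (𝓞 K ⧸ w.asIdeal) := Nat.finite_of_card_ne_zero (by rw [hcard]; exact hl.ne_zero)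
    let _ := Fintype.ofFinite (𝓞 K ⧸ w.asIdeal)
    rw [Nat.card_eq_fintype_card] at hcard
    let e := ZMod.ringEquivOfPrime (𝓞 K ⧸ w.asIdeal) hl hcard
    have : Fact l.Prime := ⟨hl⟩
    set a := e.symm (Ideal.Quotient.mk w.asIdeal s') with ha
    refine ⟨(a.val : ℤ), ?_⟩
    rw [← ZMod.intCast_zmod_eq_zero_iff_dvd]
    push_cast
    rw [ZMod.natCast_val, ZMod.cast_id', id, ha, ← map_pow, ← map_pow, hs2]
    simp
  · obtain ⟨I, hI⟩ := Ideal.dvd_iff_le.2 hle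
    have h2 : Ideal.absNorm (Ideal.span {(l : 𝓞 K)}) =
        Ideal.absNorm w.asIdeal * Ideal.absNorm I := by rw [hI, map_mul]
    rw [hnorm, hm] at h2
    have h3 : Ideal.absNorm I = 1 := by
      have h4 : 0 < l ^ 2 := pow_pos hl.pos 2
      exact Nat.eq_of_mul_eq_mul_left h4 (by rw [← h2, mul_one])
    rw [Ideal.absNorm_eq_one_iff] at h3
    rw [hI, h3, Ideal.mul_top]

end Pool.Agent.Work.MP_787500_nt.HN
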