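import Mathlib
import Pool.Agent.Work.MP_787500_nt.HN.InertEq
import Pool.Agent.Work.MP_787500_nt.HN.Weak

/-!
# Module CLASSB (size M-L): the class group of a quadratic field is generated by split primes

(1) `exists_coprime`: every ideal class `C` contains an integral ideal `I ≠ ⊥` coprime to `2 D` (that is `w ∤ I` for all places `w` with `2 D ∈ w`): let `J ≠ ⊥` be an integral ideal in the
inverse class and choose `x ∈ J` with `w x = w J` for the finitely many `w ∋ 2 D` (Chinese remainder theorem; or `exists_approx` (`Weak.lean`) for the places dividing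
`2 D` or `J`, then correct the denominator; or a Mathlib lemma on ideals: `J / (J * w)`...). `(x) = J I`.
(2) For each class choose such an `I` with `absNorm I` minimal. Then no inert prime divides `I`: if `l ∤ 2 D` is a prime number such that `-D` is not a square modulo `l` and `w ∋ l` divides `I`
then `w = (l)` (`asIdeal_of_inert`) and `I = (l) I'` with `I'` in the same class, coprime to `2 D`, of smaller norm. So for every place `w ∣ I` the prime number `l ∈ w` satisfies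
`SplitD D l`: `l ≠ 2`, `l ∤ D`, and `-D` is a square modulo `l`.
(3) `T₁` = the set of the prime numbers `l` dividing `absNorm I` for one of the finitely many chosen `I`; they satisfy `SplitD D l` (a prime `l ∣ absNorm I` is contained in a place `w ∣ I`).
Let `T ⊇ T₁` and `v` a place with `2 ∉ v`, `l ∉ v` for `l ∈ T`. If `v = (l)` for a prime number `l`: `y = l`: `v y = exp (-1)` and `w y = 1` for `w ≠ v`. In general let `I` be the chosen ideal in the
inverse of the class of `v`: `v I = (y)`. `v ∤ I` and for `w ≠ v` with `l ∉ w` for all `l ∈ T`: `w ∤ I` (all places dividing `I` contain an element of `T₁`). So `v y = exp (-1)`, not a square, and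
`w y = 1`. (The case distinction inert / not inert is not needed.)
-/

set_option autoImplicit false
set_option linter.unusedSectionVars false

namespace Pool.Agent.Work.MP_787500_nt.HN

open IsDedekindDomain NumberField WithZero

universe u

variable {K : Type u} [Field K] [NumberField K]

private theorem ClassB_prime (w : HeightOneSpectrum (𝓞 K)) : ∀ n : ℕ, n ≠ 0 →
    (n : 𝓞 K) ∈ w.asIdeal → ∃ l : ℕ, l.Prime ∧ l ∣ n ∧ (l : 𝓞 K) ∈ w.asIdeal := by
  intro n
  induction n using Nat.strong_induction_on with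
  | _ n ih =>
    intro hn h
    have h1 : n ≠ 1 := by
      rintro rfl
      rw [Nat.cast_one] at h
      exact w.isPrime.ne_top ((Ideal.eq_top_iff_one _).2 h)
    obtain ⟨m, hm⟩ := Nat.minFac_dvd n
    have hp := Nat.minFac_prime h1
    have hm0 : m ≠ 0 := by
      rintro rfl
      rw [mul_zero] at hm
      exact hn hm
    have h2 : ((n.minFac : ℕ) : 𝓞 K) * (m : 𝓞 K) ∈ w.asIdeal := by
      rw [← Nat.cast_mul, ← hm]
      exact h
    rcases w.isPrime.mem_or_mem h2 with h3 | h3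
    · exact ⟨_, hp, Nat.minFac_dvd n, h3⟩
    · have hlt : m < n := by
        have h4 := hp.two_le
        have h5 : 0 < m := Nat.pos_of_ne_zero hm0
        calc m < 2 * m := by omega
          _ ≤ n.minFac * m := Nat.mul_le_mul_right m h4
          _ = n := hm.symm
      obtain ⟨l, a, b, c⟩ := ih m hlt hm0 h3
      exact ⟨l, a, b.trans ⟨n.minFac, by rw [mul_comm]; exact hm⟩, c⟩

private theorem ClassB_cop (C : ClassGroup (𝓞 K)) {N : ℕ} (hN : N ≠ 0) :
    ∃ I : nonZeroDivisors (Ideal (𝓞 K)), ClassGroup.mk0 I = C ∧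
      (I : Ideal (𝓞 K)) ⊔ Ideal.span {(N : 𝓞 K)} = ⊤ := by
  by_cases hu : Ideal.span {(N : 𝓞 K)} = ⊤
  · obtain ⟨I, hI⟩ := ClassGroup.mk0_surjective C
    exact ⟨I, hI, by rw [hu, sup_top_eq]⟩
  obtain ⟨J, hJ⟩ := ClassGroup.mk0_surjective C⁻¹
  have hJ0 : (J : Ideal (𝓞 K)) ≠ 0 := nonZeroDivisors.coe_ne_zero J
  have hN0 : Ideal.span {(N : 𝓞 K)} ≠ 0 := by
    rw [Ideal.zero_eq_bot, Ne, Ideal.span_singleton_eq_bot, Nat.cast_eq_zero]
    exact hN
  obtain ⟨a, ha⟩ := IsDedekindDomain.exists_sup_span_eq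
    (I := (J : Ideal (𝓞 K)) * Ideal.span {(N : 𝓞 K)}) (J := (J : Ideal (𝓞 K))) Ideal.mul_le_left
    (mul_ne_zero hJ0 hN0)
  have hle : Ideal.span {a} ≤ (J : Ideal (𝓞 K)) := by
    rw [← ha]
    exact le_sup_right
  obtain ⟨I, hI⟩ := Ideal.dvd_iff_le.2 hle
  have hsup : I ⊔ Ideal.span {(N : 𝓞 K)} = ⊤ := by
    rw [hI, ← Ideal.mul_sup] at ha
    apply mul_left_cancel₀ hJ0
    rw [sup_comm, ha, Ideal.mul_top]
  have hI0 : I ≠ 0 := by
    rintro rfl
    apply hu
    rw [← hsup, Ideal.zero_eq_bot, bot_sup_eq]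
  refine ⟨⟨I, mem_nonZeroDivisors_of_ne_zero hI0⟩, ?_, hsup⟩
  have h1 : ClassGroup.mk0 (J * ⟨I, mem_nonZeroDivisors_of_ne_zero hI0⟩) = 1 := by
    have h2 : (J : Ideal (𝓞 K)) * I ∈ nonZeroDivisors (Ideal (𝓞 K)) :=
      mem_nonZeroDivisors_of_ne_zero (mul_ne_zero hJ0 hI0)
    have h3 : (J * ⟨I, mem_nonZeroDivisors_of_ne_zero hI0⟩ : nonZeroDivisors (Ideal (𝓞 K))) =
        ⟨(J : Ideal (𝓞 K)) * I, h2⟩ := rfl
    rw [h3, ClassGroup.mk0_eq_one_iff, ← hI]
    exact ⟨⟨a, rfl⟩⟩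
  rw [map_mul, hJ] at h1
  exact (inv_mul_eq_one.1 h1).symm

private theorem ClassB_min (C : ClassGroup (𝓞 K)) {N : ℕ} (hN : N ≠ 0) :
    ∃ I : nonZeroDivisors (Ideal (𝓞 K)), ClassGroup.mk0 I = C ∧
      (I : Ideal (𝓞 K)) ⊔ Ideal.span {(N : 𝓞 K)} = ⊤ ∧
      ∀ I' : nonZeroDivisors (Ideal (𝓞 K)), ClassGroup.mk0 I' = C →
        (I' : Ideal (𝓞 K)) ⊔ Ideal.span {(N : 𝓞 K)} = ⊤ →
        Ideal.absNorm (I : Ideal (𝓞 K)) ≤ Ideal.absNorm (I' : Ideal (𝓞 K)) := by
  classical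
  have hex : ∃ n : ℕ, ∃ I : nonZeroDivisors (Ideal (𝓞 K)), ClassGroup.mk0 I = C ∧
      (I : Ideal (𝓞 K)) ⊔ Ideal.span {(N : 𝓞 K)} = ⊤ ∧ Ideal.absNorm (I : Ideal (𝓞 K)) = n := by
    obtain ⟨I, h1, h2⟩ := ClassB_cop C hN
    exact ⟨_, I, h1, h2, rfl⟩
  obtain ⟨I, h1, h2, h3⟩ := Nat.find_spec hex
  refine ⟨I, h1, h2, fun I' h1' h2' => ?_⟩
  rw [h3]
  exact Nat.find_min' hex ⟨I', h1', h2', rfl⟩

private theorem ClassB_split (hK : Module.finrank ℚ K = 2) {D : ℕ} {s : K}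
    (hs : s ^ 2 = -(D : K)) {C : ClassGroup (𝓞 K)} {I : nonZeroDivisors (Ideal (𝓞 K))}
    (h1 : ClassGroup.mk0 I = C) (h2 : (I : Ideal (𝓞 K)) ⊔ Ideal.span {((2 * D : ℕ) : 𝓞 K)} = ⊤)
    (h3 : ∀ I' : nonZeroDivisors (Ideal (𝓞 K)), ClassGroup.mk0 I' = C →
        (I' : Ideal (𝓞 K)) ⊔ Ideal.span {((2 * D : ℕ) : 𝓞 K)} = ⊤ →
        Ideal.absNorm (I : Ideal (𝓞 K)) ≤ Ideal.absNorm (I' : Ideal (𝓞 K)))
    {w : HeightOneSpectrum (𝓞 K)} (hw : (I : Ideal (𝓞 K)) ≤ w.asIdeal) :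
    ∃ l : ℕ, SplitD D l ∧ l ∣ Ideal.absNorm (I : Ideal (𝓞 K)) ∧ (l : 𝓞 K) ∈ w.asIdeal := by
  have hn0 : Ideal.absNorm w.asIdeal ≠ 0 := by
    rw [Ne, Ideal.absNorm_eq_zero_iff]
    exact w.ne_bot
  obtain ⟨l, hl, hlw, hlm⟩ := ClassB_prime w _ hn0 (Ideal.absNorm_mem w.asIdeal)
  have hnd : ¬ l ∣ 2 * D := by
    intro hd
    have h4 : ((2 * D : ℕ) : 𝓞 K) ∈ w.asIdeal := by
      obtain ⟨c, hc⟩ := hd
      rw [hc, Nat.cast_mul]
      exact w.asIdeal.mul_mem_right _ hlm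
    apply w.isPrime.ne_top
    rw [eq_top_iff, ← h2, sup_le_iff]
    exact ⟨hw, (Ideal.span_singleton_le_iff_mem _).2 h4⟩
  refine ⟨l, ⟨hl, ?_, fun h => hnd (h.mul_left 2), ?_⟩,
    hlw.trans (Ideal.absNorm_dvd_absNorm_of_le hw), hlm⟩
  · rintro rfl
    exact hnd (dvd_mul_right 2 D)
  · by_contra hA
    have hwl := asIdeal_of_inert hK hs hl hA hlm
    obtain ⟨I', hI'⟩ := Ideal.dvd_iff_le.2 hw
    have hI0 : (I : Ideal (𝓞 K)) ≠ 0 := nonZeroDivisors.coe_ne_zero I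
    have hI'0 : I' ≠ 0 := by
      rintro rfl
      rw [mul_zero] at hI'
      exact hI0 hI'
    have hw0 : w.asIdeal ≠ 0 := w.ne_bot
    have h5 : I = ⟨w.asIdeal, mem_nonZeroDivisors_of_ne_zero hw0⟩ *
        ⟨I', mem_nonZeroDivisors_of_ne_zero hI'0⟩ := Subtype.ext hI'
    have h6 : ClassGroup.mk0 ⟨I', mem_nonZeroDivisors_of_ne_zero hI'0⟩ = C := by
      rw [← h1, h5, map_mul]
      have h7 : ClassGroup.mk0 (⟨w.asIdeal, mem_nonZeroDivisors_of_ne_zero hw0⟩ :
          nonZeroDivisors (Ideal (𝓞 K))) = 1 := by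
        rw [ClassGroup.mk0_eq_one_iff, hwl]
        exact ⟨⟨_, rfl⟩⟩
      rw [h7, one_mul]
    have h8 : I' ⊔ Ideal.span {((2 * D : ℕ) : 𝓞 K)} = ⊤ := by
      rw [eq_top_iff, ← h2]
      refine sup_le_sup_right ?_ _
      rw [hI']
      exact Ideal.mul_le_right
    have h9 := h3 _ h6 h8
    have h10 : Ideal.absNorm (I : Ideal (𝓞 K)) = l ^ 2 * Ideal.absNorm I' := by
      rw [hI', map_mul, hwl, Ideal.absNorm_span_natCast, RingOfIntegers.rank, hK]
    have h11 : 0 < Ideal.absNorm I' := by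
      rw [Nat.pos_iff_ne_zero, Ne, Ideal.absNorm_eq_zero_iff]
      exact hI'0
    rw [h10] at h9
    have h12 : l ^ 2 * Ideal.absNorm I' ≤ 1 * Ideal.absNorm I' := by
      rw [one_mul]
      exact h9
    have h13 : l ^ 2 ≤ 1 := Nat.le_of_mul_le_mul_right h12 h11
    have h14 := hl.two_le
    nlinarith

theorem oddT_exists (hK : Module.finrank ℚ K = 2) {D : ℕ} (hD : D ≠ 0) {s : K}
    (hs : s ^ 2 = -(D : K)) :
    ∃ T₁ : Finset ℕ, (∀ l ∈ T₁, SplitD D l) ∧ ∀ T : Finset ℕ, T₁ ⊆ T → OddT K T := by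
  classical
  have hN : 2 * D ≠ 0 := mul_ne_zero two_ne_zero hD
  choose I hI1 hI2 hI3 using fun C : ClassGroup (𝓞 K) => ClassB_min C hN
  refine ⟨(Finset.univ : Finset (ClassGroup (𝓞 K))).biUnion fun C =>
    (Ideal.absNorm (I C : Ideal (𝓞 K))).primeFactors.filter fun l => SplitD D l, ?_, ?_⟩
  · intro l hl
    rw [Finset.mem_biUnion] at hl
    obtain ⟨C, -, hC⟩ := hl
    exact (Finset.mem_filter.1 hC).2
  · intro T hT v h2v hlv
    have hv0 : v.asIdeal ≠ 0 := v.ne_bot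
    set v0 : nonZeroDivisors (Ideal (𝓞 K)) := ⟨v.asIdeal, mem_nonZeroDivisors_of_ne_zero hv0⟩
      with hv0'
    set C : ClassGroup (𝓞 K) := (ClassGroup.mk0 v0)⁻¹ with hC
    have hI0 : (I C : Ideal (𝓞 K)) ≠ 0 := nonZeroDivisors.coe_ne_zero _
    have hprinc : ((v0 * I C : nonZeroDivisors (Ideal (𝓞 K))) : Ideal (𝓞 K)).IsPrincipal := by
      rw [← ClassGroup.mk0_eq_one_iff (v0 * I C).2]
      show ClassGroup.mk0 (v0 * I C) = 1
      rw [map_mul, hI1, hC, mul_inv_cancel]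
    obtain ⟨y, hy⟩ := hprinc.principal
    have hy' : v.asIdeal * (I C : Ideal (𝓞 K)) = Ideal.span {y} := hy
    have hy0 : y ≠ 0 := by
      rintro rfl
      rw [Ideal.span_singleton_zero] at hy'
      exact mul_ne_zero hv0 hI0 hy'
    have hnot : ∀ w : HeightOneSpectrum (𝓞 K), (∀ l ∈ T, (l : 𝓞 K) ∉ w.asIdeal) →
        ¬ (I C : Ideal (𝓞 K)) ≤ w.asIdeal := by
      intro w hw hle
      obtain ⟨l, h1, h2, h3⟩ := ClassB_split hK hs (hI1 C) (hI2 C) (hI3 C) hle
      refine hw l (hT ?_) h3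
      rw [Finset.mem_biUnion]
      refine ⟨C, Finset.mem_univ _, Finset.mem_filter.2 ⟨?_, h1⟩⟩
      rw [Nat.mem_primeFactors]
      refine ⟨h1.1, h2, ?_⟩
      rw [Ne, Ideal.absNorm_eq_zero_iff]
      exact hI0
    refine ⟨algebraMap (𝓞 K) K y, ?_, ?_, ?_⟩
    · intro h0
      exact hy0 ((FaithfulSMul.algebraMap_injective (𝓞 K) K) (by rw [h0, map_zero]))
    · rw [HeightOneSpectrum.valuation_of_algebraMap]
      have h1 : v.intValuation y ≤ exp (-((1 : ℕ) : ℤ)) := by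
        rw [HeightOneSpectrum.intValuation_le_pow_iff_dvd, pow_one, ← hy']
        exact dvd_mul_right _ _
      have h2 : ¬ v.intValuation y ≤ exp (-((2 : ℕ) : ℤ)) := by
        rw [HeightOneSpectrum.intValuation_le_pow_iff_dvd, pow_two, ← hy']
        intro hd
        exact hnot v hlv (Ideal.dvd_iff_le.1 ((mul_dvd_mul_iff_left hv0).1 hd))
      have h3 : v.intValuation y ≠ 0 := v.intValuation_ne_zero y hy0
      obtain ⟨m, hm⟩ : ∃ m : ℤ, v.intValuation y = exp m := ⟨_, (exp_log h3).symm⟩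
      rw [hm, exp_le_exp] at h1 h2
      have hm1 : m = -1 := by
        push_cast at h1 h2
        omega
      rw [hm, hm1]
      rintro ⟨r, hr⟩
      have hr0 : r ≠ 0 := by
        rintro rfl
        rw [mul_zero] at hr
        exact exp_ne_zero hr
      obtain ⟨n, rfl⟩ : ∃ n : ℤ, r = exp n := ⟨_, (exp_log hr0).symm⟩
      rw [← exp_add, exp_inj] at hr
      omega
    · intro w hne _ hlw
      have h1 : w.valuation K (algebraMap (𝓞 K) K y) = 1 := by
        refine le_antisymm (w.valuation_le_one y) (not_lt.1 fun hlt => ?_)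
        rw [HeightOneSpectrum.valuation_lt_one_iff_mem] at hlt
        have h2 : v.asIdeal * (I C : Ideal (𝓞 K)) ≤ w.asIdeal := by
          rw [hy', Ideal.span_singleton_le_iff_mem]
          exact hlt
        rcases (Ideal.IsPrime.mul_le w.isPrime).1 h2 with h3 | h3
        · exact hne (HeightOneSpectrum.ext (v.isMaximal.eq_of_le w.isPrime.ne_top h3).symm)
        · exact hnot w hlw h3
      rw [h1]
      exact ⟨1, (one_mul 1).symm⟩

end Pool.Agent.Work.MP_787500_nt.HN
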