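import Mathlib
import Pool.Agent.Work.MP_787500_nt.HN.QuadEx
import Pool.Agent.Work.MP_787500_nt.HN.Places
import Pool.Agent.Work.MP_787500_nt.GP.N3_Quad

/-!
# Module EVENRAT (size M-L): elements of an imaginary quadratic field with even valuations

`K = ℚ (s)`, `s ^ 2 = -D` (`1, s` is a basis: `s ∉ ℚ` as its square is negative), `σ s = -s` the nontrivial automorphism (a `QExt ℚ K (-D)`; build `σ` with `AlgEquiv` from
the basis or from `AdjoinRoot`, or take `σ ≠ 1` in `K ≃ₐ[ℚ] K`, which has 2 elements as `K / ℚ` is Galois of degree 2). For `y = b + c s`: `N y = y * σ y = b ^ 2 + D c ^ 2 > 0` in `ℚ`.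
(1) `N y` is the square of a rational number: multiply by a square to get a natural number `n = N y * d ^ 2`. Let `p` be a prime, `n = p ^ j n'`, `p ∤ n'`, `v` a place of `K` with
`(p : 𝓞 K) ∈ v`. `v n = v p ^ j`. `v (N y) = v y * (conjPrime σ v) y` (`valuation_conjPrime`) `= α ^ 2 β ^ 2`. With `v p = exp (-e)`, `e` is 1 or 2 (`e` is the ramification index over
`p`, at most the degree 2). If `e = 1`: `exp (-j) = (α β v d) ^ 2`, so `j` is even. If `e = 2`: `v` is the only place above `p` (`sum_ramification_inertia`, or: two places above `p`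
would give `p ^ 2 ∈ v ^ 2 v' ^ 2`, norms), so `conjPrime σ v = v`, `α = β`, `exp (-2 j) = (α ^ 2 v d) ^ 2`, `exp (-j) = α ^ 2 v d`, and `v d` is a power of `exp (-2)`, so `j` is even. All
exponents of `n` are even, so `n` is a square.
(2) `N y = r ^ 2`, `r > 0` rational, `u = y / r`, `u * σ u = 1`, so `u = z / σ z` (`QExt.hilbert`) `= z ^ 2 / N z`: `y = (r / N z) z ^ 2`. Write the positive rational `r / N z` as `a * x ^ 2` with `a` a squarefree
natural number (`Nat.sq_mul_squarefree`, numerator times denominator). `y = a k ^ 2`.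
(3) Let `p` be a prime divisor of `a` (so `a = p a'`, `p ∤ a'`), `p ∤ 2 D`. For a place `v` of `K` above `p`: `v` is unramified (`quad_unram` with `F = ℚ`, `E = K`: `-D` is a unit at `p`), so
`v p = exp (-1)`, `v y = exp (-1) * (v k) ^ 2`, not a square. Contradiction. So all prime divisors of the squarefree number `a` divide `2 D`: `a ∣ 2 D`.
-/

set_option autoImplicit false
set_option linter.unusedSectionVars false

namespace Pool.Agent.Work.MP_787500_nt.HN

open IsDedekindDomain NumberField WithZero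

private theorem ER_nsq : ¬ IsSquare (WithZero.exp (-1 : ℤ)) := by
  rintro ⟨x, hx⟩
  have h0 : x ≠ 0 := by
    rintro rfl
    rw [mul_zero] at hx
    exact WithZero.exp_ne_zero hx
  rw [← WithZero.exp_log h0, ← WithZero.exp_add, WithZero.exp_inj] at hx
  omega

/-- the place of `ℚ` of a prime number -/
private theorem ER_place {p : ℕ} (hp : p.Prime) :
    ∃ w : HeightOneSpectrum (𝓞 ℚ), w.valuation ℚ (p : ℚ) = WithZero.exp (-1 : ℤ) ∧
      ∀ n : ℕ, ¬ p ∣ n → w.valuation ℚ (n : ℚ) = 1 := by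
  have hpp : Prime ((p : ℕ) : 𝓞 ℚ) := by
    have h1 : Prime ((p : ℕ) : ℤ) := Nat.prime_iff_prime_int.1 hp
    have h2 := (MulEquiv.prime_iff (Rat.ringOfIntegersEquiv.symm : ℤ ≃* 𝓞 ℚ)).2 h1
    have h3 : (Rat.ringOfIntegersEquiv.symm : ℤ ≃* 𝓞 ℚ) ((p : ℕ) : ℤ) = ((p : ℕ) : 𝓞 ℚ) := by
      show Rat.ringOfIntegersEquiv.symm ((p : ℕ) : ℤ) = _
      rw [map_natCast]
    rwa [h3] at h2
  have hp0 : ((p : ℕ) : 𝓞 ℚ) ≠ 0 := hpp.ne_zero
  obtain ⟨w, hw⟩ : ∃ w : HeightOneSpectrum (𝓞 ℚ), w.asIdeal = Ideal.span {((p : ℕ) : 𝓞 ℚ)} :=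
    ⟨⟨Ideal.span {((p : ℕ) : 𝓞 ℚ)}, (Ideal.span_singleton_prime hp0).2 hpp, by
      rw [Ne, Ideal.span_singleton_eq_bot]
      exact hp0⟩, rfl⟩
  refine ⟨w, ?_, ?_⟩
  · have h1 : (p : ℚ) = algebraMap (𝓞 ℚ) ℚ ((p : ℕ) : 𝓞 ℚ) := by
      rw [map_natCast]
    rw [h1, HeightOneSpectrum.valuation_of_algebraMap]
    exact HeightOneSpectrum.intValuation_singleton w hp0 hw
  · intro n hn
    have h1 : (n : ℚ) = algebraMap (𝓞 ℚ) ℚ ((n : ℕ) : 𝓞 ℚ) := by
      rw [map_natCast]
    refine le_antisymm ?_ (not_lt.1 (fun hlt => ?_))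
    · rw [h1]
      exact w.valuation_le_one _
    · rw [h1, HeightOneSpectrum.valuation_lt_one_iff_mem] at hlt
      have hco : Nat.Coprime p n := (Nat.Prime.coprime_iff_not_dvd hp).2 hn
      have hco2 : IsCoprime (p : ℤ) (n : ℤ) := Nat.isCoprime_iff_coprime.2 hco
      obtain ⟨u, v, huv⟩ := hco2
      apply w.isPrime.ne_top
      rw [Ideal.eq_top_iff_one]
      have h2 : (1 : 𝓞 ℚ) = (u : 𝓞 ℚ) * ((p : ℕ) : 𝓞 ℚ) + (v : 𝓞 ℚ) * ((n : ℕ) : 𝓞 ℚ) := by
        have := congrArg (fun z : ℤ => (z : 𝓞 ℚ)) huv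
        push_cast at this
        exact this.symm
      rw [h2]
      refine Ideal.add_mem _ (Ideal.mul_mem_left _ _ ?_) (Ideal.mul_mem_left _ _ hlt)
      rw [hw]
      exact Ideal.mem_span_singleton_self _

/-- a positive rational number is a squarefree number times a square -/
private theorem ER_sqfree {r : ℚ} (hr : 0 < r) :
    ∃ (a : ℕ) (x : ℚ), Squarefree a ∧ x ≠ 0 ∧ r = (a : ℚ) * x ^ 2 := by
  obtain ⟨a, b, hab, hsq⟩ := Nat.sq_mul_squarefree (r.num.toNat * r.den)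
  have hn : ((r.num.toNat : ℕ) : ℚ) = (r.num : ℚ) := by
    have h1 : (0 : ℤ) ≤ r.num := (Rat.num_pos.2 hr).le
    have h2 : ((r.num.toNat : ℕ) : ℤ) = r.num := Int.toNat_of_nonneg h1
    exact_mod_cast congrArg (fun z : ℤ => (z : ℚ)) h2
  have hd : (r.den : ℚ) ≠ 0 := by exact_mod_cast r.den_ne_zero
  have hnd : r = (r.num : ℚ) / (r.den : ℚ) := (Rat.num_div_den r).symm
  have h3 : ((b : ℚ) ^ 2 * (a : ℚ)) = (r.num : ℚ) * (r.den : ℚ) := by
    have := congrArg (fun z : ℕ => (z : ℚ)) hab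
    push_cast at this
    rw [this, hn]
  have hx : r = (a : ℚ) * ((b : ℚ) / (r.den : ℚ)) ^ 2 := by
    rw [div_pow, mul_div_assoc', mul_comm (a : ℚ), h3]
    rw [pow_two, mul_div_mul_right _ _ hd]
    exact hnd
  refine ⟨a, (b : ℚ) / (r.den : ℚ), hsq, ?_, hx⟩
  intro h0
  rw [h0] at hx
  norm_num at hx
  rw [hx] at hr
  exact lt_irrefl _ hr

private theorem ER_even {a : ℕ} (ha : Squarefree a)
    (h : ∀ w : HeightOneSpectrum (𝓞 ℚ), IsSquare (w.valuation ℚ (a : ℚ))) : a = 1 := by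
  by_contra h1
  obtain ⟨p, hp, a', rfl⟩ := Nat.exists_prime_and_dvd h1
  obtain ⟨w, hw1, hw2⟩ := ER_place hp
  have hpa : ¬ p ∣ a' := by
    rintro ⟨b, rfl⟩
    have h3 : p * p ∣ p * (p * b) := ⟨b, by ring⟩
    exact hp.one_lt.ne' (Nat.isUnit_iff.1 (ha p h3))
  have h3 := h w
  rw [Nat.cast_mul, map_mul, hw1, hw2 a' hpa, mul_one] at h3
  exact ER_nsq h3

private theorem ER_ratsq {r : ℚ} (hr : 0 < r)
    (h : ∀ w : HeightOneSpectrum (𝓞 ℚ), IsSquare (w.valuation ℚ r)) :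
    ∃ x : ℚ, 0 < x ∧ r = x ^ 2 := by
  obtain ⟨a, x, ha, hx, rfl⟩ := ER_sqfree hr
  have h1 : a = 1 := by
    apply ER_even ha
    intro w
    obtain ⟨g, hg⟩ := h w
    have hvx : w.valuation ℚ x ≠ 0 := (Valuation.ne_zero_iff _).2 hx
    rw [map_mul, map_pow] at hg
    refine ⟨g / w.valuation ℚ x, ?_⟩
    rw [div_mul_div_comm, ← hg, pow_two, mul_div_assoc, div_self (mul_ne_zero hvx hvx), mul_one]
  refine ⟨|x|, abs_pos.2 hx, ?_⟩
  rw [h1, sq_abs]
  norm_num

variable {K : Type*} [Field K] [NumberField K]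

private theorem ER_unit (D : ℕ) (hD : D ≠ 0) : -(D : ℚ) ≠ 0 := by
  rw [neg_ne_zero]
  exact_mod_cast hD

private theorem ER_qext (hK : Module.finrank ℚ K = 2) {D : ℕ} (hD : D ≠ 0) {s : K}
    (hs : s ^ 2 = -(D : K)) : ∃ q : QExt ℚ K (Units.mk0 (-(D : ℚ)) (ER_unit D hD)), q.t = s := by
  have hnr : ∀ b : ℚ, algebraMap ℚ K b ≠ s := by
    intro b hb
    have h1 : algebraMap ℚ K (b ^ 2) = algebraMap ℚ K (-(D : ℚ)) := by
      rw [map_pow, hb, hs, map_neg, map_natCast]
    have h2 : b ^ 2 = -(D : ℚ) := (algebraMap ℚ K).injective h1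
    have h3 : (0 : ℚ) < D := by
      have := Nat.pos_of_ne_zero hD
      exact_mod_cast this
    nlinarith [sq_nonneg b]
  have hli : LinearIndependent ℚ ![(1 : K), s] := by
    rw [LinearIndependent.pair_iff]
    intro a b hab
    have hb : b = 0 := by
      by_contra hb
      apply hnr (-a / b)
      have h1 : algebraMap ℚ K a + algebraMap ℚ K b * s = 0 := by
        rw [Algebra.smul_def, Algebra.smul_def, mul_one] at hab
        exact hab
      have hbK : algebraMap ℚ K b ≠ 0 := (map_ne_zero _).2 hb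
      rw [map_div₀, map_neg, div_eq_iff hbK]
      linear_combination -h1
    subst hb
    rw [zero_smul, add_zero, Algebra.smul_def, mul_one] at hab
    exact ⟨(map_eq_zero _).1 hab, rfl⟩
  have hE : ∀ x : K, ∃ b c : ℚ, x = algebraMap ℚ K b + algebraMap ℚ K c * s := by
    intro x
    have hfin : FiniteDimensional ℚ K := inferInstance
    have hsp : Submodule.span ℚ (Set.range ![(1 : K), s]) = ⊤ :=
      hli.span_eq_top_of_card_eq_finrank' (by rw [hK, Fintype.card_fin])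
    have hx : x ∈ Submodule.span ℚ (Set.range ![(1 : K), s]) := by
      rw [hsp]
      exact Submodule.mem_top
    rw [Matrix.range_cons, Matrix.range_cons, Matrix.range_empty, Set.union_empty,
      Set.singleton_union, Submodule.mem_span_pair] at hx
    obtain ⟨b, c, hbc⟩ := hx
    refine ⟨b, c, ?_⟩
    rw [← hbc, Algebra.smul_def, Algebra.smul_def, mul_one]
  have hfin : FiniteDimensional ℚ K := inferInstance
  have hq2 : Algebra.IsQuadraticExtension ℚ K := ⟨hK⟩
  have hnorm : Normal ℚ K := inferInstance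
  have hgal : IsGalois ℚ K := ⟨⟩
  have hcard : Nat.card (K ≃ₐ[ℚ] K) = 2 := by
    rw [IsGalois.card_aut_eq_finrank, hK]
  obtain ⟨σ, hσ1⟩ : ∃ σ : K ≃ₐ[ℚ] K, σ ≠ 1 := by
    by_contra hcon
    push Not at hcon
    have : Subsingleton (K ≃ₐ[ℚ] K) := ⟨fun a b => (hcon a).trans (hcon b).symm⟩
    have h1 := Finite.card_le_one_iff_subsingleton (α := K ≃ₐ[ℚ] K)
    rw [hcard] at h1
    have := h1.2 this
    omega
  have hσ : σ s = -s := by
    have h1 : (σ s - s) * (σ s + s) = 0 := by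
      have h2 : σ s ^ 2 = s ^ 2 := by
        rw [← map_pow, hs, map_neg, map_natCast]
      linear_combination h2
    rcases mul_eq_zero.1 h1 with h | h
    · exfalso
      apply hσ1
      ext x
      obtain ⟨b, c, rfl⟩ := hE x
      have h3 : σ s = s := sub_eq_zero.1 h
      rw [map_add, map_mul, AlgEquiv.commutes, AlgEquiv.commutes, h3]
      rfl
    · exact eq_neg_of_add_eq_zero_left h
  refine ⟨⟨s, ?_, hE, σ, hσ, ?_⟩, rfl⟩
  · rw [hs, Units.val_mk0, map_neg, map_natCast]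
  · intro hcon
    obtain ⟨u, hu⟩ := mem_sq.1 hcon
    have h1 : (u : ℚ) ^ 2 = -(D : ℚ) := by
      have := congrArg (fun z : ℚˣ => (z : ℚ)) hu
      simpa using this
    have h3 : (0 : ℚ) < D := by
      have := Nat.pos_of_ne_zero hD
      exact_mod_cast this
    nlinarith [sq_nonneg (u : ℚ)]

private theorem ER_ram {a : ℚˣ} (q : QExt ℚ K a) (Q : HeightOneSpectrum (𝓞 K)) {e : ℕ}
    (he : ∀ x : ℚ, (below ℚ Q).valuation ℚ x ^ e = Q.valuation K (algebraMap ℚ K x)) :
    e ∣ 2 ∧ (conjPrime (q.σ : K ≃+* K) Q ≠ Q → e ∣ 1) := by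
  have key : ∀ (z : K) (j : ℕ), Q.valuation K z = WithZero.exp (-1 : ℤ) →
      Q.valuation K (q.σ z) = WithZero.exp (-(j : ℤ)) → e ∣ 1 + j := by
    intro z j hz hj
    have hz0 : z ≠ 0 := by
      rintro rfl
      rw [map_zero] at hz
      exact WithZero.exp_ne_zero hz.symm
    obtain ⟨x, -, hx⟩ := q.exists_norm (Units.mk0 z hz0)
    have h1 := he (x : ℚ)
    rw [hx, Units.val_mk0, map_mul, hz, hj] at h1
    have hw0 : (below ℚ Q).valuation ℚ (x : ℚ) ≠ 0 := (Valuation.ne_zero_iff _).2 x.ne_zero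
    rw [← WithZero.exp_log hw0, ← WithZero.exp_nsmul, ← WithZero.exp_add, WithZero.exp_inj,
      nsmul_eq_mul] at h1
    have h2 : (e : ℤ) ∣ ((1 + j : ℕ) : ℤ) := by
      refine ⟨-WithZero.log ((below ℚ Q).valuation ℚ (x : ℚ)), ?_⟩
      push_cast
      linarith
    exact_mod_cast h2
  have hconj : ∀ z : K, Q.valuation K (q.σ z) = (conjPrime (q.σ : K ≃+* K) Q).valuation K z :=
    fun z => (valuation_conjPrime (q.σ : K ≃+* K) Q z).symm
  obtain ⟨π, hπ⟩ := Q.valuation_exists_uniformizer' K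
  by_cases hQ : conjPrime (q.σ : K ≃+* K) Q = Q
  · refine ⟨?_, fun h => absurd hQ h⟩
    refine key _ 1 hπ ?_
    rw [hconj, hQ, hπ]
    norm_num
  · suffices h : e ∣ 1 from ⟨h.trans (one_dvd _), fun _ => h⟩
    obtain ⟨Q', hQ'⟩ : ∃ Q' : HeightOneSpectrum (𝓞 K), Q' = conjPrime (q.σ : K ≃+* K) Q := ⟨_, rfl⟩
    rw [← hQ'] at hQ hconj
    by_cases hπ' : Q'.valuation K (algebraMap (𝓞 K) K π) = 1
    · have := key _ 0 hπ (by rw [hconj, hπ']; norm_num)
      simpa using this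
    · have hlt : Q'.valuation K (algebraMap (𝓞 K) K π) < 1 :=
        lt_of_le_of_ne (Q'.valuation_le_one π) hπ'
      have h3 : ¬ Q.asIdeal ≤ Q'.asIdeal := by
        intro hle
        exact hQ (HeightOneSpectrum.ext (Q.isMaximal.eq_of_le Q'.isPrime.ne_top hle).symm)
      obtain ⟨y, hy, hyQ⟩ := Set.not_subset.1 h3
      have hy1 : Q.valuation K (algebraMap (𝓞 K) K y) ≤ WithZero.exp (-1 : ℤ) := by
        have h4 : Q.valuation K (algebraMap (𝓞 K) K y) < 1 := by
          rw [HeightOneSpectrum.valuation_lt_one_iff_mem]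
          exact hy
        rcases eq_or_ne (Q.valuation K (algebraMap (𝓞 K) K y)) 0 with h0 | h0
        · rw [h0]
          exact zero_le
        · rw [← WithZero.exp_log h0] at h4 ⊢
          rw [← WithZero.exp_zero, WithZero.exp_lt_exp] at h4
          rw [WithZero.exp_le_exp]
          omega
      have hy2 : Q'.valuation K (algebraMap (𝓞 K) K y) = 1 := by
        refine le_antisymm (Q'.valuation_le_one y) (not_lt.1 (fun hlt => hyQ ?_))
        exact (HeightOneSpectrum.valuation_lt_one_iff_mem _ _).1 hlt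
      have h5 := key (algebraMap (𝓞 K) K π + algebraMap (𝓞 K) K y ^ 2) 0 (by
        have h6 : Q.valuation K (algebraMap (𝓞 K) K y ^ 2) <
            Q.valuation K (algebraMap (𝓞 K) K π) := by
          rw [map_pow, hπ]
          refine lt_of_le_of_lt (pow_le_pow_left' hy1 2) ?_
          rw [← WithZero.exp_nsmul, WithZero.exp_lt_exp]
          norm_num
        rw [Valuation.map_add_eq_of_lt_left _ h6, hπ]) (by
        rw [hconj]
        have h6 : Q'.valuation K (algebraMap (𝓞 K) K π) <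
            Q'.valuation K (algebraMap (𝓞 K) K y ^ 2) := by
          rw [map_pow, hy2, one_pow]
          exact hlt
        rw [Valuation.map_add_eq_of_lt_right _ h6, map_pow, hy2, one_pow]
        norm_num)
      simpa using h5

private theorem ER_norm {a : ℚˣ} (q : QExt ℚ K a) {y : K}
    (h : ∀ v : HeightOneSpectrum (𝓞 K), IsSquare (v.valuation K y)) {r : ℚ}
    (hr : algebraMap ℚ K r = y * q.σ y) (w : HeightOneSpectrum (𝓞 ℚ)) :
    IsSquare (w.valuation ℚ r) := by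
  obtain ⟨Q, hQ⟩ := exists_above (K := ℚ) (L := K) w
  obtain ⟨e, he0, he⟩ := exists_valuation_below (K := ℚ) Q
  obtain ⟨h2, h1⟩ := ER_ram q Q he
  have hconj : ∀ z : K, Q.valuation K (q.σ z) = (conjPrime (q.σ : K ≃+* K) Q).valuation K z :=
    fun z => (valuation_conjPrime (q.σ : K ≃+* K) Q z).symm
  have hv := he r
  rw [hQ, hr, map_mul, hconj] at hv
  have he12 : e = 1 ∨ e = 2 := by
    have := Nat.le_of_dvd (by norm_num) h2
    omega
  by_cases hc : conjPrime (q.σ : K ≃+* K) Q = Q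
  · rw [hc] at hv
    rcases he12 with rfl | rfl
    · rw [pow_one] at hv
      exact ⟨_, hv⟩
    · rw [← pow_two] at hv
      have h3 : w.valuation ℚ r = Q.valuation K y := by
        exact (pow_left_inj₀ zero_le zero_le (by norm_num)).1 hv
      rw [h3]
      exact h Q
  · have h3 : e = 1 := Nat.dvd_one.1 (h1 hc)
    rw [h3, pow_one] at hv
    rw [hv]
    exact (h Q).mul (h _)

theorem even_rational (hK : Module.finrank ℚ K = 2) {D : ℕ} (hD : D ≠ 0) {s : K}
    (hs : s ^ 2 = -(D : K)) {y : K} (hy : y ≠ 0)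
    (h : ∀ v : HeightOneSpectrum (𝓞 K), IsSquare (v.valuation K y)) :
    ∃ a ∈ (2 * D).divisors, ∃ k : K, k ≠ 0 ∧ y = (a : K) * k ^ 2 := by
  obtain ⟨q, hq⟩ := ER_qext hK hD hs
  have hDpos : (0 : ℚ) < D := by
    have := Nat.pos_of_ne_zero hD
    exact_mod_cast this
  have hpos : ∀ (z : K) (r : ℚ), z ≠ 0 → algebraMap ℚ K r = z * q.σ z → 0 < r := by
    intro z r hz hr
    obtain ⟨b, c, hbc⟩ := q.hE z
    have h1 := q.norm b c
    rw [← hbc, ← hr, Units.val_mk0] at h1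
    have h2 : r = b ^ 2 - -(D : ℚ) * c ^ 2 := (algebraMap ℚ K).injective h1
    have h3 : 0 ≤ r := by
      rw [h2]
      nlinarith [sq_nonneg b, mul_nonneg hDpos.le (sq_nonneg c)]
    refine lt_of_le_of_ne h3 (fun h4 => ?_)
    rw [← h4, map_zero] at hr
    rcases mul_eq_zero.1 hr.symm with h5 | h5
    · exact hz h5
    · exact hz ((map_eq_zero_iff _ q.σ.injective).1 h5)
  obtain ⟨x, -, hx⟩ := q.exists_norm (Units.mk0 y hy)
  rw [Units.val_mk0] at hx
  obtain ⟨r, hr0, hr⟩ := ER_ratsq (hpos y x hy hx) (ER_norm q h hx)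
  have hrK : algebraMap ℚ K r ≠ 0 := (map_ne_zero _).2 hr0.ne'
  obtain ⟨z, hz⟩ := q.hilbert (u := y / algebraMap ℚ K r) (by
    rw [map_div₀, AlgEquiv.commutes, div_mul_div_comm, ← hx, hr, map_pow, pow_two]
    exact div_self (mul_ne_zero hrK hrK))
  obtain ⟨x', -, hx'⟩ := q.exists_norm z
  have hx'0 : 0 < (x' : ℚ) := hpos z x' z.ne_zero hx'
  obtain ⟨a, c, ha, hc0, hac⟩ := ER_sqfree (r := r / (x' : ℚ)) (div_pos hr0 hx'0)
  have hx'K : algebraMap ℚ K (x' : ℚ) ≠ 0 := (map_ne_zero _).2 hx'0.ne'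
  have hcK : algebraMap ℚ K c ≠ 0 := (map_ne_zero _).2 hc0
  have hyk : y = (a : K) * (algebraMap ℚ K c * z) ^ 2 := by
    have h1 : (algebraMap ℚ K r) / algebraMap ℚ K (x' : ℚ) = (a : K) * (algebraMap ℚ K c) ^ 2 := by
      have := congrArg (algebraMap ℚ K) hac
      rw [map_div₀, map_mul, map_pow, map_natCast] at this
      exact this
    have h2 : y * algebraMap ℚ K (x' : ℚ) = algebraMap ℚ K r * (z : K) ^ 2 := by
      rw [hx']
      have h3 : y * q.σ z = (z : K) * algebraMap ℚ K r := by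
        rw [div_mul_eq_mul_div, div_eq_iff hrK] at hz
        exact hz
      linear_combination (z : K) * h3
    rw [div_eq_iff hx'K] at h1
    apply mul_right_cancel₀ hx'K
    rw [h2, h1]
    ring
  refine ⟨a, ?_, algebraMap ℚ K c * z, mul_ne_zero hcK z.ne_zero, hyk⟩
  rw [Nat.mem_divisors]
  refine ⟨?_, by omega⟩
  have hall : ∀ p : ℕ, p.Prime → p ∣ a → p ∣ 2 * D := by
    intro p hp hpa
    by_contra hcon
    obtain ⟨w, hw1, hw2⟩ := ER_place hp
    obtain ⟨Q, hQ⟩ := exists_above (K := ℚ) (L := K) w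
    have hp2 : ¬ p ∣ 2 := fun h1 => hcon (h1.mul_right D)
    have hpD : ¬ p ∣ D := fun h1 => hcon (h1.mul_left 2)
    have h2w : (2 : 𝓞 ℚ) ∉ w.asIdeal := by
      intro hmem
      have h1 := (HeightOneSpectrum.valuation_lt_one_iff_mem (K := ℚ) w (2 : 𝓞 ℚ)).2 hmem
      have h4 : algebraMap (𝓞 ℚ) ℚ (2 : 𝓞 ℚ) = ((2 : ℕ) : ℚ) := by
        rw [map_ofNat, Nat.cast_ofNat]
      have h6 : w.valuation ℚ (algebraMap (𝓞 ℚ) ℚ (2 : 𝓞 ℚ)) = 1 := by
        rw [h4]
        exact hw2 2 hp2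
      exact absurd h1 (by
        show ¬ (w.valuation ℚ (algebraMap (𝓞 ℚ) ℚ (2 : 𝓞 ℚ)) < 1)
        rw [h6]
        exact lt_irrefl _)
    have hval := GP.quad_unram (t := q.t) (d := -(D : ℚ)) q.ht (ER_unit D hD) q.hE q.σ q.hσ h2w
      (v := w) (Q := Q) (by
        rw [Valuation.map_neg, hw2 D hpD]
        exact ⟨1, by rw [mul_one]⟩) hQ
    obtain ⟨a', rfl⟩ := hpa
    have hpa' : ¬ p ∣ a' := by
      rintro ⟨b, rfl⟩
      have h3 : p * p ∣ p * (p * b) := ⟨b, by ring⟩
      exact hp.one_lt.ne' (Nat.isUnit_iff.1 (ha p h3))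
    obtain ⟨g, hg⟩ := h Q
    have hk0 : Q.valuation K (algebraMap ℚ K c * (z : K)) ≠ 0 :=
      (Valuation.ne_zero_iff _).2 (mul_ne_zero hcK z.ne_zero)
    have h4 : Q.valuation K ((p * a' : ℕ) : K) = WithZero.exp (-1 : ℤ) := by
      have := hval ((p * a' : ℕ) : ℚ)
      rw [map_natCast] at this
      rw [this, Nat.cast_mul, map_mul, hw1, hw2 a' hpa', mul_one]
    rw [hyk, map_mul, map_pow, h4] at hg
    apply ER_nsq
    refine ⟨g / Q.valuation K (algebraMap ℚ K c * (z : K)), ?_⟩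
    rw [div_mul_div_comm, ← hg, pow_two, mul_div_assoc, div_self (mul_ne_zero hk0 hk0), mul_one]
  have h5 : ∏ p ∈ a.primeFactors, p ∣ 2 * D := by
    apply Finset.prod_primes_dvd
    · intro p hp
      exact (Nat.prime_of_mem_primeFactors hp).prime
    · intro p hp
      exact hall p (Nat.prime_of_mem_primeFactors hp) (Nat.dvd_of_mem_primeFactors hp)
  rwa [Nat.prod_primeFactors_of_squarefree ha] at h5

end Pool.Agent.Work.MP_787500_nt.HN
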