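import Mathlib
import Pool.Agent.Work.MP_787500_nt.HN.EvenRat
import Pool.Agent.Work.MP_787500_nt.HN.DensD
import Pool.Agent.Work.MP_787500_nt.GP.S0_KumT
import Pool.Agent.Work.MP_787500_nt.GP.C6_In

/-!
# Module INJB (size M): locally trivial homomorphisms

Let `ω ∈ homs (sysT K T) ⊤` be trivial on the decomposition groups at 2 and `T`. `ω = act2 ⊤ t` (`exists_act2T`), `t ^ 2 = y ∈ K`, `y ≠ 0` (`Fx ⊤` is the image of `K`). For a place `v` of `K`:
(a) if `2 ∈ v` or `l ∈ v` for some `l ∈ T`: let `Q` be a prime of `𝓞 Ω` above `v`. `t` is fixed by `stabD Q`, so by `densD` (`U = ⊤`, `s = {t}`) `t` is approximated at `v` by elements of `K` and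
`LocSq (v.valuation K) y` (see `LocNorm.lean` (a)); in particular `v y` is a square (`isSquare_val_of_LS`).
(b) otherwise `ω` is trivial on `Q.inertia` for `Q` above `v` (a `GoodT` subgroup under which `ω` is invariant contains `Q.inertia`), so by `ram_iff` (`U = ⊤`) `v y` is a square.
By `even_rational`: `y = a k ^ 2`, `a ∣ 2 D`. If `a` is a square in `K` then `t ∈ K`, `ω = 0`. Otherwise there are `l ∈ T` and `v ∋ l` with `¬ LocSq a` at `v` by `hT`, but
`LocSq y` at `v` by (a), and `y = a k ^ 2`: contradiction (`LocSq.mul_sq_iff`).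
The identification of `Fx ⊤` with `K`: `densD` and `ram_iff` are stated for `Fx ⊤`; the map `K → Fx ⊤` is an isomorphism of number fields and places of `Fx ⊤` correspond to
places of `K` (`IntermediateField.botEquiv`; see how `GP/S6_CountT.lean` or `GP/LT3_Gen.lean` treat `U = ⊤`; `exists_valuation_below` for `Fx ⊤ / K` gives that the valuations are powers of each
other, the exponent is 1 for an isomorphism; for `LocSq` any exponent is fine, for squares use the isomorphism).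
-/

set_option autoImplicit false
set_option linter.unusedSectionVars false

namespace Pool.Agent.Work.MP_787500_nt.HN

open IsDedekindDomain NumberField WithZero
open Pool.Agent.Work.MP_787500_nt.PA (TwoSys Sm1 Sm2 homs Coc Cob Opn)
open Pool.Agent.Work.MP_787500_nt.GP (sysT stabD Fx GoodT inT)

universe u

private theorem inertia_of_odd {F : Type*} [Field F] [NumberField F] {Ω : Type*} [Field Ω]
    [Algebra F Ω] [IsGalois F Ω] {d : F} {s : Ω} (hs : s ^ 2 = algebraMap F Ω d)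
    {v : HeightOneSpectrum (𝓞 F)} {Q : Ideal (𝓞 Ω)} (hQ : Q.IsPrime)
    (hQv : Q.comap (algebraMap (𝓞 F) (𝓞 Ω)) = v.asIdeal)
    (hd : ¬ IsSquare (v.valuation F d)) :
    ∃ σ ∈ Q.inertia (Ω ≃ₐ[F] Ω), σ s = -s := by
  have hd0 : d ≠ 0 := by
    rintro rfl
    exact hd ⟨0, by rw [map_zero, mul_zero]⟩
  have hs0 : s ≠ 0 := by
    rintro rfl
    rw [zero_pow (by norm_num)] at hs
    exact hd0 ((map_eq_zero (algebraMap F Ω)).1 hs.symm)
  have hsign : ∀ σ : Ω ≃ₐ[F] Ω, σ s = s ∨ σ s = -s := by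
    intro σ
    apply sq_eq_sq_iff_eq_or_eq_neg.1
    rw [← map_pow, hs, AlgEquiv.commutes]
  have hmem : ∀ z : 𝓞 F, algebraMap (𝓞 F) (𝓞 Ω) z ∈ Q ↔ z ∈ v.asIdeal := by
    intro z
    rw [← hQv, Ideal.mem_comap]
  obtain ⟨σ₀, hσ₀⟩ : ∃ σ : Ω ≃ₐ[F] Ω, σ s ≠ s := by
    by_contra hcon
    push Not at hcon
    obtain ⟨a, ha⟩ := mem_base_of_fixed hcon
    have : a ^ 2 = d := by
      apply (algebraMap F Ω).injective
      rw [map_pow, ha, hs]
    apply hd
    rw [← this, map_pow]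
    exact ⟨_, pow_two _⟩
  have hσ₀' : σ₀ s = -s := (hsign σ₀).resolve_left hσ₀
  have h2Ω : (2 : Ω) ≠ 0 := by
    rw [← map_ofNat (algebraMap F Ω) 2]
    exact (map_ne_zero _).2 two_ne_zero
  have hne : ∀ σ : Ω ≃ₐ[F] Ω, ¬ (σ s = s ∧ σ s = -s) := by
    rintro σ ⟨h1, h2⟩
    have : (2 : Ω) * s = 0 := by rw [h1] at h2; linear_combination h2
    exact mul_ne_zero h2Ω hs0 this
  let H : Subgroup (Ω ≃ₐ[F] Ω) := MulAction.stabilizer (Ω ≃ₐ[F] Ω) s
  have hHmem : ∀ σ : Ω ≃ₐ[F] Ω, σ ∈ H ↔ σ s = s := fun σ => Iff.rfl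
  have hHopen : IsOpen (H : Set (Ω ≃ₐ[F] Ω)) := stabilizer_isOpen_of_isIntegral s
  have hHcl : IsClosed (H : Set (Ω ≃ₐ[F] Ω)) := Subgroup.isClosed_of_isOpen H hHopen
  let _ : TopologicalSpace (𝓞 Ω) := ⊥
  have : DiscreteTopology (𝓞 Ω) := ⟨rfl⟩
  have : ContinuousSMul (Ω ≃ₐ[F] Ω) (𝓞 Ω) := by
    rw [continuousSMul_iff_stabilizer_isOpen]
    intro x
    have h1 : IsOpen (MulAction.stabilizer (Ω ≃ₐ[F] Ω) (algebraMap (𝓞 Ω) Ω x) :
      Set (Ω ≃ₐ[F] Ω)) := stabilizer_isOpen_of_isIntegral _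
    convert h1 using 1
    ext σ
    simp only [SetLike.mem_coe, MulAction.mem_stabilizer_iff]
    constructor
    · intro h
      have := congrArg (algebraMap (𝓞 Ω) Ω) h
      exact this
    · intro h
      apply RingOfIntegers.ext
      exact h
  have key : ∀ (σ : Ω ≃ₐ[F] Ω), σ s = -s → ∀ x : 𝓞 Ω, (∀ h ∈ H, h • x = x) → σ • x - x ∈ Q := by
    intro σ hσ x hx
    have hx' : ∀ τ : Ω ≃ₐ[F] Ω, τ s = s → τ (algebraMap (𝓞 Ω) Ω x) = algebraMap (𝓞 Ω) Ω x := by
      intro τ hτ
      have := congrArg (algebraMap (𝓞 Ω) Ω) (hx τ hτ)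
      exact this
    set X := algebraMap (𝓞 Ω) Ω x with hX
    set y := σ X - X with hy
    have hσinv : σ⁻¹ s = -s := by
      have : σ⁻¹ (σ s) = s := by
        rw [← AlgEquiv.mul_apply, inv_mul_cancel]; rfl
      rw [hσ, map_neg] at this
      exact neg_eq_iff_eq_neg.1 this
    have hys : ∀ τ : Ω ≃ₐ[F] Ω, τ (y * s) = y * s := by
      intro τ
      rcases hsign τ with h | h
      · have h1 : τ (σ X) = σ X := by
          have h2 := hx' (σ⁻¹ * (τ * σ)) (by
            rw [AlgEquiv.mul_apply, AlgEquiv.mul_apply, hσ, map_neg, h, map_neg, hσinv, neg_neg])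
          have h3 := congrArg σ h2
          rw [← AlgEquiv.mul_apply, mul_inv_cancel_left, AlgEquiv.mul_apply] at h3
          exact h3
        rw [hy, map_mul, map_sub, h1, hx' τ h, h]
      · have h1 : τ (σ X) = X := by
          rw [← AlgEquiv.mul_apply]
          exact hx' _ (by rw [AlgEquiv.mul_apply, hσ, map_neg, h, neg_neg])
        have h2 : τ X = σ X := by
          have h2 := hx' (σ⁻¹ * τ) (by rw [AlgEquiv.mul_apply, h, map_neg, hσinv, neg_neg])
          have h3 := congrArg σ h2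
          rw [← AlgEquiv.mul_apply, mul_inv_cancel_left] at h3
          exact h3
        rw [hy, map_mul, map_sub, h1, h2, h]
        ring
    obtain ⟨a, ha⟩ := mem_base_of_fixed hys
    have hy2 : y ^ 2 = algebraMap F Ω (a ^ 2 / d) := by
      rw [map_div₀, map_pow, ha, ← hs]
      field_simp
    have hYy : algebraMap (𝓞 Ω) Ω ((σ • x - x) ^ 2) = y ^ 2 := by
      rw [map_pow, map_sub, coe_smul_int]
    have hint : IsIntegral ℤ (a ^ 2 / d) := by
      have h1 : IsIntegral ℤ (algebraMap F Ω (a ^ 2 / d)) := by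
        rw [← hy2, ← hYy]
        exact RingOfIntegers.isIntegral_coe _
      exact (isIntegral_algebraMap_iff (algebraMap F Ω).injective).1 h1
    obtain ⟨z, hz⟩ : ∃ z : 𝓞 F, algebraMap (𝓞 F) F z = a ^ 2 / d := ⟨⟨_, hint⟩, rfl⟩
    have hYz : (σ • x - x) ^ 2 = algebraMap (𝓞 F) (𝓞 Ω) z := by
      apply RingOfIntegers.ext
      show algebraMap (𝓞 Ω) Ω _ = algebraMap (𝓞 Ω) Ω _
      rw [hYy, hy2, ← hz]
      rfl
    have hzv : z ∈ v.asIdeal := by
      by_contra hcon
      have h1 := (HeightOneSpectrum.valuation_eq_one_iff_notMem (K := F) v).2 hcon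
      rw [hz, map_div₀] at h1
      apply hd
      have h2 : v.valuation F d ≠ 0 := (v.valuation F).ne_zero_iff.2 hd0
      have h3 : v.valuation F (a ^ 2) = v.valuation F d := (div_eq_one_iff_eq h2).1 h1
      rw [← h3, map_pow]
      exact ⟨_, pow_two _⟩
    have h5 : (σ • x - x) ^ 2 ∈ Q := by
      rw [hYz, hmem]
      exact hzv
    exact hQ.mem_of_pow_mem _ h5
  have hσinv : σ₀⁻¹ s = -s := by
    have : σ₀⁻¹ (σ₀ s) = s := by
      rw [← AlgEquiv.mul_apply, inv_mul_cancel]; rfl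
    rw [hσ₀', map_neg] at this
    exact neg_eq_iff_eq_neg.1 this
  obtain ⟨h, hh, hin⟩ := exists_inertia H hHcl Q σ₀ (key _ hσinv)
  refine ⟨h * σ₀, hin, ?_⟩
  rw [AlgEquiv.mul_apply, hσ₀', map_neg, (hHmem h).1 hh]

variable {K : Type u} [Field K] [NumberField K]

private theorem above (v : HeightOneSpectrum (𝓞 K)) : ∃ P : Ideal (𝓞 (AlgebraicClosure K)),
    P.IsPrime ∧ P ≠ ⊥ ∧ P.comap (algebraMap (𝓞 K) (𝓞 (AlgebraicClosure K))) = v.asIdeal := by
  have : v.asIdeal.IsMaximal := v.isMaximal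
  obtain ⟨P, hP, hPv⟩ := Ideal.exists_maximal_ideal_liesOver_of_isIntegral
    (S := 𝓞 (AlgebraicClosure K)) v.asIdeal
  refine ⟨P, hP.isPrime, ?_, hPv.over.symm⟩
  rintro rfl
  have h1 := hPv.over
  rw [Ideal.under_bot] at h1
  exact v.ne_bot h1

private theorem neg_ne {t : AlgebraicClosure K} (ht : t ≠ 0) : -t ≠ t := by
  intro h
  have h2 : (2 : AlgebraicClosure K) * t = 0 := by linear_combination -h
  exact mul_ne_zero two_ne_zero ht h2

private theorem top_mem (T : Finset ℕ) : GoodT K T ⊤ := Gn.GoodG.top (GP.baseT K T)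

/-- an element fixed by the decomposition group is approximated by elements of `K` -/
private theorem locSq_of_fixed {v : HeightOneSpectrum (𝓞 K)} {Q : Ideal (𝓞 (AlgebraicClosure K))}
    (hQ : Q.IsPrime) (hb : Q ≠ ⊥)
    (hQv : Q.comap (algebraMap (𝓞 K) (𝓞 (AlgebraicClosure K))) = v.asIdeal)
    {t : AlgebraicClosure K} {y : K} (hy : algebraMap K (AlgebraicClosure K) y = t ^ 2)
    (ht : ∀ g ∈ stabD Q, g t = t) : LocSq (v.valuation K) y := by
  have hopen : IsOpen ((⊤ : Subgroup (AbsGal K)) : Set (AbsGal K)) := isOpen_univ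
  have hNF : NumberField (Fx (⊤ : Subgroup (AbsGal K))) := fx_numberField hopen
  let w : HeightOneSpectrum (𝓞 (Fx (⊤ : Subgroup (AbsGal K)))) :=
    ⟨Q.comap (algebraMap (𝓞 (Fx (⊤ : Subgroup (AbsGal K)))) (𝓞 (AlgebraicClosure K))),
      Ideal.comap_isPrime _ _, fun h => hb (Ideal.eq_bot_of_comap_eq_bot h)⟩
  have hwv : below K w = v := by
    apply HeightOneSpectrum.ext
    rw [← hQv]
    rfl
  obtain ⟨E, hE, P, hPw, hs⟩ := densD hopen hQ hb (w := w) rfl {t} (by
    intro z hz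
    rw [Finset.mem_singleton] at hz
    subst hz
    rw [GP.mem_Fx]
    exact fun g hg => ht g hg.1)
  obtain ⟨z', hz', happ⟩ := hs t (Finset.mem_singleton_self t)
  obtain ⟨e₁, he₁, h₁⟩ := exists_valuation_below (K := Fx (⊤ : Subgroup (AbsGal K))) P
  obtain ⟨e₂, he₂, h₂⟩ := exists_valuation_below (K := K) w
  rw [hPw] at h₁
  rw [hwv] at h₂
  intro γ hγ
  have hΓ : γ ^ (e₂ * e₁) ≠ 0 := pow_ne_zero _ hγ
  obtain ⟨δ, hδ, h3⟩ := exists_lt_of_ne_zero (a := P.valuation E (2 * z')) hΓ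
  obtain ⟨k', hk'⟩ := happ (min δ (min 1 (γ ^ (e₂ * e₁)))) (by
    rcases min_choice δ (min 1 (γ ^ (e₂ * e₁))) with h' | h' <;> rw [h']
    · exact hδ
    · rcases min_choice 1 (γ ^ (e₂ * e₁)) with h' | h' <;> rw [h']
      · exact one_ne_zero
      · exact hΓ)
  have hu1 : P.valuation E (z' - algebraMap _ E k') < δ := hk'.trans_le (min_le_left _ _)
  have hu2 : P.valuation E (z' - algebraMap _ E k') < 1 :=
    hk'.trans_le ((min_le_right _ _).trans (min_le_left _ _))
  have hu3 : P.valuation E (z' - algebraMap _ E k') < γ ^ (e₂ * e₁) :=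
    hk'.trans_le ((min_le_right _ _).trans (min_le_right _ _))
  obtain ⟨k, hk⟩ := mem_base_of_fixed (F := K) (Ω := AlgebraicClosure K)
    (x := (k' : AlgebraicClosure K)) (fun σ => GP.mem_Fx.1 k'.2 σ trivial)
  refine ⟨k, ?_⟩
  have e1 : algebraMap (Fx (⊤ : Subgroup (AbsGal K))) E (algebraMap K _ (y - k ^ 2)) =
      (z' - algebraMap _ E k') * (z' + algebraMap _ E k') := by
    apply Subtype.ext
    show algebraMap K (AlgebraicClosure K) (y - k ^ 2) =
      ((z' : AlgebraicClosure K) - (k' : AlgebraicClosure K)) *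
        ((z' : AlgebraicClosure K) + (k' : AlgebraicClosure K))
    rw [map_sub, map_pow, hy, hk, hz']
    ring
  have h4 : P.valuation E (z' + algebraMap _ E k') ≤
      max (P.valuation E (2 * z')) (P.valuation E (z' - algebraMap _ E k')) := by
    have e2 : z' + algebraMap _ E k' = 2 * z' - (z' - algebraMap _ E k') := by ring
    rw [e2]
    exact Valuation.map_sub _ _ _
  have h5 : P.valuation E (algebraMap (Fx (⊤ : Subgroup (AbsGal K))) E
      (algebraMap K _ (y - k ^ 2))) < γ ^ (e₂ * e₁) := by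
    rw [e1, map_mul]
    rcases le_max_iff.1 h4 with h6 | h6
    · calc P.valuation E (z' - algebraMap _ E k') * P.valuation E (z' + algebraMap _ E k')
          ≤ P.valuation E (z' - algebraMap _ E k') * P.valuation E (2 * z') := by gcongr
        _ = P.valuation E (2 * z') * P.valuation E (z' - algebraMap _ E k') := mul_comm _ _
        _ < γ ^ (e₂ * e₁) := h3 _ hu1
    · calc P.valuation E (z' - algebraMap _ E k') * P.valuation E (z' + algebraMap _ E k')
          ≤ 1 * P.valuation E (z' - algebraMap _ E k') := by gcongr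
        _ = P.valuation E (z' - algebraMap _ E k') := one_mul _
        _ < γ ^ (e₂ * e₁) := hu3
  rw [← h₁, ← h₂, ← pow_mul] at h5
  exact lt_of_pow_lt_pow_left' _ h5

private theorem isSquare_of_locSq {v : HeightOneSpectrum (𝓞 K)} {y : K} (hy0 : y ≠ 0)
    (h : LocSq (v.valuation K) y) : IsSquare (v.valuation K y) := by
  obtain ⟨k, hk⟩ := h (v.valuation K y) ((Valuation.ne_zero_iff _).2 hy0)
  rw [Valuation.map_sub_swap] at hk
  have h1 : v.valuation K (k ^ 2) = v.valuation K y := Valuation.map_eq_of_sub_lt _ hk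
  rw [← h1, map_pow]
  exact ⟨_, pow_two _⟩

theorem injT_of (hK : Module.finrank ℚ K = 2) {D : ℕ} (hD : D ≠ 0) {s : K} (hs : s ^ 2 = -(D : K))
    {T : Finset ℕ} (hT : ∀ a ∈ (2 * D).divisors, ¬ IsSquare (a : K) → ∃ l ∈ T,
      ∃ v : HeightOneSpectrum (𝓞 K), (l : 𝓞 K) ∈ v.asIdeal ∧ ¬ LocSq (v.valuation K) (a : K)) :
    InjT K T := by
  classical
  intro ω hω h0
  obtain ⟨t, ht0, ⟨W, hW, hWt⟩, hfix, rfl⟩ := GP.exists_act2T ⟨⊤, top_mem T, le_rfl⟩ hω
  obtain ⟨y, hy⟩ := mem_base_of_fixed (F := K) (Ω := AlgebraicClosure K) (x := t ^ 2)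
    (fun σ => hfix σ trivial)
  have hy0 : y ≠ 0 := by
    rintro rfl
    rw [map_zero] at hy
    exact pow_ne_zero 2 ht0 hy.symm
  have hact : ∀ g : AbsGal K, PA.act2 ⊤ t g = 0 → g t = t := by
    intro g hg
    by_contra hcon
    unfold PA.act2 at hg
    rw [if_pos ⟨trivial, hcon⟩] at hg
    exact one_ne_zero hg
  have hloc : ∀ v : HeightOneSpectrum (𝓞 K), ((2 : 𝓞 K) ∈ v.asIdeal ∨ ∃ l ∈ T,
      (l : 𝓞 K) ∈ v.asIdeal) → LocSq (v.valuation K) y := by
    intro v hv
    obtain ⟨Q, hQ, hQb, hQv⟩ := above v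
    have hmemv : ∀ z : 𝓞 K, algebraMap (𝓞 K) (𝓞 (AlgebraicClosure K)) z ∈ Q ↔ z ∈ v.asIdeal := by
      intro z
      rw [← hQv, Ideal.mem_comap]
    refine locSq_of_fixed hQ hQb hQv hy fun g hg => hact g (h0 Q hQ ?_ g hg)
    rcases hv with h | ⟨l, hl, h⟩
    · left
      rw [← hmemv, map_ofNat] at h
      exact h
    · right
      rw [← hmemv, map_natCast] at h
      exact ⟨l, hl, h⟩
  have hsq : ∀ v : HeightOneSpectrum (𝓞 K), IsSquare (v.valuation K y) := by
    intro v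
    by_cases hv : (2 : 𝓞 K) ∈ v.asIdeal ∨ ∃ l ∈ T, (l : 𝓞 K) ∈ v.asIdeal
    · exact isSquare_of_locSq hy0 (hloc v hv)
    · by_contra hcon
      obtain ⟨Q, hQ, hQb, hQv⟩ := above v
      obtain ⟨σ, hσ, hσt⟩ := inertia_of_odd (F := K) (Ω := AlgebraicClosure K) (d := y) (s := t)
        hy.symm hQ hQv hcon
      have hmemv : ∀ z : 𝓞 K,
          algebraMap (𝓞 K) (𝓞 (AlgebraicClosure K)) z ∈ Q ↔ z ∈ v.asIdeal := by
        intro z
        rw [← hQv, Ideal.mem_comap]
      have h1 : σ ∈ W := by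
        apply hW.inertia
        refine ⟨Q, hQ, ?_, ?_, hσ⟩
        · intro h
          apply hv
          left
          rw [← hmemv, map_ofNat]
          exact h
        · intro l hl h
          apply hv
          right
          refine ⟨l, hl, ?_⟩
          rw [← hmemv, map_natCast]
          exact h
      have h2 := hWt σ h1
      rw [hσt] at h2
      exact neg_ne ht0 h2
  obtain ⟨a, ha, k, hk, hyk⟩ := even_rational hK hD hs hy0 hsq
  by_cases hasq : IsSquare (a : K)
  · obtain ⟨b, hb⟩ := hasq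
    rw [PA.act2_eq_zero_iff]
    intro g _
    have h1 : t ^ 2 = (algebraMap K (AlgebraicClosure K) (b * k)) ^ 2 := by
      rw [← hy, hyk, hb, ← map_pow]
      congr 1
      ring
    rcases sq_eq_sq_iff_eq_or_eq_neg.1 h1 with h2 | h2
    · rw [h2, AlgEquiv.commutes]
    · rw [h2, map_neg, AlgEquiv.commutes]
  · exfalso
    obtain ⟨l, hl, v, hlv, hnv⟩ := hT a ha hasq
    apply hnv
    have h1 := hloc v (Or.inr ⟨l, hl, hlv⟩)
    rw [hyk] at h1
    exact (LocSq.mul_sq_iff hk).1 h1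

end Pool.Agent.Work.MP_787500_nt.HN
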