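import Mathlib
import Pool.Agent.Work.MP_787500_nt.HN.NonSplit
import Pool.Agent.Work.MP_787500_nt.HN.Tame
import Pool.Agent.Work.MP_787500_nt.HN.CDefs

/-!
# Module SPLITNON (size M): split primes where a given rational number is not a local square

Let `A` be a finite set of places containing those above 2 such that `D`, `a` and all nonzero elements of `B` are in `sUnit A` (`exists_CL'`). `exists_nonsplit`: `v ∉ A`
with `¬ LocSq (v.valuation K) a`. Let `l` be the prime number in `v.asIdeal` (`v.asIdeal ∩ ℤ` is a nonzero prime ideal; or `Ideal.absNorm` is a prime power). `l ≠ 2`, `l ∤ D`, `l ∤ a`, `l ∉ B`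
(these numbers have valuation 1 at `v`, `l` does not). Suppose `-D` is not a square modulo `l`. As `l` is odd and `a`, `-D` are units modulo `l`, `a` or `a * (-D)` is a square modulo
`l` (`quadraticChar` / `ZMod.euler_criterion` / Legendre symbols), so `a ≡ b ^ 2` or `a D' ≡ b ^ 2`, `D' = -D`, and in both cases `a` is a square modulo `v`: `-D = s ^ 2` in `K`, `s` is a unit
at `v`, `a ≡ b ^ 2` or `a ≡ (b / s) ^ 2`. So `v (a - x ^ 2) < 1 = v a` for some `x ∈ K` and `LS_of_sq_close` (`Tame.lean`) gives a contradiction.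
-/

set_option autoImplicit false
set_option linter.unusedSectionVars false

namespace Pool.Agent.Work.MP_787500_nt.HN

open IsDedekindDomain NumberField WithZero

variable {K : Type*} [Field K] [NumberField K]

private theorem val_lt_of_dvd {v : HeightOneSpectrum (𝓞 K)} {l : ℕ} (hl : (l : 𝓞 K) ∈ v.asIdeal)
    {m : ℤ} (h : (l : ℤ) ∣ m) : v.valuation K (m : K) < 1 := by
  obtain ⟨c, rfl⟩ := h
  have h1 : (((l : ℤ) * c : ℤ) : 𝓞 K) ∈ v.asIdeal := by
    push_cast
    exact Ideal.mul_mem_right _ _ hl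
  have h2 : (v.valuation K (algebraMap (𝓞 K) K (((l : ℤ) * c : ℤ) : 𝓞 K)) < 1) :=
    (v.valuation_lt_one_iff_mem (K := K) _).2 h1
  rwa [map_intCast] at h2

private theorem exists_prime_mem (v : HeightOneSpectrum (𝓞 K)) :
    ∃ l : ℕ, l.Prime ∧ (l : 𝓞 K) ∈ v.asIdeal := by
  have h1 : Finite (𝓞 K ⧸ v.asIdeal) := Ring.HasFiniteQuotients.finiteQuotient v.ne_bot
  have h2 : v.asIdeal.IsPrime := v.isPrime
  obtain ⟨l, hl⟩ := CharP.exists (𝓞 K ⧸ v.asIdeal)
  refine ⟨l, ?_, ?_⟩
  · exact CharP.char_is_prime (𝓞 K ⧸ v.asIdeal) l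
  · rw [← Ideal.Quotient.eq_zero_iff_mem, map_natCast]
    exact CharP.cast_eq_zero _ _

theorem exists_split_nonsq [IsTotallyComplex K] {D : ℕ} (hD : D ≠ 0) {s : K} (hs : s ^ 2 = -(D : K))
    {a : ℕ} (ha : a ≠ 0) (hsq : ¬ IsSquare (a : K)) (B : Finset ℕ) :
    ∃ l : ℕ, SplitD D l ∧ l ∉ B ∧ ∃ v : HeightOneSpectrum (𝓞 K), (l : 𝓞 K) ∈ v.asIdeal ∧
      ¬ LocSq (v.valuation K) (a : K) := by
  classical
  have hcast : ∀ n : ℕ, n ≠ 0 → (n : K) ≠ 0 := fun n hn => Nat.cast_ne_zero.2 hn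
  obtain ⟨x, hx⟩ : ∃ x : ℕ → Kˣ, ∀ n, n ≠ 0 → ((x n : Kˣ) : K) = n := by
    refine ⟨fun n => if h : n ≠ 0 then Units.mk0 (n : K) (hcast n h) else 1, fun n hn => ?_⟩
    simp only [dif_pos hn, Units.val_mk0]
  obtain ⟨A, -, hDy, -, hA⟩ := exists_CL' (insert D (insert a B)) x
    (∅ : Finset (HeightOneSpectrum (𝓞 K)))
  have hasq : x a ∉ sq K := by
    rintro ⟨y, hy⟩
    apply hsq
    refine ⟨(y : K), ?_⟩
    rw [← hx a ha, ← hy]
    simp [pow_two]
  obtain ⟨v, hv, hvLS⟩ := exists_nonsplit hasq A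
  have h2 : (2 : 𝓞 K) ∉ v.asIdeal := fun h => hv (hDy v h)
  have hval : ∀ n ∈ insert D (insert a B), n ≠ 0 → v.valuation K (n : K) = 1 := by
    intro n hn hn0
    have h3 := (GP.mem_sUnit.1 (hA n hn)) v hv
    rwa [hx n hn0] at h3
  obtain ⟨l, hl, hlv⟩ := exists_prime_mem v
  have hl2 : l ≠ 2 := by
    rintro rfl
    exact h2 (by exact_mod_cast hlv)
  have hndvd : ∀ n ∈ insert D (insert a B), n ≠ 0 → ¬ l ∣ n := by
    intro n hn hn0 hdvd
    have h3 := val_lt_of_dvd hlv (Int.natCast_dvd_natCast.2 hdvd)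
    rw [Int.cast_natCast, hval n hn hn0] at h3
    exact lt_irrefl _ h3
  have hDmem : D ∈ insert D (insert a B) := by simp
  have hamem : a ∈ insert D (insert a B) := by simp
  have hlD := hndvd D hDmem hD
  have hla := hndvd a hamem ha
  have hlB : l ∉ B := fun h => hndvd l (by simp [h]) hl.ne_zero dvd_rfl
  have hfact : Fact l.Prime := ⟨hl⟩
  -- squares modulo `l` give squares at `v`
  have hva : v.valuation K (a : K) = 1 := hval a hamem ha
  have hclose : ∀ b : K, ¬ v.valuation K ((a : K) - b ^ 2) < 1 := by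
    intro b hb
    apply hvLS
    apply LS_of_sq_close h2 (b := b)
    rw [hx a ha, hva]
    exact hb
  have hvs : v.valuation K s = 1 := by
    have h3 : v.valuation K (s ^ 2) = 1 := by
      rw [hs, Valuation.map_neg]
      exact hval D hDmem hD
    rw [map_pow] at h3
    rcases pow_eq_one_iff.1 h3 with h | h
    · exact h
    · exact absurd h two_ne_zero
  have hs0 : s ≠ 0 := by
    rintro rfl
    rw [map_zero] at hvs
    exact zero_ne_one hvs
  refine ⟨l, ⟨hl, hl2, hlD, ?_⟩, hlB, v, hlv, ?_⟩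
  · by_contra hno
    have hD' : ¬ IsSquare ((-(D : ℤ) : ℤ) : ZMod l) := by
      rintro ⟨r, hr⟩
      apply hno
      obtain ⟨b, rfl⟩ := ZMod.intCast_surjective r
      refine ⟨b, ?_⟩
      rw [← ZMod.intCast_zmod_eq_zero_iff_dvd]
      push_cast at hr ⊢
      linear_combination -hr
    have ha' : ¬ IsSquare ((a : ℤ) : ZMod l) := by
      rintro ⟨r, hr⟩
      obtain ⟨b, rfl⟩ := ZMod.intCast_surjective r
      have h3 : (l : ℤ) ∣ (a : ℤ) - b ^ 2 := by
        rw [← ZMod.intCast_zmod_eq_zero_iff_dvd]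
        push_cast at hr ⊢
        linear_combination hr
      have h4 := val_lt_of_dvd hlv h3
      apply hclose b
      push_cast at h4
      exact h4
    have hprod : IsSquare (((a : ℤ) : ZMod l) * ((-(D : ℤ) : ℤ) : ZMod l)) := by
      have hF : ringChar (ZMod l) ≠ 2 := by
        rw [ZMod.ringChar_zmod_n]
        exact hl2
      have q1 := (quadraticChar_neg_one_iff_not_isSquare (F := ZMod l)).2 ha'
      have q2 := (quadraticChar_neg_one_iff_not_isSquare (F := ZMod l)).2 hD'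
      have n1 : ((a : ℤ) : ZMod l) ≠ 0 := by
        rw [Ne, ZMod.intCast_zmod_eq_zero_iff_dvd]
        exact fun h => hla (Int.natCast_dvd_natCast.1 h)
      have n2 : ((-(D : ℤ) : ℤ) : ZMod l) ≠ 0 := by
        rw [Ne, ZMod.intCast_zmod_eq_zero_iff_dvd, dvd_neg]
        exact fun h => hlD (Int.natCast_dvd_natCast.1 h)
      rw [← quadraticChar_one_iff_isSquare (mul_ne_zero n1 n2), map_mul, q1, q2]
      norm_num
    obtain ⟨r, hr⟩ := hprod
    obtain ⟨b, rfl⟩ := ZMod.intCast_surjective r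
    have h3 : (l : ℤ) ∣ (a : ℤ) * (-(D : ℤ)) - b ^ 2 := by
      rw [← ZMod.intCast_zmod_eq_zero_iff_dvd]
      push_cast at hr ⊢
      linear_combination hr
    have h4 := val_lt_of_dvd hlv h3
    apply hclose ((b : K) / s)
    have h5 : (a : K) - ((b : K) / s) ^ 2 = (((a : ℤ) * (-(D : ℤ)) - b ^ 2 : ℤ) : K) / s ^ 2 := by
      push_cast
      rw [← hs]
      field_simp
    rw [h5, map_div₀, map_pow, hvs, one_pow, div_one]
    exact h4
  · intro hloc
    apply hvLS
    rw [mem_LS, hx a ha]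
    exact hloc

end Pool.Agent.Work.MP_787500_nt.HN
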