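import Mathlib
import Pool.Agent.Work.MP_787500_nt.HN.SplitNon
import Pool.Agent.Work.MP_787500_nt.HN.InjB
import Pool.Agent.Work.MP_787500_nt.HN.ClassB

/-!
# Module EXT (size S): good sets of primes

`T₁` from `oddT_exists`. For each `a ∈ (2 D).divisors` that is not a square in `K` (`a ≠ 0`) choose `l a` by `exists_split_nonsq` (`B = ∅`). `T = T₀ ∪ T₁ ∪ {l a}`. `injT_of`.
-/

set_option autoImplicit false
set_option linter.unusedSectionVars false

namespace Pool.Agent.Work.MP_787500_nt.HN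

open IsDedekindDomain NumberField WithZero

universe u

variable {K : Type u} [Field K] [NumberField K]

theorem exists_good_T [IsTotallyComplex K] (hK : Module.finrank ℚ K = 2) {D : ℕ} (hD : D ≠ 0)
    {s : K} (hs : s ^ 2 = -(D : K)) {T₀ : Finset ℕ} (hT₀ : ∀ l ∈ T₀, SplitD D l) :
    ∃ T : Finset ℕ, T₀ ⊆ T ∧ (∀ l ∈ T, SplitD D l) ∧ OddT K T ∧ InjT K T := by
  classical
  obtain ⟨T₁, hT₁, hodd⟩ := oddT_exists hK hD hs
  have hex : ∀ a : ℕ, ∃ l : ℕ, a ∈ (2 * D).divisors → ¬ IsSquare (a : K) → SplitD D l ∧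
      ∃ v : HeightOneSpectrum (𝓞 K), (l : 𝓞 K) ∈ v.asIdeal ∧ ¬ LocSq (v.valuation K) (a : K) := by
    intro a
    by_cases h : a ∈ (2 * D).divisors ∧ ¬ IsSquare (a : K)
    · have ha0 : a ≠ 0 := by
        rintro rfl
        have := Nat.dvd_of_mem_divisors h.1
        omega
      obtain ⟨l, h1, -, h2⟩ := exists_split_nonsq hD hs ha0 h.2 ∅
      exact ⟨l, fun _ _ => ⟨h1, h2⟩⟩
    · exact ⟨0, fun h1 h2 => absurd ⟨h1, h2⟩ h⟩
  choose l hl using hex
  let S : Finset ℕ := ((2 * D).divisors.filter fun a : ℕ => ¬ IsSquare (a : K)).image l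
  refine ⟨T₀ ∪ T₁ ∪ S, fun x hx => ?_, fun x hx => ?_, hodd _ fun x hx => ?_,
    injT_of hK hD hs fun a ha hsq => ?_⟩
  · exact Finset.mem_union_left _ (Finset.mem_union_left _ hx)
  · rcases Finset.mem_union.1 hx with hx | hx
    · rcases Finset.mem_union.1 hx with hx | hx
      · exact hT₀ x hx
      · exact hT₁ x hx
    · obtain ⟨a, ha, rfl⟩ := Finset.mem_image.1 hx
      rw [Finset.mem_filter] at ha
      exact (hl a ha.1 ha.2).1
  · exact Finset.mem_union_left _ (Finset.mem_union_right _ hx)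
  · refine ⟨l a, Finset.mem_union_right _ (Finset.mem_image.2 ⟨a, Finset.mem_filter.2 ⟨ha, hsq⟩, rfl⟩),
      (hl a ha hsq).2⟩

end Pool.Agent.Work.MP_787500_nt.HN
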