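import Mathlib
import Pool.Agent.Work.MP_787500_nt.HN.SelUnit
import Pool.Agent.Work.MP_787500_nt.HN.SuCard
import Pool.Agent.Work.MP_787500_nt.GP.S0_KumT
import Pool.Agent.Work.MP_787500_nt.GP.C6_In

/-!
# Module COUNTT (size M): the number of homomorphisms of the T-system

`Ω = AlgebraicClosure K`. For `x ∈ sUnit A` let `t ∈ Ω`, `t ^ 2 = x`, `Φ x = act2 ⊤ t` (independent of the choice of `t`). `Φ x ∈ homs (sysT K T) ⊤`: the stabilizer `W` of `t` is open, of index at most 2, normal, and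
it contains `Q.inertia` for the primes `Q` outside 2 and `T` (`ram_iff` with `U = ⊤`, as `x` has valuation 1 there; for `Q = ⊥` `eq_one_of_inertia_bot`), so `GoodT K T W`. `Φ (x y) = Φ x + Φ y`
(`act2_mul`). `Φ x = 0` iff `t ∈ K` iff `x ∈ sq K`. `Φ` is surjective: `ω = act2 ⊤ t` (`exists_act2T`), `y = t ^ 2 ∈ Kˣ` has even valuation at all `v ∉ A` (`ram_iff`; `ω` is trivial on
`Q.inertia`), by `sel_unit` `y = x z ^ 2`, `ω = Φ x`. So `homs (sysT K T) ⊤` is in bijection with the quotient of `sUnit A` by `sq K ⊓ sUnit A`, which has `2 ^ (m + A.card)` elements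
(`relIndex_sq_sUnit`). A `ZMod 2`-space with `2 ^ n` elements is finite dimensional of dimension `n` (`Module.card_eq_pow_finrank`). (`Fx ⊤` is the image of `K`, see the header of `InjB.lean`.)
-/

set_option autoImplicit false
set_option linter.unusedSectionVars false

namespace Pool.Agent.Work.MP_787500_nt.HN

open IsDedekindDomain NumberField WithZero
open Pool.Agent.Work.MP_787500_nt.PA (TwoSys Sm1 Sm2 homs Coc Cob Opn)
open Pool.Agent.Work.MP_787500_nt.GP (sysT stabD Fx GoodT inT)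

universe u

private theorem inertia_of_odd {F : Type*} [Field F] [NumberField F] {Ω : Type*} [Field Ω]
    [Algebra F Ω] [IsGalois F Ω] {d : F} {s : Ω} (hs : s ^ 2 = algebraMap F Ω d)
    {v : HeightOneSpectrum (𝓞 F)} {Q : Ideal (𝓞 Ω)} (hQ : Q.IsPrime)
    (hQv : Q.comap (algebraMap (𝓞 F) (𝓞 Ω)) = v.asIdeal)
    (hd : ¬ IsSquare (v.valuation F d)) :
    ∃ σ ∈ Q.inertia (Ω ≃ₐ[F] Ω), σ s = -s := by
  have hd0 : d ≠ 0 := by
    rintro rfl
    exact hd ⟨0, by rw [map_zero, mul_zero]⟩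
  have hs0 : s ≠ 0 := by
    rintro rfl
    rw [zero_pow (by norm_num)] at hs
    exact hd0 ((map_eq_zero (algebraMap F Ω)).1 hs.symm)
  have hsign : ∀ σ : Ω ≃ₐ[F] Ω, σ s = s ∨ σ s = -s := by
    intro σ
    apply sq_eq_sq_iff_eq_or_eq_neg.1
    rw [← map_pow, hs, AlgEquiv.commutes]
  have hmem : ∀ z : 𝓞 F, algebraMap (𝓞 F) (𝓞 Ω) z ∈ Q ↔ z ∈ v.asIdeal := by
    intro z
    rw [← hQv, Ideal.mem_comap]
  obtain ⟨σ₀, hσ₀⟩ : ∃ σ : Ω ≃ₐ[F] Ω, σ s ≠ s := by
    by_contra hcon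
    push Not at hcon
    obtain ⟨a, ha⟩ := mem_base_of_fixed hcon
    have : a ^ 2 = d := by
      apply (algebraMap F Ω).injective
      rw [map_pow, ha, hs]
    apply hd
    rw [← this, map_pow]
    exact ⟨_, pow_two _⟩
  have hσ₀' : σ₀ s = -s := (hsign σ₀).resolve_left hσ₀
  have h2Ω : (2 : Ω) ≠ 0 := by
    rw [← map_ofNat (algebraMap F Ω) 2]
    exact (map_ne_zero _).2 two_ne_zero
  have hne : ∀ σ : Ω ≃ₐ[F] Ω, ¬ (σ s = s ∧ σ s = -s) := by
    rintro σ ⟨h1, h2⟩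
    have : (2 : Ω) * s = 0 := by rw [h1] at h2; linear_combination h2
    exact mul_ne_zero h2Ω hs0 this
  let H : Subgroup (Ω ≃ₐ[F] Ω) := MulAction.stabilizer (Ω ≃ₐ[F] Ω) s
  have hHmem : ∀ σ : Ω ≃ₐ[F] Ω, σ ∈ H ↔ σ s = s := fun σ => Iff.rfl
  have hHopen : IsOpen (H : Set (Ω ≃ₐ[F] Ω)) := stabilizer_isOpen_of_isIntegral s
  have hHcl : IsClosed (H : Set (Ω ≃ₐ[F] Ω)) := Subgroup.isClosed_of_isOpen H hHopen
  let _ : TopologicalSpace (𝓞 Ω) := ⊥
  have : DiscreteTopology (𝓞 Ω) := ⟨rfl⟩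
  have : ContinuousSMul (Ω ≃ₐ[F] Ω) (𝓞 Ω) := by
    rw [continuousSMul_iff_stabilizer_isOpen]
    intro x
    have h1 : IsOpen (MulAction.stabilizer (Ω ≃ₐ[F] Ω) (algebraMap (𝓞 Ω) Ω x) :
      Set (Ω ≃ₐ[F] Ω)) := stabilizer_isOpen_of_isIntegral _
    convert h1 using 1
    ext σ
    simp only [SetLike.mem_coe, MulAction.mem_stabilizer_iff]
    constructor
    · intro h
      have := congrArg (algebraMap (𝓞 Ω) Ω) h
      exact this
    · intro h
      apply RingOfIntegers.ext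
      exact h
  have key : ∀ (σ : Ω ≃ₐ[F] Ω), σ s = -s → ∀ x : 𝓞 Ω, (∀ h ∈ H, h • x = x) → σ • x - x ∈ Q := by
    intro σ hσ x hx
    have hx' : ∀ τ : Ω ≃ₐ[F] Ω, τ s = s → τ (algebraMap (𝓞 Ω) Ω x) = algebraMap (𝓞 Ω) Ω x := by
      intro τ hτ
      have := congrArg (algebraMap (𝓞 Ω) Ω) (hx τ hτ)
      exact this
    set X := algebraMap (𝓞 Ω) Ω x with hX
    set y := σ X - X with hy
    have hσinv : σ⁻¹ s = -s := by
      have : σ⁻¹ (σ s) = s := by
        rw [← AlgEquiv.mul_apply, inv_mul_cancel]; rfl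
      rw [hσ, map_neg] at this
      exact neg_eq_iff_eq_neg.1 this
    have hys : ∀ τ : Ω ≃ₐ[F] Ω, τ (y * s) = y * s := by
      intro τ
      rcases hsign τ with h | h
      · have h1 : τ (σ X) = σ X := by
          have h2 := hx' (σ⁻¹ * (τ * σ)) (by
            rw [AlgEquiv.mul_apply, AlgEquiv.mul_apply, hσ, map_neg, h, map_neg, hσinv, neg_neg])
          have h3 := congrArg σ h2
          rw [← AlgEquiv.mul_apply, mul_inv_cancel_left, AlgEquiv.mul_apply] at h3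
          exact h3
        rw [hy, map_mul, map_sub, h1, hx' τ h, h]
      · have h1 : τ (σ X) = X := by
          rw [← AlgEquiv.mul_apply]
          exact hx' _ (by rw [AlgEquiv.mul_apply, hσ, map_neg, h, neg_neg])
        have h2 : τ X = σ X := by
          have h2 := hx' (σ⁻¹ * τ) (by rw [AlgEquiv.mul_apply, h, map_neg, hσinv, neg_neg])
          have h3 := congrArg σ h2
          rw [← AlgEquiv.mul_apply, mul_inv_cancel_left] at h3
          exact h3
        rw [hy, map_mul, map_sub, h1, h2, h]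
        ring
    obtain ⟨a, ha⟩ := mem_base_of_fixed hys
    have hy2 : y ^ 2 = algebraMap F Ω (a ^ 2 / d) := by
      rw [map_div₀, map_pow, ha, ← hs]
      field_simp
    have hYy : algebraMap (𝓞 Ω) Ω ((σ • x - x) ^ 2) = y ^ 2 := by
      rw [map_pow, map_sub, coe_smul_int]
    have hint : IsIntegral ℤ (a ^ 2 / d) := by
      have h1 : IsIntegral ℤ (algebraMap F Ω (a ^ 2 / d)) := by
        rw [← hy2, ← hYy]
        exact RingOfIntegers.isIntegral_coe _
      exact (isIntegral_algebraMap_iff (algebraMap F Ω).injective).1 h1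
    obtain ⟨z, hz⟩ : ∃ z : 𝓞 F, algebraMap (𝓞 F) F z = a ^ 2 / d := ⟨⟨_, hint⟩, rfl⟩
    have hYz : (σ • x - x) ^ 2 = algebraMap (𝓞 F) (𝓞 Ω) z := by
      apply RingOfIntegers.ext
      show algebraMap (𝓞 Ω) Ω _ = algebraMap (𝓞 Ω) Ω _
      rw [hYy, hy2, ← hz]
      rfl
    have hzv : z ∈ v.asIdeal := by
      by_contra hcon
      have h1 := (HeightOneSpectrum.valuation_eq_one_iff_notMem (K := F) v).2 hcon
      rw [hz, map_div₀] at h1
      apply hd
      have h2 : v.valuation F d ≠ 0 := (v.valuation F).ne_zero_iff.2 hd0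
      have h3 : v.valuation F (a ^ 2) = v.valuation F d := (div_eq_one_iff_eq h2).1 h1
      rw [← h3, map_pow]
      exact ⟨_, pow_two _⟩
    have h5 : (σ • x - x) ^ 2 ∈ Q := by
      rw [hYz, hmem]
      exact hzv
    exact hQ.mem_of_pow_mem _ h5
  have hσinv : σ₀⁻¹ s = -s := by
    have : σ₀⁻¹ (σ₀ s) = s := by
      rw [← AlgEquiv.mul_apply, inv_mul_cancel]; rfl
    rw [hσ₀', map_neg] at this
    exact neg_eq_iff_eq_neg.1 this
  obtain ⟨h, hh, hin⟩ := exists_inertia H hHcl Q σ₀ (key _ hσinv)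
  refine ⟨h * σ₀, hin, ?_⟩
  rw [AlgEquiv.mul_apply, hσ₀', map_neg, (hHmem h).1 hh]

variable {K : Type u} [Field K] [NumberField K]

private theorem unitAt_of_val {Q : Ideal (𝓞 (AlgebraicClosure K))} {v : HeightOneSpectrum (𝓞 K)}
    (hv : Q.comap (algebraMap (𝓞 K) (𝓞 (AlgebraicClosure K))) = v.asIdeal) {w : K}
    (hw : v.valuation K w = 1) : GP.UnitAt Q (algebraMap K (AlgebraicClosure K) w) := by
  obtain ⟨n, d, hnd⟩ := v.exists_primeCompl_mul_eq_of_integer w hw.le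
  have hd : (d : 𝓞 K) ∉ v.asIdeal := d.2
  have hvd : v.valuation K (algebraMap (𝓞 K) K d) = 1 :=
    (HeightOneSpectrum.valuation_eq_one_iff_notMem (K := K) v).2 hd
  have hvn : v.valuation K (algebraMap (𝓞 K) K n) = 1 := by
    rw [← hnd, map_mul, hw, hvd, one_mul]
  have hn : n ∉ v.asIdeal := (HeightOneSpectrum.valuation_eq_one_iff_notMem (K := K) v).1 hvn
  refine ⟨algebraMap (𝓞 K) (𝓞 (AlgebraicClosure K)) n,
    algebraMap (𝓞 K) (𝓞 (AlgebraicClosure K)) d, ?_, ?_, ?_⟩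
  · exact fun h => hn (hv.le h)
  · exact fun h => hd (hv.le h)
  · have h1 := congrArg (algebraMap K (AlgebraicClosure K)) hnd
    rw [map_mul] at h1
    exact h1

private theorem unitAt_bot {w : K} (hw : w ≠ 0) :
    GP.UnitAt (⊥ : Ideal (𝓞 (AlgebraicClosure K))) (algebraMap K (AlgebraicClosure K) w) := by
  obtain ⟨n, d, hd, hnd⟩ := IsFractionRing.div_surjective (A := 𝓞 K) w
  have hd0 : d ≠ 0 := nonZeroDivisors.ne_zero hd
  have hdF : algebraMap (𝓞 K) K d ≠ 0 := fun h => hd0 (RingOfIntegers.coe_eq_zero_iff.1 h)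
  have hn0 : n ≠ 0 := by
    rintro rfl
    rw [map_zero, zero_div] at hnd
    exact hw hnd.symm
  have hinj : Function.Injective (algebraMap (𝓞 K) (𝓞 (AlgebraicClosure K))) :=
    FaithfulSMul.algebraMap_injective _ _
  refine ⟨algebraMap (𝓞 K) (𝓞 (AlgebraicClosure K)) n,
    algebraMap (𝓞 K) (𝓞 (AlgebraicClosure K)) d, ?_, ?_, ?_⟩
  · rw [Ideal.mem_bot]
    exact fun h => hn0 (hinj (by rw [h, map_zero]))
  · rw [Ideal.mem_bot]
    exact fun h => hd0 (hinj (by rw [h, map_zero]))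
  · have h1 : w * algebraMap (𝓞 K) K d = algebraMap (𝓞 K) K n := by
      rw [← hnd, div_mul_cancel₀ _ hdF]
    have h2 := congrArg (algebraMap K (AlgebraicClosure K)) h1
    rw [map_mul] at h2
    exact h2

private theorem above (v : HeightOneSpectrum (𝓞 K)) : ∃ P : Ideal (𝓞 (AlgebraicClosure K)),
    P.IsPrime ∧ P.comap (algebraMap (𝓞 K) (𝓞 (AlgebraicClosure K))) = v.asIdeal := by
  have : v.asIdeal.IsMaximal := v.isMaximal
  obtain ⟨P, hP, hPv⟩ := Ideal.exists_maximal_ideal_liesOver_of_isIntegral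
    (S := 𝓞 (AlgebraicClosure K)) v.asIdeal
  exact ⟨P, hP.isPrime, hPv.over.symm⟩

private theorem neg_ne {t : AlgebraicClosure K} (ht : t ≠ 0) : -t ≠ t := by
  intro h
  have h2 : (2 : AlgebraicClosure K) * t = 0 := by linear_combination -h
  exact mul_ne_zero two_ne_zero ht h2

private theorem act2_congr {t t' : AlgebraicClosure K} {z : K} (hz : z ≠ 0)
    (h : t ^ 2 = (t' * algebraMap K (AlgebraicClosure K) z) ^ 2) :
    PA.act2 (⊤ : Subgroup (AbsGal K)) t = PA.act2 ⊤ t' := by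
  classical
  have hz' : algebraMap K (AlgebraicClosure K) z ≠ 0 := (map_ne_zero _).2 hz
  have key : ∀ g : AbsGal K, g t = t ↔ g t' = t' := by
    intro g
    rcases sq_eq_sq_iff_eq_or_eq_neg.1 h with h1 | h1
    · rw [h1, map_mul, AlgEquiv.commutes]
      exact ⟨fun h2 => mul_right_cancel₀ hz' h2, fun h2 => by rw [h2]⟩
    · rw [h1, map_neg, map_mul, AlgEquiv.commutes, neg_inj]
      exact ⟨fun h2 => mul_right_cancel₀ hz' h2, fun h2 => by rw [h2]⟩
  funext g
  unfold PA.act2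
  by_cases h1 : g t = t
  · rw [if_neg (fun h' => h'.2 h1), if_neg (fun h' => h'.2 ((key g).1 h1))]
  · rw [if_pos ⟨trivial, h1⟩, if_pos ⟨trivial, fun h' => h1 ((key g).2 h')⟩]

private theorem top_mem (T : Finset ℕ) : GoodT K T ⊤ := Gn.GoodG.top (GP.baseT K T)

private theorem inMT_base (T : Finset ℕ) (x : K) :
    GP.InMT T (algebraMap K (AlgebraicClosure K) x) :=
  ⟨⊤, top_mem T, fun w _ => w.commutes x⟩

/-- the square root -/
private noncomputable def sr (x : Kˣ) : AlgebraicClosure K :=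
  GP.rt (algebraMap K (AlgebraicClosure K) (x : K))

private theorem sr_sq (x : Kˣ) : sr x ^ 2 = algebraMap K (AlgebraicClosure K) (x : K) :=
  GP.rt_sq _

private theorem sr_ne (x : Kˣ) : sr x ≠ 0 := by
  intro h
  have h1 := sr_sq x
  rw [h, zero_pow two_ne_zero] at h1
  exact (map_ne_zero _).2 x.ne_zero h1.symm

private theorem sr_fix (x : Kˣ) (g : AbsGal K) : g (sr x ^ 2) = sr x ^ 2 := by
  rw [sr_sq, AlgEquiv.commutes]

private theorem ut_of {T : Finset ℕ} {A : Finset (HeightOneSpectrum (𝓞 K))}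
    (hA : ∀ v : HeightOneSpectrum (𝓞 K),
      v ∈ A ↔ (2 : 𝓞 K) ∈ v.asIdeal ∨ ∃ l ∈ T, (l : 𝓞 K) ∈ v.asIdeal) {x : Kˣ}
    (hx : x ∈ GP.sUnit A) : GP.UT T (algebraMap K (AlgebraicClosure K) (x : K)) := by
  refine ⟨(map_ne_zero _).2 x.ne_zero, fun Q hQ hQ2 hQT => ?_⟩
  by_cases hb : Q = ⊥
  · rw [hb]
    exact unitAt_bot x.ne_zero
  · let v : HeightOneSpectrum (𝓞 K) :=
      ⟨Q.comap (algebraMap (𝓞 K) (𝓞 (AlgebraicClosure K))), Ideal.comap_isPrime _ _,
        fun h => hb (Ideal.eq_bot_of_comap_eq_bot h)⟩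
    refine unitAt_of_val (v := v) rfl (hx v ?_)
    rw [hA]
    rintro (h | ⟨l, hl, h⟩)
    · have h' : (2 : 𝓞 K) ∈ Q.comap (algebraMap (𝓞 K) (𝓞 (AlgebraicClosure K))) := h
      rw [Ideal.mem_comap, map_ofNat] at h'
      exact hQ2 h'
    · have h' : (l : 𝓞 K) ∈ Q.comap (algebraMap (𝓞 K) (𝓞 (AlgebraicClosure K))) := h
      rw [Ideal.mem_comap, map_natCast] at h'
      exact hQT l hl h'

private theorem phi_mem {T : Finset ℕ} {A : Finset (HeightOneSpectrum (𝓞 K))}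
    (hA : ∀ v : HeightOneSpectrum (𝓞 K),
      v ∈ A ↔ (2 : 𝓞 K) ∈ v.asIdeal ∨ ∃ l ∈ T, (l : 𝓞 K) ∈ v.asIdeal) {x : Kˣ}
    (hx : x ∈ GP.sUnit A) : PA.act2 ⊤ (sr x) ∈ homs (sysT K T) ⊤ :=
  GP.act2_memT ⟨⊤, top_mem T, le_rfl⟩ (sr_ne x)
    (GP.InMT.sqrt (inMT_base T (x : K)) (ut_of hA hx) (sr_sq x)) fun g _ => sr_fix x g

private theorem phi_mul (x y : Kˣ) : PA.act2 (⊤ : Subgroup (AbsGal K)) (sr (x * y)) =
    PA.act2 ⊤ (sr x) + PA.act2 ⊤ (sr y) := by
  rw [← PA.act2_mul (sr_ne x) (sr_ne y) (fun g _ => sr_fix x g) (fun g _ => sr_fix y g)]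
  refine act2_congr (z := 1) one_ne_zero ?_
  rw [map_one, mul_one, mul_pow, sr_sq, sr_sq, sr_sq, Units.val_mul, map_mul]

private theorem phi_zero (x : Kˣ) : PA.act2 (⊤ : Subgroup (AbsGal K)) (sr x) = 0 ↔ x ∈ sq K := by
  rw [PA.act2_eq_zero_iff]
  constructor
  · intro h
    obtain ⟨a, ha⟩ := mem_base_of_fixed (F := K) (Ω := AlgebraicClosure K) (x := sr x)
      (fun σ => h σ trivial)
    have h1 : a ^ 2 = (x : K) := by
      apply (algebraMap K (AlgebraicClosure K)).injective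
      rw [map_pow, ha, sr_sq]
    have ha0 : a ≠ 0 := by
      rintro rfl
      rw [zero_pow two_ne_zero] at h1
      exact x.ne_zero h1.symm
    exact ⟨Units.mk0 a ha0, Units.ext h1⟩
  · rintro ⟨y, rfl⟩ g _
    have h1 : sr (y ^ 2) ^ 2 = (algebraMap K (AlgebraicClosure K) (y : K)) ^ 2 := by
      rw [sr_sq, ← map_pow, Units.val_pow_eq_pow_val]
    rcases sq_eq_sq_iff_eq_or_eq_neg.1 h1 with h2 | h2
    · show g (sr (y ^ 2)) = sr (y ^ 2)
      rw [h2, AlgEquiv.commutes]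
    · show g (sr (y ^ 2)) = sr (y ^ 2)
      rw [h2, map_neg, AlgEquiv.commutes]

private theorem phi_surj {T : Finset ℕ} (hodd : OddT K T)
    {A : Finset (HeightOneSpectrum (𝓞 K))} (hA : ∀ v : HeightOneSpectrum (𝓞 K),
      v ∈ A ↔ (2 : 𝓞 K) ∈ v.asIdeal ∨ ∃ l ∈ T, (l : 𝓞 K) ∈ v.asIdeal)
    {ω : AbsGal K → ZMod 2} (hω : ω ∈ homs (sysT K T) ⊤) :
    ∃ x ∈ GP.sUnit A, PA.act2 ⊤ (sr x) = ω := by
  obtain ⟨t, ht0, ⟨W, hW, hWt⟩, hfix, rfl⟩ := GP.exists_act2T ⟨⊤, top_mem T, le_rfl⟩ hω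
  obtain ⟨y, hy⟩ := mem_base_of_fixed (F := K) (Ω := AlgebraicClosure K) (x := t ^ 2)
    (fun σ => hfix σ trivial)
  have hy0 : y ≠ 0 := by
    rintro rfl
    rw [map_zero] at hy
    exact pow_ne_zero 2 ht0 hy.symm
  have hsq : ∀ v ∉ A, IsSquare (v.valuation K ((Units.mk0 y hy0 : Kˣ) : K)) := by
    intro v hv
    rw [Units.val_mk0]
    by_contra hcon
    obtain ⟨Q, hQ, hQv⟩ := above v
    obtain ⟨σ, hσ, hσt⟩ := inertia_of_odd (F := K) (Ω := AlgebraicClosure K) (d := y) (s := t)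
      hy.symm hQ hQv hcon
    have hmemv : ∀ z : 𝓞 K, algebraMap (𝓞 K) (𝓞 (AlgebraicClosure K)) z ∈ Q ↔ z ∈ v.asIdeal := by
      intro z
      rw [← hQv, Ideal.mem_comap]
    have h1 : σ ∈ W := by
      apply hW.inertia
      refine ⟨Q, hQ, ?_, ?_, hσ⟩
      · intro h
        apply hv
        rw [hA]
        left
        rw [← hmemv, map_ofNat]
        exact h
      · intro l hl h
        apply hv
        rw [hA]
        right
        refine ⟨l, hl, ?_⟩
        rw [← hmemv, map_natCast]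
        exact h
    have h2 := hWt σ h1
    rw [hσt] at h2
    exact neg_ne ht0 h2
  obtain ⟨x, hx, z, hxz⟩ := sel_unit hodd hA hsq
  refine ⟨x, hx, ?_⟩
  symm
  refine act2_congr (z := (z : K)) z.ne_zero ?_
  have h3 := congrArg (fun u : Kˣ => algebraMap K (AlgebraicClosure K) (u : K)) hxz
  simp only [Units.val_mk0, Units.val_mul, Units.val_pow_eq_pow_val, map_mul, map_pow] at h3
  rw [mul_pow, sr_sq, ← h3, hy]

theorem count_T [IsTotallyComplex K] {T : Finset ℕ} (hodd : OddT K T)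
    {A : Finset (HeightOneSpectrum (𝓞 K))} (hA : ∀ v : HeightOneSpectrum (𝓞 K),
      v ∈ A ↔ (2 : 𝓞 K) ∈ v.asIdeal ∨ ∃ l ∈ T, (l : 𝓞 K) ∈ v.asIdeal)
    {m : ℕ} (hm : Module.finrank ℚ K = 2 * m) :
    FiniteDimensional (ZMod 2) (homs (sysT K T) ⊤) ∧
      Module.finrank (ZMod 2) (homs (sysT K T) ⊤) = m + A.card := by
  classical
  let Ψ : GP.sUnit A →* Multiplicative (homs (sysT K T) (⊤ : Subgroup (AbsGal K))) :=
    { toFun := fun x => Multiplicative.ofAdd ⟨PA.act2 ⊤ (sr (x : Kˣ)), phi_mem hA x.2⟩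
      map_one' := by
        apply Multiplicative.toAdd.injective
        apply Subtype.ext
        exact (phi_zero (1 : Kˣ)).2 (sq K).one_mem
      map_mul' := by
        intro x y
        apply Multiplicative.toAdd.injective
        apply Subtype.ext
        exact phi_mul (x : Kˣ) (y : Kˣ) }
  have hker : Ψ.ker = (sq K).subgroupOf (GP.sUnit A) := by
    ext x
    rw [MonoidHom.mem_ker, Subgroup.mem_subgroupOf, ← phi_zero]
    constructor
    · intro h
      exact congrArg (fun z : Multiplicative (homs (sysT K T) (⊤ : Subgroup (AbsGal K))) =>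
        ((Multiplicative.toAdd z : homs (sysT K T) (⊤ : Subgroup (AbsGal K))) :
          AbsGal K → ZMod 2)) h
    · intro h
      apply Multiplicative.toAdd.injective
      apply Subtype.ext
      exact h
  have hsurj : Function.Surjective Ψ := by
    intro ω
    obtain ⟨x, hx, hxω⟩ := phi_surj hodd hA (Multiplicative.toAdd ω).2
    refine ⟨⟨x, hx⟩, ?_⟩
    apply Multiplicative.toAdd.injective
    apply Subtype.ext
    exact hxω
  have hcard : Nat.card (homs (sysT K T) (⊤ : Subgroup (AbsGal K))) = 2 ^ (m + A.card) := by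
    have h1 : Ψ.ker.index = Nat.card Ψ.range := Subgroup.index_ker Ψ
    rw [MonoidHom.range_eq_top.2 hsurj, Subgroup.card_top, hker] at h1
    have h2 := relIndex_sq_sUnit A hm
    have h3 : Nat.card (Multiplicative (homs (sysT K T) (⊤ : Subgroup (AbsGal K)))) =
        Nat.card (homs (sysT K T) (⊤ : Subgroup (AbsGal K))) :=
      Nat.card_congr Multiplicative.toAdd
    rw [← h3, ← h1]
    exact h2
  have hfin : Finite (homs (sysT K T) (⊤ : Subgroup (AbsGal K))) :=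
    Nat.finite_of_card_ne_zero (by rw [hcard]; positivity)
  have hfd : FiniteDimensional (ZMod 2) (homs (sysT K T) (⊤ : Subgroup (AbsGal K))) :=
    Module.Finite.of_finite
  refine ⟨hfd, ?_⟩
  have h4 := Module.natCard_eq_pow_finrank (K := ZMod 2)
    (V := homs (sysT K T) (⊤ : Subgroup (AbsGal K)))
  rw [hcard, Nat.card_zmod] at h4
  exact (Nat.pow_right_injective le_rfl h4).symm

end Pool.Agent.Work.MP_787500_nt.HN
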